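import Pool.Agent.Lib.MP_b9430d_co.Mom.Defs

/-!
# ChD: the change of variables from the angle to the distance

`s, s' > 0`, `Dψ = √(s² + s'² + 2 s s' cos ψ)` for `ψ ∈ (0, π)`: `|s - s'| < Dψ < s + s'`, `Dψ > 0`, strictly decreasing (so injective), derivative
`- s s' sin ψ / Dψ`. `MeasureTheory.lintegral_image_eq_lintegral_abs_deriv_mul` (for `Ioo 0 π`) applied to
`G d = H d * ofReal (d / (s s' sin ψ))`; at `d = Dψ` the weight is `1/√(s'² - b²)` with `b = (d² + s'² - s²)/(2d)`, because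
`d² (s'² - b²) = (s s' sin ψ)²` (`d b = s'² + s s' cos ψ`). So
`∫⁻ ψ in Ioo 0 π, H (Dψ) = ∫⁻ d in image, H d * ofReal (1/√(s'² - ((d²+s'²-s²)/(2d))²)) ≤ ∫⁻ d in Ioi 0, ..`.
-/

set_option autoImplicit false

open MeasureTheory Complex Set Real Filter Topology
open scoped ENNReal

namespace Pool.MPb9430d.Mom

open Pool.MPb9430d Pool.MPb9430d.Rough Pool.MPb9430d.Frac

theorem ch_dist {s s' : ℝ} (hs : 0 < s) (hs' : 0 < s') {H : ℝ → ℝ≥0∞} (hH : Measurable H) :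
    ∫⁻ ψ in Ioo 0 π, H (√(s ^ 2 + s' ^ 2 + 2 * s * s' * Real.cos ψ)) ≤
      ∫⁻ d in Ioi (0 : ℝ), H d * ENNReal.ofReal (1 / √(s' ^ 2 - ((d ^ 2 + s' ^ 2 - s ^ 2) / (2 * d)) ^ 2)) := by
  obtain ⟨f, hf⟩ : ∃ f : ℝ → ℝ, f = fun ψ => √(s ^ 2 + s' ^ 2 + 2 * s * s' * Real.cos ψ) :=
    ⟨_, rfl⟩
  obtain ⟨g, hg⟩ : ∃ g : ℝ → ℝ≥0∞, g = fun d => H d *
      ENNReal.ofReal (1 / √(s' ^ 2 - ((d ^ 2 + s' ^ 2 - s ^ 2) / (2 * d)) ^ 2)) := ⟨_, rfl⟩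
  have hss : 0 < s * s' := mul_pos hs hs'
  have hcos : ∀ ψ ∈ Ioo 0 π, -1 < Real.cos ψ := by
    intro ψ hψ
    have h1 : Real.cos π < Real.cos ψ :=
      Real.strictAntiOn_cos ⟨hψ.1.le, hψ.2.le⟩ ⟨Real.pi_pos.le, le_refl _⟩ hψ.2
    rwa [Real.cos_pi] at h1
  have hpos : ∀ ψ ∈ Ioo 0 π, 0 < s ^ 2 + s' ^ 2 + 2 * s * s' * Real.cos ψ := by
    intro ψ hψ
    have h1 := hcos ψ hψ
    have h2 : 0 < 2 * (s * s') * (Real.cos ψ + 1) := by
      have : 0 < Real.cos ψ + 1 := by linarith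
      positivity
    nlinarith [sq_nonneg (s - s')]
  have hfpos : ∀ ψ ∈ Ioo 0 π, 0 < f ψ := by
    intro ψ hψ
    rw [hf]
    exact Real.sqrt_pos.2 (hpos ψ hψ)
  have hfsq : ∀ ψ ∈ Ioo 0 π, f ψ ^ 2 = s ^ 2 + s' ^ 2 + 2 * s * s' * Real.cos ψ := by
    intro ψ hψ
    rw [hf]
    exact Real.sq_sqrt (hpos ψ hψ).le
  have hder : ∀ ψ ∈ Ioo 0 π, HasDerivWithinAt f (-(s * s' * Real.sin ψ / f ψ)) (Ioo 0 π) ψ := by
    intro ψ hψ
    have h1 : HasDerivAt (fun ψ : ℝ => s ^ 2 + s' ^ 2 + 2 * s * s' * Real.cos ψ)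
        (2 * s * s' * (-Real.sin ψ)) ψ :=
      ((Real.hasDerivAt_cos ψ).const_mul (2 * s * s')).const_add _
    have h2 := h1.sqrt (hpos ψ hψ).ne'
    rw [hf]
    refine HasDerivAt.hasDerivWithinAt (h2.congr_deriv ?_)
    have h3 := hfpos ψ hψ
    rw [hf] at h3
    simp only at h3 ⊢
    field_simp
  have hinj : InjOn f (Ioo 0 π) := by
    intro a ha b hb hab
    have h1 := hfsq a ha
    rw [hab, hfsq b hb] at h1
    have h2 : Real.cos a = Real.cos b := by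
      have h3 : 2 * (s * s') * Real.cos a = 2 * (s * s') * Real.cos b := by linarith
      exact mul_left_cancel₀ (by positivity) h3
    exact Real.injOn_cos ⟨ha.1.le, ha.2.le⟩ ⟨hb.1.le, hb.2.le⟩ h2
  have hmain := lintegral_image_eq_lintegral_abs_deriv_mul measurableSet_Ioo hder hinj g
  have heq : ∫⁻ ψ in Ioo 0 π, H (√(s ^ 2 + s' ^ 2 + 2 * s * s' * Real.cos ψ)) =
      ∫⁻ ψ in Ioo 0 π, ENNReal.ofReal |-(s * s' * Real.sin ψ / f ψ)| * g (f ψ) := by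
    refine setLIntegral_congr_fun measurableSet_Ioo fun ψ hψ => ?_
    have hp := hfpos ψ hψ
    have hsin : 0 < Real.sin ψ := Real.sin_pos_of_pos_of_lt_pi hψ.1 hψ.2
    have hq : 0 < s * s' * Real.sin ψ / f ψ := by positivity
    have e1 : s' ^ 2 - ((f ψ ^ 2 + s' ^ 2 - s ^ 2) / (2 * f ψ)) ^ 2 =
        (s * s' * Real.sin ψ / f ψ) ^ 2 := by
      have hsc := Real.sin_sq_add_cos_sq ψ
      have e2 : s' ^ 2 - ((f ψ ^ 2 + s' ^ 2 - s ^ 2) / (2 * f ψ)) ^ 2 =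
          (4 * s' ^ 2 * f ψ ^ 2 - (f ψ ^ 2 + s' ^ 2 - s ^ 2) ^ 2) / (4 * f ψ ^ 2) := by
        field_simp
        ring
      have e3 : (s * s' * Real.sin ψ / f ψ) ^ 2 =
          (4 * (s * s' * Real.sin ψ) ^ 2) / (4 * f ψ ^ 2) := by
        field_simp
      rw [e2, e3]
      congr 1
      rw [hfsq ψ hψ]
      have e4 : Real.sin ψ ^ 2 = 1 - Real.cos ψ ^ 2 := by linarith
      rw [mul_pow, mul_pow, e4]
      ring
    rw [hg]
    simp only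
    rw [e1, Real.sqrt_sq hq.le, abs_neg, abs_of_pos hq, mul_comm (H (f ψ)), ← mul_assoc,
      ← ENNReal.ofReal_mul hq.le, mul_one_div_cancel hq.ne', ENNReal.ofReal_one, one_mul, hf]
  rw [heq, ← hmain]
  have hsub : f '' Ioo 0 π ⊆ Ioi 0 := by
    rintro _ ⟨ψ, hψ, rfl⟩
    exact hfpos ψ hψ
  have hle := lintegral_mono_set (μ := volume) (f := g) hsub
  rw [hg] at hle ⊢
  exact hle

end Pool.MPb9430d.Mom
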