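import Pool.Agent.Lib.MP_b9430d_co.Mom.SmB
import Pool.Agent.Lib.MP_b9430d_co.Frac.Pl
import Pool.Agent.Lib.MP_b9430d_co.Frac.BesB
import Pool.Agent.Lib.MP_b9430d_co.Frac.BesA
import Pool.Agent.Lib.MP_b9430d_co.Frac.FtB
import Pool.Agent.Lib.MP_b9430d_co.Frac.GauF

/-!
# CirS: smoothness of a circle mean (Plancherel)

`f = cA s U`, `s ≥ 1`, `|U| < ∞`. `f` is measurable, `0 ≤ f ≤ 1`, integrable with `∫ f = |U|`. Fourier transform:
`ft f y = bes (s ‖y‖) ft (chi U) y` (Fubini, `mean_ee`), `ft (smo N f) y = gh N y * ft f y` (Fubini, `gau_eq` or the convolution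
theorem as in Frac/QfF, Frac/CirF). Plancherel (`Frac.plancherel`, for the bounded integrable function `f - smo N f`):
`∫ (f - smo N f)² = ∫ (bes (s‖y‖))² (1 - gh N y)² ‖ft (chi U) y‖²`. Pointwise, `t = ‖y‖ > 0`: `bes² ≤ 4/(s t) ≤ 4/t` (`abs_bes_le`),
`0 ≤ 1 - gh ≤ min(1, π t²/N²)`: `(4/t) min(1, π t²/N²)² ≤ 4 π/N` (for `t ≥ N` trivial: `≤ 4/N`; for `t ≤ N`:
`(4/t) (π t²/N²) 1 ≤ 4 π t/N² ≤ 4π/N`). So `≤ (4π/N) ∫ ‖ft (chi U)‖² = 4π |U|/N ≤ 16 |U|/N`.
-/

set_option autoImplicit false

open MeasureTheory Complex Set Real Filter Topology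
open scoped ENNReal

namespace Pool.MPb9430d.Mom

open Pool.MPb9430d Pool.MPb9430d.Rough Pool.MPb9430d.Frac

private theorem CirS_chi {U : Set ℂ} (hU : MeasurableSet U) : Measurable (chi U) :=
  measurable_const.indicator hU

private theorem CirS_chi0 (U : Set ℂ) (x : ℂ) : 0 ≤ chi U x := by
  unfold chi
  exact Set.indicator_nonneg (fun _ _ => zero_le_one) x

private theorem CirS_chi1 (U : Set ℂ) (x : ℂ) : chi U x ≤ 1 := by
  unfold chi
  exact Set.indicator_le_self' (fun _ _ => zero_le_one) x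

private theorem CirS_meas {U : Set ℂ} (hU : MeasurableSet U) (s : ℝ) :
    Measurable (fun q : ℂ × ℝ => chi U (q.1 + s * rot q.2)) :=
  (CirS_chi hU).comp (measurable_fst.add (measurable_const.mul (measurable_rot.comp measurable_snd)))

private theorem CirS_int {U : Set ℂ} (hU : MeasurableSet U) (hfin : volume U ≠ ∞) (s : ℝ) :
    Integrable (fun q : ℂ × ℝ => chi U (q.1 + s * rot q.2))
      ((volume : Measure ℂ).prod (volume.restrict (Ioc (-π) π))) := by
  have hm := CirS_meas hU s
  rw [integrable_prod_iff' hm.aestronglyMeasurable]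
  have hchi := integrable_chi hU hfin
  constructor
  · exact Eventually.of_forall fun φ => hchi.comp_add_right (s * rot φ)
  · have h : ∀ φ : ℝ, ∫ x : ℂ, ‖chi U (x + s * rot φ)‖ = ∫ x, ‖chi U x‖ := fun φ =>
      integral_add_right_eq_self (fun x => ‖chi U x‖) _
    simp only [h]
    exact integrable_const _

private theorem CirS_eq (s : ℝ) (U : Set ℂ) :
    cA s U = fun x => (2 * π)⁻¹ * ∫ φ in Ioc (-π) π, chi U (x + s * rot φ) := by
  funext x
  unfold cA
  rw [intervalIntegral.integral_of_le (by linarith [Real.pi_pos])]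

theorem cA_facts {U : Set ℂ} (hU : MeasurableSet U) (hfin : volume U ≠ ∞) (s : ℝ) :
    Measurable (cA s U) ∧ (∀ x, 0 ≤ cA s U x) ∧ (∀ x, cA s U x ≤ 1) ∧ Integrable (cA s U) := by
  have hpi := Real.pi_pos
  refine ⟨?_, ?_, ?_, ?_⟩
  · rw [CirS_eq]
    exact ((CirS_meas hU s).stronglyMeasurable.integral_prod_right').measurable.const_mul _
  · intro x
    unfold cA
    exact mul_nonneg (by positivity)
      (intervalIntegral.integral_nonneg (by linarith) fun φ _ => CirS_chi0 U _)
  · intro x
    unfold cA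
    have h1 : |∫ φ in (-π)..π, chi U (x + s * rot φ)| ≤ 1 * |π - (-π)| := by
      have h2 := intervalIntegral.norm_integral_le_of_norm_le_const (a := -π) (b := π) (C := 1)
        (f := fun φ => chi U (x + s * rot φ)) (fun φ _ => by
          rw [Real.norm_eq_abs, abs_of_nonneg (CirS_chi0 U _)]
          exact CirS_chi1 U _)
      exact h2
    have h3 := (le_abs_self _).trans h1
    rw [one_mul, abs_of_pos (by linarith)] at h3
    calc (2 * π)⁻¹ * ∫ φ in (-π)..π, chi U (x + s * rot φ) ≤ (2 * π)⁻¹ * (π - (-π)) := by gcongr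
      _ = 1 := by field_simp; ring
  · rw [CirS_eq]
    exact (CirS_int hU hfin s).integral_prod_left.const_mul _

private theorem CirS_ft {U : Set ℂ} (hU : MeasurableSet U) (hfin : volume U ≠ ∞) {s : ℝ}
    (hs : 0 ≤ s) (y : ℂ) :
    ft (cA s U) y = ((bes (s * ‖y‖) : ℝ) : ℂ) * ft (chi U) y := by
  have hpi := Real.pi_pos
  have hce : Continuous fun x : ℂ => ee (-(Frac.ip x y)) := by
    refine continuous_ee.comp ?_
    unfold Frac.ip
    fun_prop
  have hint : Integrable (fun q : ℂ × ℝ => ee (-(Frac.ip q.1 y)) *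
      ((chi U (q.1 + s * rot q.2) : ℝ) : ℂ))
      ((volume : Measure ℂ).prod (volume.restrict (Ioc (-π) π))) := by
    refine ((CirS_int hU hfin s).ofReal (𝕜 := ℂ)).bdd_mul (c := 1) ?_ ?_
    · exact (hce.comp continuous_fst).aestronglyMeasurable
    · exact Filter.Eventually.of_forall (fun x => (norm_ee _).le)
  have hinner : ∀ φ : ℝ, ∫ x, ee (-(Frac.ip x y)) * ((chi U (x + s * rot φ) : ℝ) : ℂ) =
      ee (Frac.ip (rot φ * s) y) * ft (chi U) y := by
    intro φ
    have h1 := integral_add_right_eq_self (μ := (volume : Measure ℂ))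
      (fun x : ℂ => ee (-(Frac.ip (x - s * rot φ) y)) * ((chi U x : ℝ) : ℂ)) (s * rot φ)
    simp only [add_sub_cancel_right] at h1
    rw [h1]
    unfold ft
    rw [← integral_const_mul]
    refine integral_congr_ae (Eventually.of_forall fun x => ?_)
    simp only
    rw [← mul_assoc, ← ee_add]
    congr 2
    rw [ip_sub_left, mul_comm (rot φ)]
    ring
  have h0 : ∀ x : ℂ, ee (-(Frac.ip x y)) * ((cA s U x : ℝ) : ℂ) = (((2 * π)⁻¹ : ℝ) : ℂ) *
      ∫ φ in Ioc (-π) π, ee (-(Frac.ip x y)) * ((chi U (x + s * rot φ) : ℝ) : ℂ) := by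
    intro x
    rw [CirS_eq, integral_const_mul, integral_complex_ofReal]
    push_cast
    ring
  have h1 : ft (cA s U) y = (((2 * π)⁻¹ : ℝ) : ℂ) *
      ∫ φ in Ioc (-π) π, ee (Frac.ip (rot φ * s) y) * ft (chi U) y := by
    unfold ft
    rw [integral_congr_ae (Eventually.of_forall h0), integral_const_mul,
      integral_integral_swap hint]
    congr 1
    exact integral_congr_ae (Eventually.of_forall hinner)
  have h2 : ∫ φ in Ioc (-π) π, ee (Frac.ip (rot φ * s) y) = ((2 * π * bes (s * ‖y‖) : ℝ) : ℂ) := by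
    rw [← intervalIntegral.integral_of_le (by linarith), mean_ee, Complex.norm_real,
      Real.norm_of_nonneg hs]
  rw [h1, integral_mul_const, h2]
  have hp : (π : ℂ) ≠ 0 := by exact_mod_cast Real.pi_ne_zero
  push_cast
  field_simp

private theorem CirS_gh {N : ℝ} (hN : 0 < N) (y : ℂ) :
    ∫ x, ee (-(Frac.ip x y)) * (gau N x : ℂ) = (gh N y : ℂ) := by
  have h1 := gau_eq (N := 1 / N) (by positivity) y
  have h2 : gau (1 / N) y = (1 / N ^ 2) * gh N y := by
    unfold gau gh
    rw [one_div, inv_pow, ← one_div]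
    congr 2
    field_simp
  have h3 : ∀ x : ℂ, gh (1 / N) x = (1 / N ^ 2) * gau N x := by
    intro x
    unfold gau gh
    have h4 : π * ‖x‖ ^ 2 / (1 / N) ^ 2 = π * N ^ 2 * ‖x‖ ^ 2 := by
      field_simp
    rw [h4]
    field_simp
  have h5 : ∫ x, ee (Frac.ip y x) * (gh (1 / N) x : ℂ) =
      ((1 / N ^ 2 : ℝ) : ℂ) * ∫ x, ee (Frac.ip y x) * (gau N x : ℂ) := by
    rw [← integral_const_mul]
    refine integral_congr_ae (Eventually.of_forall fun x => ?_)
    simp only
    rw [h3]
    push_cast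
    ring
  have h6 : ∫ x, ee (Frac.ip y x) * (gau N x : ℂ) = ∫ x, ee (-(Frac.ip x y)) * (gau N x : ℂ) := by
    rw [← integral_neg_eq_self]
    refine integral_congr_ae (Eventually.of_forall fun x => ?_)
    simp only
    have h7 : Frac.ip y (-x) = -(Frac.ip x y) := by
      unfold Frac.ip
      simp only [Complex.neg_re, Complex.neg_im]
      ring
    have h8 : gau N (-x) = gau N x := by
      unfold gau
      rw [norm_neg]
    rw [h7, h8]
  rw [h2, h5, h6] at h1
  have hN2 : ((1 / N ^ 2 : ℝ) : ℂ) ≠ 0 := by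
    have : (1 / N ^ 2 : ℝ) ≠ 0 := by positivity
    exact_mod_cast this
  rw [Complex.ofReal_mul] at h1
  exact (mul_left_cancel₀ hN2 h1).symm

private theorem CirS_ftsmo {N : ℝ} (hN : 0 < N) {F : ℂ → ℝ} (hF : Integrable F) (y : ℂ) :
    ft (smo N F) y = (gh N y : ℂ) * ft F y := by
  have hce : Continuous fun x : ℂ => ee (-(Frac.ip x y)) := by
    refine continuous_ee.comp ?_
    unfold Frac.ip
    fun_prop
  have hc : Integrable (fun w : ℂ × ℂ => F w.2 * gau N (w.1 - w.2))
      ((volume : Measure ℂ).prod volume) :=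
    Integrable.convolution_integrand (ContinuousLinearMap.mul ℝ ℝ) hF (integrable_gau hN)
  have hint : Integrable (fun w : ℂ × ℂ => ee (-(Frac.ip w.1 y)) *
      ((F w.2 * gau N (w.1 - w.2) : ℝ) : ℂ)) ((volume : Measure ℂ).prod volume) := by
    refine (hc.ofReal (𝕜 := ℂ)).bdd_mul (c := 1) ?_ ?_
    · exact (hce.comp continuous_fst).aestronglyMeasurable
    · exact Filter.Eventually.of_forall (fun x => (norm_ee _).le)
  have h0 : ∀ x : ℂ, ee (-(Frac.ip x y)) * ((smo N F x : ℝ) : ℂ) =
      ∫ t, ee (-(Frac.ip x y)) * ((F t * gau N (x - t) : ℝ) : ℂ) := by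
    intro x
    unfold smo
    rw [integral_const_mul, integral_complex_ofReal]
    congr 2
    refine integral_congr_ae (Eventually.of_forall fun t => ?_)
    simp only
    ring
  have hinner : ∀ t : ℂ, ∫ x, ee (-(Frac.ip x y)) * ((F t * gau N (x - t) : ℝ) : ℂ) =
      (gh N y : ℂ) * (ee (-(Frac.ip t y)) * (F t : ℂ)) := by
    intro t
    have h1 := integral_add_right_eq_self (μ := (volume : Measure ℂ))
      (fun x : ℂ => ee (-(Frac.ip x y)) * ((F t * gau N (x - t) : ℝ) : ℂ)) t
    rw [← h1, ← CirS_gh hN y, ← integral_mul_const]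
    refine integral_congr_ae (Eventually.of_forall fun x => ?_)
    simp only
    rw [add_sub_cancel_right, ip_add_left, neg_add, ee_add]
    push_cast
    ring
  unfold ft
  rw [integral_congr_ae (Eventually.of_forall h0), integral_integral_swap hint,
    ← integral_const_mul]
  exact integral_congr_ae (Eventually.of_forall hinner)

private theorem CirS_pt {s N : ℝ} (hs : 1 ≤ s) (hN : 1 ≤ N) (y : ℂ) :
    (bes (s * ‖y‖) * (1 - gh N y)) ^ 2 ≤ 16 / N := by
  have hpi := Real.pi_pos
  have hpi4 := Real.pi_le_four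
  have hN0 : 0 < N := by linarith
  have hg0 : 0 < gh N y := gh_pos N y
  have hg1 : gh N y ≤ 1 := gh_le_one N y
  rcases eq_or_lt_of_le (norm_nonneg y) with h | h
  · have h2 : gh N y = 1 := by
      unfold gh
      rw [← h]
      simp
    rw [h2, sub_self, mul_zero, zero_pow (by norm_num)]
    positivity
  · set t := ‖y‖ with ht
    have hst : 0 < s * t := by positivity
    have h1 := abs_bes_le hst
    have h2 : (bes (s * t)) ^ 2 ≤ 4 / t := by
      rw [← sq_abs]
      calc |bes (s * t)| ^ 2 ≤ (2 / √(s * t)) ^ 2 := by gcongr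
        _ = 4 / (s * t) := by
          rw [div_pow, Real.sq_sqrt hst.le]
          norm_num
        _ ≤ 4 / t := by
          gcongr
          nlinarith
    rw [mul_pow]
    rcases le_or_gt N t with h3 | h3
    · have h4 : (1 - gh N y) ^ 2 ≤ 1 := by
        nlinarith
      calc (bes (s * t)) ^ 2 * (1 - gh N y) ^ 2 ≤ 4 / t * 1 := by gcongr
        _ ≤ 16 / N := by
          rw [mul_one, div_le_div_iff₀ h hN0]
          nlinarith
    · have h4 : 1 - gh N y ≤ π * t ^ 2 / N ^ 2 := by
        unfold gh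
        have := Real.add_one_le_exp (-(π * ‖y‖ ^ 2 / N ^ 2))
        rw [← ht] at this ⊢
        linarith
      have h5 : (1 - gh N y) ^ 2 ≤ π * t ^ 2 / N ^ 2 := by
        have h6 : (1 - gh N y) ^ 2 ≤ 1 - gh N y := by nlinarith
        linarith
      calc (bes (s * t)) ^ 2 * (1 - gh N y) ^ 2 ≤ 4 / t * (π * t ^ 2 / N ^ 2) := by gcongr
        _ = 4 * π * t / N ^ 2 := by
          field_simp
        _ ≤ 4 * 4 * N / N ^ 2 := by gcongr
        _ = 16 / N := by
          field_simp
          norm_num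

theorem cA_smooth {U : Set ℂ} (hU : MeasurableSet U) (hfin : volume U ≠ ∞) {s N : ℝ}
    (hs : 1 ≤ s) (hN : 1 ≤ N) :
    ∫ x, (cA s U x - smo N (cA s U) x) ^ 2 ≤ 16 * volume.real U / N := by
  have hN0 : 0 < N := by linarith
  obtain ⟨hm, h0, h1, hi⟩ := cA_facts hU hfin s
  have hchi := integrable_chi hU hfin
  have habs : ∀ x, |cA s U x| ≤ 1 := fun x => by
    rw [abs_of_nonneg (h0 x)]
    exact h1 x
  have hmF : Measurable fun x => cA s U x - smo N (cA s U) x := hm.sub (measurable_smo hm)
  have hiF : Integrable fun x => cA s U x - smo N (cA s U) x := hi.sub (integrable_smo hN0 hi)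
  have hbF : ∀ x, |cA s U x - smo N (cA s U) x| ≤ 2 := by
    intro x
    have h2 := abs_smo_le hN0 hm habs x
    have h3 := habs x
    have h4 := abs_sub (cA s U x) (smo N (cA s U) x)
    linarith
  have hP := plancherel hmF hiF hbF
  have hPc := plancherel (CirS_chi hU) hchi (B := 1) (fun x => by
    rw [abs_of_nonneg (CirS_chi0 U x)]
    exact CirS_chi1 U x)
  rw [← hP.2]
  have hft : ∀ y, ft (fun x => cA s U x - smo N (cA s U) x) y =
      ((bes (s * ‖y‖) * (1 - gh N y) : ℝ) : ℂ) * ft (chi U) y := by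
    intro y
    have hce : Continuous fun x : ℂ => ee (-(Frac.ip x y)) := by
      refine continuous_ee.comp ?_
      unfold Frac.ip
      fun_prop
    have hA : ∀ {F : ℂ → ℝ}, Integrable F → Integrable fun x => ee (-(Frac.ip x y)) * (F x : ℂ) := by
      intro F hF
      refine (hF.ofReal (𝕜 := ℂ)).bdd_mul (c := 1) hce.aestronglyMeasurable ?_
      exact Filter.Eventually.of_forall (fun x => (norm_ee _).le)
    have h5 : ft (fun x => cA s U x - smo N (cA s U) x) y =
        ft (cA s U) y - ft (smo N (cA s U)) y := by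
      unfold ft
      rw [← integral_sub (hA hi) (hA (integrable_smo hN0 hi))]
      refine integral_congr_ae (Eventually.of_forall fun x => ?_)
      simp only
      push_cast
      ring
    rw [h5, CirS_ftsmo hN0 hi, CirS_ft hU hfin (by linarith)]
    push_cast
    ring
  calc ∫ y, ‖ft (fun x => cA s U x - smo N (cA s U) x) y‖ ^ 2
      ≤ ∫ y, 16 / N * ‖ft (chi U) y‖ ^ 2 := by
        refine integral_mono hP.1 (hPc.1.const_mul _) fun y => ?_
        simp only
        rw [hft, norm_mul, mul_pow, Complex.norm_real, Real.norm_eq_abs, sq_abs]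
        exact mul_le_mul_of_nonneg_right (CirS_pt hs hN y) (by positivity)
    _ = 16 / N * ∫ x, (chi U x) ^ 2 := by rw [integral_const_mul, hPc.2]
    _ = 16 * volume.real U / N := by
        have h6 : (fun x => (chi U x) ^ 2) = U.indicator 1 := by
          funext x
          unfold chi
          by_cases hx : x ∈ U
          · rw [Set.indicator_of_mem hx, Set.indicator_of_mem hx]
            simp
          · rw [Set.indicator_of_notMem hx, Set.indicator_of_notMem hx]
            simp
        rw [h6, integral_indicator_one hU]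
        ring

end Pool.MPb9430d.Mom
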