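import Pool.Agent.Lib.MP_b9430d_co.Mom.Defs

/-!
# CntP: differences of two square roots near `r` (count lemma)

By symmetry let `m' = q.2 > q.1` (the ordering with `√q.2 - √q.1 ∈ [ξ - 2τ, ξ + 2τ]`, both orderings double the count). `j = q.2 - q.1 =
(√q.2 - √q.1)(√q.2 + √q.1) ∈ (ξ ± 2τ)(2r ± 6ρ)`, so `|j - 2rξ| ≤ 6ρ(ξ + 2τ) + 4τr ≤ 6ρ·12ρ + 4 ≤ 80ρ²`: at most `161ρ²` values `j ≥ 1`. For fixed `j` put
`s = √q.1 + √(q.1 + j)`: `j/s ∈ [ξ-2τ, ξ+2τ]`, so `s ∈ [j/(ξ+2τ), j/(ξ-2τ)]`, an interval of length `4τ j/(ξ² - 4τ²) ≤ 16 τ j/(3ξ²)` (`4τ ≤ ξ`), `j ≤ (3ξ/2)(3r)`, so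
length `≤ 24 τ r/ξ`; `s` increases by at least `√(q.1+1) - √q.1 ≥ 1/(3r)` when `q.1` increases by one (`√q.1 ≤ r + 3ρ`): at most `1 + 72 τ r²/ξ`
values of `q.1`.
-/

set_option autoImplicit false

open MeasureTheory Complex Set Real Filter Topology
open scoped ENNReal

namespace Pool.MPb9430d.Mom

open Pool.MPb9430d Pool.MPb9430d.Rough Pool.MPb9430d.Frac

private theorem card_int_le {L : ℝ} (hL : 0 ≤ L) (T : Finset ℤ)
    (h : ∀ a ∈ T, ∀ b ∈ T, (b : ℝ) - a ≤ L) : (T.card : ℝ) ≤ L + 1 := by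
  rcases T.eq_empty_or_nonempty with he | hne
  · rw [he]; simp; linarith
  · have hsub : T ⊆ Finset.Icc (T.min' hne) (T.max' hne) := by
      intro x hx
      rw [Finset.mem_Icc]
      exact ⟨Finset.min'_le _ _ hx, Finset.le_max' _ _ hx⟩
    have hle : T.min' hne ≤ T.max' hne := Finset.min'_le _ _ (Finset.max'_mem _ _)
    have hc := Finset.card_le_card hsub
    rw [Int.card_Icc] at hc
    have h1 := h _ (Finset.min'_mem _ hne) _ (Finset.max'_mem _ hne)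
    have h2 : ((T.card : ℤ) : ℝ) ≤ ((T.max' hne + 1 - T.min' hne : ℤ) : ℝ) := by
      have h3 : (T.card : ℤ) ≤ T.max' hne + 1 - T.min' hne := by omega
      exact_mod_cast h3
    push_cast at h2
    linarith

private theorem fibre_step {ρ r ξ τ a b c d : ℝ} (hρ : 1 ≤ ρ) (hr : 1000 * ρ ≤ r)
    (hξ : 0 < ξ) (hτ : 0 ≤ τ) (h4 : 4 * τ ≤ ξ) (ha : 0 ≤ a) (hb : 0 ≤ b) (hc : 0 ≤ c) (hd : 0 ≤ d)
    (hac : a ≤ c) (hbd : b ≤ d) (har : a ≤ r + 3 * ρ) (hbr : b ≤ r + 3 * ρ) (hcr : c ≤ r + 3 * ρ)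
    (h1 : |(|b - a|) - ξ| ≤ 2 * τ) (h2 : |(|d - c|) - ξ| ≤ 2 * τ)
    (hj : b ^ 2 - a ^ 2 = d ^ 2 - c ^ 2) : c ^ 2 - a ^ 2 ≤ 72 * (r ^ 2 * τ / ξ) := by
  obtain ⟨h1a, h1b⟩ := abs_le.1 h1
  obtain ⟨h2a, h2b⟩ := abs_le.1 h2
  have hr0 : 0 < r := by linarith
  -- products
  have e1 : |b - a| * (b + a) = |d - c| * (d + c) := by
    have k1 : |b - a| * (b + a) = |b ^ 2 - a ^ 2| := by
      rw [show b ^ 2 - a ^ 2 = (b - a) * (b + a) by ring, abs_mul, abs_of_nonneg (add_nonneg hb ha)]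
    have k2 : |d - c| * (d + c) = |d ^ 2 - c ^ 2| := by
      rw [show d ^ 2 - c ^ 2 = (d - c) * (d + c) by ring, abs_mul, abs_of_nonneg (add_nonneg hd hc)]
    rw [k1, k2, hj]
  set u := |b - a| with hu
  set v := |d - c| with hv
  -- (s_y - s_x) v = s_x (u - v)
  have e2 : ((d + c) - (b + a)) * v = (b + a) * (u - v) := by linarith [e1]
  have hs : b + a ≤ 3 * r := by linarith
  have huv : u - v ≤ 4 * τ := by linarith
  have hba : 0 ≤ b + a := by linarith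
  have e3 : (b + a) * (u - v) ≤ 3 * r * (4 * τ) := by
    calc (b + a) * (u - v) ≤ (b + a) * (4 * τ) := mul_le_mul_of_nonneg_left huv hba
      _ ≤ 3 * r * (4 * τ) := mul_le_mul_of_nonneg_right hs (by linarith)
  have hv2 : ξ / 2 ≤ v := by linarith
  have hD : 0 ≤ (d + c) - (b + a) := by linarith
  have e4 : ((d + c) - (b + a)) * (ξ / 2) ≤ 3 * r * (4 * τ) := by
    calc ((d + c) - (b + a)) * (ξ / 2) ≤ ((d + c) - (b + a)) * v := mul_le_mul_of_nonneg_left hv2 hD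
      _ ≤ _ := by rw [e2]; exact e3
  have e5 : c - a ≤ (d + c) - (b + a) := by linarith
  have e6 : (c - a) * (ξ / 2) ≤ 3 * r * (4 * τ) :=
    le_trans (mul_le_mul_of_nonneg_right e5 (by linarith)) e4
  have hca : c + a ≤ 3 * r := by linarith
  have e7 : (c ^ 2 - a ^ 2) * (ξ / 2) ≤ 3 * r * (3 * r * (4 * τ)) := by
    calc (c ^ 2 - a ^ 2) * (ξ / 2) = (c + a) * ((c - a) * (ξ / 2)) := by ring
      _ ≤ (c + a) * (3 * r * (4 * τ)) := mul_le_mul_of_nonneg_left e6 (by linarith)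
      _ ≤ 3 * r * (3 * r * (4 * τ)) := mul_le_mul_of_nonneg_right hca
          (mul_nonneg (by linarith) (by linarith))
  have e8 : (72 * (r ^ 2 * τ / ξ)) * (ξ / 2) = 3 * r * (3 * r * (4 * τ)) := by
    field_simp
    ring
  have hξ2 : 0 < ξ / 2 := by linarith
  exact le_of_mul_le_mul_right (by rw [e8]; exact e7) hξ2

theorem cnt_pair {ρ : ℝ} (hρ : 1 ≤ ρ) : ∃ C : ℝ, 0 < C ∧ ∀ r ξ τ : ℝ, 1000 * ρ ≤ r → 0 < ξ →
    ξ ≤ 8 * ρ → 0 ≤ τ → 4 * τ ≤ ξ → τ * r ≤ 1 → ∀ S : Finset (ℕ × ℕ),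
    (∀ q ∈ S, |√(q.1 : ℝ) - r| ≤ 3 * ρ ∧ |√(q.2 : ℝ) - r| ≤ 3 * ρ ∧
      |(|√(q.2 : ℝ) - √(q.1 : ℝ)|) - ξ| ≤ 2 * τ) → (S.card : ℝ) ≤ C * (1 + r ^ 2 * τ / ξ) := by
  refine ⟨(2 * (160 * ρ ^ 2 + 1)) * 72, by positivity, ?_⟩
  intro r ξ τ hr hξ hξ8 hτ h4 hτr S hS
  have hr0 : 0 < r := by linarith
  set L : ℝ := 72 * (r ^ 2 * τ / ξ) with hL
  have hL0 : 0 ≤ L := by positivity
  classical
  set f : ℕ × ℕ → ℤ := fun q => (q.2 : ℤ) - q.1 with hf
  -- bound of the fibres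
  have hfib : ∀ a ∈ S.image f, (S.filter (fun x => f x = a)).card ≤ ⌊L + 1⌋₊ := by
    intro j _
    apply Nat.le_floor
    have hinj : Set.InjOn (fun x : ℕ × ℕ => (x.1 : ℤ)) (S.filter (fun x => f x = j)) := by
      intro x hx y hy hxy
      have hx' := (Finset.mem_filter.1 (Finset.mem_coe.1 hx)).2
      have hy' := (Finset.mem_filter.1 (Finset.mem_coe.1 hy)).2
      simp only [hf] at hx' hy'
      simp only at hxy
      ext
      · exact_mod_cast hxy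
      · have : (x.2 : ℤ) = y.2 := by omega
        exact_mod_cast this
    rw [← Finset.card_image_of_injOn hinj]
    apply card_int_le hL0
    intro a ha b hb
    obtain ⟨x, hx, rfl⟩ := Finset.mem_image.1 ha
    obtain ⟨y, hy, rfl⟩ := Finset.mem_image.1 hb
    obtain ⟨hxS, hxj⟩ := Finset.mem_filter.1 hx
    obtain ⟨hyS, hyj⟩ := Finset.mem_filter.1 hy
    obtain ⟨hx1, hx2, hx3⟩ := hS x hxS
    obtain ⟨hy1, hy2, hy3⟩ := hS y hyS
    simp only [hf] at hxj hyj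
    by_cases hxy : x.1 ≤ y.1
    · have hxy2 : x.2 ≤ y.2 := by omega
      have hj2 : ((x.2 : ℤ) : ℝ) - ((x.1 : ℤ) : ℝ) = ((y.2 : ℤ) : ℝ) - ((y.1 : ℤ) : ℝ) := by
        rw [← Int.cast_sub, ← Int.cast_sub, hxj, hyj]
      have hj3 : (x.2 : ℝ) - (x.1 : ℝ) = (y.2 : ℝ) - (y.1 : ℝ) := by exact_mod_cast hj2
      have key := fibre_step (ρ := ρ) (r := r) (ξ := ξ) (τ := τ) (a := √(x.1 : ℝ)) (b := √(x.2 : ℝ))
        (c := √(y.1 : ℝ)) (d := √(y.2 : ℝ)) hρ hr hξ hτ h4 (Real.sqrt_nonneg _) (Real.sqrt_nonneg _)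
        (Real.sqrt_nonneg _) (Real.sqrt_nonneg _)
        (Real.sqrt_le_sqrt (by exact_mod_cast hxy)) (Real.sqrt_le_sqrt (by exact_mod_cast hxy2))
        (by linarith [(abs_le.1 hx1).2]) (by linarith [(abs_le.1 hx2).2])
        (by linarith [(abs_le.1 hy1).2]) hx3 hy3
        (by rw [Real.sq_sqrt (Nat.cast_nonneg _), Real.sq_sqrt (Nat.cast_nonneg _),
          Real.sq_sqrt (Nat.cast_nonneg _), Real.sq_sqrt (Nat.cast_nonneg _)]; exact hj3)
      rw [Real.sq_sqrt (Nat.cast_nonneg _), Real.sq_sqrt (Nat.cast_nonneg _)] at key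
      push_cast
      exact key
    · have : (y.1 : ℝ) ≤ (x.1 : ℝ) := by exact_mod_cast (not_le.1 hxy).le
      push_cast
      linarith
  have hcard := Finset.card_le_mul_card_image (f := f) S ⌊L + 1⌋₊ hfib
  -- the values of j
  have hval : ∀ q ∈ S, |((|f q| : ℤ) : ℝ) - 2 * r * ξ| ≤ 80 * ρ ^ 2 := by
    intro q hq
    obtain ⟨h1, h2, h3⟩ := hS q hq
    have ha0 := Real.sqrt_nonneg (q.1 : ℝ)
    have hb0 := Real.sqrt_nonneg (q.2 : ℝ)
    have e0 : ((|f q| : ℤ) : ℝ) = |√(q.2 : ℝ) - √(q.1 : ℝ)| * (√(q.2 : ℝ) + √(q.1 : ℝ)) := by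
      have k1 : |√(q.2 : ℝ) - √(q.1 : ℝ)| * (√(q.2 : ℝ) + √(q.1 : ℝ)) = |(q.2 : ℝ) - q.1| := by
        have : (q.2 : ℝ) - q.1 = (√(q.2 : ℝ) - √(q.1 : ℝ)) * (√(q.2 : ℝ) + √(q.1 : ℝ)) := by
          have s1 := Real.sq_sqrt (Nat.cast_nonneg (α := ℝ) q.1)
          have s2 := Real.sq_sqrt (Nat.cast_nonneg (α := ℝ) q.2)
          nlinarith [s1, s2]
        rw [this, abs_mul, abs_of_nonneg (add_nonneg hb0 ha0)]
      rw [k1]
      simp only [hf]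
      push_cast
      rfl
    rw [e0]
    set u := |√(q.2 : ℝ) - √(q.1 : ℝ)| with hu
    set w := √(q.2 : ℝ) + √(q.1 : ℝ) with hw
    have hu' : |u - ξ| ≤ 2 * τ := h3
    have hw' : |w - 2 * r| ≤ 6 * ρ := by
      rw [abs_le] at h1 h2 ⊢
      constructor <;> linarith [h1.1, h1.2, h2.1, h2.2]
    have hw0 : 0 ≤ w := add_nonneg hb0 ha0
    have hw3 : w ≤ 3 * r := by linarith [(abs_le.1 hw').2]
    calc |u * w - 2 * r * ξ| = |(u - ξ) * w + ξ * (w - 2 * r)| := by ring_nf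
      _ ≤ |(u - ξ) * w| + |ξ * (w - 2 * r)| := abs_add_le _ _
      _ = |u - ξ| * w + ξ * |w - 2 * r| := by
          rw [abs_mul, abs_mul, abs_of_nonneg hw0, abs_of_pos hξ]
      _ ≤ 2 * τ * (3 * r) + 8 * ρ * (6 * ρ) := by
          apply add_le_add
          · exact mul_le_mul hu' hw3 hw0 (by linarith)
          · exact mul_le_mul hξ8 hw' (abs_nonneg _) (by linarith)
      _ ≤ 80 * ρ ^ 2 := by nlinarith [hτr, hρ]
  have hJ : ((S.image f).card : ℝ) ≤ 2 * (160 * ρ ^ 2 + 1) := by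
    have hsplit : (S.image f) = (S.image f).filter (fun j => 0 ≤ j) ∪
        (S.image f).filter (fun j => ¬ 0 ≤ j) := (Finset.filter_union_filter_not_eq _ _).symm
    have hc1 : (((S.image f).filter (fun j => 0 ≤ j)).card : ℝ) ≤ 160 * ρ ^ 2 + 1 := by
      apply card_int_le (by positivity)
      intro a ha b hb
      obtain ⟨ha1, ha2⟩ := Finset.mem_filter.1 ha
      obtain ⟨hb1, hb2⟩ := Finset.mem_filter.1 hb
      obtain ⟨x, hx, rfl⟩ := Finset.mem_image.1 ha1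
      obtain ⟨y, hy, rfl⟩ := Finset.mem_image.1 hb1
      have k1 := hval x hx
      have k2 := hval y hy
      rw [abs_of_nonneg ha2] at k1
      rw [abs_of_nonneg hb2] at k2
      linarith [(abs_le.1 k1).1, (abs_le.1 k2).2]
    have hc2 : (((S.image f).filter (fun j => ¬ 0 ≤ j)).card : ℝ) ≤ 160 * ρ ^ 2 + 1 := by
      apply card_int_le (by positivity)
      intro a ha b hb
      obtain ⟨ha1, ha2⟩ := Finset.mem_filter.1 ha
      obtain ⟨hb1, hb2⟩ := Finset.mem_filter.1 hb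
      obtain ⟨x, hx, rfl⟩ := Finset.mem_image.1 ha1
      obtain ⟨y, hy, rfl⟩ := Finset.mem_image.1 hb1
      have k1 := hval x hx
      have k2 := hval y hy
      rw [abs_of_neg (not_le.1 ha2)] at k1
      rw [abs_of_neg (not_le.1 hb2)] at k2
      push_cast at k1 k2
      linarith [(abs_le.1 k1).2, (abs_le.1 k2).1]
    have hu : (S.image f).card ≤ ((S.image f).filter (fun j => 0 ≤ j)).card +
        ((S.image f).filter (fun j => ¬ 0 ≤ j)).card := by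
      conv_lhs => rw [hsplit]
      exact Finset.card_union_le _ _
    have hu' : ((S.image f).card : ℝ) ≤ ((S.image f).filter (fun j => 0 ≤ j)).card +
        ((S.image f).filter (fun j => ¬ 0 ≤ j)).card := by exact_mod_cast hu
    linarith
  have hfl : ((⌊L + 1⌋₊ : ℕ) : ℝ) ≤ L + 1 := Nat.floor_le (by linarith)
  have hq0 : 0 ≤ r ^ 2 * τ / ξ := by positivity
  calc (S.card : ℝ) ≤ ((⌊L + 1⌋₊ * (S.image f).card : ℕ) : ℝ) := by exact_mod_cast hcard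
    _ = (⌊L + 1⌋₊ : ℝ) * ((S.image f).card : ℝ) := by push_cast; rfl
    _ ≤ (L + 1) * (2 * (160 * ρ ^ 2 + 1)) := mul_le_mul hfl hJ (Nat.cast_nonneg _) (by linarith)
    _ ≤ (72 * (1 + r ^ 2 * τ / ξ)) * (2 * (160 * ρ ^ 2 + 1)) := by
        apply mul_le_mul_of_nonneg_right _ (by positivity)
        rw [hL]; linarith
    _ = 2 * (160 * ρ ^ 2 + 1) * 72 * (1 + r ^ 2 * τ / ξ) := by ring

end Pool.MPb9430d.Mom
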