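import Pool.Agent.Lib.MP_b9430d_co.Mom.CntP

/-!
# CntQ: the count of triples for a fixed `m₁`

Fixed `m₁` with `400ρ ≤ √m₁ ≤ 5r`, `τ = 16 2⁻ⁱ/(√m₁ r) ≤ 1/(25 r)`. `S` = triples `(m₂, m₁', m₂')` (`q.1 = m₂`, `q.2.1 = m₁'`, `q.2.2 = m₂'`) with `m₂ ≥ m₁` and
`|(√m₁' - σ√m₁) - (√m₂' - σ√m₂)| ≤ 2τ`, `σ = ±1`. `ξ = √m₂ - √m₁ ≥ 0`; then `| |√m₂' - √m₁'| - ξ | ≤ 2τ`. Case `m₂ = m₁`: `|√m₁' - √m₂'| ≤ 2τ`,
`|m₁' - m₂'| ≤ 2τ(2r+6ρ) < 1`, so `m₁' = m₂'`: at most `(r+3ρ)² - (r-3ρ)² + 1 ≤ 13ρr` triples. Case `j = m₂ - m₁ ≥ 1`: `ξ ≤ 6ρ + 2τ ≤ 7ρ`, so `√m₂ ≤ √m₁ + 7ρ ≤ 2√m₁`,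
`ξ = j/(√m₁+√m₂) ≥ j/(3√m₁)`, `j ≤ 21ρ√m₁ ≤ 105ρr`; `4τ ≤ 64/(√m₁ r) ≤ 1/(3√m₁) ≤ ξ`; `cnt_pair`: `≤ C(1 + r²τ/ξ) ≤ C(1 + 48 r/j)` pairs `(m₁', m₂')`. Sum over
`1 ≤ j ≤ 105ρr`: `≤ C' (r + r log r)`.
-/

set_option autoImplicit false

open MeasureTheory Complex Set Real Filter Topology
open scoped ENNReal

namespace Pool.MPb9430d.Mom

open Pool.MPb9430d Pool.MPb9430d.Rough Pool.MPb9430d.Frac

private theorem card_nat_le {L : ℝ} (hL : 0 ≤ L) (T : Finset ℕ)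
    (h : ∀ a ∈ T, ∀ b ∈ T, (b : ℝ) - a ≤ L) : (T.card : ℝ) ≤ L + 1 := by
  rcases T.eq_empty_or_nonempty with he | hne
  · rw [he]; simp; linarith
  · have hsub : T ⊆ Finset.Icc (T.min' hne) (T.max' hne) := by
      intro x hx
      rw [Finset.mem_Icc]
      exact ⟨Finset.min'_le _ _ hx, Finset.le_max' _ _ hx⟩
    have hle : T.min' hne ≤ T.max' hne := Finset.min'_le _ _ (Finset.max'_mem _ _)
    have hc := Finset.card_le_card hsub
    rw [Nat.card_Icc] at hc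
    have h1 := h _ (Finset.min'_mem _ hne) _ (Finset.max'_mem _ hne)
    have h3 : T.card + T.min' hne ≤ T.max' hne + 1 := by omega
    have h2 : (T.card : ℝ) + (T.min' hne : ℝ) ≤ (T.max' hne : ℝ) + 1 := by exact_mod_cast h3
    linarith

/-- One triple: the two square roots differ by `ξ` up to `2τ`. -/
private theorem one_diff {a a2 b1 b2 σ τ : ℝ} (hσ : σ = 1 ∨ σ = -1) (ha : a ≤ a2)
    (h : |(b1 - σ * a) - (b2 - σ * a2)| ≤ 2 * τ) : |(|b2 - b1|) - (a2 - a)| ≤ 2 * τ := by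
  have h1 : a2 - a = |σ * (a2 - a)| := by
    rcases hσ with h | h <;> rw [h]
    · rw [one_mul, abs_of_nonneg (by linarith)]
    · rw [show (-1 : ℝ) * (a2 - a) = -(a2 - a) by ring, abs_neg, abs_of_nonneg (by linarith)]
  rw [h1]
  refine (abs_abs_sub_abs_le_abs_sub _ _).trans ?_
  rw [abs_sub_comm]
  rw [show σ * (a2 - a) - (b2 - b1) = (b1 - σ * a) - (b2 - σ * a2) by ring]
  exact h

theorem cnt_quad {ρ : ℝ} (hρ : 1 ≤ ρ) : ∃ C : ℝ, 0 < C ∧ ∀ r : ℝ, 1000 * ρ ≤ r → ∀ (i m : ℕ)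
    (σ : ℝ), (σ = 1 ∨ σ = -1) → 400 * ρ ≤ √(m : ℝ) → √(m : ℝ) ≤ 5 * r →
    ∀ S : Finset (ℕ × ℕ × ℕ), (∀ q ∈ S, m ≤ q.1 ∧ |√(q.2.1 : ℝ) - r| ≤ 3 * ρ ∧
      |√(q.2.2 : ℝ) - r| ≤ 3 * ρ ∧
      |(√(q.2.1 : ℝ) - σ * √(m : ℝ)) - (√(q.2.2 : ℝ) - σ * √(q.1 : ℝ))| ≤
        2 * (16 * (1 / 2) ^ i / (√(m : ℝ) * r))) → (S.card : ℝ) ≤ C * r * Real.log r := by
  obtain ⟨C0, hC0, hpair⟩ := cnt_pair hρ
  refine ⟨13 * ρ + 105 * ρ * C0 + 144 * C0, by positivity, ?_⟩
  intro r hr i m σ hσ hm1 hm2 S hS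
  classical
  have hr0 : 0 < r := by linarith
  set a : ℝ := √(m : ℝ) with ha
  have ha0 : 0 < a := by linarith
  set τ : ℝ := 16 * (1 / 2) ^ i / (a * r) with hτdef
  have hτ0 : 0 ≤ τ := by positivity
  have hpow : ((1 : ℝ) / 2) ^ i ≤ 1 := pow_le_one₀ (by norm_num) (by norm_num)
  have hτa : τ * (a * r) ≤ 16 := by
    rw [hτdef, div_mul_cancel₀ _ (by positivity)]
    linarith
  have hτr : τ * r ≤ 1 / 25 := by
    have h1 : τ * r * 400 ≤ τ * (a * r) := by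
      have : τ * (a * r) = τ * r * a := by ring
      rw [this]
      exact mul_le_mul_of_nonneg_left (by linarith) (by positivity)
    linarith
  have hasq : a ^ 2 = m := by rw [ha, Real.sq_sqrt (Nat.cast_nonneg _)]
  -- logarithm facts
  have hlog1 : 1 ≤ Real.log r := by
    rw [Real.le_log_iff_exp_le hr0]
    have := Real.exp_one_lt_d9
    linarith
  -- the map to j
  set g : ℕ × ℕ × ℕ → ℕ := fun q => q.1 - m with hg
  set J : ℕ := ⌊105 * ρ * r⌋₊ with hJ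
  -- facts for one element
  have hel : ∀ q ∈ S, |(|√(q.2.2 : ℝ) - √(q.2.1 : ℝ)|) - (√(q.1 : ℝ) - a)| ≤ 2 * τ := by
    intro q hq
    obtain ⟨h1, h2, h3, h4⟩ := hS q hq
    exact one_diff hσ (Real.sqrt_le_sqrt (by exact_mod_cast h1)) h4
  have hxi : ∀ q ∈ S, √(q.1 : ℝ) - a ≤ 7 * ρ := by
    intro q hq
    obtain ⟨h1, h2, h3, h4⟩ := hS q hq
    have h5 := (abs_le.1 (hel q hq)).1
    have h6 : |√(q.2.2 : ℝ) - √(q.2.1 : ℝ)| ≤ 6 * ρ := by
      rw [abs_le] at h2 h3 ⊢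
      constructor <;> linarith [h2.1, h2.2, h3.1, h3.2]
    have h7 : τ ≤ 1 / 25 := by
      have : τ * 1 ≤ τ * r := mul_le_mul_of_nonneg_left (by linarith) hτ0
      linarith
    linarith
  have hxi2 : ∀ q ∈ S, ((q.1 : ℝ) - m) ≤ 3 * a * (√(q.1 : ℝ) - a) := by
    intro q hq
    have h1 := hxi q hq
    have h2 : (q.1 : ℝ) - m = (√(q.1 : ℝ) - a) * (√(q.1 : ℝ) + a) := by
      have := Real.sq_sqrt (Nat.cast_nonneg (α := ℝ) q.1)
      rw [← hasq]; nlinarith [this]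
    have h3 : a ≤ √(q.1 : ℝ) := Real.sqrt_le_sqrt (by exact_mod_cast (hS q hq).1)
    rw [h2]
    have h4 : √(q.1 : ℝ) + a ≤ 3 * a := by linarith
    calc (√(q.1 : ℝ) - a) * (√(q.1 : ℝ) + a) ≤ (√(q.1 : ℝ) - a) * (3 * a) :=
          mul_le_mul_of_nonneg_left h4 (by linarith)
      _ = _ := by ring
  have hgJ : ∀ q ∈ S, g q ∈ Finset.range (J + 1) := by
    intro q hq
    rw [Finset.mem_range, Nat.lt_succ_iff]
    apply Nat.le_floor
    have h1 := hxi2 q hq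
    have h2 := hxi q hq
    have h3 : ((g q : ℕ) : ℝ) = (q.1 : ℝ) - m := by
      simp only [hg]
      rw [Nat.cast_sub (hS q hq).1]
    rw [h3]
    have h0 : a ≤ √(q.1 : ℝ) := Real.sqrt_le_sqrt (by exact_mod_cast (hS q hq).1)
    calc (q.1 : ℝ) - m ≤ 3 * a * (√(q.1 : ℝ) - a) := h1
      _ ≤ 3 * (5 * r) * (7 * ρ) := by
          apply mul_le_mul _ h2 (by linarith) (by positivity)
          linarith
      _ = 105 * ρ * r := by ring
  have hsum := Finset.card_eq_sum_card_fiberwise (f := g) (s := S) (t := Finset.range (J + 1)) hgJ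
  rw [Finset.sum_range_succ'] at hsum
  -- the fibre over 0
  have hf0 : ((S.filter (fun q => g q = 0)).card : ℝ) ≤ 13 * ρ * r := by
    have hval : ∀ q ∈ S.filter (fun q => g q = 0), q.1 = m ∧ q.2.1 = q.2.2 := by
      intro q hq
      obtain ⟨hqS, hq0⟩ := Finset.mem_filter.1 hq
      obtain ⟨h1, h2, h3, h4⟩ := hS q hqS
      have hq1 : q.1 = m := by simp only [hg] at hq0; omega
      refine ⟨hq1, ?_⟩
      have h5 := hel q hqS
      rw [hq1, ← ha, sub_self, sub_zero, abs_abs] at h5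
      have hb0 := Real.sqrt_nonneg (q.2.1 : ℝ)
      have hc0 := Real.sqrt_nonneg (q.2.2 : ℝ)
      have h6 : √(q.2.2 : ℝ) + √(q.2.1 : ℝ) ≤ 3 * r := by
        linarith [(abs_le.1 h2).2, (abs_le.1 h3).2]
      have h7 : |(q.2.2 : ℝ) - q.2.1| < 1 := by
        have e1 : (q.2.2 : ℝ) - q.2.1 = (√(q.2.2 : ℝ) - √(q.2.1 : ℝ)) * (√(q.2.2 : ℝ) + √(q.2.1 : ℝ)) := by
          have s1 := Real.sq_sqrt (Nat.cast_nonneg (α := ℝ) q.2.1)
          have s2 := Real.sq_sqrt (Nat.cast_nonneg (α := ℝ) q.2.2)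
          nlinarith [s1, s2]
        rw [e1, abs_mul, abs_of_nonneg (add_nonneg hc0 hb0)]
        calc |√(q.2.2 : ℝ) - √(q.2.1 : ℝ)| * (√(q.2.2 : ℝ) + √(q.2.1 : ℝ)) ≤ 2 * τ * (3 * r) :=
              mul_le_mul h5 h6 (by linarith) (by linarith)
          _ = 6 * (τ * r) := by ring
          _ < 1 := by linarith
      have h8 : |((q.2.2 : ℤ) - q.2.1)| < 1 := by
        have : ((|((q.2.2 : ℤ) - q.2.1)| : ℤ) : ℝ) < ((1 : ℤ) : ℝ) := by
          push_cast; exact h7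
        exact_mod_cast this
      have h9 := Int.abs_lt_one_iff.1 h8
      omega
    have hinj : Set.InjOn (fun q : ℕ × ℕ × ℕ => q.2.1) (S.filter (fun q => g q = 0)) := by
      intro x hx y hy hxy
      obtain ⟨hx1, hx2⟩ := hval x (Finset.mem_coe.1 hx)
      obtain ⟨hy1, hy2⟩ := hval y (Finset.mem_coe.1 hy)
      have hxy' : x.2.1 = y.2.1 := hxy
      ext
      · omega
      · exact hxy'
      · omega
    rw [← Finset.card_image_of_injOn hinj]
    have hb : (((S.filter (fun q => g q = 0)).image (fun q : ℕ × ℕ × ℕ => q.2.1)).card : ℝ) ≤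
        12 * ρ * r + 1 := by
      apply card_nat_le (by positivity)
      intro u hu v hv
      obtain ⟨x, hx, rfl⟩ := Finset.mem_image.1 hu
      obtain ⟨y, hy, rfl⟩ := Finset.mem_image.1 hv
      obtain ⟨_, hx2, _, _⟩ := hS x (Finset.mem_filter.1 hx).1
      obtain ⟨_, hy2, _, _⟩ := hS y (Finset.mem_filter.1 hy).1
      have s1 := Real.sq_sqrt (Nat.cast_nonneg (α := ℝ) x.2.1)
      have s2 := Real.sq_sqrt (Nat.cast_nonneg (α := ℝ) y.2.1)
      have k1 : r - 3 * ρ ≤ √(x.2.1 : ℝ) := by linarith [(abs_le.1 hx2).1]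
      have k2 : √(y.2.1 : ℝ) ≤ r + 3 * ρ := by linarith [(abs_le.1 hy2).2]
      have k3 : (r - 3 * ρ) ^ 2 ≤ √(x.2.1 : ℝ) ^ 2 := pow_le_pow_left₀ (by linarith) k1 2
      have k4 : √(y.2.1 : ℝ) ^ 2 ≤ (r + 3 * ρ) ^ 2 := pow_le_pow_left₀ (Real.sqrt_nonneg _) k2 2
      nlinarith [k3, k4]
    have hρr : 1 ≤ ρ * r := by nlinarith
    linarith
  -- the fibres over j + 1
  have hfj : ∀ j ∈ Finset.range J, ((S.filter (fun q => g q = j + 1)).card : ℝ) ≤
      C0 * (1 + 48 * r * ((j + 1 : ℕ) : ℝ)⁻¹) := by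
    intro j _
    have hj0 : (0 : ℝ) < ((j + 1 : ℕ) : ℝ) := by positivity
    rcases (S.filter (fun q => g q = j + 1)).eq_empty_or_nonempty with he | ⟨q0, hq0⟩
    · rw [he]; simp only [Finset.card_empty, Nat.cast_zero]; positivity
    · have hq1 : ∀ q ∈ S.filter (fun q => g q = j + 1), q ∈ S ∧ q.1 = m + (j + 1) := by
        intro q hq
        obtain ⟨hqS, hq0⟩ := Finset.mem_filter.1 hq
        refine ⟨hqS, ?_⟩
        have := (hS q hqS).1
        simp only [hg] at hq0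
        omega
      obtain ⟨hq0S, hq0m⟩ := hq1 q0 hq0
      set ξ : ℝ := √((m + (j + 1) : ℕ) : ℝ) - a with hξdef
      have hξ7 : ξ ≤ 7 * ρ := by
        have := hxi q0 hq0S
        rw [hq0m] at this
        exact this
      have hξl : ((j + 1 : ℕ) : ℝ) ≤ 3 * a * ξ := by
        have := hxi2 q0 hq0S
        rw [hq0m] at this
        have e : (((m + (j + 1) : ℕ) : ℝ)) - m = ((j + 1 : ℕ) : ℝ) := by push_cast; ring
        rw [e] at this
        exact this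
      have hξ0 : 0 < ξ := by
        by_contra hcon
        have : 3 * a * ξ ≤ 0 := mul_nonpos_of_nonneg_of_nonpos (by positivity) (not_lt.1 hcon)
        linarith
      have h4τ : 4 * τ ≤ ξ := by
        have hj1 : (1 : ℝ) ≤ ((j + 1 : ℕ) : ℝ) := by
          have : 1 ≤ j + 1 := by omega
          exact_mod_cast this
        have k1 : 1 ≤ 3 * a * ξ := le_trans hj1 hξl
        -- 4 τ * (3 a r) ≤ 192 ≤ r ≤ ξ * (3 a r)
        have k2 : 4 * τ * (3 * a * r) ≤ 192 := by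
          have : 4 * τ * (3 * a * r) = 12 * (τ * (a * r)) := by ring
          rw [this]; linarith
        have k3 : r ≤ ξ * (3 * a * r) := by
          have : ξ * (3 * a * r) = (3 * a * ξ) * r := by ring
          rw [this]
          exact le_mul_of_one_le_left hr0.le k1
        have k4 : 4 * τ * (3 * a * r) ≤ ξ * (3 * a * r) := by linarith
        exact le_of_mul_le_mul_right k4 (by positivity)
      have hinj : Set.InjOn (fun q : ℕ × ℕ × ℕ => q.2) (S.filter (fun q => g q = j + 1)) := by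
        intro x hx y hy hxy
        have hx1 := (hq1 x (Finset.mem_coe.1 hx)).2
        have hy1 := (hq1 y (Finset.mem_coe.1 hy)).2
        have hxy' : x.2 = y.2 := hxy
        exact Prod.ext (by rw [hx1, hy1]) hxy'
      rw [← Finset.card_image_of_injOn hinj]
      have hcp := hpair r ξ τ hr hξ0 (by linarith) hτ0 h4τ (by linarith)
        ((S.filter (fun q => g q = j + 1)).image (fun q : ℕ × ℕ × ℕ => q.2)) (by
          intro q hq
          obtain ⟨x, hx, rfl⟩ := Finset.mem_image.1 hq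
          obtain ⟨hxS, hx1⟩ := hq1 x hx
          obtain ⟨h1, h2, h3, h4⟩ := hS x hxS
          refine ⟨h2, h3, ?_⟩
          have := hel x hxS
          rw [hx1] at this
          exact this)
      refine hcp.trans ?_
      apply mul_le_mul_of_nonneg_left _ hC0.le
      have hfin : r ^ 2 * τ / ξ ≤ 48 * r * ((j + 1 : ℕ) : ℝ)⁻¹ := by
        rw [div_le_iff₀ hξ0, ← div_eq_mul_inv, div_mul_eq_mul_div, le_div_iff₀ hj0]
        calc r ^ 2 * τ * ((j + 1 : ℕ) : ℝ) ≤ r ^ 2 * τ * (3 * a * ξ) :=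
              mul_le_mul_of_nonneg_left hξl (by positivity)
          _ = 3 * r * ξ * (τ * (a * r)) := by ring
          _ ≤ 3 * r * ξ * 16 := mul_le_mul_of_nonneg_left hτa (by positivity)
          _ = 48 * r * ξ := by ring
      linarith
  -- the sum
  have hS' : (S.card : ℝ) = (∑ j ∈ Finset.range J, ((S.filter (fun q => g q = j + 1)).card : ℝ)) +
      ((S.filter (fun q => g q = 0)).card : ℝ) := by
    rw [hsum]; push_cast; rfl
  have hJle : (J : ℝ) ≤ 105 * ρ * r := Nat.floor_le (by positivity)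
  have hJ1 : (1 : ℝ) ≤ J := by
    have : 1 ≤ J := by
      apply Nat.le_floor
      push_cast
      nlinarith
    exact_mod_cast this
  have hharm : ∑ j ∈ Finset.range J, ((j + 1 : ℕ) : ℝ)⁻¹ ≤ 1 + Real.log J := by
    have h1 := harmonic_le_one_add_log J
    have h2 : ((harmonic J : ℚ) : ℝ) = ∑ j ∈ Finset.range J, ((j + 1 : ℕ) : ℝ)⁻¹ := by
      unfold harmonic
      push_cast
      rfl
    rw [← h2]; exact h1
  have hlogJ : Real.log J ≤ 2 * Real.log r := by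
    have h1 : (J : ℝ) ≤ r ^ 2 := by nlinarith
    calc Real.log J ≤ Real.log (r ^ 2) := Real.log_le_log (by linarith) h1
      _ = 2 * Real.log r := by rw [Real.log_pow]; norm_num
  have hsum2 : ∑ j ∈ Finset.range J, ((S.filter (fun q => g q = j + 1)).card : ℝ) ≤
      C0 * (J + 48 * r * (1 + Real.log J)) := by
    calc ∑ j ∈ Finset.range J, ((S.filter (fun q => g q = j + 1)).card : ℝ)
        ≤ ∑ j ∈ Finset.range J, C0 * (1 + 48 * r * ((j + 1 : ℕ) : ℝ)⁻¹) := Finset.sum_le_sum hfj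
      _ = C0 * (J + 48 * r * ∑ j ∈ Finset.range J, ((j + 1 : ℕ) : ℝ)⁻¹) := by
          rw [← Finset.mul_sum, Finset.sum_add_distrib, ← Finset.mul_sum]
          simp
      _ ≤ C0 * (J + 48 * r * (1 + Real.log J)) := by
          apply mul_le_mul_of_nonneg_left _ hC0.le
          have := mul_le_mul_of_nonneg_left hharm (show (0 : ℝ) ≤ 48 * r by positivity)
          linarith
  rw [hS']
  have e1 : C0 * (J + 48 * r * (1 + Real.log J)) ≤ C0 * (105 * ρ * r * Real.log r + 48 * r * (3 * Real.log r)) := by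
    apply mul_le_mul_of_nonneg_left _ hC0.le
    have k1 : (J : ℝ) ≤ 105 * ρ * r * Real.log r :=
      hJle.trans (le_mul_of_one_le_right (by positivity) hlog1)
    have k2 : 48 * r * (1 + Real.log J) ≤ 48 * r * (3 * Real.log r) :=
      mul_le_mul_of_nonneg_left (by linarith) (by positivity)
    linarith
  have e2 : 13 * ρ * r ≤ 13 * ρ * r * Real.log r := le_mul_of_one_le_right (by positivity) hlog1
  calc (∑ j ∈ Finset.range J, ((S.filter (fun q => g q = j + 1)).card : ℝ)) +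
      ((S.filter (fun q => g q = 0)).card : ℝ) ≤
        C0 * (105 * ρ * r * Real.log r + 48 * r * (3 * Real.log r)) + 13 * ρ * r * Real.log r := by
        linarith [hsum2, hf0]
    _ = (13 * ρ + 105 * ρ * C0 + 144 * C0) * r * Real.log r := by ring

end Pool.MPb9430d.Mom
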