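import Pool.Agent.Lib.MP_b9430d_co.Mom.Defs

/-!
# CntV: counting the `v` with small `uu` (P3)

`V = {v ∈ JJ : uu d v ≤ κ}`, `#JJ ≤ 8ρd + 1`. `bb d (v+l)² - bb d v² = l²/(4d²) + l/2 + l v/(2d²) =: f_l(v)`; if `v, v+l ∈ V` then `f_l(v)` is within `κ` of an
integer (`⌈·⌉ - uu`). For `1 ≤ l ≤ 8ρd`: `f_l` is linear in `v` with slope `l/(2d²)`, on `JJ` it varies by at most `(8ρd+1) l/(2d²) ≤ 36 ρ²·..≤ 40ρ²`
(`l ≤ 8ρd + 1 ≤ 9ρd`), so at most `40ρ² + 4` integers occur, and for each integer `t` the `v` with `|f_l(v) - t| ≤ κ` lie in an interval of length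
`4κd²/l`: at most `4κd²/l + 1`. Hence the number of pairs `(v, v+l) ∈ V²` is `≤ (40ρ²+4)(4κd²/l + 1)`; sum over `1 ≤ l ≤ 9ρd`:
`#V (#V - 1)/2 ≤ (40ρ²+4)(4κd²(1 + log(9ρd)) + 9ρd)`. As `κ ≥ 1/d`: `9ρd ≤ 9ρκd²`. So `#V² ≤ C κ d² log(2+d) + #V`, `#V ≤ C' d √(κ log (2+d))`.
(`C` may depend on `ρ`.)
-/

set_option autoImplicit false

open MeasureTheory Complex Set Real Filter Topology
open scoped ENNReal

namespace Pool.MPb9430d.Mom

open Pool.MPb9430d Pool.MPb9430d.Rough Pool.MPb9430d.Frac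

private theorem CntV_card_int {L : ℝ} (hL : 0 ≤ L) (T : Finset ℤ)
    (h : ∀ a ∈ T, ∀ b ∈ T, (b : ℝ) - a ≤ L) : (T.card : ℝ) ≤ L + 1 := by
  rcases T.eq_empty_or_nonempty with he | hne
  · rw [he]; simp; linarith
  · have hsub : T ⊆ Finset.Icc (T.min' hne) (T.max' hne) := by
      intro x hx
      rw [Finset.mem_Icc]
      exact ⟨Finset.min'_le _ _ hx, Finset.le_max' _ _ hx⟩
    have hle : T.min' hne ≤ T.max' hne := Finset.min'_le _ _ (Finset.max'_mem _ _)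
    have hc := Finset.card_le_card hsub
    rw [Int.card_Icc] at hc
    have h1 := h _ (Finset.min'_mem _ hne) _ (Finset.max'_mem _ hne)
    have h2 : ((T.card : ℤ) : ℝ) ≤ ((T.max' hne + 1 - T.min' hne : ℤ) : ℝ) := by
      have h3 : (T.card : ℤ) ≤ T.max' hne + 1 - T.min' hne := by omega
      exact_mod_cast h3
    push_cast at h2
    linarith

private theorem CntV_diff {ρ r d : ℝ} {v w : ℤ} (hv : v ∈ JJ ρ r d) (hw : w ∈ JJ ρ r d) :
    (w : ℝ) - v ≤ 8 * ρ * d := by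
  unfold JJ at hv hw
  rw [Finset.mem_Icc, Int.ceil_le, Int.le_floor] at hv hw
  linarith [hv.1, hw.2]

theorem card_JJ {ρ d : ℝ} (hρ : 1 ≤ ρ) (hd : 0 < d) (r : ℝ) :
    ((JJ ρ r d).card : ℝ) ≤ 8 * ρ * d + 1 :=
  CntV_card_int (by positivity) _ fun _ ha _ hb => CntV_diff ha hb

private theorem CntV_bb {d : ℝ} (hd : 0 < d) (v j : ℤ) :
    bb d (v + j) ^ 2 - bb d v ^ 2 = j * (2 * (d ^ 2 + v) + j) / (4 * d ^ 2) := by
  unfold bb
  push_cast
  field_simp
  ring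

private theorem CntV_fib {ρ r d κ : ℝ} (hρ : 1 ≤ ρ) (hd : 1 ≤ d) (hκ0 : 0 ≤ κ) (hκ : κ ≤ 1)
    {j : ℤ} (hj : j ≠ 0) :
    (((((JJ ρ r d).filter fun v => uu d v ≤ κ) ×ˢ ((JJ ρ r d).filter fun v => uu d v ≤ κ)).filter
      (fun p => p.2 - p.1 = j)).card : ℝ) ≤ (32 * ρ ^ 2 + 3) * (4 * κ * d ^ 2 / |(j : ℝ)| + 1) := by
  classical
  have hd0 : 0 < d := by linarith
  have hj0 : 0 < |(j : ℝ)| := abs_pos.2 (by exact_mod_cast hj)
  set V := (JJ ρ r d).filter fun v => uu d v ≤ κ with hV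
  set S := (V ×ˢ V).filter (fun p => p.2 - p.1 = j) with hS
  set t : ℤ × ℤ → ℤ := fun p => ⌈bb d p.2 ^ 2⌉ - ⌈bb d p.1 ^ 2⌉ with ht
  have hmem : ∀ p ∈ S, p.1 ∈ JJ ρ r d ∧ p.2 ∈ JJ ρ r d ∧ p.2 = p.1 + j ∧
      |(t p : ℝ) - j * (2 * (d ^ 2 + p.1) + j) / (4 * d ^ 2)| ≤ κ := by
    intro p hp
    rw [hS, Finset.mem_filter, Finset.mem_product, hV, Finset.mem_filter, Finset.mem_filter] at hp
    obtain ⟨⟨⟨h1, h2⟩, h3, h4⟩, h5⟩ := hp
    have h6 : p.2 = p.1 + j := by omega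
    refine ⟨h1, h3, h6, ?_⟩
    rw [← CntV_bb hd0, ← h6]
    have h7 := uu_nonneg d p.1
    have h8 := uu_nonneg d p.2
    simp only [ht]
    push_cast
    unfold uu at h2 h4 h7 h8
    rw [abs_le]
    constructor <;> linarith
  have hlin : ∀ p ∈ S, ∀ q ∈ S, (t q : ℝ) - t p ≤ j * ((q.1 : ℝ) - p.1) / (2 * d ^ 2) + 2 * κ := by
    intro p hp q hq
    have h1 := (abs_le.1 (hmem p hp).2.2.2).1
    have h2 := (abs_le.1 (hmem q hq).2.2.2).2
    have h3 : (j : ℝ) * (2 * (d ^ 2 + q.1) + j) / (4 * d ^ 2) -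
        j * (2 * (d ^ 2 + p.1) + j) / (4 * d ^ 2) = j * ((q.1 : ℝ) - p.1) / (2 * d ^ 2) := by
      field_simp
      ring
    linarith
  -- the size of the fibres of `t`
  have hfib : ∀ a ∈ S.image t, (S.filter (fun x => t x = a)).card ≤
      ⌊4 * κ * d ^ 2 / |(j : ℝ)| + 1⌋₊ := by
    intro a _
    apply Nat.le_floor
    have hinj : Set.InjOn (fun x : ℤ × ℤ => x.1) (S.filter (fun x => t x = a)) := by
      intro x hx y hy hxy
      have hx' := (hmem x (Finset.mem_filter.1 (Finset.mem_coe.1 hx)).1).2.2.1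
      have hy' := (hmem y (Finset.mem_filter.1 (Finset.mem_coe.1 hy)).1).2.2.1
      simp only at hxy
      ext
      · exact hxy
      · rw [hx', hy', hxy]
    rw [← Finset.card_image_of_injOn hinj]
    apply CntV_card_int (by positivity)
    intro u hu w hw
    obtain ⟨x, hx, rfl⟩ := Finset.mem_image.1 hu
    obtain ⟨y, hy, rfl⟩ := Finset.mem_image.1 hw
    obtain ⟨hxS, hxa⟩ := Finset.mem_filter.1 hx
    obtain ⟨hyS, hya⟩ := Finset.mem_filter.1 hy
    have k1 := hlin x hxS y hyS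
    have k2 := hlin y hyS x hxS
    rw [hxa, hya, sub_self] at k1 k2
    rw [le_div_iff₀ hj0]
    have hdd : 0 < 2 * d ^ 2 := by positivity
    have k1' : -(2 * κ) ≤ j * ((y.1 : ℝ) - x.1) / (2 * d ^ 2) := by linarith
    have k2' : -(2 * κ) ≤ j * ((x.1 : ℝ) - y.1) / (2 * d ^ 2) := by linarith
    rw [le_div_iff₀ hdd] at k1' k2'
    rcases abs_cases (j : ℝ) with ⟨e, _⟩ | ⟨e, _⟩ <;> rw [e] <;> nlinarith
  have hcard := Finset.card_le_mul_card_image (f := t) S _ hfib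
  have himg : ((S.image t).card : ℝ) ≤ 32 * ρ ^ 2 + 2 + 1 := by
    apply CntV_card_int (by positivity)
    intro a ha b hb
    obtain ⟨x, hx, rfl⟩ := Finset.mem_image.1 ha
    obtain ⟨y, hy, rfl⟩ := Finset.mem_image.1 hb
    have k1 := hlin x hx y hy
    obtain ⟨x1, x2, x3, -⟩ := hmem x hx
    obtain ⟨y1, y2, y3, -⟩ := hmem y hy
    have hxj : |(j : ℝ)| ≤ 8 * ρ * d := by
      have e : (j : ℝ) = (x.2 : ℝ) - x.1 := by rw [x3]; push_cast; ring
      rw [e, abs_le]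
      exact ⟨by linarith [CntV_diff x2 x1], CntV_diff x1 x2⟩
    have hxy : |(y.1 : ℝ) - x.1| ≤ 8 * ρ * d := by
      rw [abs_le]
      exact ⟨by linarith [CntV_diff y1 x1], CntV_diff x1 y1⟩
    have h1 : (j : ℝ) * ((y.1 : ℝ) - x.1) ≤ (8 * ρ * d) * (8 * ρ * d) := by
      refine (le_abs_self _).trans ?_
      rw [abs_mul]
      exact mul_le_mul hxj hxy (abs_nonneg _) (by positivity)
    have h2 : (j : ℝ) * ((y.1 : ℝ) - x.1) / (2 * d ^ 2) ≤ 32 * ρ ^ 2 := by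
      rw [div_le_iff₀ (by positivity)]
      linarith
    linarith
  have hfl : ((⌊4 * κ * d ^ 2 / |(j : ℝ)| + 1⌋₊ : ℕ) : ℝ) ≤ 4 * κ * d ^ 2 / |(j : ℝ)| + 1 :=
    Nat.floor_le (by positivity)
  calc (S.card : ℝ) ≤ ((⌊4 * κ * d ^ 2 / |(j : ℝ)| + 1⌋₊ * (S.image t).card : ℕ) : ℝ) := by
        exact_mod_cast hcard
    _ = (⌊4 * κ * d ^ 2 / |(j : ℝ)| + 1⌋₊ : ℝ) * ((S.image t).card : ℝ) := by push_cast; rfl
    _ ≤ (4 * κ * d ^ 2 / |(j : ℝ)| + 1) * (32 * ρ ^ 2 + 2 + 1) :=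
        mul_le_mul hfl himg (Nat.cast_nonneg _) (by positivity)
    _ = _ := by ring

theorem cnt_v {ρ : ℝ} (hρ : 1 ≤ ρ) : ∃ C : ℝ, 0 < C ∧ ∀ r d κ : ℝ, 1 ≤ d → 1 / d ≤ κ → κ ≤ 1 →
    (((JJ ρ r d).filter fun v => uu d v ≤ κ).card : ℝ) ≤ C * d * √(κ * Real.log (2 + d)) := by
  have hlogρ : 0 ≤ Real.log (8 * ρ) := Real.log_nonneg (by linarith)
  set K : ℝ := 2 * (32 * ρ ^ 2 + 3) * (4 * (2 + Real.log (8 * ρ)) + 8 * ρ) with hK
  have hK0 : 0 < K := by positivity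
  refine ⟨K + 1, by linarith, ?_⟩
  intro r d κ hd hκ1 hκ
  classical
  have hd0 : 0 < d := by linarith
  have hκ0 : 0 < κ := lt_of_lt_of_le (by positivity) hκ1
  set V := (JJ ρ r d).filter fun v => uu d v ≤ κ with hV
  set m : ℝ := (V.card : ℝ) with hm
  set L : ℕ := ⌊8 * ρ * d⌋₊ with hL
  set g : ℤ × ℤ → ℕ := fun p => (p.2 - p.1).natAbs with hg
  have hgabs : ∀ p : ℤ × ℤ, ((g p : ℕ) : ℝ) = |(p.2 : ℝ) - p.1| := by
    intro p
    simp only [hg]
    rw [Nat.cast_natAbs]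
    push_cast
    rfl
  have hgL : ∀ p ∈ V ×ˢ V, g p ∈ Finset.range (L + 1) := by
    intro p hp
    rw [Finset.mem_product, hV, Finset.mem_filter, Finset.mem_filter] at hp
    rw [Finset.mem_range, Nat.lt_succ_iff]
    apply Nat.le_floor
    rw [hgabs, abs_le]
    exact ⟨by linarith [CntV_diff hp.2.1 hp.1.1], CntV_diff hp.1.1 hp.2.1⟩
  have hsum := Finset.card_eq_sum_card_fiberwise (f := g) (s := V ×ˢ V)
    (t := Finset.range (L + 1)) hgL
  rw [Finset.sum_range_succ', Finset.card_product] at hsum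
  have hf0 : (((V ×ˢ V).filter (fun p => g p = 0)).card : ℝ) ≤ m := by
    have hinj : Set.InjOn (fun x : ℤ × ℤ => x.1) ((V ×ˢ V).filter (fun p => g p = 0)) := by
      intro x hx y hy hxy
      have hx' := (Finset.mem_filter.1 (Finset.mem_coe.1 hx)).2
      have hy' := (Finset.mem_filter.1 (Finset.mem_coe.1 hy)).2
      simp only [hg] at hx' hy'
      simp only at hxy
      ext
      · exact hxy
      · omega
    rw [← Finset.card_image_of_injOn hinj, hm]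
    have hsub : ((V ×ˢ V).filter (fun p => g p = 0)).image (fun x : ℤ × ℤ => x.1) ⊆ V := by
      intro u hu
      obtain ⟨x, hx, rfl⟩ := Finset.mem_image.1 hu
      exact (Finset.mem_product.1 (Finset.mem_filter.1 hx).1).1
    exact_mod_cast Finset.card_le_card hsub
  have hfj : ∀ l ∈ Finset.range L, (((V ×ˢ V).filter (fun p => g p = l + 1)).card : ℝ) ≤
      2 * (32 * ρ ^ 2 + 3) * (4 * κ * d ^ 2 * ((l + 1 : ℕ) : ℝ)⁻¹ + 1) := by
    intro l _
    have hj1 : ((l + 1 : ℕ) : ℤ) ≠ 0 := by omega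
    have hj2 : -((l + 1 : ℕ) : ℤ) ≠ 0 := by omega
    have k1 := CntV_fib (r := r) hρ hd hκ0.le hκ hj1
    have k2 := CntV_fib (r := r) hρ hd hκ0.le hκ hj2
    rw [← hV] at k1 k2
    have hsub : (V ×ˢ V).filter (fun p => g p = l + 1) ⊆
        (V ×ˢ V).filter (fun p => p.2 - p.1 = ((l + 1 : ℕ) : ℤ)) ∪
          (V ×ˢ V).filter (fun p => p.2 - p.1 = -((l + 1 : ℕ) : ℤ)) := by
      intro p hp
      obtain ⟨h1, h2⟩ := Finset.mem_filter.1 hp
      rw [Finset.mem_union, Finset.mem_filter, Finset.mem_filter]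
      simp only [hg] at h2
      rcases Int.natAbs_eq (p.2 - p.1) with h | h
      · left
        exact ⟨h1, by rw [h, h2]⟩
      · right
        exact ⟨h1, by rw [h, h2]⟩
    have hc : (((V ×ˢ V).filter (fun p => g p = l + 1)).card : ℝ) ≤
        (((V ×ˢ V).filter (fun p => p.2 - p.1 = ((l + 1 : ℕ) : ℤ))).card : ℝ) +
          (((V ×ˢ V).filter (fun p => p.2 - p.1 = -((l + 1 : ℕ) : ℤ))).card : ℝ) := by
      exact_mod_cast (Finset.card_le_card hsub).trans (Finset.card_union_le _ _)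
    have e1 : |(((l + 1 : ℕ) : ℤ) : ℝ)| = ((l + 1 : ℕ) : ℝ) := by
      rw [Int.cast_natCast, abs_of_nonneg (Nat.cast_nonneg _)]
    have e2 : |((-((l + 1 : ℕ) : ℤ) : ℤ) : ℝ)| = ((l + 1 : ℕ) : ℝ) := by
      rw [Int.cast_neg, abs_neg, e1]
    rw [e1, div_eq_mul_inv] at k1
    rw [e2, div_eq_mul_inv] at k2
    linarith
  have hmm : m * m = (∑ l ∈ Finset.range L, (((V ×ˢ V).filter (fun p => g p = l + 1)).card : ℝ)) +
      (((V ×ˢ V).filter (fun p => g p = 0)).card : ℝ) := by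
    rw [hm]
    exact_mod_cast hsum
  have hLle : (L : ℝ) ≤ 8 * ρ * d := Nat.floor_le (by positivity)
  have hL1 : (1 : ℝ) ≤ L := by
    have : 1 ≤ L := by
      apply Nat.le_floor
      push_cast
      nlinarith
    exact_mod_cast this
  have hharm : ∑ l ∈ Finset.range L, ((l + 1 : ℕ) : ℝ)⁻¹ ≤ 1 + Real.log L := by
    have h1 := harmonic_le_one_add_log L
    have h2 : ((harmonic L : ℚ) : ℝ) = ∑ j ∈ Finset.range L, ((j + 1 : ℕ) : ℝ)⁻¹ := by
      unfold harmonic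
      push_cast
      rfl
    rw [← h2]; exact h1
  set Λ : ℝ := Real.log (2 + d) with hΛ
  have hΛ1 : 1 ≤ Λ := by
    rw [hΛ, Real.le_log_iff_exp_le (by linarith)]
    have := Real.exp_one_lt_d9
    linarith
  have hlogL : 1 + Real.log L ≤ (2 + Real.log (8 * ρ)) * Λ := by
    have h1 : Real.log L ≤ Real.log (8 * ρ) + Real.log d := by
      rw [← Real.log_mul (by positivity) (by positivity)]
      exact Real.log_le_log (by linarith) hLle
    have h2 : Real.log d ≤ Λ := Real.log_le_log hd0 (by linarith)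
    nlinarith
  set S : ℝ := κ * d ^ 2 * Λ with hS
  have hκd : 1 ≤ κ * d := by
    rw [div_le_iff₀ hd0] at hκ1
    linarith
  have hdκ : d ≤ κ * d ^ 2 := by nlinarith
  have hS1 : 1 ≤ S := by
    rw [hS]
    nlinarith
  have hLS : (L : ℝ) ≤ 8 * ρ * S := by
    have h1 : d ≤ S := by
      rw [hS]
      nlinarith
    calc (L : ℝ) ≤ 8 * ρ * d := hLle
      _ ≤ 8 * ρ * S := mul_le_mul_of_nonneg_left h1 (by positivity)
  have hquad : m * m ≤ m + K * S := by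
    have h1 : ∑ l ∈ Finset.range L, (((V ×ˢ V).filter (fun p => g p = l + 1)).card : ℝ) ≤
        K * S := by
      calc ∑ l ∈ Finset.range L, (((V ×ˢ V).filter (fun p => g p = l + 1)).card : ℝ)
          ≤ ∑ l ∈ Finset.range L,
              2 * (32 * ρ ^ 2 + 3) * (4 * κ * d ^ 2 * ((l + 1 : ℕ) : ℝ)⁻¹ + 1) :=
            Finset.sum_le_sum hfj
        _ = 2 * (32 * ρ ^ 2 + 3) *
              (4 * κ * d ^ 2 * ∑ l ∈ Finset.range L, ((l + 1 : ℕ) : ℝ)⁻¹ + L) := by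
            rw [← Finset.mul_sum, Finset.sum_add_distrib, ← Finset.mul_sum]
            simp
        _ ≤ 2 * (32 * ρ ^ 2 + 3) *
              (4 * κ * d ^ 2 * ((2 + Real.log (8 * ρ)) * Λ) + 8 * ρ * S) := by
            apply mul_le_mul_of_nonneg_left _ (by positivity)
            have := mul_le_mul_of_nonneg_left (hharm.trans hlogL)
              (show (0 : ℝ) ≤ 4 * κ * d ^ 2 by positivity)
            linarith
        _ = K * S := by
            rw [hK, hS]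
            ring
    linarith
  have hsS : √S = d * √(κ * Λ) := by
    rw [hS, show κ * d ^ 2 * Λ = d ^ 2 * (κ * Λ) by ring, Real.sqrt_mul (sq_nonneg d),
      Real.sqrt_sq hd0.le]
  have hs1 : 1 ≤ √S := by
    rw [← Real.sqrt_one]
    exact Real.sqrt_le_sqrt hS1
  have hss : √S * √S = S := Real.mul_self_sqrt (by linarith)
  rw [show (K + 1) * d * √(κ * Λ) = (K + 1) * √S by rw [hsS]; ring]
  by_contra hcon
  have hcon' : (K + 1) * √S < m := not_le.1 hcon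
  have h1 : (K + 1) * √S * (K * √S) < m * (m - 1) := by
    have a1 : K * √S ≤ m - 1 := by nlinarith
    have a2 : 0 < K * √S := by positivity
    calc (K + 1) * √S * (K * √S) < m * (K * √S) := mul_lt_mul_of_pos_right hcon' a2
      _ ≤ m * (m - 1) := mul_le_mul_of_nonneg_left a1 (Nat.cast_nonneg _)
  have h2 : K * S ≤ (K + 1) * √S * (K * √S) := by
    have : (K + 1) * √S * (K * √S) = (K + 1) * (K * (√S * √S)) := by ring
    rw [this, hss]
    have : 0 ≤ K * S := by positivity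
    nlinarith
  linarith

end Pool.MPb9430d.Mom
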