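import Pool.Agent.Lib.MP_b9430d_co.Mom.Sym

/-!
# CoreI: the basic inequality

`∫⁻ χ ind E SS (ind A) = ∫⁻ x in A, SS (χ ind E) x` (`ss_symm`). For every `θ` and a.e. `x`, `tsum_ind_of_encard (hT θ)`:
`∑' p, ind E (x + rot θ * lat p) = n`. If moreover `x ∈ A` then the term `p = 0` of this sum is `1` (`x ∈ E`), and the term
`p = 0` of `∑' p, (χ ind E)(x + rot θ * lat p)` is `0` (`χ x = 0`), the other terms are at most those of the first sum:
`(∑' p, (χ ind E)(..)) + 1 ≤ n`. Integrate over `θ` and over `x ∈ A` (Fubini: for every `θ` a.e. `x`), multiply by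
`(2π)⁻¹`: `∫⁻ x in A, SS (χ ind E) x + volume A ≤ n * volume A`. Swap the integrals first
(`∫⁻ x in A, ∫⁻ θ .. = ∫⁻ θ, ∫⁻ x in A ..`).
-/

set_option autoImplicit false

open MeasureTheory Complex Set Real Filter Topology
open scoped ENNReal

namespace Pool.MPb9430d.Mom

open Pool.MPb9430d Pool.MPb9430d.Rough Pool.MPb9430d.Frac

theorem core_ineq {E A : Set ℂ} {n : ℕ} (hE : MeasurableSet E) (hT : Tile E n)
    (hA : MeasurableSet A) (hAE : A ⊆ E) {χ : ℂ → ℝ≥0∞} (hχ : Measurable χ)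
    (hχ1 : ∀ x, χ x ≤ 1) (hχA : ∀ x ∈ A, χ x = 0) :
    (∫⁻ x, χ x * ind E x * SS (ind A) x) + volume A ≤ n * volume A := by
  obtain ⟨g, hg⟩ : ∃ g : ℂ → ℝ≥0∞, g = fun x => χ x * ind E x := ⟨_, rfl⟩
  have hgm : Measurable g := by
    rw [hg]
    exact hχ.mul (measurable_ind hE)
  have hsym : ∫⁻ x, χ x * ind E x * SS (ind A) x = ∫⁻ x in A, SS g x := by
    have h1 := ss_symm (f := g) (g := ind A) hgm (measurable_ind hA)
    rw [hg] at h1
    rw [h1, ← hg, ← lintegral_indicator hA]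
    refine lintegral_congr fun x => ?_
    by_cases hx : x ∈ A
    · rw [ind_of_mem hx, indicator_of_mem hx, one_mul]
    · rw [ind_of_notMem hx, indicator_of_notMem hx, zero_mul]
  have hmp : Measurable (fun w : ℂ × ℝ => ∑' p : ℤ × ℤ, g (w.1 + rot w.2 * lat p)) := by
    refine Measurable.ennreal_tsum fun p => hgm.comp ?_
    exact measurable_fst.add ((measurable_rot.comp measurable_snd).mul_const _)
  have hθ : ∀ θ : ℝ, (∫⁻ x in A, ∑' p : ℤ × ℤ, g (x + rot θ * lat p)) + volume A ≤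
      n * volume A := by
    intro θ
    have hmx : Measurable (fun x : ℂ => ∑' p : ℤ × ℤ, g (x + rot θ * lat p)) :=
      Measurable.ennreal_tsum fun p => hgm.comp (measurable_add_const _)
    have h1 : ∫⁻ x in A, ((∑' p : ℤ × ℤ, g (x + rot θ * lat p)) + 1) ≤
        ∫⁻ x in A, (n : ℝ≥0∞) := by
      refine lintegral_mono_ae ?_
      filter_upwards [ae_restrict_of_ae (hT θ), ae_restrict_mem hA] with x hx hxA
      have h2 := tsum_ind_of_encard hx
      rw [← h2, ENNReal.tsum_eq_add_tsum_ite (0 : ℤ × ℤ),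
        ENNReal.tsum_eq_add_tsum_ite (f := fun p : ℤ × ℤ => ind E (x + rot θ * lat p))
          (0 : ℤ × ℤ)]
      have h3 : g (x + rot θ * lat 0) = 0 := by
        rw [hg]
        simp only
        rw [lat_zero, mul_zero, add_zero, hχA x hxA, zero_mul]
      have h4 : ind E (x + rot θ * lat 0) = 1 := by
        rw [lat_zero, mul_zero, add_zero]
        exact ind_of_mem (hAE hxA)
      rw [h3, h4, zero_add, add_comm (1 : ℝ≥0∞)]
      gcongr with p
      split_ifs with hp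
      · exact le_refl _
      · rw [hg]
        simp only
        calc χ (x + rot θ * lat p) * ind E (x + rot θ * lat p)
            ≤ 1 * ind E (x + rot θ * lat p) := by gcongr; exact hχ1 _
          _ = ind E (x + rot θ * lat p) := one_mul _
    rw [lintegral_add_left hmx, setLIntegral_const, setLIntegral_const, one_mul] at h1
    exact h1
  have hswap : ∫⁻ x in A, SS g x =
      ENNReal.ofReal (2 * π)⁻¹ * ∫⁻ θ in Ioc (-π) π, ∫⁻ x in A,
        ∑' p : ℤ × ℤ, g (x + rot θ * lat p) := by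
    unfold SS
    rw [lintegral_const_mul _ hmp.lintegral_prod_right']
    congr 1
    exact lintegral_lintegral_swap hmp.aemeasurable
  have hc : ENNReal.ofReal (2 * π)⁻¹ * ENNReal.ofReal (2 * π) = 1 := by
    have hp := Real.pi_pos
    rw [← ENNReal.ofReal_mul (by positivity), inv_mul_cancel₀ (by positivity), ENNReal.ofReal_one]
  have hvol : volume (Ioc (-π) π) = ENNReal.ofReal (2 * π) := by
    rw [Real.volume_Ioc]
    congr 1
    ring
  have hcc : ∀ c : ℝ≥0∞, ENNReal.ofReal (2 * π)⁻¹ * ∫⁻ _θ in Ioc (-π) π, c = c := by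
    intro c
    rw [setLIntegral_const, hvol, mul_comm c, ← mul_assoc, hc, one_mul]
  rw [hsym, hswap]
  have hmθ : Measurable (fun θ : ℝ => ∫⁻ x in A, ∑' p : ℤ × ℤ, g (x + rot θ * lat p)) :=
    hmp.lintegral_prod_left'
  calc ENNReal.ofReal (2 * π)⁻¹ * (∫⁻ θ in Ioc (-π) π, ∫⁻ x in A,
        ∑' p : ℤ × ℤ, g (x + rot θ * lat p)) + volume A
      = ENNReal.ofReal (2 * π)⁻¹ * (∫⁻ θ in Ioc (-π) π, ∫⁻ x in A,
        ∑' p : ℤ × ℤ, g (x + rot θ * lat p)) +
        ENNReal.ofReal (2 * π)⁻¹ * ∫⁻ _θ in Ioc (-π) π, volume A := by rw [hcc]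
    _ = ENNReal.ofReal (2 * π)⁻¹ * ∫⁻ θ in Ioc (-π) π, ((∫⁻ x in A,
        ∑' p : ℤ × ℤ, g (x + rot θ * lat p)) + volume A) := by
        rw [lintegral_add_left hmθ, mul_add]
    _ ≤ ENNReal.ofReal (2 * π)⁻¹ * ∫⁻ _θ in Ioc (-π) π, (n * volume A) := by
        gcongr with θ
        exact hθ θ
    _ = n * volume A := hcc _

end Pool.MPb9430d.Mom
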