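import Pool.Agent.Lib.MP_b9430d_co.Mom.SmB
import Pool.Agent.Lib.MP_b9430d_co.Frac.GauM

/-!
# CutS: smoothness of a product with the cut-off

`g = cut ρ * φ`, `|φ| ≤ K` measurable. `g - smo N g = cut ρ (φ - smo N φ) + (cut ρ smo N φ - smo N (cut ρ φ))`, the second term is
`h x = ∫ gau N t (cut ρ x - cut ρ (x - t)) φ (x - t) dt`, `|h x| ≤ K ∫ gau N t ‖t‖ ≤ 2K/N` (`gau_moment` with `a = 1`,
`cut_lip`), and `∫ |h| ≤ K ∫ gau N t ∫ |cut ρ x - cut ρ (x - t)| dx dt ≤ K ∫ gau N t (‖t‖ 2 π ρ²) dt ≤ 16 K ρ²/N` (the integrand is `≤ ‖t‖`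
and vanishes unless `x` or `x - t` is in the disc of radius `ρ`). So `∫ h² ≤ (2K/N)(16 K ρ²/N) = 32 K² ρ²/N²`, and
`(a + b)² ≤ 2a² + 2b²`, `cut ≤ 1`, `cut = 0` outside the disc. `cut_smooth`: `φ = 1`.
-/

set_option autoImplicit false

open MeasureTheory Complex Set Real Filter Topology
open scoped ENNReal

namespace Pool.MPb9430d.Mom

open Pool.MPb9430d Pool.MPb9430d.Rough Pool.MPb9430d.Frac

/-- The kernel of the commutator. -/
private noncomputable def CutS_H (ρ N : ℝ) (x : ℂ) : ℝ := ∫ t, gau N (x - t) * |cut ρ x - cut ρ t|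

private theorem CutS_abs_le (ρ : ℝ) (x t : ℂ) : |cut ρ x - cut ρ t| ≤ 1 := by
  rw [abs_le]
  have h1 := cut_nonneg ρ x
  have h2 := cut_nonneg ρ t
  have h3 := cut_le_one ρ x
  have h4 := cut_le_one ρ t
  constructor <;> linarith

private theorem CutS_int {ρ N : ℝ} (hN : 0 < N) (x : ℂ) :
    Integrable (fun t => gau N (x - t) * |cut ρ x - cut ρ t|) := by
  refine ((integrable_gau hN).comp_sub_left x).mono' ?_ (Eventually.of_forall fun t => ?_)
  · have hc : Continuous (fun t => gau N (x - t) * |cut ρ x - cut ρ t|) :=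
      ((continuous_gau N).comp (continuous_const.sub continuous_id)).mul
        ((continuous_const.sub (continuous_cut ρ)).abs)
    exact hc.aestronglyMeasurable
  · rw [Real.norm_of_nonneg (mul_nonneg (gau_nonneg _ _) (abs_nonneg _))]
    exact mul_le_of_le_one_right (gau_nonneg _ _) (CutS_abs_le ρ x t)

private theorem CutS_nonneg (ρ N : ℝ) (x : ℂ) : 0 ≤ CutS_H ρ N x :=
  integral_nonneg fun _ => mul_nonneg (gau_nonneg _ _) (abs_nonneg _)

private theorem CutS_mom {N : ℝ} (hN : 0 < N) :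
    Integrable (fun t : ℂ => gau N t * ‖t‖) ∧ ∫ t, gau N t * ‖t‖ ≤ 2 / N := by
  have h := gau_moment (N := N) (a := 1) hN zero_le_one one_le_two
  simp only [Real.rpow_one, Real.rpow_neg_one] at h
  exact h

private theorem CutS_H_le {ρ N : ℝ} (hN : 0 < N) (x : ℂ) : CutS_H ρ N x ≤ 2 / N := by
  have h1 : CutS_H ρ N x ≤ ∫ t, gau N (x - t) * ‖x - t‖ := by
    unfold CutS_H
    refine integral_mono (CutS_int hN x) ((CutS_mom hN).1.comp_sub_left x) fun t => ?_
    exact mul_le_mul_of_nonneg_left (cut_lip ρ x t) (gau_nonneg _ _)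
  have h2 : ∫ t, gau N (x - t) * ‖x - t‖ = ∫ t, gau N t * ‖t‖ :=
    integral_sub_left_eq_self (fun t : ℂ => gau N t * ‖t‖) volume x
  exact h1.trans (h2.le.trans (CutS_mom hN).2)

private theorem CutS_meas (ρ N : ℝ) : AEStronglyMeasurable (CutS_H ρ N) := by
  have hc : Continuous (fun p : ℂ × ℂ => gau N (p.1 - p.2) * |cut ρ p.1 - cut ρ p.2|) :=
    ((continuous_gau N).comp (continuous_fst.sub continuous_snd)).mul
      (((continuous_cut ρ).comp continuous_fst).sub ((continuous_cut ρ).comp continuous_snd)).abs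
  have hs : StronglyMeasurable (fun p : ℂ × ℂ => gau N (p.1 - p.2) * |cut ρ p.1 - cut ρ p.2|) :=
    hc.stronglyMeasurable
  exact (StronglyMeasurable.integral_prod_right hs).aestronglyMeasurable

private theorem CutS_inner {ρ N : ℝ} (hρ : 0 ≤ ρ) (s : ℂ) :
    ∫⁻ x, ENNReal.ofReal (gau N s * |cut ρ x - cut ρ (x - s)|) ≤
      ENNReal.ofReal (2 * π * ρ ^ 2) * ENNReal.ofReal (gau N s * ‖s‖) := by
  have h1 : ∫⁻ x, ENNReal.ofReal (gau N s * |cut ρ x - cut ρ (x - s)|) ≤
      ∫⁻ x, (Metric.closedBall 0 ρ ∪ Metric.closedBall s ρ).indicator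
        (fun _ => ENNReal.ofReal (gau N s * ‖s‖)) x := by
    refine lintegral_mono fun x => ?_
    by_cases hx : x ∈ Metric.closedBall (0 : ℂ) ρ ∪ Metric.closedBall s ρ
    · simp only [Set.indicator_of_mem hx]
      refine ENNReal.ofReal_le_ofReal (mul_le_mul_of_nonneg_left ?_ (gau_nonneg _ _))
      have h := cut_lip ρ x (x - s)
      rwa [sub_sub_cancel] at h
    · simp only [Set.indicator_of_notMem hx]
      rw [Set.mem_union, not_or, mem_closedBall_zero_iff, Metric.mem_closedBall, dist_eq_norm, not_le, not_le] at hx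
      rw [cut_of_ge hx.1.le, cut_of_ge hx.2.le, sub_zero, abs_zero, mul_zero, ENNReal.ofReal_zero]
  refine h1.trans ?_
  rw [lintegral_indicator_const (measurableSet_closedBall.union measurableSet_closedBall), mul_comm]
  refine mul_le_mul_left ?_ _
  refine (measure_union_le _ _).trans ?_
  rw [Complex.volume_closedBall, Complex.volume_closedBall, ← two_mul]
  have e : (ENNReal.ofReal ρ ^ 2 * (NNReal.pi : ℝ≥0∞)) = ENNReal.ofReal (ρ ^ 2 * π) := by
    rw [ENNReal.ofReal_mul (by positivity), ENNReal.ofReal_pow hρ]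
    congr 1
    rw [← NNReal.coe_real_pi, ENNReal.ofReal_coe_nnreal]
  rw [e, show (2 : ℝ≥0∞) = ENNReal.ofReal 2 by simp, ← ENNReal.ofReal_mul (by norm_num)]
  exact ENNReal.ofReal_le_ofReal (le_of_eq (by ring))

private theorem CutS_lint {ρ N : ℝ} (hρ : 0 ≤ ρ) (hN : 0 < N) :
    ∫⁻ x, ENNReal.ofReal (CutS_H ρ N x) ≤ ENNReal.ofReal (16 * ρ ^ 2 / N) := by
  have h1 : ∀ x, ENNReal.ofReal (CutS_H ρ N x) =
      ∫⁻ s, ENNReal.ofReal (gau N s * |cut ρ x - cut ρ (x - s)|) := by
    intro x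
    unfold CutS_H
    rw [ofReal_integral_eq_lintegral_ofReal (CutS_int hN x)
      (Eventually.of_forall fun t => mul_nonneg (gau_nonneg _ _) (abs_nonneg _))]
    rw [← lintegral_sub_left_eq_self
      (fun s => ENNReal.ofReal (gau N s * |cut ρ x - cut ρ (x - s)|)) x]
    refine lintegral_congr fun t => ?_
    rw [sub_sub_cancel]
  simp_rw [h1]
  have hc : Continuous (fun p : ℂ × ℂ => gau N p.2 * |cut ρ p.1 - cut ρ (p.1 - p.2)|) :=
    ((continuous_gau N).comp continuous_snd).mul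
      (((continuous_cut ρ).comp continuous_fst).sub
        ((continuous_cut ρ).comp (continuous_fst.sub continuous_snd))).abs
  rw [lintegral_lintegral_swap (hc.measurable.ennreal_ofReal.aemeasurable)]
  refine (lintegral_mono fun s => CutS_inner hρ s).trans ?_
  rw [lintegral_const_mul' _ _ ENNReal.ofReal_ne_top,
    ← ofReal_integral_eq_lintegral_ofReal (CutS_mom hN).1
      (Eventually.of_forall fun t => mul_nonneg (gau_nonneg _ _) (norm_nonneg _)),
    ← ENNReal.ofReal_mul (by positivity)]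
  refine ENNReal.ofReal_le_ofReal ?_
  have h2 := (CutS_mom hN).2
  have hp := Real.pi_lt_four
  calc 2 * π * ρ ^ 2 * ∫ t, gau N t * ‖t‖ ≤ 2 * π * ρ ^ 2 * (2 / N) :=
        mul_le_mul_of_nonneg_left h2 (by positivity)
    _ ≤ 2 * 4 * ρ ^ 2 * (2 / N) := by gcongr
    _ = 16 * ρ ^ 2 / N := by ring

private theorem CutS_H_int {ρ N : ℝ} (hρ : 0 ≤ ρ) (hN : 0 < N) : Integrable (CutS_H ρ N) := by
  refine ⟨CutS_meas ρ N, ?_⟩
  rw [hasFiniteIntegral_iff_ofReal (Eventually.of_forall (CutS_nonneg ρ N))]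
  exact (CutS_lint hρ hN).trans_lt ENNReal.ofReal_lt_top

private theorem CutS_H_val {ρ N : ℝ} (hρ : 0 ≤ ρ) (hN : 0 < N) :
    ∫ x, CutS_H ρ N x ≤ 16 * ρ ^ 2 / N := by
  rw [integral_eq_lintegral_of_nonneg_ae (Eventually.of_forall (CutS_nonneg ρ N)) (CutS_meas ρ N)]
  exact ENNReal.toReal_le_of_le_ofReal (by positivity) (CutS_lint hρ hN)

private theorem CutS_comm {ρ K N : ℝ} (hN : 0 < N) {φ : ℂ → ℝ}
    (hφ : Measurable φ) (hK : ∀ x, |φ x| ≤ K) (x : ℂ) :
    |cut ρ x * smo N φ x - smo N (fun y => cut ρ y * φ y) x| ≤ K * CutS_H ρ N x := by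
  have hg := (integrable_gau hN).comp_sub_left x
  have i1 : Integrable (fun t => gau N (x - t) * φ t) := by
    refine Integrable.mul_bdd (c := K) hg hφ.aestronglyMeasurable (Eventually.of_forall fun t => ?_)
    rw [Real.norm_eq_abs]
    exact hK t
  have hK0 : 0 ≤ K := (abs_nonneg _).trans (hK 0)
  have i2 : Integrable (fun t => gau N (x - t) * (cut ρ t * φ t)) := by
    refine Integrable.mul_bdd (c := K) hg
      ((continuous_cut ρ).measurable.mul hφ).aestronglyMeasurable (Eventually.of_forall fun t => ?_)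
    rw [Real.norm_eq_abs, abs_mul, abs_of_nonneg (cut_nonneg ρ t)]
    calc cut ρ t * |φ t| ≤ 1 * K := mul_le_mul (cut_le_one ρ t) (hK t) (abs_nonneg _) zero_le_one
      _ = K := one_mul K
  unfold smo CutS_H
  rw [← integral_const_mul, ← integral_sub (i1.const_mul _) i2, ← integral_const_mul, ← Real.norm_eq_abs]
  refine norm_integral_le_of_norm_le ((CutS_int hN x).const_mul K) (Eventually.of_forall fun t => ?_)
  rw [Real.norm_eq_abs, show cut ρ x * (gau N (x - t) * φ t) - gau N (x - t) * (cut ρ t * φ t) =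
    φ t * (gau N (x - t) * (cut ρ x - cut ρ t)) by ring, abs_mul, abs_mul, abs_of_nonneg (gau_nonneg _ _)]
  exact mul_le_mul_of_nonneg_right (hK t) (mul_nonneg (gau_nonneg _ _) (abs_nonneg _))

theorem cut_mul_smooth {ρ K N : ℝ} (hρ : 1 ≤ ρ) (hK0 : 0 ≤ K) (hN : 1 ≤ N) {φ : ℂ → ℝ}
    (hφ : Measurable φ) (hK : ∀ x, |φ x| ≤ K) :
    ∫ x, (cut ρ x * φ x - smo N (fun y => cut ρ y * φ y) x) ^ 2 ≤
      2 * (∫ x in Metric.closedBall 0 ρ, (φ x - smo N φ x) ^ 2) + 64 * K ^ 2 * ρ ^ 2 / N ^ 2 := by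
  have hN0 : 0 < N := by linarith
  have hρ0 : 0 ≤ ρ := by linarith
  have hm := measurable_smo (N := N) hφ
  have i1 : IntegrableOn (fun x => (φ x - smo N φ x) ^ 2) (Metric.closedBall 0 ρ) := by
    refine Measure.integrableOn_of_bounded (M := (2 * K) ^ 2) ?_
      ((hφ.sub hm).pow_const 2).aestronglyMeasurable (Eventually.of_forall fun x => ?_)
    · exact measure_closedBall_lt_top.ne
    · rw [Real.norm_of_nonneg (sq_nonneg _), ← sq_abs]
      have h1 := hK x
      have h2 := abs_smo_le hN0 hφ hK x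
      have h3 : |φ x - smo N φ x| ≤ 2 * K := (abs_sub _ _).trans (by linarith)
      exact pow_le_pow_left₀ (abs_nonneg _) h3 2
  have i2 := (CutS_H_int hρ0 hN0).const_mul (2 * (2 * K / N) * K)
  have i1'' : IntegrableOn (fun x => 2 * (φ x - smo N φ x) ^ 2) (Metric.closedBall 0 ρ) :=
    i1.const_mul 2
  have i1' : Integrable ((Metric.closedBall (0 : ℂ) ρ).indicator (fun x => 2 * (φ x - smo N φ x) ^ 2)) :=
    i1''.integrable_indicator measurableSet_closedBall
  have h1 : ∫ x, (cut ρ x * φ x - smo N (fun y => cut ρ y * φ y) x) ^ 2 ≤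
      ∫ x, ((Metric.closedBall (0 : ℂ) ρ).indicator (fun x => 2 * (φ x - smo N φ x) ^ 2) x +
        2 * (2 * K / N) * K * CutS_H ρ N x) := by
    refine integral_mono_of_nonneg (Eventually.of_forall fun x => sq_nonneg _) (i1'.add i2)
      (Eventually.of_forall fun x => ?_)
    have hc := CutS_comm (ρ := ρ) hN0 hφ hK x
    have hH := CutS_H_le (ρ := ρ) hN0 x
    have hH0 := CutS_nonneg ρ N x
    have hsq : (cut ρ x * smo N φ x - smo N (fun y => cut ρ y * φ y) x) ^ 2 ≤
        (2 * K / N) * K * CutS_H ρ N x := by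
      rw [← sq_abs]
      calc |cut ρ x * smo N φ x - smo N (fun y => cut ρ y * φ y) x| ^ 2
          ≤ (K * CutS_H ρ N x) ^ 2 := pow_le_pow_left₀ (abs_nonneg _) hc 2
        _ = (K * CutS_H ρ N x) * (K * CutS_H ρ N x) := sq _
        _ ≤ (K * (2 / N)) * (K * CutS_H ρ N x) :=
            mul_le_mul_of_nonneg_right (mul_le_mul_of_nonneg_left hH hK0) (mul_nonneg hK0 hH0)
        _ = (2 * K / N) * K * CutS_H ρ N x := by ring
    have hfirst : (cut ρ x * (φ x - smo N φ x)) ^ 2 * 2 ≤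
        (Metric.closedBall (0 : ℂ) ρ).indicator (fun x => 2 * (φ x - smo N φ x) ^ 2) x := by
      by_cases hx : x ∈ Metric.closedBall (0 : ℂ) ρ
      · rw [Set.indicator_of_mem hx, mul_pow]
        have h5 : cut ρ x ^ 2 ≤ 1 := pow_le_one₀ (cut_nonneg ρ x) (cut_le_one ρ x)
        have h6 : cut ρ x ^ 2 * (φ x - smo N φ x) ^ 2 ≤ 1 * (φ x - smo N φ x) ^ 2 :=
          mul_le_mul_of_nonneg_right h5 (sq_nonneg _)
        linarith
      · rw [Set.indicator_of_notMem hx]
        rw [mem_closedBall_zero_iff, not_le] at hx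
        rw [cut_of_ge hx.le]
        simp
    have e : cut ρ x * φ x - smo N (fun y => cut ρ y * φ y) x =
        cut ρ x * (φ x - smo N φ x) + (cut ρ x * smo N φ x - smo N (fun y => cut ρ y * φ y) x) := by
      ring
    have h7 : (cut ρ x * φ x - smo N (fun y => cut ρ y * φ y) x) ^ 2 ≤
        (cut ρ x * (φ x - smo N φ x)) ^ 2 * 2 +
          2 * (cut ρ x * smo N φ x - smo N (fun y => cut ρ y * φ y) x) ^ 2 := by
      rw [e]
      nlinarith [sq_nonneg (cut ρ x * (φ x - smo N φ x) -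
        (cut ρ x * smo N φ x - smo N (fun y => cut ρ y * φ y) x))]
    simp only
    linarith
  refine h1.trans ?_
  rw [integral_add i1' i2, integral_indicator measurableSet_closedBall, integral_const_mul,
    integral_const_mul]
  have h8 := CutS_H_val hρ0 hN0
  have h9 : 2 * (2 * K / N) * K * ∫ x, CutS_H ρ N x ≤ 2 * (2 * K / N) * K * (16 * ρ ^ 2 / N) :=
    mul_le_mul_of_nonneg_left h8 (by positivity)
  have h10 : 2 * (2 * K / N) * K * (16 * ρ ^ 2 / N) = 64 * K ^ 2 * ρ ^ 2 / N ^ 2 := by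
    field_simp
    ring
  linarith

theorem cut_smooth {ρ N : ℝ} (hρ : 1 ≤ ρ) (hN : 1 ≤ N) :
    ∫ x, (cut ρ x - smo N (cut ρ) x) ^ 2 ≤ (8 * ρ) ^ 2 / N := by
  have hN0 : 0 < N := by linarith
  have h := cut_mul_smooth (ρ := ρ) (K := 1) (N := N) hρ zero_le_one hN (φ := fun _ => 1)
    measurable_const (fun x => by simp)
  have e : ∀ x, smo N (fun _ => (1 : ℝ)) x = 1 := by
    intro x
    unfold smo
    simp only [mul_one]
    rw [integral_sub_left_eq_self (fun t : ℂ => gau N t) volume x, integral_gau hN0]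
  simp only [mul_one, e, sub_self, ne_eq, OfNat.ofNat_ne_zero, not_false_eq_true, zero_pow,
    integral_zero, mul_zero, zero_add, one_pow] at h
  refine h.trans ?_
  rw [div_le_div_iff₀ (by positivity) hN0]
  have h2 : N ≤ N ^ 2 := by nlinarith
  have h3 : 0 ≤ ρ ^ 2 := sq_nonneg ρ
  nlinarith [mul_le_mul_of_nonneg_left h2 h3]

end Pool.MPb9430d.Mom
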