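import Pool.Agent.Lib.MP_b9430d_co.Frac.Defs

/-!
# Measurable Steinhaus sets: no positive moment is finite (definitions)

Paper proof: /team-store/STEIN_ALLMOM.md. Everything takes place in the plane `ℂ`. `rot θ = exp (iθ)`, `lat p` is the
lattice point, `ind U` the indicator function with values in `ℝ≥0∞`, `chi U` the real one, `gau N` the Gaussian
`N² exp (-π N² |x|²)`, `cir N z` the mean of `gau N` over the circle of radius `|z|`.
-/

set_option autoImplicit false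

open MeasureTheory Complex Set Real Filter Topology
open scoped ENNReal

namespace Pool.MPb9430d.Mom

open Pool.MPb9430d Pool.MPb9430d.Rough Pool.MPb9430d.Frac

/-- The mean over all rotations of the sum of `g` over the rotated lattice through `y`. -/
noncomputable def SS (g : ℂ → ℝ≥0∞) (y : ℂ) : ℝ≥0∞ :=
  ENNReal.ofReal (2 * π)⁻¹ * ∫⁻ θ in Ioc (-π) π, ∑' p : ℤ × ℤ, g (y + rot θ * lat p)

/-- The same without the point `y` itself. -/
noncomputable def SP (g : ℂ → ℝ≥0∞) (y : ℂ) : ℝ≥0∞ :=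
  ENNReal.ofReal (2 * π)⁻¹ * ∫⁻ θ in Ioc (-π) π, ∑' p : ℤ × ℤ,
    (if p = 0 then 0 else g (y + rot θ * lat p))

/-- The convolution of `gau N` with `g`. -/
noncomputable def smo (N : ℝ) (g : ℂ → ℝ) (x : ℂ) : ℝ := ∫ t, gau N (x - t) * g t

/-- `SS (ind A)` as a real function. -/
noncomputable def sA (A : Set ℂ) (x : ℂ) : ℝ := (SS (ind A) x).toReal

/-- The sum of the circle means of `gau N` over all lattice radii. -/
noncomputable def FF (N : ℝ) (u : ℂ) : ℝ := ∑' p : ℤ × ℤ, cir N (lat p) u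

/-- The cut-off: `1` for `‖x‖ ≤ ρ - 1`, `0` for `‖x‖ ≥ ρ`. -/
noncomputable def cut (ρ : ℝ) (x : ℂ) : ℝ := max 0 (min 1 (ρ - ‖x‖))

/-- The mean of the indicator function of `U` over the circle of radius `s` with centre `x`. -/
noncomputable def cA (s : ℝ) (U : Set ℂ) (x : ℂ) : ℝ :=
  (2 * π)⁻¹ * ∫ φ in (-π)..π, chi U (x + s * rot φ)

/-- The sum of the circle means of `U` over the lattice radii in `[1, X]`. -/
noncomputable def phi (U : Set ℂ) (X : ℝ) (x : ℂ) : ℝ := ∑ p ∈ near X, cA ‖lat p‖ U x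

/-- For `‖y - w‖ = d` and `v = m' - m`: a point with `‖x - w‖² = m'`, `‖x - y‖² = m` has the coordinate
`bb d v` along the line from `w` to `y`. -/
noncomputable def bb (d : ℝ) (v : ℤ) : ℝ := (d ^ 2 + v) / (2 * d)

/-- The distance from `bb d v ^ 2` to the next integer. -/
noncomputable def uu (d : ℝ) (v : ℤ) : ℝ := (⌈bb d v ^ 2⌉ : ℝ) - bb d v ^ 2

/-- There is a point of the disc of radius `ρ` at distance `√m'` from `w` and `√m` from `y`. -/
def Adm (ρ : ℝ) (w y : ℂ) (m m' : ℕ) : Prop :=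
  ∃ x : ℂ, ‖x‖ ≤ ρ ∧ ‖x - w‖ ^ 2 = m' ∧ ‖x - y‖ ^ 2 = m

/-- The kernel of two circles: `1 / (d δ)`, `δ` the distance of the intersection points from the line of centres. -/
noncomputable def kw (d : ℝ) (m m' : ℕ) : ℝ := 1 / (d * √((m' : ℝ) - bb d ((m' : ℤ) - m) ^ 2))

/-- The kernel `kw` restricted to the admissible points. -/
noncomputable def ka (ρ : ℝ) (w : ℂ) (m m' : ℕ) (y : ℂ) : ℝ :=
  {y : ℂ | Adm ρ w y m m'}.indicator (fun y => kw ‖y - w‖ m m') y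

/-- The pair mean: `w + √m' rot α` in the disc, `w + √m' rot α + √m rot β` in `B`. -/
noncomputable def PP (ρ : ℝ) (w : ℂ) (B : Set ℂ) (m m' : ℕ) : ℝ≥0∞ :=
  ENNReal.ofReal ((2 * π)⁻¹ ^ 2) * ∫⁻ α in Ioc (-π) π, ∫⁻ β in Ioc (-π) π,
    ind (Metric.closedBall 0 ρ) (w + (√(m' : ℝ) : ℂ) * rot α) *
      ind B (w + (√(m' : ℝ) : ℂ) * rot α + (√(m : ℝ) : ℂ) * rot β)

/-- The relevant differences `v`: those with `|bb d v - r| ≤ 2 ρ`. -/
noncomputable def JJ (ρ r d : ℝ) : Finset ℤ :=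
  Finset.Icc ⌈2 * d * (r - 2 * ρ) - d ^ 2⌉ ⌊2 * d * (r + 2 * ρ) - d ^ 2⌋

/-- The singular part of the kernel. -/
noncomputable def Th (ρ r d : ℝ) : ℝ :=
  1 / d * ∑ v ∈ (JJ ρ r d).filter (fun v => uu d v ≤ 1 / d ∧ 400 * ρ ≤ |d - bb d v|), 1 / √(uu d v)

/-- The number of `v` with `uu d v ≤ 2⁻ⁱ / d`. -/
noncomputable def NN (ρ r : ℝ) (i : ℕ) (d : ℝ) : ℕ :=
  ((JJ ρ r d).filter (fun v => uu d v ≤ (1 / 2) ^ i / d ∧ 400 * ρ ≤ |d - bb d v|)).card

/-- The near-radial region: the line through `w` and `y` passes at distance less than `2 ρ` from `0`. -/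
def NR (ρ : ℝ) (w : ℂ) : Set ℂ :=
  {y | |((starRingEnd ℂ) w * (y - w)).im| < 2 * ρ * ‖y - w‖ ∧ ((starRingEnd ℂ) w * (y - w)).re < 0}

theorem mem_JJ {ρ r d : ℝ} (hd : 0 < d) {v : ℤ} : v ∈ JJ ρ r d ↔ |bb d v - r| ≤ 2 * ρ := by
  unfold JJ bb
  rw [Finset.mem_Icc, Int.ceil_le, Int.le_floor, abs_le]
  have h : (d ^ 2 + v) / (2 * d) - r = (d ^ 2 + v - 2 * d * r) / (2 * d) := by
    field_simp
  rw [h, le_div_iff₀ (by positivity), div_le_iff₀ (by positivity)]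
  constructor
  · rintro ⟨h1, h2⟩
    constructor <;> nlinarith
  · rintro ⟨h1, h2⟩
    constructor <;> nlinarith

theorem uu_nonneg (d : ℝ) (v : ℤ) : 0 ≤ uu d v := by
  unfold uu
  linarith [Int.le_ceil (bb d v ^ 2)]

theorem uu_lt_one (d : ℝ) (v : ℤ) : uu d v < 1 := by
  unfold uu
  linarith [Int.ceil_lt_add_one (bb d v ^ 2)]

theorem cut_nonneg (ρ : ℝ) (x : ℂ) : 0 ≤ cut ρ x := le_max_left _ _

theorem cut_le_one (ρ : ℝ) (x : ℂ) : cut ρ x ≤ 1 := by
  unfold cut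
  exact max_le zero_le_one (min_le_left _ _)

theorem cut_of_le {ρ : ℝ} {x : ℂ} (h : ‖x‖ ≤ ρ - 1) : cut ρ x = 1 := by
  unfold cut
  rw [min_eq_left (by linarith), max_eq_right zero_le_one]

theorem cut_of_ge {ρ : ℝ} {x : ℂ} (h : ρ ≤ ‖x‖) : cut ρ x = 0 := by
  unfold cut
  rw [max_eq_left]
  exact (min_le_right _ _).trans (by linarith)

theorem continuous_cut (ρ : ℝ) : Continuous (cut ρ) := by
  unfold cut
  fun_prop

theorem cut_lip (ρ : ℝ) (x y : ℂ) : |cut ρ x - cut ρ y| ≤ ‖x - y‖ := by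
  unfold cut
  refine (abs_max_sub_max_le_max _ _ _ _).trans ?_
  rw [sub_self, abs_zero, max_eq_right (abs_nonneg _)]
  refine (abs_min_sub_min_le_max _ _ _ _).trans ?_
  rw [sub_self, abs_zero, max_eq_right (abs_nonneg _)]
  rw [show ρ - ‖x‖ - (ρ - ‖y‖) = -(‖x‖ - ‖y‖) by ring, abs_neg]
  exact abs_norm_sub_norm_le x y

end Pool.MPb9430d.Mom
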