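import Pool.Agent.Lib.MP_b9430d_co.Mom.Defs
import Pool.Agent.Lib.MP_b9430d_co.Frac.Poi
import Pool.Agent.Lib.MP_b9430d_co.Frac.CirA
import Pool.Agent.Lib.MP_b9430d_co.Frac.BesA
import Pool.Agent.Lib.MP_b9430d_co.Frac.BesB
import Pool.Agent.Lib.MP_b9430d_co.Frac.IntS

/-!
# FFp: Poisson summation for FF

`cir N (lat p) u` is the mean over `φ` of `gau N (u + rot φ * lat p)`. Summability: `gau N (u + rot φ * lat p) =
gau N (rot (-φ) * u + lat p)` and `summable_gau`, `poisson` (Frac/Poi) for the point `x = rot (-φ) * u`: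
`∑' p, gau N (x + lat p) = ∑' q, gh N (lat q) cos (2π ip x (lat q)) ≤ ∑' q, gh N (lat q)`, uniformly in `φ`. Exchange sum and
integral over `φ` (`integral_tsum`/`hasSum_integral_of_dominated..`, or `lintegral_tsum` for the nonnegative side), and
`∫ φ cos (2π ip (rot (-φ) * u) (lat q)) = 2π bes (‖u‖ ‖lat q‖)` from `mean_ee` (Frac/BesA, real part). `ff_sub_one`: the term
`q = 0` is `gh N 0 * bes 0 = 1`; `|bes t| ≤ 2/√t` (`abs_bes_le`), `‖lat q‖ ≥ 1` for `q ≠ 0`, and
`∑' q, gh N (lat q) ≤ (2 + 2 / √(π/N²))² ≤ 10 N²` for `N ≥ 1` (`lat_sum` in Frac/IntS with `c = π / N²`).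
-/

set_option autoImplicit false

open MeasureTheory Complex Set Real Filter Topology
open scoped ENNReal

namespace Pool.MPb9430d.Mom

open Pool.MPb9430d Pool.MPb9430d.Rough Pool.MPb9430d.Frac

private theorem FFp_gau (N φ : ℝ) (u z : ℂ) : gau N (u + rot φ * z) = gau N (rot (-φ) * u + z) := by
  have h1 : rot (-φ) * (u + rot φ * z) = rot (-φ) * u + z := by
    have h2 : rot (-φ) * rot φ = 1 := by
      unfold rot
      rw [← Complex.exp_add]
      have h3 : (((-φ : ℝ) : ℂ) * I + ((φ : ℝ) : ℂ) * I) = 0 := by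
        push_cast
        ring
      rw [h3, Complex.exp_zero]
    rw [mul_add, ← mul_assoc, h2, one_mul]
  have h4 : ‖rot (-φ)‖ = 1 := by
    unfold rot
    exact Complex.norm_exp_ofReal_mul_I _
  have h5 : ‖rot (-φ) * u + z‖ = ‖u + rot φ * z‖ := by
    rw [← h1, norm_mul, h4, one_mul]
  unfold gau
  rw [h5]

private theorem FFp_cont (N : ℝ) (z u : ℂ) : Continuous (fun φ : ℝ => gau N (u + rot φ * z)) := by
  unfold gau rot
  fun_prop

private theorem FFp_sum {N : ℝ} (hN : 0 < N) (u : ℂ) (φ : ℝ) :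
    Summable (fun p : ℤ × ℤ => gau N (u + rot φ * lat p)) := by
  simp only [FFp_gau]
  exact summable_gau hN _

private theorem FFp_poi {N : ℝ} (hN : 0 < N) (u : ℂ) (φ : ℝ) :
    ∑' p : ℤ × ℤ, gau N (u + rot φ * lat p) =
      ∑' q : ℤ × ℤ, gh N (lat q) * Real.cos (2 * π * Frac.ip (rot (-φ) * u) (lat q)) := by
  simp only [FFp_gau]
  exact poisson hN _

private theorem FFp_tle {N : ℝ} (hN : 0 < N) (u : ℂ) (φ : ℝ) :
    ∑' p : ℤ × ℤ, gau N (u + rot φ * lat p) ≤ ∑' q : ℤ × ℤ, gh N (lat q) := by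
  rw [FFp_poi hN]
  have hb : ∀ q : ℤ × ℤ, |gh N (lat q) * Real.cos (2 * π * Frac.ip (rot (-φ) * u) (lat q))| ≤ gh N (lat q) := by
    intro q
    rw [abs_mul, abs_of_pos (gh_pos N _)]
    exact mul_le_of_le_one_right (gh_pos N _).le (Real.abs_cos_le_one _)
  have hs := summable_gh hN
  exact (Summable.of_norm_bounded hs fun q => hb q).tsum_le_tsum (fun q => (le_abs_self _).trans (hb q)) hs

private theorem FFp_gh {N : ℝ} (hN : 1 ≤ N) : ∑' q : ℤ × ℤ, gh N (lat q) ≤ 16 * N ^ 2 := by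
  have hpi : 3 < π := Real.pi_gt_three
  have hc : 0 < π / N ^ 2 := by positivity
  refine (summable_gh (by linarith)).tsum_le_of_sum_le fun S => ?_
  have h1 := lat_sum hc S
  have h2 : ∀ q : ℤ × ℤ, gh N (lat q) = Real.exp (-(π / N ^ 2 * ‖lat q‖ ^ 2)) := by
    intro q
    unfold gh
    congr 2
    ring
  simp only [h2]
  refine h1.trans ?_
  have h3 : 1 / N ≤ √(π / N ^ 2) := by
    refine Real.le_sqrt_of_sq_le ?_
    rw [div_pow, one_pow]
    exact div_le_div_of_nonneg_right (by linarith) (by positivity)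
  have h4 : 2 / √(π / N ^ 2) ≤ 2 * N := by
    rw [div_le_iff₀ (Real.sqrt_pos.2 hc)]
    have h5 : 2 * N * (1 / N) ≤ 2 * N * √(π / N ^ 2) := mul_le_mul_of_nonneg_left h3 (by linarith)
    have h6 : 2 * N * (1 / N) = 2 := by
      have : N ≠ 0 := by linarith
      field_simp
    linarith
  have h7 : 0 ≤ 2 / √(π / N ^ 2) := by positivity
  nlinarith

theorem summable_cir {N : ℝ} (hN : 0 < N) (u : ℂ) :
    Summable (fun p : ℤ × ℤ => cir N (lat p) u) := by
  have hpi := Real.pi_pos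
  refine summable_of_sum_le (c := ∑' q : ℤ × ℤ, gh N (lat q)) (fun p => cir_nonneg N _ _) fun S => ?_
  unfold cir
  rw [← Finset.mul_sum, ← intervalIntegral.integral_finsetSum
    (fun p _ => (FFp_cont N (lat p) u).intervalIntegrable _ _)]
  have h1 : ∫ φ in (-π)..π, ∑ p ∈ S, gau N (u + rot φ * lat p) ≤
      ∫ _φ in (-π)..π, ∑' q : ℤ × ℤ, gh N (lat q) := by
    refine intervalIntegral.integral_mono_on (by linarith) ?_ (continuous_const.intervalIntegrable _ _) fun φ _ => ?_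
    · exact (continuous_finsetSum S fun p _ => FFp_cont N (lat p) u).intervalIntegrable _ _
    · exact ((FFp_sum hN u φ).sum_le_tsum S fun p _ => gau_nonneg N _).trans (FFp_tle hN u φ)
  rw [intervalIntegral.integral_const, smul_eq_mul] at h1
  calc (2 * π)⁻¹ * ∫ φ in (-π)..π, ∑ p ∈ S, gau N (u + rot φ * lat p)
      ≤ (2 * π)⁻¹ * ((π - -π) * ∑' q : ℤ × ℤ, gh N (lat q)) := mul_le_mul_of_nonneg_left h1 (by positivity)
    _ = ∑' q : ℤ × ℤ, gh N (lat q) := by
      field_simp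
      ring

theorem ff_nonneg (N : ℝ) (u : ℂ) : 0 ≤ FF N u := by
  unfold FF
  exact tsum_nonneg fun p => cir_nonneg N _ _

private theorem FFp_mean (u : ℂ) (y : ℂ) :
    ∫ φ in (-π)..π, Real.cos (2 * π * Frac.ip (rot (-φ) * u) y) = 2 * π * bes (‖y‖ * ‖u‖) := by
  have h1 : ∫ φ in (-π)..π, Real.cos (2 * π * Frac.ip (rot (-φ) * u) y) =
      ∫ φ in (-π)..π, Real.cos (2 * π * Frac.ip (rot φ * u) y) := by
    have := intervalIntegral.integral_comp_neg (a := -π) (b := π)
      (fun φ : ℝ => Real.cos (2 * π * Frac.ip (rot φ * u) y))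
    rw [neg_neg] at this
    exact this
  have h2 : ∀ φ : ℝ, Real.cos (2 * π * Frac.ip (rot φ * u) y) = Complex.reCLM (ee (Frac.ip (rot φ * u) y)) := by
    intro φ
    unfold ee
    rw [Complex.reCLM_apply, Complex.exp_ofReal_mul_I_re]
  have hc : Continuous (fun φ : ℝ => ee (Frac.ip (rot φ * u) y)) := by
    refine continuous_ee.comp ?_
    unfold Frac.ip rot
    fun_prop
  rw [h1]
  simp only [h2]
  rw [Complex.reCLM.intervalIntegral_comp_comm (hc.intervalIntegrable _ _), mean_ee, Complex.reCLM_apply,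
    Complex.ofReal_re, mul_comm ‖u‖ ‖y‖]

theorem ff_poisson {N : ℝ} (hN : 0 < N) (u : ℂ) :
    FF N u = ∑' q : ℤ × ℤ, gh N (lat q) * bes (‖lat q‖ * ‖u‖) := by
  have hpi := Real.pi_pos
  have hle : (-π : ℝ) ≤ π := by linarith
  have hS := summable_cir hN u
  have hcq : ∀ q : ℤ × ℤ, Continuous (fun φ : ℝ => gh N (lat q) * Real.cos (2 * π * Frac.ip (rot (-φ) * u) (lat q))) := by
    intro q
    unfold Frac.ip rot
    fun_prop
  have hI : ∀ f : ℝ → ℝ, Continuous f → Integrable f (volume.restrict (Ioc (-π) π)) := by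
    intro f hf
    have h := hf.intervalIntegrable (μ := volume) (-π) π
    rw [intervalIntegrable_iff_integrableOn_Ioc_of_le hle] at h
    exact h
  -- left side
  have hL : HasSum (fun p : ℤ × ℤ => ∫ φ in Ioc (-π) π, gau N (u + rot φ * lat p))
      (∫ φ in Ioc (-π) π, ∑' p : ℤ × ℤ, gau N (u + rot φ * lat p)) := by
    refine hasSum_integral_of_summable_integral_norm (fun p => hI _ (FFp_cont N (lat p) u)) ?_
    refine (hS.mul_left (2 * π)).congr fun p => ?_
    unfold cir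
    rw [intervalIntegral.integral_of_le hle]
    have h1 : ∀ φ : ℝ, ‖gau N (u + rot φ * lat p)‖ = gau N (u + rot φ * lat p) := fun φ => by
      rw [Real.norm_eq_abs, abs_of_nonneg (gau_nonneg N _)]
    simp only [h1]
    rw [← mul_assoc, mul_inv_cancel₀ (by positivity), one_mul]
  have hR : HasSum (fun q : ℤ × ℤ => ∫ φ in Ioc (-π) π, gh N (lat q) * Real.cos (2 * π * Frac.ip (rot (-φ) * u) (lat q)))
      (∫ φ in Ioc (-π) π, ∑' q : ℤ × ℤ, gh N (lat q) * Real.cos (2 * π * Frac.ip (rot (-φ) * u) (lat q))) := by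
    refine hasSum_integral_of_summable_integral_norm (fun q => hI _ (hcq q)) ?_
    refine Summable.of_nonneg_of_le (fun q => integral_nonneg fun φ => norm_nonneg _) (fun q => ?_)
      ((summable_gh hN).mul_left (2 * π))
    have h2 : ∫ φ in Ioc (-π) π, ‖gh N (lat q) * Real.cos (2 * π * Frac.ip (rot (-φ) * u) (lat q))‖ ≤
        ∫ _φ in Ioc (-π) π, gh N (lat q) := by
      refine integral_mono (hI _ (hcq q).norm) (hI _ continuous_const) fun φ => ?_
      simp only [norm_mul, Real.norm_eq_abs]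
      rw [abs_of_pos (gh_pos N _)]
      exact mul_le_of_le_one_right (gh_pos N _).le (Real.abs_cos_le_one _)
    refine h2.trans (le_of_eq ?_)
    rw [← intervalIntegral.integral_of_le hle, intervalIntegral.integral_const, smul_eq_mul]
    ring
  have hE : (∫ φ in Ioc (-π) π, ∑' p : ℤ × ℤ, gau N (u + rot φ * lat p)) =
      ∫ φ in Ioc (-π) π, ∑' q : ℤ × ℤ, gh N (lat q) * Real.cos (2 * π * Frac.ip (rot (-φ) * u) (lat q)) := by
    refine integral_congr_ae (Eventually.of_forall fun φ => ?_)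
    exact FFp_poi hN u φ
  have h3 : FF N u = (2 * π)⁻¹ * ∑' p : ℤ × ℤ, ∫ φ in Ioc (-π) π, gau N (u + rot φ * lat p) := by
    unfold FF cir
    rw [tsum_mul_left]
    congr 1
    exact tsum_congr fun p => intervalIntegral.integral_of_le hle
  rw [h3, hL.tsum_eq, hE, ← hR.tsum_eq, ← tsum_mul_left]
  refine tsum_congr fun q => ?_
  rw [← intervalIntegral.integral_of_le hle, intervalIntegral.integral_const_mul, FFp_mean]
  field_simp

theorem measurable_FF {N : ℝ} (hN : 0 < N) : Measurable (FF N) := by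
  have h1 : FF N = fun u => (∑' p : ℤ × ℤ, ENNReal.ofReal (cir N (lat p) u)).toReal := by
    funext u
    rw [← ENNReal.ofReal_tsum_of_nonneg (fun p => cir_nonneg N _ _) (summable_cir hN u),
      ENNReal.toReal_ofReal (tsum_nonneg fun p => cir_nonneg N _ _)]
    rfl
  rw [h1]
  exact (Measurable.ennreal_tsum fun p => (continuous_cir N (lat p)).measurable.ennreal_ofReal).ennreal_toReal

private theorem FFp_lat {q : ℤ × ℤ} (hq : q ≠ 0) : 1 ≤ ‖lat q‖ := by
  have h1 := norm_lat_sq q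
  have h2 : (1 : ℝ) ≤ (q.1 : ℝ) ^ 2 + (q.2 : ℝ) ^ 2 := by
    have h3 : (1 : ℤ) ≤ q.1 ^ 2 + q.2 ^ 2 := by
      by_contra hlt
      have h4 : q.1 ^ 2 + q.2 ^ 2 ≤ 0 := by omega
      have h5 : q.1 = 0 := by nlinarith [sq_nonneg q.1, sq_nonneg q.2]
      have h6 : q.2 = 0 := by nlinarith [sq_nonneg q.1, sq_nonneg q.2]
      exact hq (Prod.ext h5 h6)
    exact_mod_cast h3
  nlinarith [norm_nonneg (lat q)]

private theorem FFp_abs {N : ℝ} (hN : 0 < N) (u : ℂ) (q : ℤ × ℤ) :
    ‖gh N (lat q) * bes (‖lat q‖ * ‖u‖)‖ ≤ gh N (lat q) := by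
  rw [norm_mul, Real.norm_eq_abs, Real.norm_eq_abs, abs_of_pos (gh_pos N _)]
  exact mul_le_of_le_one_right (gh_pos N _).le (abs_bes_le_one _)

theorem ff_sub_one {N : ℝ} (hN : 1 ≤ N) {u : ℂ} (hu : u ≠ 0) :
    |FF N u - 1| ≤ 32 * N ^ 2 / √‖u‖ := by
  have hN0 : 0 < N := by linarith
  have hu0 : 0 < ‖u‖ := norm_pos_iff.2 hu
  have hs0 : 0 < √‖u‖ := Real.sqrt_pos.2 hu0
  have hsum : Summable (fun q : ℤ × ℤ => gh N (lat q) * bes (‖lat q‖ * ‖u‖)) :=
    Summable.of_norm_bounded (summable_gh hN0) fun q => FFp_abs hN0 u q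
  have h0 : gh N (lat 0) * bes (‖lat 0‖ * ‖u‖) = 1 := by
    have hl : lat 0 = 0 := by
      have h := norm_lat_sq 0
      have h' : ‖lat 0‖ ^ 2 = 0 := by
        rw [h]
        simp
      exact norm_eq_zero.1 (pow_eq_zero_iff (two_ne_zero) |>.1 h')
    rw [hl, norm_zero, zero_mul, bes_zero, mul_one]
    unfold gh
    simp
  rw [ff_poisson hN0 u, hsum.tsum_eq_add_tsum_ite 0, h0, add_sub_cancel_left]
  have hb : ∀ q : ℤ × ℤ, ‖(if q = 0 then 0 else gh N (lat q) * bes (‖lat q‖ * ‖u‖))‖ ≤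
      2 / √‖u‖ * gh N (lat q) := by
    intro q
    by_cases hq : q = 0
    · rw [if_pos hq, norm_zero]
      exact mul_nonneg (by positivity) (gh_pos N _).le
    · rw [if_neg hq, norm_mul, Real.norm_eq_abs, Real.norm_eq_abs, abs_of_pos (gh_pos N _), mul_comm]
      refine mul_le_mul_of_nonneg_right ?_ (gh_pos N _).le
      have h1 := FFp_lat hq
      have h2 : 0 < ‖lat q‖ * ‖u‖ := by positivity
      refine (abs_bes_le h2).trans ?_
      refine div_le_div_of_nonneg_left (by norm_num) hs0 (Real.sqrt_le_sqrt ?_)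
      nlinarith
  have hs2 := (summable_gh hN0).mul_left (2 / √‖u‖)
  have h3 := tsum_of_norm_bounded hs2.hasSum hb
  rw [Real.norm_eq_abs, tsum_mul_left] at h3
  refine h3.trans ?_
  have h4 := mul_le_mul_of_nonneg_left (FFp_gh hN) (by positivity : 0 ≤ 2 / √‖u‖)
  refine h4.trans (le_of_eq ?_)
  ring

theorem ff_le {N : ℝ} (hN : 1 ≤ N) (u : ℂ) : FF N u ≤ 16 * N ^ 2 := by
  have hN0 : 0 < N := by linarith
  rw [ff_poisson hN0 u]
  have h3 := tsum_of_norm_bounded (summable_gh hN0).hasSum (FFp_abs hN0 u)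
  rw [Real.norm_eq_abs] at h3
  exact (le_abs_self _).trans (h3.trans (FFp_gh hN))

end Pool.MPb9430d.Mom
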