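import Pool.Agent.Lib.MP_b9430d_co.Mom.Defs
import Pool.Agent.Lib.MP_b9430d_co.Frac.KerB
import Pool.Agent.Lib.MP_b9430d_co.Frac.CirB
import Pool.Agent.Lib.MP_b9430d_co.Frac.Semi
import Pool.Agent.Lib.MP_b9430d_co.Frac.IntS
import Pool.Agent.Lib.MP_b9430d_co.Frac.CirA

/-!
# FFs: the sup bound for FF far from the origin

`X ≥ 1`, `‖u‖ ≥ 2X`. Every finite partial sum of `cir N (lat p) u` is split into `‖lat p‖ ≤ X` and `‖lat p‖ > X`.
(i) `‖lat p‖ ≤ X`: `cir N (lat p) u ≤ N² exp(-π N² (‖u‖ - ‖lat p‖)²)` (`cir_le`), `‖u‖ - ‖lat p‖ ≥ X ≥ max (‖lat p‖) 1`, so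
`≤ N² exp(-π N²/2) exp(-(π/2) ‖lat p‖²)`; `N² exp(-πN²/2) ≤ 1` and `lat_sum` with `c = π/2`: total `≤ 16`.
(ii) `‖lat p‖ > X`, `N ≥ X`: `ker_bound` (Frac/KerB): `≤ C N^(1+ε)/X ≤ C (max N X)^ε (1 + N/X)`.
(iii) `‖lat p‖ > X`, `N < X`: `cir_conv` (Frac/Semi) with `C = N`, `A = X`, `1/B² = 1/N² - 1/X²`:
`cir N z u = ∫ cir X z (u - t) gau B t dt`, so the finite sum is `∫ (∑ cir X (lat p) (u - t)) gau B t ≤ C X^(1+ε)/X` by (ii) for
`N = X` at every point `u - t` (`∫ gau B = 1`). Then `Summable.tsum_le_of_sum_le` / `Real.tsum_le_of_sum_le`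
(nonnegative terms: `cir_nonneg`).
-/

set_option autoImplicit false

open MeasureTheory Complex Set Real Filter Topology
open scoped ENNReal

namespace Pool.MPb9430d.Mom

open Pool.MPb9430d Pool.MPb9430d.Rough Pool.MPb9430d.Frac

private theorem FFs_near {N X : ℝ} (hN : 1 ≤ N) (hX : 1 ≤ X) {u : ℂ} (hu : 2 * X ≤ ‖u‖) {p : ℤ × ℤ} (hp : ‖lat p‖ ≤ X) :
    cir N (lat p) u ≤ Real.exp (-(π / 2 * ‖lat p‖ ^ 2)) := by
  have hN0 : 0 < N := by linarith
  have hpi := Real.pi_gt_three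
  refine (cir_le hN0 _ _).trans ?_
  obtain ⟨a, ha⟩ : ∃ a, a = ‖lat p‖ := ⟨_, rfl⟩
  have ha0 : 0 ≤ a := by rw [ha]; exact norm_nonneg _
  rw [← ha] at hp ⊢
  have hN2 : 1 ≤ N ^ 2 := one_le_pow₀ hN
  have h1 : (1 + a ^ 2) / 2 ≤ (‖u‖ - a) ^ 2 := by
    have h2 : X ≤ ‖u‖ - a := by linarith
    have h3 : X ^ 2 ≤ (‖u‖ - a) ^ 2 := pow_le_pow_left₀ (by linarith) h2 2
    have h4 : 1 ≤ X ^ 2 := one_le_pow₀ hX
    have h5 : a ^ 2 ≤ X ^ 2 := pow_le_pow_left₀ ha0 hp 2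
    linarith
  have h2 : π * N ^ 2 / 2 + π / 2 * a ^ 2 ≤ π * N ^ 2 * (‖u‖ - a) ^ 2 := by
    have h3 : π * N ^ 2 * ((1 + a ^ 2) / 2) ≤ π * N ^ 2 * (‖u‖ - a) ^ 2 := mul_le_mul_of_nonneg_left h1 (by positivity)
    have h4 : π / 2 * a ^ 2 * 1 ≤ π / 2 * a ^ 2 * N ^ 2 := mul_le_mul_of_nonneg_left hN2 (by positivity)
    nlinarith
  have h3 : N ^ 2 ≤ Real.exp (π * N ^ 2 / 2) := by
    have h4 := Real.add_one_le_exp (π * N ^ 2 / 2)
    nlinarith
  calc N ^ 2 * Real.exp (-(π * N ^ 2 * (‖u‖ - a) ^ 2)) ≤ Real.exp (π * N ^ 2 / 2) * Real.exp (-(π * N ^ 2 / 2 + π / 2 * a ^ 2)) :=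
        mul_le_mul h3 (Real.exp_le_exp.2 (by linarith)) (Real.exp_pos _).le (Real.exp_pos _).le
    _ = Real.exp (-(π / 2 * a ^ 2)) := by
        rw [← Real.exp_add]
        congr 1
        ring

private theorem FFs_sum {N X : ℝ} (hN : 1 ≤ N) (hX : 1 ≤ X) {u : ℂ} (hu : 2 * X ≤ ‖u‖) (S : Finset (ℤ × ℤ)) :
    ∑ p ∈ S, cir N (lat p) u ≤ 16 + ∑ p ∈ S, Frac.ker N X u p := by
  have hpi := Real.pi_gt_three
  have h1 : ∀ p ∈ S, cir N (lat p) u ≤ Real.exp (-(π / 2 * ‖lat p‖ ^ 2)) + Frac.ker N X u p := by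
    intro p _
    unfold Frac.ker
    split_ifs with h
    · have := Real.exp_pos (-(π / 2 * ‖lat p‖ ^ 2))
      linarith
    · rw [add_zero]
      exact FFs_near hN hX hu (not_lt.1 h)
  refine (Finset.sum_le_sum h1).trans ?_
  rw [Finset.sum_add_distrib]
  have h2 := lat_sum (c := π / 2) (by linarith) S
  have h3 : 1 ≤ √(π / 2) := by
    rw [Real.one_le_sqrt]
    linarith
  have h4 : 2 / √(π / 2) ≤ 2 := by
    rw [div_le_iff₀ (by linarith)]
    linarith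
  have h5 : 0 ≤ 2 / √(π / 2) := by positivity
  have h6 : (2 + 2 / √(π / 2)) ^ 2 ≤ 16 := by nlinarith
  linarith

private theorem FFs_int {X B : ℝ} (hB : 0 < B) (z u : ℂ) : Integrable (fun t => cir X z (u - t) * gau B t) := by
  refine (integrable_gau hB).bdd_mul (c := X ^ 2) ?_ (Eventually.of_forall fun t => ?_)
  · exact ((continuous_cir X z).comp (continuous_const.sub continuous_id)).aestronglyMeasurable
  · rw [Real.norm_eq_abs, abs_of_nonneg (cir_nonneg _ _ _)]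
    exact cir_le_sq _ _ _

private theorem FFs_low {N X C : ℝ} (hN : 1 ≤ N) (hNX : N < X) (hC : ∀ p : ℂ, ∀ S : Finset (ℤ × ℤ), ∑ q ∈ S, Frac.ker X X p q ≤ C)
    (u : ℂ) (S : Finset (ℤ × ℤ)) : ∑ q ∈ S, Frac.ker N X u q ≤ C := by
  have hN0 : 0 < N := by linarith
  have hX0 : 0 < X := by linarith
  have hd : 0 < 1 / N ^ 2 - 1 / X ^ 2 := by
    have h1 : 1 / X ^ 2 < 1 / N ^ 2 := one_div_lt_one_div_of_lt (by positivity) (pow_lt_pow_left₀ hNX hN0.le two_ne_zero)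
    linarith
  obtain ⟨B, hB0, hB⟩ : ∃ B : ℝ, 0 < B ∧ 1 / N ^ 2 = 1 / X ^ 2 + 1 / B ^ 2 := by
    refine ⟨√(1 / (1 / N ^ 2 - 1 / X ^ 2)), Real.sqrt_pos.2 (by positivity), ?_⟩
    rw [Real.sq_sqrt (by positivity), one_div_one_div]
    ring
  have h1 : ∀ q, Frac.ker N X u q = ∫ t, Frac.ker X X (u - t) q * gau B t := by
    intro q
    unfold Frac.ker
    split_ifs with h
    · exact (cir_conv hX0 hB0 hN0 hB (lat q) u).symm
    · simp
  have hint : ∀ q ∈ S, Integrable (fun t => Frac.ker X X (u - t) q * gau B t) := by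
    intro q _
    unfold Frac.ker
    split_ifs with h
    · exact FFs_int hB0 (lat q) u
    · simp
  rw [Finset.sum_congr rfl fun q _ => h1 q, ← integral_finsetSum S hint]
  calc ∫ t, ∑ q ∈ S, Frac.ker X X (u - t) q * gau B t ≤ ∫ t, C * gau B t := by
        refine integral_mono (integrable_finsetSum S hint) ((integrable_gau hB0).const_mul C) fun t => ?_
        show ∑ q ∈ S, Frac.ker X X (u - t) q * gau B t ≤ C * gau B t
        rw [← Finset.sum_mul]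
        exact mul_le_mul_of_nonneg_right (hC _ S) (gau_nonneg _ _)
    _ = C := by rw [integral_const_mul, integral_gau hB0, mul_one]

theorem ff_sup {ε : ℝ} (hε : 0 < ε) : ∃ C : ℝ, 0 < C ∧ ∀ N X : ℝ, 1 ≤ N → 1 ≤ X → ∀ u : ℂ,
    2 * X ≤ ‖u‖ → FF N u ≤ C * (max N X) ^ ε * (1 + N / X) := by
  obtain ⟨C, hC0, hC⟩ := ker_bound hε
  refine ⟨16 + C, by linarith, fun N X hN hX u hu => ?_⟩
  have hN0 : 0 < N := by linarith
  have hX0 : 0 < X := by linarith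
  have hM1 : 1 ≤ max N X := hN.trans (le_max_left _ _)
  have hMe : 1 ≤ (max N X) ^ ε := Real.one_le_rpow hM1 hε.le
  have hq : 0 < N / X := by positivity
  have h1 : 1 ≤ (max N X) ^ ε * (1 + N / X) := by nlinarith
  unfold FF
  refine Real.tsum_le_of_sum_le (fun p => cir_nonneg _ _ _) fun S => ?_
  refine (FFs_sum hN hX hu S).trans ?_
  have h2 : ∑ p ∈ S, Frac.ker N X u p ≤ C * ((max N X) ^ ε * (1 + N / X)) := by
    rcases le_or_gt X N with h | h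
    · refine (hC N X hN hX h u S).trans ?_
      rw [max_eq_left h, Real.rpow_add hN0, Real.rpow_one]
      have h3 : 0 < N ^ ε := Real.rpow_pos_of_pos hN0 _
      calc C * (N * N ^ ε) / X = C * (N ^ ε * (N / X)) := by ring
        _ ≤ C * (N ^ ε * (1 + N / X)) := by
            refine mul_le_mul_of_nonneg_left (mul_le_mul_of_nonneg_left (by linarith) h3.le) hC0.le
    · have h4 : ∑ q ∈ S, Frac.ker N X u q ≤ C * X ^ (1 + ε) / X := FFs_low hN h (fun p S => hC X X hX hX le_rfl p S) u S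
      refine h4.trans ?_
      rw [max_eq_right h.le, Real.rpow_add hX0, Real.rpow_one]
      have h3 : 0 < X ^ ε := Real.rpow_pos_of_pos hX0 _
      calc C * (X * X ^ ε) / X = C * (X ^ ε * 1) := by field_simp
        _ ≤ C * (X ^ ε * (1 + N / X)) := by
            refine mul_le_mul_of_nonneg_left (mul_le_mul_of_nonneg_left (by linarith) h3.le) hC0.le
  have e : (16 + C) * (max N X) ^ ε * (1 + N / X) = 16 * ((max N X) ^ ε * (1 + N / X)) + C * ((max N X) ^ ε * (1 + N / X)) := by ring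
  rw [e]
  linarith

end Pool.MPb9430d.Mom
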