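import Pool.Agent.Lib.MP_b9430d_co.Mom.Sym
import Pool.Agent.Lib.MP_b9430d_co.Frac.GauF

/-!
# LocM: local mass bounds

`ss_ball`: for every `θ` and every `z` the number of `p` with `‖z + rot θ * lat p‖ ≤ r` is at most `(2 r + 1)²`
(`‖z + rot θ * lat p‖ = ‖rot (-θ) * z + lat p‖`; real and imaginary part of `lat p` lie in intervals of length `2 r`, each
has at most `2 r + 1` integers), so `∑' p, ind (closedBall 0 r) (y + rot θ * lat p) ≤ (2r+1)²`.
`ss_smo_ball`: `smo N (chi K) x = ∫ gau N t * chi K (x - t)` so `∑' p, smo N (chi K) (y + rot θ * lat p)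
= ∫ gau N t * (∑' p, ind K (y - t + rot θ * lat p)) ≤ (2r+1)²` (work with `∫⁻`: `ofReal (smo ..) = ∫⁻ ofReal (gau N t) * ind ..`,
`lintegral_tsum`). `ball_mass`: `ss_symm` with `f = ind (closedBall 0 r)`, `g = ind A`.
-/

set_option autoImplicit false

open MeasureTheory Complex Set Real Filter Topology
open scoped ENNReal

namespace Pool.MPb9430d.Mom

open Pool.MPb9430d Pool.MPb9430d.Rough Pool.MPb9430d.Frac

private theorem LocM_mean {F : ℝ → ℝ≥0∞} {c : ℝ≥0∞} (h : ∀ θ, F θ ≤ c) :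
    ENNReal.ofReal (2 * π)⁻¹ * ∫⁻ θ in Ioc (-π) π, F θ ≤ c := by
  have hc : ENNReal.ofReal (2 * π)⁻¹ * ENNReal.ofReal (2 * π) = 1 := by
    have hp := Real.pi_pos
    rw [← ENNReal.ofReal_mul (by positivity), inv_mul_cancel₀ (by positivity), ENNReal.ofReal_one]
  have hvol : volume (Ioc (-π) π) = ENNReal.ofReal (2 * π) := by
    rw [Real.volume_Ioc]
    congr 1
    ring
  calc ENNReal.ofReal (2 * π)⁻¹ * ∫⁻ θ in Ioc (-π) π, F θ
      ≤ ENNReal.ofReal (2 * π)⁻¹ * ∫⁻ _θ in Ioc (-π) π, c := by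
        gcongr with θ
        exact h θ
    _ = c := by rw [setLIntegral_const, hvol, mul_comm c, ← mul_assoc, hc, one_mul]

private theorem LocM_Icc {r : ℝ} (hr : 0 ≤ r) (x : ℝ) :
    ((Finset.Icc ⌈x - r⌉ ⌊x + r⌋).card : ℝ) ≤ 2 * r + 1 := by
  rw [Int.card_Icc]
  have h1 : ((⌊x + r⌋ + 1 - ⌈x - r⌉ : ℤ) : ℝ) ≤ 2 * r + 1 := by
    push_cast
    linarith [Int.floor_le (x + r), Int.le_ceil (x - r)]
  rcases le_total 0 (⌊x + r⌋ + 1 - ⌈x - r⌉) with h | h
  · have h2 : (((⌊x + r⌋ + 1 - ⌈x - r⌉).toNat : ℤ) : ℝ) = ((⌊x + r⌋ + 1 - ⌈x - r⌉ : ℤ) : ℝ) := by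
      rw [Int.toNat_of_nonneg h]
    rw [Int.cast_natCast] at h2
    rw [h2]
    exact h1
  · rw [Int.toNat_of_nonpos h]
    push_cast
    linarith

private theorem LocM_cnt {r : ℝ} (hr : 0 ≤ r) (θ : ℝ) (y : ℂ) :
    ∑' p : ℤ × ℤ, ind (Metric.closedBall 0 r) (y + rot θ * lat p) ≤
      ENNReal.ofReal ((2 * r + 1) ^ 2) := by
  rw [tsum_ind]
  obtain ⟨c, hc⟩ : ∃ c : ℂ, c = rot (-θ) * y := ⟨_, rfl⟩
  obtain ⟨T, hT⟩ : ∃ T : Finset (ℤ × ℤ), T = Finset.Icc ⌈-c.re - r⌉ ⌊-c.re + r⌋ ×ˢ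
    Finset.Icc ⌈-c.im - r⌉ ⌊-c.im + r⌋ := ⟨_, rfl⟩
  have hsub : {p : ℤ × ℤ | y + rot θ * lat p ∈ Metric.closedBall 0 r} ⊆ (T : Set (ℤ × ℤ)) := by
    intro p hp
    have h1 : ‖y + rot θ * lat p‖ ≤ r := by
      rw [← mem_closedBall_zero_iff]
      exact hp
    have h2 : ‖c + lat p‖ ≤ r := by
      have e : c + lat p = rot (-θ) * (y + rot θ * lat p) := by
        have e1 : rot (-θ) * rot θ = 1 := by
          rw [← rot_add, neg_add_cancel]
          simp [rot]
        rw [hc, mul_add, ← mul_assoc, e1, one_mul]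
      rw [e, norm_mul, norm_rot, one_mul]
      exact h1
    have h3 := (Complex.abs_re_le_norm _).trans h2
    have h4 := (Complex.abs_im_le_norm _).trans h2
    rw [Complex.add_re, lat_re, abs_le] at h3
    rw [Complex.add_im, lat_im, abs_le] at h4
    rw [hT, Finset.coe_product, Set.mem_prod, Finset.mem_coe, Finset.mem_coe, Finset.mem_Icc,
      Finset.mem_Icc, Int.ceil_le, Int.le_floor, Int.ceil_le, Int.le_floor]
    refine ⟨⟨?_, ?_⟩, ⟨?_, ?_⟩⟩ <;> linarith [h3.1, h3.2, h4.1, h4.2]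
  have h5 : ({p : ℤ × ℤ | y + rot θ * lat p ∈ Metric.closedBall 0 r}.encard : ℕ∞) ≤
      (T.card : ℕ∞) := by
    rw [← Set.encard_coe_eq_coe_finsetCard]
    exact Set.encard_le_encard hsub
  have h6 : (T.card : ℝ) ≤ (2 * r + 1) ^ 2 := by
    rw [hT, Finset.card_product, Nat.cast_mul, sq]
    exact mul_le_mul (LocM_Icc hr _) (LocM_Icc hr _) (Nat.cast_nonneg _) (by positivity)
  calc (({p : ℤ × ℤ | y + rot θ * lat p ∈ Metric.closedBall 0 r}.encard : ℕ∞) : ℝ≥0∞)
      ≤ ((T.card : ℕ∞) : ℝ≥0∞) := ENat.toENNReal_le.2 h5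
    _ = ENNReal.ofReal (T.card : ℝ) := by
        rw [ENat.toENNReal_coe, ENNReal.ofReal_natCast]
    _ ≤ ENNReal.ofReal ((2 * r + 1) ^ 2) := ENNReal.ofReal_le_ofReal h6

theorem ss_ball {r : ℝ} (hr : 0 ≤ r) (y : ℂ) :
    SS (ind (Metric.closedBall 0 r)) y ≤ ENNReal.ofReal ((2 * r + 1) ^ 2) := by
  unfold SS
  exact LocM_mean fun θ => LocM_cnt hr θ y

theorem ss_smo_ball {N r : ℝ} (hN : 0 < N) (hr : 0 ≤ r) (y : ℂ) :
    SS (fun x => ENNReal.ofReal (smo N (chi (Metric.closedBall 0 r)) x)) y ≤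
      ENNReal.ofReal ((2 * r + 1) ^ 2) := by
  unfold SS
  refine LocM_mean fun θ => ?_
  obtain ⟨K, hK⟩ : ∃ K : Set ℂ, K = Metric.closedBall 0 r := ⟨_, rfl⟩
  have hKm : MeasurableSet K := by
    rw [hK]
    exact Metric.isClosed_closedBall.measurableSet
  have hgm : Measurable (fun t : ℂ => ENNReal.ofReal (gau N t)) :=
    (continuous_gau N).measurable.ennreal_ofReal
  have hch : Measurable (chi K) := measurable_const.indicator hKm
  have h0 : ∀ x : ℂ, ENNReal.ofReal (smo N (chi K) x) ≤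
      ∫⁻ t, ENNReal.ofReal (gau N t) * ind K (x - t) := by
    intro x
    unfold smo
    rw [integral_eq_lintegral_of_nonneg_ae]
    · refine ENNReal.ofReal_toReal_le.trans ?_
      rw [← lintegral_sub_left_eq_self (fun t : ℂ => ENNReal.ofReal (gau N t) * ind K (x - t)) x]
      refine le_of_eq (lintegral_congr fun t => ?_)
      rw [sub_sub_cancel, ENNReal.ofReal_mul (gau_nonneg _ _)]
      congr 1
      unfold chi
      by_cases ht : t ∈ K
      · rw [indicator_of_mem ht, ind_of_mem ht, ENNReal.ofReal_one]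
      · rw [indicator_of_notMem ht, ind_of_notMem ht, ENNReal.ofReal_zero]
    · refine Filter.Eventually.of_forall fun t => ?_
      refine mul_nonneg (gau_nonneg _ _) ?_
      unfold chi
      exact indicator_nonneg (fun _ _ => zero_le_one) _
    · exact (((continuous_gau N).measurable.comp (measurable_const.sub measurable_id)).mul
        hch).aestronglyMeasurable
  rw [← hK]
  have hgi : ∫⁻ t : ℂ, ENNReal.ofReal (gau N t) = 1 := by
    rw [← ofReal_integral_eq_lintegral_ofReal (integrable_gau hN)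
      (Filter.Eventually.of_forall fun t => gau_nonneg N t), integral_gau hN, ENNReal.ofReal_one]
  calc ∑' p : ℤ × ℤ, ENNReal.ofReal (smo N (chi K) (y + rot θ * lat p))
      ≤ ∑' p : ℤ × ℤ, ∫⁻ t, ENNReal.ofReal (gau N t) * ind K (y + rot θ * lat p - t) :=
        ENNReal.tsum_le_tsum fun p => h0 _
    _ = ∫⁻ t, ∑' p : ℤ × ℤ, ENNReal.ofReal (gau N t) * ind K (y + rot θ * lat p - t) := by
        rw [lintegral_tsum]
        intro p
        exact (hgm.mul ((measurable_ind hKm).comp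
          (measurable_const.sub measurable_id))).aemeasurable
    _ ≤ ∫⁻ t, ENNReal.ofReal (gau N t) * ENNReal.ofReal ((2 * r + 1) ^ 2) := by
        refine lintegral_mono fun t => ?_
        rw [ENNReal.tsum_mul_left]
        gcongr
        have h1 := LocM_cnt hr θ (y - t)
        rw [← hK] at h1
        refine le_trans (le_of_eq (tsum_congr fun p => ?_)) h1
        congr 1
        ring
    _ = ENNReal.ofReal ((2 * r + 1) ^ 2) := by
        rw [lintegral_mul_const _ hgm, hgi, one_mul]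

theorem ball_mass {A : Set ℂ} (hA : MeasurableSet A) {r : ℝ} (hr : 0 ≤ r) :
    ∫⁻ x in Metric.closedBall 0 r, SS (ind A) x ≤
      ENNReal.ofReal ((2 * r + 1) ^ 2) * volume A := by
  obtain ⟨K, hK⟩ : ∃ K : Set ℂ, K = Metric.closedBall 0 r := ⟨_, rfl⟩
  have hKm : MeasurableSet K := by
    rw [hK]
    exact Metric.isClosed_closedBall.measurableSet
  rw [← hK]
  have h1 : ∫⁻ x in K, SS (ind A) x = ∫⁻ x, ind K x * SS (ind A) x := by
    rw [← lintegral_indicator hKm]
    refine lintegral_congr fun x => ?_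
    by_cases hx : x ∈ K
    · rw [ind_of_mem hx, indicator_of_mem hx, one_mul]
    · rw [ind_of_notMem hx, indicator_of_notMem hx, zero_mul]
  rw [h1, ss_symm (measurable_ind hKm) (measurable_ind hA)]
  calc ∫⁻ x, ind A x * SS (ind K) x
      ≤ ∫⁻ x, ind A x * ENNReal.ofReal ((2 * r + 1) ^ 2) := by
        refine lintegral_mono fun x => ?_
        have h2 := ss_ball hr x
        rw [← hK] at h2
        gcongr
    _ = ENNReal.ofReal ((2 * r + 1) ^ 2) * volume A := by
        rw [lintegral_mul_const _ (measurable_ind hA), lintegral_ind hA, mul_comm]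

end Pool.MPb9430d.Mom
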