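import Pool.Agent.Lib.MP_b9430d_co.Mom.Sym

/-!
# Sym2: double symmetry

Both sides are `(2π)⁻² ∫⁻ θ ∫⁻ θ' ∑' p ∑' q ∫⁻ ..`: left: `∫⁻ w, h (w + rot θ * lat p) Φ (w, w + rot θ * lat p + rot θ' * lat q)`; put `x = w + rot θ * lat p`
(translation): `∫⁻ x, h x Φ (x - rot θ * lat p, x + rot θ' * lat q)`; the right side is the same after `y = x + rot θ' lat q` and `p ↦ -p`, `q ↦ -q`, i.e. both are
`∫⁻ x, h x [(2π)⁻² ∫⁻ θ ∑' p ∫⁻ θ' ∑' q Φ (x + rot θ * lat p, x + rot θ' * lat q)]`. Tonelli throughout (`Φ`, `h` measurable).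
-/

set_option autoImplicit false

open MeasureTheory Complex Set Real Filter Topology
open scoped ENNReal

namespace Pool.MPb9430d.Mom

open Pool.MPb9430d Pool.MPb9430d.Rough Pool.MPb9430d.Frac

private noncomputable def nuS : Measure (ℝ × (ℤ × ℤ)) :=
  ((volume : Measure ℝ).restrict (Ioc (-π) π)).prod Measure.count

private instance : SFinite nuS := by
  unfold nuS
  infer_instance

private noncomputable def vS (t : ℝ × (ℤ × ℤ)) : ℂ := rot t.1 * lat t.2

private theorem meas_vS : Measurable vS := by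
  unfold vS
  exact (measurable_rot.comp measurable_fst).mul ((measurable_of_countable lat).comp measurable_snd)

private theorem ss_nu {g : ℂ → ℝ≥0∞} (hg : Measurable g) (y : ℂ) :
    SS g y = ENNReal.ofReal (2 * π)⁻¹ * ∫⁻ t, g (y + vS t) ∂nuS := by
  have hm : Measurable (fun t => g (y + vS t)) := hg.comp (measurable_const.add meas_vS)
  unfold SS nuS
  rw [lintegral_prod _ hm.aemeasurable]
  congr 1
  apply lintegral_congr
  intro θ
  rw [lintegral_count]
  rfl

private theorem lat_negS (p : ℤ × ℤ) : lat (-p) = -lat p := by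
  unfold lat
  simp only [Prod.fst_neg, Prod.snd_neg, Int.cast_neg]
  ring

private theorem nu_neg {g : ℂ → ℝ≥0∞} (hg : Measurable g) (y : ℂ) :
    ∫⁻ t, g (y - vS t) ∂nuS = ∫⁻ t, g (y + vS t) ∂nuS := by
  have hm : Measurable (fun t => g (y + vS t)) := hg.comp (measurable_const.add meas_vS)
  have hn : Measurable (fun t => g (y - vS t)) := hg.comp (measurable_const.sub meas_vS)
  unfold nuS
  rw [lintegral_prod _ hm.aemeasurable, lintegral_prod _ hn.aemeasurable]
  apply lintegral_congr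
  intro θ
  rw [lintegral_count, lintegral_count, ← (Equiv.neg (ℤ × ℤ)).tsum_eq]
  apply tsum_congr
  intro p
  simp only [Equiv.neg_apply, vS, lat_negS, mul_neg, sub_neg_eq_add]

private theorem sym_gen {K : ℂ × ℂ → ℝ≥0∞} (hK : Measurable K) :
    ∫⁻ w, SS (fun x => K (w, x)) w = ∫⁻ x, SS (fun w => K (w, x)) x := by
  have h1 : ∀ w, Measurable (fun x => K (w, x)) := fun w => hK.comp measurable_prodMk_left
  have h2 : ∀ x, Measurable (fun w => K (w, x)) := fun x => hK.comp measurable_prodMk_right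
  have e1 : ∀ w, SS (fun x => K (w, x)) w =
      ENNReal.ofReal (2 * π)⁻¹ * ∫⁻ t, K (w, w + vS t) ∂nuS := fun w => ss_nu (h1 w) w
  have e2 : ∀ x, SS (fun w => K (w, x)) x =
      ENNReal.ofReal (2 * π)⁻¹ * ∫⁻ t, K (x - vS t, x) ∂nuS := by
    intro x
    rw [ss_nu (h2 x) x, ← nu_neg (h2 x) x]
  have m1 : Measurable (fun q : ℂ × (ℝ × (ℤ × ℤ)) => K (q.1, q.1 + vS q.2)) :=
    hK.comp (measurable_fst.prodMk (measurable_fst.add (meas_vS.comp measurable_snd)))
  have m2 : Measurable (fun q : ℂ × (ℝ × (ℤ × ℤ)) => K (q.1 - vS q.2, q.1)) :=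
    hK.comp ((measurable_fst.sub (meas_vS.comp measurable_snd)).prodMk measurable_fst)
  rw [lintegral_congr e1, lintegral_congr e2,
    lintegral_const_mul _ m1.lintegral_prod_right', lintegral_const_mul _ m2.lintegral_prod_right']
  congr 1
  have s1 : ∫⁻ w, ∫⁻ t, K (w, w + vS t) ∂nuS = ∫⁻ t, (∫⁻ w, K (w, w + vS t)) ∂nuS :=
    lintegral_lintegral_swap m1.aemeasurable
  have s2 : ∫⁻ x, ∫⁻ t, K (x - vS t, x) ∂nuS = ∫⁻ t, (∫⁻ x, K (x - vS t, x)) ∂nuS :=
    lintegral_lintegral_swap m2.aemeasurable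
  refine s1.trans (Eq.trans ?_ s2.symm)
  apply lintegral_congr
  intro t
  have := lintegral_add_right_eq_self (μ := (volume : Measure ℂ))
    (fun x => K (x - vS t, x)) (vS t)
  rw [← this]
  apply lintegral_congr
  intro x
  simp only [add_sub_cancel_right]

theorem sym_two {h : ℂ → ℝ≥0∞} (hh : Measurable h) {Φ : ℂ × ℂ → ℝ≥0∞} (hΦ : Measurable Φ) :
    ∫⁻ w, SS (fun x => h x * SS (fun y => Φ (w, y)) x) w =
      ∫⁻ y, SS (fun x => h x * SS (fun w => Φ (w, y)) x) y := by
  have h1 : ∀ w, Measurable (fun y => Φ (w, y)) := fun w => hΦ.comp measurable_prodMk_left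
  have h2 : ∀ y, Measurable (fun w => Φ (w, y)) := fun x => hΦ.comp measurable_prodMk_right
  -- joint measurability of the inner sums
  have k1 : Measurable (fun q : ℂ × ℂ => h q.2 * SS (fun y => Φ (q.1, y)) q.2) := by
    refine (hh.comp measurable_snd).mul ?_
    have e : (fun q : ℂ × ℂ => SS (fun y => Φ (q.1, y)) q.2) = fun q : ℂ × ℂ =>
        ENNReal.ofReal (2 * π)⁻¹ * ∫⁻ t, Φ (q.1, q.2 + vS t) ∂nuS := by
      funext q
      exact ss_nu (h1 q.1) q.2
    rw [e]
    refine measurable_const.mul (Measurable.lintegral_prod_right' (f := fun r : (ℂ × ℂ) × (ℝ × (ℤ × ℤ)) =>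
      Φ (r.1.1, r.1.2 + vS r.2)) ?_)
    exact hΦ.comp ((measurable_fst.comp measurable_fst).prodMk
      ((measurable_snd.comp measurable_fst).add (meas_vS.comp measurable_snd)))
  have k2 : Measurable (fun q : ℂ × ℂ => h q.2 * SS (fun w => Φ (w, q.1)) q.2) := by
    refine (hh.comp measurable_snd).mul ?_
    have e : (fun q : ℂ × ℂ => SS (fun w => Φ (w, q.1)) q.2) = fun q : ℂ × ℂ =>
        ENNReal.ofReal (2 * π)⁻¹ * ∫⁻ t, Φ (q.2 + vS t, q.1) ∂nuS := by
      funext q
      exact ss_nu (h2 q.1) q.2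
    rw [e]
    refine measurable_const.mul (Measurable.lintegral_prod_right' (f := fun r : (ℂ × ℂ) × (ℝ × (ℤ × ℤ)) =>
      Φ (r.1.2 + vS r.2, r.1.1)) ?_)
    exact hΦ.comp (((measurable_snd.comp measurable_fst).add (meas_vS.comp measurable_snd)).prodMk
      (measurable_fst.comp measurable_fst))
  have a1 := sym_gen k1
  have a2 := sym_gen k2
  simp only at a1 a2
  rw [a1, a2]
  apply lintegral_congr
  intro x
  have c1 : Measurable (fun w => h x * SS (fun y => Φ (w, y)) x) := k1.comp measurable_prodMk_right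
  have c2 : Measurable (fun y => h x * SS (fun w => Φ (w, y)) x) := k2.comp measurable_prodMk_right
  rw [ss_nu c1 x, ss_nu c2 x]
  congr 1
  have d1 : ∀ t, h x * SS (fun y => Φ (x + vS t, y)) x =
      (h x * ENNReal.ofReal (2 * π)⁻¹) * ∫⁻ s, Φ (x + vS t, x + vS s) ∂nuS := by
    intro t
    rw [ss_nu (h1 _) x, mul_assoc]
  have d2 : ∀ t, h x * SS (fun w => Φ (w, x + vS t)) x =
      (h x * ENNReal.ofReal (2 * π)⁻¹) * ∫⁻ s, Φ (x + vS s, x + vS t) ∂nuS := by
    intro t
    rw [ss_nu (h2 _) x, mul_assoc]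
  have m1 : Measurable (fun q : (ℝ × (ℤ × ℤ)) × (ℝ × (ℤ × ℤ)) => Φ (x + vS q.1, x + vS q.2)) :=
    hΦ.comp ((measurable_const.add (meas_vS.comp measurable_fst)).prodMk
      (measurable_const.add (meas_vS.comp measurable_snd)))
  have m2 : Measurable (fun q : (ℝ × (ℤ × ℤ)) × (ℝ × (ℤ × ℤ)) => Φ (x + vS q.2, x + vS q.1)) :=
    hΦ.comp ((measurable_const.add (meas_vS.comp measurable_snd)).prodMk
      (measurable_const.add (meas_vS.comp measurable_fst)))
  rw [lintegral_congr d1, lintegral_congr d2, lintegral_const_mul _ m1.lintegral_prod_right',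
    lintegral_const_mul _ m2.lintegral_prod_right']
  congr 1
  exact lintegral_lintegral_swap m1.aemeasurable

end Pool.MPb9430d.Mom
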