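import Pool.Agent.Lib.MP_b9430d_co.Mom.PropM
import Pool.Agent.Lib.MP_b9430d_co.Mom.Sym2

/-!
# MidM: the middle part of the proof

`V` (the middle part of `E`) and `A ⊆ V`, `A = V ∩ {R ≤ ‖y‖}`, everything in `{1000ρ ≤ ‖y‖ ≤ T}`. `∫⁻ ind K * SS (ind V) * SS (ind A) = ∫⁻ w in A, SS (ind K * SS (ind V)) w` (`ss_symm`). Split
`ind V y = Φ₁ (w, y) + Φ₂ (w, y)`, `Φ₁ = 1[y ∈ V, ‖y‖ ≤ ‖w‖]`, `Φ₂ = 1[y ∈ V, ‖w‖ < ‖y‖]` (`ss_add`). First part: for `w ∈ A` `prop_m` with `B = V ∩ {‖y‖ ≤ ‖w‖}`: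
`≤ C T^ε |V|^(1/3)`. Second part: `sym_two` with `Φ (w, y) = 1[w ∈ A, y ∈ V, ‖w‖ < ‖y‖]`: it is `∫⁻ y, SS (ind K * SS (1[w ∈ A, ‖w‖ < ‖y‖, y ∈ V])) y`, nonzero only for `y ∈ V` with
`‖y‖ > R`, i.e. `y ∈ A`, and `prop_m` with `B = A ∩ {‖w‖ < ‖y‖}` (roles exchanged). Total `≤ 2 C T^ε |V|^(1/3) |A|`.
-/

set_option autoImplicit false

open MeasureTheory Complex Set Real Filter Topology
open scoped ENNReal

namespace Pool.MPb9430d.Mom

open Pool.MPb9430d Pool.MPb9430d.Rough Pool.MPb9430d.Frac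

private lemma MidM_zero (K : Set ℂ) {g : ℂ → ℝ≥0∞} (hg : ∀ y, g y = 0) (w : ℂ) :
    SS (fun x => ind K x * SS g x) w = 0 := by
  have h1 : g = fun _ => 0 := funext hg
  have h2 : ∀ x, SS g x = 0 := by
    intro x
    rw [h1]
    simp [SS]
  have h3 : (fun x => ind K x * SS g x) = fun _ => 0 := by
    funext x
    rw [h2, mul_zero]
  rw [h3]
  simp [SS]

theorem mid_main {ε : ℝ} (hε : 0 < ε) {ρ : ℝ} (hρ : 1 ≤ ρ) : ∃ C : ℝ, 0 < C ∧ ∀ R T : ℝ,
    1000 * ρ ≤ R → ∀ V : Set ℂ, MeasurableSet V → volume V ≤ 1 →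
    (∀ y ∈ V, 1000 * ρ ≤ ‖y‖ ∧ ‖y‖ ≤ T) →
    ∫⁻ x, ind (Metric.closedBall 0 ρ) x * SS (ind V) x * SS (ind (V ∩ {y | R ≤ ‖y‖})) x ≤
      ENNReal.ofReal (C * T ^ ε * volume.real V ^ (1 / 3 : ℝ)) * volume (V ∩ {y | R ≤ ‖y‖}) := by
  obtain ⟨C, hC, hP⟩ := prop_m hε hρ
  refine ⟨2 * C, by positivity, ?_⟩
  intro R T hR V hV hv hVT
  set A : Set ℂ := V ∩ {y | R ≤ ‖y‖} with hA
  have hAm : MeasurableSet A := hV.inter (measurableSet_le measurable_const measurable_norm)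
  have hfin : volume V ≠ ∞ := ne_top_of_le_ne_top ENNReal.one_ne_top hv
  have hK : MeasurableSet (Metric.closedBall (0 : ℂ) ρ) := Metric.isClosed_closedBall.measurableSet
  have hSV : Measurable (SS (ind V)) := measurable_SS (measurable_ind hV)
  have hh : Measurable fun x => ind (Metric.closedBall 0 ρ) x * SS (ind V) x := (measurable_ind hK).mul hSV
  -- the bound of Proposition M
  have key : ∀ w : ℂ, w ∈ V → ∀ B : Set ℂ, MeasurableSet B → B ⊆ V → (∀ y ∈ B, ‖y‖ ≤ ‖w‖) →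
      SS (fun x => ind (Metric.closedBall 0 ρ) x * SS (ind B) x) w ≤
        ENNReal.ofReal (C * T ^ ε * volume.real V ^ (1 / 3 : ℝ)) := by
    intro w hw B hB hBV hBw
    refine (hP w (hVT w hw).1 B hB (fun y hy => ⟨(hVT y (hBV hy)).1, hBw y hy⟩) ((measure_mono hBV).trans hv)).trans ?_
    refine ENNReal.ofReal_le_ofReal ?_
    have h1 : ‖w‖ ^ ε ≤ T ^ ε := Real.rpow_le_rpow (norm_nonneg _) (hVT w hw).2 hε.le
    have h2 : volume.real B ^ (1 / 3 : ℝ) ≤ volume.real V ^ (1 / 3 : ℝ) :=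
      Real.rpow_le_rpow measureReal_nonneg (measureReal_mono hBV hfin) (by norm_num)
    have h3 : 0 ≤ ‖w‖ ^ ε := by positivity
    have h4 : 0 ≤ T ^ ε := h3.trans h1
    have h5 : 0 ≤ volume.real B ^ (1 / 3 : ℝ) := Real.rpow_nonneg measureReal_nonneg _
    calc C * ‖w‖ ^ ε * volume.real B ^ (1 / 3 : ℝ) ≤ C * T ^ ε * volume.real B ^ (1 / 3 : ℝ) :=
          mul_le_mul_of_nonneg_right (mul_le_mul_of_nonneg_left h1 hC.le) h5
      _ ≤ _ := mul_le_mul_of_nonneg_left h2 (by positivity)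
  set M : ℝ≥0∞ := ENNReal.ofReal (C * T ^ ε * volume.real V ^ (1 / 3 : ℝ)) with hM
  -- the pairs with `‖w‖ < ‖y‖`
  set S : Set (ℂ × ℂ) := {p | p.1 ∈ A ∧ p.2 ∈ V ∧ ‖p.1‖ < ‖p.2‖} with hS
  have hSm : MeasurableSet S := by
    have e1 : MeasurableSet {p : ℂ × ℂ | p.1 ∈ A} := measurable_fst hAm
    have e2 : MeasurableSet {p : ℂ × ℂ | p.2 ∈ V} := measurable_snd hV
    have e3 : MeasurableSet {p : ℂ × ℂ | ‖p.1‖ < ‖p.2‖} := measurableSet_lt (by fun_prop) (by fun_prop)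
    exact e1.inter (e2.inter e3)
  set Φ : ℂ × ℂ → ℝ≥0∞ := S.indicator 1 with hΦ
  have hΦm : Measurable Φ := measurable_one.indicator hSm
  -- first step: pointwise bound for `w`
  have hpt : ∀ w : ℂ, ind A w * SS (fun x => ind (Metric.closedBall 0 ρ) x * SS (ind V) x) w ≤
      ind A w * M + SS (fun x => ind (Metric.closedBall 0 ρ) x * SS (fun y => Φ (w, y)) x) w := by
    intro w
    by_cases hw : w ∈ A
    · rw [ind_of_mem hw, one_mul, one_mul]
      have hB1m : MeasurableSet (V ∩ {y | ‖y‖ ≤ ‖w‖}) := hV.inter (measurableSet_le measurable_norm measurable_const)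
      have hB2m : MeasurableSet (V ∩ {y | ‖w‖ < ‖y‖}) := hV.inter (measurableSet_lt measurable_const measurable_norm)
      have e1 : ind V = fun y => ind (V ∩ {y | ‖y‖ ≤ ‖w‖}) y + ind (V ∩ {y | ‖w‖ < ‖y‖}) y := by
        funext y
        by_cases hy : y ∈ V
        · rcases le_or_gt ‖y‖ ‖w‖ with h | h
          · rw [ind_of_mem hy, ind_of_mem (show y ∈ V ∩ {y | ‖y‖ ≤ ‖w‖} from ⟨hy, h⟩),
              ind_of_notMem (show y ∉ V ∩ {y | ‖w‖ < ‖y‖} from fun h1 => absurd h1.2 (not_lt.2 h)), add_zero]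
          · rw [ind_of_mem hy, ind_of_notMem (show y ∉ V ∩ {y | ‖y‖ ≤ ‖w‖} from fun h1 => absurd h1.2 (not_le.2 h)),
              ind_of_mem (show y ∈ V ∩ {y | ‖w‖ < ‖y‖} from ⟨hy, h⟩), zero_add]
        · rw [ind_of_notMem hy, ind_of_notMem (show y ∉ V ∩ {y | ‖y‖ ≤ ‖w‖} from fun h1 => hy h1.1),
            ind_of_notMem (show y ∉ V ∩ {y | ‖w‖ < ‖y‖} from fun h1 => hy h1.1), add_zero]
      have e2 : (fun y => Φ (w, y)) = ind (V ∩ {y | ‖w‖ < ‖y‖}) := by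
        funext y
        by_cases hy : y ∈ V ∩ {y | ‖w‖ < ‖y‖}
        · rw [ind_of_mem hy, hΦ, indicator_of_mem (show (w, y) ∈ S from ⟨hw, hy.1, hy.2⟩)]
          rfl
        · rw [ind_of_notMem hy, hΦ, indicator_of_notMem (show (w, y) ∉ S from fun h1 => hy ⟨h1.2.1, h1.2.2⟩)]
      have e3 : (fun x => ind (Metric.closedBall 0 ρ) x * SS (ind V) x) = fun x =>
          ind (Metric.closedBall 0 ρ) x * SS (ind (V ∩ {y | ‖y‖ ≤ ‖w‖})) x +
          ind (Metric.closedBall 0 ρ) x * SS (ind (V ∩ {y | ‖w‖ < ‖y‖})) x := by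
        funext x
        rw [← mul_add, ← ss_add (measurable_ind hB1m) (measurable_ind hB2m), ← e1]
      have e4 := ss_add (f := fun x => ind (Metric.closedBall 0 ρ) x * SS (ind (V ∩ {y | ‖y‖ ≤ ‖w‖})) x)
        (g := fun x => ind (Metric.closedBall 0 ρ) x * SS (ind (V ∩ {y | ‖w‖ < ‖y‖})) x)
        ((measurable_ind hK).mul (measurable_SS (measurable_ind hB1m)))
        ((measurable_ind hK).mul (measurable_SS (measurable_ind hB2m))) w
      rw [e3, e4, e2]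
      exact add_le_add (key w hw.1 _ hB1m inter_subset_left fun y hy => hy.2) le_rfl
    · rw [ind_of_notMem hw, zero_mul]
      exact zero_le
  -- second step: pointwise bound for `y`
  have hpt2 : ∀ y : ℂ, SS (fun x => ind (Metric.closedBall 0 ρ) x * SS (fun w => Φ (w, y)) x) y ≤ ind A y * M := by
    intro y
    by_cases hy : y ∈ A
    · rw [ind_of_mem hy, one_mul]
      have hBm : MeasurableSet (A ∩ {w | ‖w‖ < ‖y‖}) := hAm.inter (measurableSet_lt measurable_norm measurable_const)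
      have e2 : (fun w => Φ (w, y)) = ind (A ∩ {w | ‖w‖ < ‖y‖}) := by
        funext w
        by_cases hw : w ∈ A ∩ {w | ‖w‖ < ‖y‖}
        · rw [ind_of_mem hw, hΦ, indicator_of_mem (show (w, y) ∈ S from ⟨hw.1, hy.1, hw.2⟩)]
          rfl
        · rw [ind_of_notMem hw, hΦ, indicator_of_notMem (show (w, y) ∉ S from fun h1 => hw ⟨h1.1, h1.2.2⟩)]
      rw [e2]
      exact key y hy.1 _ hBm (fun z hz => hz.1.1) fun z hz => (le_of_lt hz.2)
    · refine le_of_eq_of_le (MidM_zero _ (fun w => ?_) y) zero_le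
      rw [hΦ, indicator_of_notMem]
      rintro ⟨h1, h2, h3⟩
      exact hy ⟨h2, h1.2.trans h3.le⟩
  calc ∫⁻ x, ind (Metric.closedBall 0 ρ) x * SS (ind V) x * SS (ind A) x
      = ∫⁻ w, ind A w * SS (fun x => ind (Metric.closedBall 0 ρ) x * SS (ind V) x) w := ss_symm hh (measurable_ind hAm)
    _ ≤ ∫⁻ w, (ind A w * M + SS (fun x => ind (Metric.closedBall 0 ρ) x * SS (fun y => Φ (w, y)) x) w) := lintegral_mono hpt
    _ = (∫⁻ w, ind A w * M) + ∫⁻ w, SS (fun x => ind (Metric.closedBall 0 ρ) x * SS (fun y => Φ (w, y)) x) w :=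
        lintegral_add_left ((measurable_ind hAm).mul_const _) _
    _ = (∫⁻ w, ind A w * M) + ∫⁻ y, SS (fun x => ind (Metric.closedBall 0 ρ) x * SS (fun w => Φ (w, y)) x) y := by
        rw [sym_two (measurable_ind hK) hΦm]
    _ ≤ (∫⁻ w, ind A w * M) + ∫⁻ y, ind A y * M := by
        gcongr with y
        exact hpt2 y
    _ = 2 * (volume A * M) := by
        rw [lintegral_mul_const _ (measurable_ind hAm), lintegral_ind hAm, two_mul]
    _ = ENNReal.ofReal (2 * C * T ^ ε * volume.real V ^ (1 / 3 : ℝ)) * volume A := by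
        have h1 : 2 * C * T ^ ε * volume.real V ^ (1 / 3 : ℝ) = 2 * (C * T ^ ε * volume.real V ^ (1 / 3 : ℝ)) := by ring
        rw [h1, ENNReal.ofReal_mul (by norm_num), ← hM, ENNReal.ofReal_ofNat]
        ring

end Pool.MPb9430d.Mom
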