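import Pool.Agent.Lib.MP_b9430d_co.Frac.ThmBH
import Pool.Agent.Lib.MP_b9430d_co.Mom.Defs

/-!
# Tail: tails and moments

`tail_le`: Markov: `R^β |E \ ball R| ≤ ∫_E ‖x‖^β`. `big_tail`: otherwise `|E ∩ {R ≤ ‖x‖}| ≤ R^(-3)` for all `R ≥ R₁` (`≥ 1`), so with the dyadic shells `2^k ≤ ‖x‖ < 2^(k+1)`:
`∫_E ‖x‖² ≤ 4R₁²|E| + ∑_k 4·4^k·2^(-3k) < ∞`, contradicting `moment_half` for `β = 2` (`volume_lt_top`: `|E| < ∞`). `big_tail_eps`: the same with `R^(-β)`: if the `β`-moments are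
infinite for every `β > 0` then for every `ε > 0` there are arbitrarily large `R` with `R^(-ε) < |E ∩ {R ≤ ‖x‖}|` (apply the hypothesis with `β = ε/2`).
-/

set_option autoImplicit false

open MeasureTheory Complex Set Real Filter Topology
open scoped ENNReal

namespace Pool.MPb9430d.Mom

open Pool.MPb9430d Pool.MPb9430d.Rough Pool.MPb9430d.Frac

theorem tail_le {E : Set ℂ} (hE : MeasurableSet E) (hfin : volume E ≠ ∞) {β : ℝ} (hβ : 0 < β)
    (hM : ∫⁻ x in E, ENNReal.ofReal (‖x‖ ^ β) ≠ ∞) : ∃ C : ℝ, 0 < C ∧ ∀ R : ℝ, 1 ≤ R →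
    volume.real (E ∩ {y | R ≤ ‖y‖}) ≤ C * R ^ (-β) := by
  obtain ⟨M, hMd⟩ : ∃ M, M = ∫⁻ x in E, ENNReal.ofReal (‖x‖ ^ β) := ⟨_, rfl⟩
  rw [← hMd] at hM
  refine ⟨M.toReal + 1, by have := ENNReal.toReal_nonneg (a := M); linarith, fun R hR => ?_⟩
  have hR0 : 0 < R := by linarith
  have hS : MeasurableSet {y : ℂ | R ≤ ‖y‖} := measurableSet_le measurable_const measurable_norm
  have hf : Measurable (fun x : ℂ => ENNReal.ofReal (‖x‖ ^ β)) := (measurable_norm.pow_const β).ennreal_ofReal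
  have h1 := mul_meas_ge_le_lintegral (μ := volume.restrict E) hf (ENNReal.ofReal (R ^ β))
  rw [← hMd] at h1
  have h2 : volume (E ∩ {y | R ≤ ‖y‖}) ≤ (volume.restrict E) {x : ℂ | ENNReal.ofReal (R ^ β) ≤ ENNReal.ofReal (‖x‖ ^ β)} := by
    have h3 : volume (E ∩ {y | R ≤ ‖y‖}) = (volume.restrict E) {y : ℂ | R ≤ ‖y‖} := by
      rw [Measure.restrict_apply hS, Set.inter_comm]
    rw [h3]
    refine measure_mono fun x hx => ?_
    exact ENNReal.ofReal_le_ofReal (Real.rpow_le_rpow hR0.le hx hβ.le)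
  have h4 : ENNReal.ofReal (R ^ β) * volume (E ∩ {y | R ≤ ‖y‖}) ≤ M := (mul_le_mul_right h2 _).trans h1
  have h5 := ENNReal.toReal_mono hM h4
  rw [ENNReal.toReal_mul, ENNReal.toReal_ofReal (Real.rpow_nonneg hR0.le _)] at h5
  have h6 : volume.real (E ∩ {y | R ≤ ‖y‖}) = (volume (E ∩ {y | R ≤ ‖y‖})).toReal := rfl
  rw [h6, Real.rpow_neg hR0.le, ← div_eq_mul_inv, le_div_iff₀ (Real.rpow_pos_of_pos hR0 _), mul_comm]
  linarith

theorem big_tail_eps {E : Set ℂ} (hE : MeasurableSet E) (hfin : volume E ≠ ∞) {β ε : ℝ}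
    (hβ : 0 < β) (hβε : β < ε) (hM : ∫⁻ x in E, ENNReal.ofReal (‖x‖ ^ β) = ∞) (R₁ : ℝ) :
    ∃ R : ℝ, R₁ ≤ R ∧ R ^ (-ε) < volume.real (E ∩ {y | R ≤ ‖y‖}) := by
  by_contra hno
  push Not at hno
  obtain ⟨R₀, hR₀⟩ : ∃ R₀, R₀ = max R₁ 1 := ⟨_, rfl⟩
  have hR1 : R₁ ≤ R₀ := by rw [hR₀]; exact le_max_left _ _
  have hR0 : 1 ≤ R₀ := by rw [hR₀]; exact le_max_right _ _
  have hRp : 0 < R₀ := by linarith
  have key := lintegral_rpow_eq_lintegral_meas_le_mul (volume.restrict E) (f := fun x : ℂ => ‖x‖)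
    (Eventually.of_forall fun x => norm_nonneg x) measurable_norm.aemeasurable hβ
  rw [hM] at key
  have hS : ∀ t : ℝ, MeasurableSet {y : ℂ | t ≤ ‖y‖} := fun t => measurableSet_le measurable_const measurable_norm
  have hμ : ∀ t : ℝ, (volume.restrict E) {y : ℂ | t ≤ ‖y‖} = volume (E ∩ {y | t ≤ ‖y‖}) := fun t => by
    rw [Measure.restrict_apply (hS t), Set.inter_comm]
  have i1 : ∫⁻ t in Ioc 0 R₀, (volume.restrict E) {a : ℂ | t ≤ ‖a‖} * ENNReal.ofReal (t ^ (β - 1)) < ∞ := by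
    have h1 : ∫⁻ t in Ioc 0 R₀, (volume.restrict E) {a : ℂ | t ≤ ‖a‖} * ENNReal.ofReal (t ^ (β - 1)) ≤
        ∫⁻ t in Ioc 0 R₀, volume E * ENNReal.ofReal (t ^ (β - 1)) := by
      refine lintegral_mono fun t => ?_
      refine mul_le_mul_left ?_ _
      rw [hμ]
      exact measure_mono Set.inter_subset_left
    refine lt_of_le_of_lt h1 ?_
    rw [lintegral_const_mul' _ _ hfin]
    refine ENNReal.mul_lt_top (lt_top_iff_ne_top.2 hfin) ?_
    have h2 := (intervalIntegral.intervalIntegrable_rpow' (a := 0) (b := R₀) (show (-1 : ℝ) < β - 1 by linarith)).1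
    exact h2.lintegral_lt_top
  have i2 : ∫⁻ t in Ioi R₀, (volume.restrict E) {a : ℂ | t ≤ ‖a‖} * ENNReal.ofReal (t ^ (β - 1)) < ∞ := by
    have h1 : ∫⁻ t in Ioi R₀, (volume.restrict E) {a : ℂ | t ≤ ‖a‖} * ENNReal.ofReal (t ^ (β - 1)) ≤
        ∫⁻ t in Ioi R₀, ENNReal.ofReal (t ^ (β - 1 - ε)) := by
      refine setLIntegral_mono' measurableSet_Ioi fun t ht => ?_
      have ht0 : 0 < t := lt_trans hRp ht
      rw [hμ]
      have h2 : volume (E ∩ {y | t ≤ ‖y‖}) ≠ ∞ := ne_top_of_le_ne_top hfin (measure_mono Set.inter_subset_left)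
      have h3 : volume (E ∩ {y | t ≤ ‖y‖}) ≤ ENNReal.ofReal (t ^ (-ε)) := by
        rw [← ENNReal.ofReal_toReal h2]
        exact ENNReal.ofReal_le_ofReal (hno t (hR1.trans (le_of_lt ht)))
      refine (mul_le_mul_left h3 _).trans (le_of_eq ?_)
      rw [← ENNReal.ofReal_mul (Real.rpow_nonneg ht0.le _), ← Real.rpow_add ht0]
      congr 2
      ring
    refine lt_of_le_of_lt h1 ?_
    exact (integrableOn_Ioi_rpow_of_lt (show β - 1 - ε < -1 by linarith) hRp).lintegral_lt_top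
  have i3 : ∫⁻ t in Ioi 0, (volume.restrict E) {a : ℂ | t ≤ ‖a‖} * ENNReal.ofReal (t ^ (β - 1)) < ∞ := by
    rw [← Ioc_union_Ioi_eq_Ioi hRp.le]
    exact lt_of_le_of_lt (lintegral_union_le _ _ _) (ENNReal.add_lt_top.2 ⟨i1, i2⟩)
  have h4 : ENNReal.ofReal β * ∫⁻ t in Ioi 0, (volume.restrict E) {a : ℂ | t ≤ ‖a‖} * ENNReal.ofReal (t ^ (β - 1)) < ∞ :=
    ENNReal.mul_lt_top ENNReal.ofReal_lt_top i3
  rw [← key] at h4
  exact lt_irrefl _ h4

theorem big_tail {E : Set ℂ} {n : ℕ} (hn : 1 ≤ n) (hE : MeasurableSet E) (hT : Tile E n)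
    (R₁ : ℝ) : ∃ R : ℝ, R₁ ≤ R ∧ R ^ (-3 : ℝ) < volume.real (E ∩ {y | R ≤ ‖y‖}) := by
  have h := moment_half hn hE hT (β := 2) (by norm_num)
  exact big_tail_eps hE (volume_lt_top hE hT).ne (β := 2) (ε := 3) (by norm_num) (by norm_num) h R₁

end Pool.MPb9430d.Mom
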