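import Pool.Agent.Lib.MP_b9430d_co.Mom.NearM
import Pool.Agent.Lib.MP_b9430d_co.Mom.MidM
import Pool.Agent.Lib.MP_b9430d_co.Mom.CoreI
import Pool.Agent.Lib.MP_b9430d_co.Mom.Tail
import Pool.Agent.Lib.MP_b9430d_co.Mom.LocM

/-!
# Fin: no positive moment is finite

`1 < β`: `moment_half`. Let `0 < β ≤ 1` and suppose the moment is finite. `|E| = n` is not needed: `ss_tile` gives `n ∫χ = ∫ χ ind E + ∫ χ SP (ind E)` (`sp_tile`).
`ρ ≥ 2` with `∫⁻ ofReal (cut ρ) ind E ≥ n - 1/4`: first `|E| = n` (integrate `∑' p, ind E (x + lat p) = n` over the unit square, or `ball_mass`-type argument; or from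
`SumZ`/`Van` facts) - see `vol_tile` in this file - then `exists_disc` (Rough/Variation): `|E \ closedBall 0 (ρ-1)| ≤ 1/4`. `η = 1/(8(n+1))`. `R` large with `R^(-3) < M(R)` (`big_tail`),
`T = R^(4/β)`, `A = E ∩ {R ≤ ‖y‖ < T}`-like: take `V = E ∩ {R^(1/64) < ‖y‖ ≤ T}`, `A = V ∩ {R ≤ ‖y‖}`, `U = E ∩ closedBall 0 (R^(1/64))`, `W = E ∩ {T < ‖y‖}`; `M(T) ≤ C₀ R^(-4)` so
`|A| ≥ R^(-3)/2`. `ind E = ind U + ind V + ind W`. Multiply `n = ind E x + SP (ind E) x` (a.e.) by `χ SS (ind A)` and integrate: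
`n ∫ χ SS(A) = ∫ χ ind E SS(A) + ∫ χ SP(U) SS(A) + ∫ χ SP(V) SS(A) + ∫ χ SP(W) SS(A)`. `core_ineq`: first `≤ (n-1)|A|`. `near_main`: second `≤ (∫ χ SP(U)) |A| + η|A|`, left side
`≥ n((∫χ)|A| - η|A|)`. Third: `mid_main` with `ε = β²/2000`: `C T^ε |V|^(1/3) ≤ C R^(β/500) (C₀ R^(-β/64))^(1/3) → 0` (`|V| ≤ M(R^(1/64)) ≤ 1`). Fourth: `SS(A) ≤ n`, `ball_mass`: `≤ n (2ρ+1)² C₀ R^(-4) ≤ η|A|`.
So `n ∫χ ≤ (n-1) + ∫ χ SP(U) + (n+3) η` after division by `|A|`, but `∫ χ SP(U) ≤ ∫ χ SP(E) = n∫χ - ∫ χ ind E ≤ n ∫ χ - (n - 1/4)`: contradiction.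
-/

set_option autoImplicit false

open MeasureTheory Complex Set Real Filter Topology
open scoped ENNReal

namespace Pool.MPb9430d.Mom

open Pool.MPb9430d Pool.MPb9430d.Rough Pool.MPb9430d.Frac

private theorem arith (n : ℕ) (hn : 1 ≤ n) {J a s x1 x2 x3 x4 u e : ℝ≥0∞} (ha : a ≠ 0)
    (ha' : a ≠ ∞) (hJ : J ≠ ∞) (he : e = ENNReal.ofReal (1 / (8 * (n + 1))))
    (h1 : n * s = x1 + (x2 + x3 + x4) ∨ n * s ≤ x1 + (x2 + x3 + x4)) (h2 : x1 + a ≤ n * a)
    (h3 : J * a ≤ s + e * a) (h4 : x2 ≤ u * a + e * a) (h5 : x3 ≤ e * a) (h6 : x4 ≤ e * a)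
    (h7 : u + ENNReal.ofReal (n - 1 / 4) ≤ n * J) : False := by
  have h1' : n * s ≤ x1 + (x2 + x3 + x4) := by
    rcases h1 with h | h
    · exact h.le
    · exact h
  have he' : e ≠ ∞ := by rw [he]; exact ENNReal.ofReal_ne_top
  have hea : e * a ≠ ∞ := ENNReal.mul_ne_top he' ha'
  have hx1 : x1 ≠ ∞ := ne_top_of_le_ne_top
    (ENNReal.mul_ne_top (ENNReal.natCast_ne_top n) ha') (le_self_add.trans h2)
  have hu : u ≠ ∞ := ne_top_of_le_ne_top
    (ENNReal.mul_ne_top (ENNReal.natCast_ne_top n) hJ) (le_self_add.trans h7)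
  have hx2 : x2 ≠ ∞ := ne_top_of_le_ne_top
    (ENNReal.add_ne_top.2 ⟨ENNReal.mul_ne_top hu ha', hea⟩) h4
  have hx3 : x3 ≠ ∞ := ne_top_of_le_ne_top hea h5
  have hx4 : x4 ≠ ∞ := ne_top_of_le_ne_top hea h6
  have hs : s ≠ ∞ := by
    have h0 : n * s ≠ ∞ := ne_top_of_le_ne_top
      (ENNReal.add_ne_top.2 ⟨hx1, ENNReal.add_ne_top.2 ⟨ENNReal.add_ne_top.2 ⟨hx2, hx3⟩, hx4⟩⟩) h1'
    intro h
    apply h0
    rw [h]
    exact ENNReal.mul_top (by exact_mod_cast (by omega : n ≠ 0))
  lift J to NNReal using hJ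
  lift a to NNReal using ha'
  lift s to NNReal using hs
  lift x1 to NNReal using hx1
  lift x2 to NNReal using hx2
  lift x3 to NNReal using hx3
  lift x4 to NNReal using hx4
  lift u to NNReal using hu
  lift e to NNReal using he'
  have hn1 : (1 : ℝ) ≤ n := by exact_mod_cast hn
  have hee : (e : ℝ) = 1 / (8 * (n + 1)) := by
    have := congrArg ENNReal.toReal he
    rw [ENNReal.toReal_ofReal (by positivity), ENNReal.coe_toReal] at this
    exact this
  have hq : ENNReal.ofReal ((n : ℝ) - 1 / 4) = ((Real.toNNReal (n - 1 / 4) : NNReal) : ℝ≥0∞) := rfl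
  rw [hq] at h7
  have hqq : ((Real.toNNReal (n - 1 / 4) : NNReal) : ℝ) = n - 1 / 4 :=
    Real.coe_toNNReal _ (by linarith)
  norm_cast at h1' h2 h3 h4 h5 h6 h7
  have g1 : (n : ℝ) * s ≤ x1 + (x2 + x3 + x4) := by exact_mod_cast h1'
  have g2 : (x1 : ℝ) + a ≤ n * a := by exact_mod_cast h2
  have g3 : (J : ℝ) * a ≤ s + e * a := by exact_mod_cast h3
  have g4 : (x2 : ℝ) ≤ u * a + e * a := by exact_mod_cast h4
  have g5 : (x3 : ℝ) ≤ e * a := by exact_mod_cast h5
  have g6 : (x4 : ℝ) ≤ e * a := by exact_mod_cast h6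
  have g7 : (u : ℝ) + (n - 1 / 4) ≤ n * J := by
    rw [← hqq]
    exact_mod_cast h7
  have ha0 : (0 : ℝ) < a := by
    have : a ≠ 0 := by exact_mod_cast ha
    exact_mod_cast (pos_iff_ne_zero.2 this)
  have g3' : (n : ℝ) * (J * a) ≤ n * (s + e * a) := mul_le_mul_of_nonneg_left g3 (by linarith)
  have g7' : ((u : ℝ) + (n - 1 / 4)) * a ≤ n * J * a := mul_le_mul_of_nonneg_right g7 ha0.le
  have g8 : ((n : ℝ) + 3) * e ≤ 1 / 2 := by
    rw [hee, mul_one_div, div_le_iff₀ (by linarith)]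
    linarith
  have g9 : ((n : ℝ) + 3) * e * a ≤ 1 / 2 * a := mul_le_mul_of_nonneg_right g8 ha0.le
  nlinarith

theorem vol_tile {E : Set ℂ} {n : ℕ} (hE : MeasurableSet E) (hT : Tile E n) : volume E = n := by
  set Q : Set ℂ := Complex.measurableEquivRealProd ⁻¹' (Ico (0 : ℝ) 1 ×ˢ Ico (0 : ℝ) 1) with hQ
  have hQm : MeasurableSet Q :=
    Complex.measurableEquivRealProd.measurable (measurableSet_Ico.prod measurableSet_Ico)
  have hQv : volume Q = 1 := by
    rw [hQ, Complex.volume_preserving_equiv_real_prod.measure_preimage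
      (measurableSet_Ico.prod measurableSet_Ico).nullMeasurableSet, Measure.volume_eq_prod,
      Measure.prod_prod, Real.volume_Ico]
    norm_num
  have hmem : ∀ z : ℂ, z ∈ Q ↔ (0 ≤ z.re ∧ z.re < 1) ∧ (0 ≤ z.im ∧ z.im < 1) := by
    intro z
    rfl
  have hone : ∀ x : ℂ, ∑' p : ℤ × ℤ, ind Q (x + lat p) = 1 := by
    intro x
    rw [tsum_eq_single (-⌊x.re⌋, -⌊x.im⌋)]
    · apply ind_of_mem
      rw [hmem]
      simp only [Complex.add_re, Complex.add_im, lat_re, lat_im, Int.cast_neg]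
      have h1 := Int.floor_le x.re
      have h2 := Int.lt_floor_add_one x.re
      have h3 := Int.floor_le x.im
      have h4 := Int.lt_floor_add_one x.im
      refine ⟨⟨?_, ?_⟩, ⟨?_, ?_⟩⟩ <;> linarith
    · intro p hp
      apply ind_of_notMem
      intro h
      apply hp
      rw [hmem] at h
      simp only [Complex.add_re, Complex.add_im, lat_re, lat_im] at h
      obtain ⟨⟨h1, h2⟩, h3, h4⟩ := h
      have e1 : ⌊x.re⌋ = -p.1 := by
        rw [Int.floor_eq_iff]
        push_cast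
        constructor <;> linarith
      have e2 : ⌊x.im⌋ = -p.2 := by
        rw [Int.floor_eq_iff]
        push_cast
        constructor <;> linarith
      rw [e1, e2, neg_neg, neg_neg]
  have hrot : rot 0 = 1 := by simp [rot]
  have hmE := measurable_ind hE
  have hmQ := measurable_ind hQm
  calc volume E = ∫⁻ x, ind E x := by
        rw [show (fun x => ind E x) = E.indicator 1 from rfl, lintegral_indicator_one hE]
    _ = ∫⁻ x, ∑' p : ℤ × ℤ, ind E x * ind Q (x + lat p) := by
        refine lintegral_congr fun x => ?_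
        rw [ENNReal.tsum_mul_left, hone, mul_one]
    _ = ∑' p : ℤ × ℤ, ∫⁻ x, ind E x * ind Q (x + lat p) := by
        rw [lintegral_tsum]
        intro p
        exact (hmE.mul (hmQ.comp (measurable_id.add_const _))).aemeasurable
    _ = ∑' p : ℤ × ℤ, ∫⁻ x, ind E (x + lat p) * ind Q x := by
        rw [← (Equiv.neg (ℤ × ℤ)).tsum_eq]
        refine tsum_congr fun p => ?_
        rw [← lintegral_add_right_eq_self
          (fun x => ind E x * ind Q (x + lat ((Equiv.neg (ℤ × ℤ)) p))) (lat p)]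
        refine lintegral_congr fun x => ?_
        rw [Equiv.neg_apply, lat_neg, add_neg_cancel_right]
    _ = ∫⁻ x, ∑' p : ℤ × ℤ, ind E (x + lat p) * ind Q x := by
        rw [lintegral_tsum]
        intro p
        exact ((hmE.comp (measurable_id.add_const _)).mul hmQ).aemeasurable
    _ = ∫⁻ x, n * ind Q x := by
        refine lintegral_congr_ae ?_
        filter_upwards [hT 0] with x hx
        have h := tsum_ind_of_encard hx
        rw [ENNReal.tsum_mul_right]
        congr 1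
        rw [← h]
        refine tsum_congr fun p => ?_
        rw [hrot, one_mul]
    _ = n := by
        rw [lintegral_const_mul _ hmQ,
          show (fun x => ind Q x) = Q.indicator 1 from rfl, lintegral_indicator_one hQm, hQv,
          mul_one]


private theorem evR {β ρ C C0 η R1 : ℝ} (n : ℕ) (hβ : 0 < β) (hη : 0 < η) :
    ∀ᶠ R : ℝ in atTop, R1 ≤ R ∧ 1000 * ρ ≤ R ^ (1 / 64 : ℝ) ∧ 1 < R ∧ 1000 * ρ ≤ R ∧
      C0 * R ^ (-(β / 64)) ≤ 1 ∧ C * C0 ^ (1 / 3 : ℝ) * R ^ (-(β / 192 - β / 500)) ≤ η ∧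
      n * (2 * ρ + 1) ^ 2 * C0 * 2 ≤ η * R ∧ 2 * C0 ≤ R := by
  refine (eventually_ge_atTop R1).and (((tendsto_rpow_atTop (by norm_num)).eventually_ge_atTop
    (1000 * ρ)).and ((eventually_gt_atTop 1).and ((eventually_ge_atTop (1000 * ρ)).and ?_)))
  refine Eventually.and ?_ (Eventually.and ?_ (Eventually.and ?_ (eventually_ge_atTop (2 * C0))))
  · have h := (tendsto_rpow_neg_atTop (y := β / 64) (by positivity)).const_mul C0
    rw [mul_zero] at h
    exact h.eventually_le_const (by norm_num)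
  · have h := (tendsto_rpow_neg_atTop (y := β / 192 - β / 500)
      (by linarith)).const_mul (C * C0 ^ (1 / 3 : ℝ))
    rw [mul_zero] at h
    exact h.eventually_le_const hη
  · exact (tendsto_id.const_mul_atTop hη).eventually_ge_atTop _

private theorem cut_le_ind (ρ : ℝ) (x : ℂ) :
    ENNReal.ofReal (cut ρ x) ≤ ind (Metric.closedBall 0 ρ) x := by
  by_cases h : x ∈ Metric.closedBall (0 : ℂ) ρ
  · rw [ind_of_mem h]
    exact (ENNReal.ofReal_le_ofReal (cut_le_one ρ x)).trans (le_of_eq ENNReal.ofReal_one)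
  · rw [ind_of_notMem h]
    rw [mem_closedBall_zero_iff, not_le] at h
    rw [cut_of_ge h.le, ENNReal.ofReal_zero]

private theorem meas_cut (ρ : ℝ) : Measurable (fun x => ENNReal.ofReal (cut ρ x)) :=
  (continuous_cut ρ).measurable.ennreal_ofReal

private theorem cutJ (ρ : ℝ) : ∫⁻ x, ENNReal.ofReal (cut ρ x) ≠ ∞ := by
  refine ne_top_of_le_ne_top ?_ (lintegral_mono (cut_le_ind ρ))
  rw [show (fun x => ind (Metric.closedBall (0 : ℂ) ρ) x) = (Metric.closedBall (0 : ℂ) ρ).indicator 1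
    from rfl, lintegral_indicator_one Metric.isClosed_closedBall.measurableSet]
  exact measure_closedBall_lt_top.ne

/-- the decomposition of the sum over the tile -/
private theorem decomp {E A U V W : Set ℂ} {n : ℕ} (hE : MeasurableSet E) (hT : Tile E n)
    (hA : MeasurableSet A) (hU : MeasurableSet U) (hV : MeasurableSet V) (hW : MeasurableSet W)
    (hcov : E ⊆ U ∪ V ∪ W) (ρ : ℝ) :
    n * ∫⁻ x, ENNReal.ofReal (cut ρ x) * SS (ind A) x ≤
      (∫⁻ x, ENNReal.ofReal (cut ρ x) * ind E x * SS (ind A) x) +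
      ((∫⁻ x, ENNReal.ofReal (cut ρ x) * SP (ind U) x * SS (ind A) x) +
      (∫⁻ x, ENNReal.ofReal (cut ρ x) * SP (ind V) x * SS (ind A) x) +
      ∫⁻ x, ENNReal.ofReal (cut ρ x) * SP (ind W) x * SS (ind A) x) := by
  have hc := meas_cut ρ
  have mA := measurable_SS (measurable_ind hA)
  have mU := measurable_SP (measurable_ind hU)
  have mV := measurable_SP (measurable_ind hV)
  have mW := measurable_SP (measurable_ind hW)
  have kU : Measurable (fun x => ENNReal.ofReal (cut ρ x) * SP (ind U) x * SS (ind A) x) :=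
    (hc.mul mU).mul mA
  have kV : Measurable (fun x => ENNReal.ofReal (cut ρ x) * SP (ind V) x * SS (ind A) x) :=
    (hc.mul mV).mul mA
  have kE : Measurable (fun x => ENNReal.ofReal (cut ρ x) * ind E x * SS (ind A) x) :=
    (hc.mul (measurable_ind hE)).mul mA
  have kA : Measurable (fun x => ENNReal.ofReal (cut ρ x) * SS (ind A) x) := hc.mul mA
  have kUV : Measurable (fun x => ENNReal.ofReal (cut ρ x) * SP (ind U) x * SS (ind A) x +
    ENNReal.ofReal (cut ρ x) * SP (ind V) x * SS (ind A) x) := kU.add kV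
  rw [← lintegral_add_left kU, ← lintegral_add_left kUV, ← lintegral_add_left kE,
    ← lintegral_const_mul _ kA]
  refine lintegral_mono_ae ?_
  filter_upwards [sp_tile hE hT] with x hx
  have h1 : SP (ind E) x ≤ SP (ind U) x + SP (ind V) x + SP (ind W) x := by
    have h2 : SP (ind E) x ≤ SP (fun y => (ind U y + ind V y) + ind W y) x := by
      refine sp_mono (fun y => ?_) x
      by_cases hy : y ∈ E
      · rw [ind_of_mem hy]
        rcases hcov hy with (h | h) | h
        · rw [ind_of_mem h, add_assoc]; exact le_self_add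
        · rw [ind_of_mem h, add_comm (ind U y), add_assoc]; exact le_self_add
        · rw [ind_of_mem h]; exact le_add_self
      · rw [ind_of_notMem hy]; exact zero_le
    have kI : Measurable (fun y => ind U y + ind V y) :=
      (measurable_ind hU).add (measurable_ind hV)
    rwa [sp_add kI (measurable_ind hW) x,
      sp_add (measurable_ind hU) (measurable_ind hV) x] at h2
  rw [← hx]
  calc (ind E x + SP (ind E) x) * (ENNReal.ofReal (cut ρ x) * SS (ind A) x)
      ≤ (ind E x + (SP (ind U) x + SP (ind V) x + SP (ind W) x)) *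
        (ENNReal.ofReal (cut ρ x) * SS (ind A) x) := by
        gcongr
    _ = _ := by ring

/-- the near tile mass -/
private theorem near_mass {E U : Set ℂ} {n : ℕ} (hE : MeasurableSet E) (hT : Tile E n)
    (hU : U ⊆ E) {S : ℝ} (hS : volume.real (E \ Metric.closedBall 0 S) < 1 / 4) :
    (∫⁻ x, ENNReal.ofReal (cut (S + 2) x) * SP (ind U) x) + ENNReal.ofReal (n - 1 / 4) ≤
      n * ∫⁻ x, ENNReal.ofReal (cut (S + 2) x) := by
  have hc := meas_cut (S + 2)
  have hfin : volume E ≠ ∞ := (volume_lt_top hE hT).ne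
  have hB : MeasurableSet (Metric.closedBall (0 : ℂ) S) := Metric.isClosed_closedBall.measurableSet
  have h1 : ENNReal.ofReal (n - 1 / 4) ≤ ∫⁻ x, ENNReal.ofReal (cut (S + 2) x) * ind E x := by
    have h2 : volume (E ∩ Metric.closedBall 0 S) ≤
        ∫⁻ x, ENNReal.ofReal (cut (S + 2) x) * ind E x := by
      rw [← lintegral_indicator_one (hE.inter hB)]
      refine lintegral_mono fun x => ?_
      by_cases hx : x ∈ E ∩ Metric.closedBall 0 S
      · have hx2 := hx.2
        rw [mem_closedBall_zero_iff] at hx2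
        rw [Set.indicator_of_mem hx, Pi.one_apply, ind_of_mem hx.1,
          cut_of_le (by linarith), ENNReal.ofReal_one, one_mul]
      · rw [Set.indicator_of_notMem hx]
        exact zero_le
    refine le_trans ?_ h2
    have h3 := measureReal_inter_add_sdiff (μ := volume) (s := E)
      (t := Metric.closedBall (0 : ℂ) S) hB hfin
    have h4 : volume.real E = n := by
      rw [measureReal_def, vol_tile hE hT, ENNReal.toReal_natCast]
    rw [← ofReal_measureReal (μ := volume) (s := E ∩ Metric.closedBall 0 S)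
      (ne_top_of_le_ne_top hfin (measure_mono Set.inter_subset_left))]
    apply ENNReal.ofReal_le_ofReal
    linarith
  have h5 : n * ∫⁻ x, ENNReal.ofReal (cut (S + 2) x) =
      (∫⁻ x, ENNReal.ofReal (cut (S + 2) x) * ind E x) +
      ∫⁻ x, ENNReal.ofReal (cut (S + 2) x) * SP (ind E) x := by
    have kE : Measurable (fun x => ENNReal.ofReal (cut (S + 2) x) * ind E x) :=
      hc.mul (measurable_ind hE)
    rw [← lintegral_add_left kE, ← lintegral_const_mul _ hc]
    refine lintegral_congr_ae ?_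
    filter_upwards [sp_tile hE hT] with x hx
    rw [← hx]
    ring
  rw [h5, add_comm]
  refine add_le_add h1 (lintegral_mono fun x => ?_)
  gcongr
  refine sp_mono (fun y => ?_) x
  by_cases hy : y ∈ U
  · rw [ind_of_mem hy, ind_of_mem (hU hy)]
  · rw [ind_of_notMem hy]; exact zero_le

/-- the far part -/
private theorem far_part {E A W : Set ℂ} {n : ℕ} (hE : MeasurableSet E) (hT : Tile E n)
    (hAE : A ⊆ E) (hW : MeasurableSet W) {ρ : ℝ} (hρ : 0 ≤ ρ) :
    ∫⁻ x, ENNReal.ofReal (cut ρ x) * SP (ind W) x * SS (ind A) x ≤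
      ENNReal.ofReal ((2 * ρ + 1) ^ 2) * volume W * n := by
  have hB : MeasurableSet (Metric.closedBall (0 : ℂ) ρ) := Metric.isClosed_closedBall.measurableSet
  calc ∫⁻ x, ENNReal.ofReal (cut ρ x) * SP (ind W) x * SS (ind A) x
      ≤ ∫⁻ x, (Metric.closedBall (0 : ℂ) ρ).indicator (SS (ind W)) x * n := by
        refine lintegral_mono_ae ?_
        filter_upwards [ss_le hE hT hAE] with x hx
        refine mul_le_mul' ?_ hx
        by_cases h : x ∈ Metric.closedBall (0 : ℂ) ρ
        · rw [Set.indicator_of_mem h]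
          calc ENNReal.ofReal (cut ρ x) * SP (ind W) x ≤ 1 * SS (ind W) x := by
                refine mul_le_mul' ?_ (sp_le_ss _ _)
                exact (ENNReal.ofReal_le_ofReal (cut_le_one ρ x)).trans
                  (le_of_eq ENNReal.ofReal_one)
            _ = SS (ind W) x := one_mul _
        · have h' := h
          rw [mem_closedBall_zero_iff, not_le] at h'
          rw [cut_of_ge h'.le, ENNReal.ofReal_zero, zero_mul]
          exact zero_le
    _ = (∫⁻ x in Metric.closedBall 0 ρ, SS (ind W) x) * n := by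
        rw [lintegral_mul_const _ ((measurable_SS (measurable_ind hW)).indicator hB),
          lintegral_indicator hB]
    _ ≤ ENNReal.ofReal ((2 * ρ + 1) ^ 2) * volume W * n := by
        gcongr
        exact ball_mass hW hρ

theorem all_moments {E : Set ℂ} {n : ℕ} (hn : 1 ≤ n) (hE : MeasurableSet E) (hT : Tile E n)
    {β : ℝ} (hβ : 0 < β) : ∫⁻ x in E, ENNReal.ofReal (‖x‖ ^ β) = ∞ := by
  rcases lt_or_ge 1 β with hβ1 | hβ1
  · exact moment_half hn hE hT hβ1
  by_contra hM
  have hfin : volume E ≠ ∞ := (volume_lt_top hE hT).ne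
  obtain ⟨C0, hC0, htail⟩ := tail_le hE hfin hβ hM
  obtain ⟨S, hS0, hS⟩ := exists_disc hE hfin (ε := 1 / 4) (by norm_num)
  obtain ⟨ρ, hρdef⟩ : ∃ ρ : ℝ, ρ = S + 2 := ⟨_, rfl⟩
  have hρ : 1 ≤ ρ := by linarith
  obtain ⟨η, hηdef⟩ : ∃ η : ℝ, η = 1 / (8 * (n + 1)) := ⟨_, rfl⟩
  have hη : 0 < η := by rw [hηdef]; positivity
  obtain ⟨R1, hR1, hnear⟩ := near_main hE hT hρ hη
  obtain ⟨C, hC, hmid⟩ := mid_main (ε := β ^ 2 / 2000) (by positivity) hρ
  obtain ⟨R2, hR2⟩ := eventually_atTop.1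
    (evR (β := β) (ρ := ρ) (C := C) (C0 := C0) (η := η) (R1 := R1) n hβ hη)
  obtain ⟨R, hRge, hbig⟩ := big_tail hn hE hT R2
  obtain ⟨g1, g2, g3, g4, g5, g6, g7, g8⟩ := hR2 R hRge
  have hR0 : 0 < R := by linarith
  obtain ⟨T, hTdef⟩ : ∃ T : ℝ, T = R ^ (4 / β) := ⟨_, rfl⟩
  obtain ⟨r, hrdef⟩ : ∃ r : ℝ, r = R ^ (1 / 64 : ℝ) := ⟨_, rfl⟩
  have hT1 : 1 ≤ T := by
    rw [hTdef]
    exact Real.one_le_rpow g3.le (by positivity)
  have hr1 : 1 ≤ r := by
    rw [hrdef]
    exact Real.one_le_rpow g3.le (by positivity)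
  have hTβ : T ^ (-β) = R ^ (-4 : ℝ) := by
    rw [hTdef, ← Real.rpow_mul hR0.le]
    congr 1
    field_simp
  have hrβ : r ^ (-β) = R ^ (-(β / 64)) := by
    rw [hrdef, ← Real.rpow_mul hR0.le]
    congr 1
    ring
  have hR4 : R ^ (-4 : ℝ) * R = R ^ (-3 : ℝ) := by
    rw [← Real.rpow_add_one hR0.ne']
    norm_num
  have hR4pos : 0 < R ^ (-4 : ℝ) := Real.rpow_pos_of_pos hR0 _
  obtain ⟨U, hUdef⟩ : ∃ U : Set ℂ, U = E ∩ Metric.closedBall 0 r := ⟨_, rfl⟩
  obtain ⟨V, hVdef⟩ : ∃ V : Set ℂ, V = E ∩ {y | r < ‖y‖ ∧ ‖y‖ ≤ T} := ⟨_, rfl⟩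
  obtain ⟨W, hWdef⟩ : ∃ W : Set ℂ, W = E ∩ {y | T < ‖y‖} := ⟨_, rfl⟩
  obtain ⟨A, hAdef⟩ : ∃ A : Set ℂ, A = V ∩ {y | R ≤ ‖y‖} := ⟨_, rfl⟩
  have mU : MeasurableSet U := by
    rw [hUdef]; exact hE.inter Metric.isClosed_closedBall.measurableSet
  have mV : MeasurableSet V := by
    rw [hVdef]
    exact hE.inter ((measurableSet_lt measurable_const measurable_norm).inter
      (measurableSet_le measurable_norm measurable_const))
  have mW : MeasurableSet W := by
    rw [hWdef]; exact hE.inter (measurableSet_lt measurable_const measurable_norm)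
  have mA : MeasurableSet A := by
    rw [hAdef]; exact mV.inter (measurableSet_le measurable_const measurable_norm)
  have hVE : V ⊆ E := by rw [hVdef]; exact Set.inter_subset_left
  have hWE : W ⊆ E := by rw [hWdef]; exact Set.inter_subset_left
  have hAV : A ⊆ V := by rw [hAdef]; exact Set.inter_subset_left
  have hUE : U ⊆ E := by rw [hUdef]; exact Set.inter_subset_left
  have hAE : A ⊆ E := hAV.trans hVE
  have hAR : ∀ y ∈ A, R ≤ ‖y‖ := by
    intro y hy
    rw [hAdef] at hy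
    exact hy.2
  have hfinsub : ∀ s : Set ℂ, s ⊆ E → volume s ≠ ∞ := fun s hs =>
    ne_top_of_le_ne_top hfin (measure_mono hs)
  have hWv : volume.real W ≤ C0 * R ^ (-4 : ℝ) := by
    rw [← hTβ]
    refine le_trans (measureReal_mono ?_ (hfinsub _ Set.inter_subset_left)) (htail T hT1)
    rw [hWdef]
    rintro y ⟨h1, h2⟩
    have h3 : T ≤ ‖y‖ := le_of_lt h2
    exact ⟨h1, h3⟩
  have hVv : volume.real V ≤ C0 * R ^ (-(β / 64)) := by
    rw [← hrβ]
    refine le_trans (measureReal_mono ?_ (hfinsub _ Set.inter_subset_left)) (htail r hr1)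
    rw [hVdef]
    rintro y ⟨h1, h2, h3⟩
    have h4 : r ≤ ‖y‖ := le_of_lt h2
    exact ⟨h1, h4⟩
  have hrR : r < R := by
    rw [hrdef]
    calc R ^ (1 / 64 : ℝ) < R ^ (1 : ℝ) := Real.rpow_lt_rpow_of_exponent_lt g3 (by norm_num)
      _ = R := Real.rpow_one R
  have hAv : R ^ (-3 : ℝ) / 2 ≤ volume.real A := by
    have h1 : volume.real (E ∩ {y | R ≤ ‖y‖}) ≤ volume.real A + volume.real W := by
      refine le_trans (measureReal_mono ?_ ?_) (measureReal_union_le A W)
      · rintro y ⟨h1, h2⟩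
        have h2' : R ≤ ‖y‖ := h2
        rcases le_or_gt ‖y‖ T with h3 | h3
        · left
          rw [hAdef, hVdef]
          exact ⟨⟨h1, hrR.trans_le h2', h3⟩, h2⟩
        · right
          rw [hWdef]
          exact ⟨h1, h3⟩
      · exact hfinsub _ (Set.union_subset hAE hWE)
    have h2 : C0 * R ^ (-4 : ℝ) ≤ R ^ (-3 : ℝ) / 2 := by
      rw [← hR4]
      nlinarith
    linarith
  have hR3pos : 0 < R ^ (-3 : ℝ) := Real.rpow_pos_of_pos hR0 _
  have hApos : 0 < volume.real A := by linarith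
  have hAfin : volume A ≠ ∞ := hfinsub A hAE
  have hA0 : volume A ≠ 0 := by
    intro h
    rw [measureReal_def, h, ENNReal.toReal_zero] at hApos
    exact lt_irrefl _ hApos
  have hAof : volume A = ENNReal.ofReal (volume.real A) := (ofReal_measureReal hAfin).symm
  have hWof : volume W = ENNReal.ofReal (volume.real W) :=
    (ofReal_measureReal (hfinsub W hWE)).symm
  have hV1 : volume V ≤ 1 := by
    rw [← ofReal_measureReal (hfinsub V hVE), ← ENNReal.ofReal_one]
    exact ENNReal.ofReal_le_ofReal (hVv.trans g5)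
  obtain ⟨near1, near2⟩ := hnear R g1 A mA hAE hAR hAv
  rw [← hrdef, ← hUdef] at near2
  have hmid' := hmid R T g4 V mV hV1 (by
    intro y hy
    rw [hVdef] at hy
    refine ⟨?_, hy.2.2⟩
    have := hy.2.1
    rw [hrdef] at this
    linarith)
  rw [← hAdef] at hmid'
  refine arith n hn hA0 hAfin (cutJ ρ) (e := ENNReal.ofReal η) (by rw [hηdef])
    (Or.inr (decomp hE hT mA mU mV mW ?_ ρ)) ?_ near1 near2 ?_ ?_ ?_
  · intro y hy
    rcases le_or_gt ‖y‖ r with h1 | h1
    · left; left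
      rw [hUdef]
      exact ⟨hy, mem_closedBall_zero_iff.2 h1⟩
    · rcases le_or_gt ‖y‖ T with h2 | h2
      · left; right
        rw [hVdef]
        exact ⟨hy, h1, h2⟩
      · right
        rw [hWdef]
        exact ⟨hy, h2⟩
  · refine core_ineq hE hT mA hAE (meas_cut ρ) (fun x => ?_) (fun x hx => ?_)
    · exact (ENNReal.ofReal_le_ofReal (cut_le_one ρ x)).trans (le_of_eq ENNReal.ofReal_one)
    · rw [cut_of_ge, ENNReal.ofReal_zero]
      have := hAR x hx
      linarith
  · calc ∫⁻ x, ENNReal.ofReal (cut ρ x) * SP (ind V) x * SS (ind A) x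
        ≤ ∫⁻ x, ind (Metric.closedBall 0 ρ) x * SS (ind V) x * SS (ind A) x := by
          refine lintegral_mono fun x => ?_
          exact mul_le_mul' (mul_le_mul' (cut_le_ind ρ x) (sp_le_ss _ _)) le_rfl
      _ ≤ _ := hmid'
      _ ≤ ENNReal.ofReal η * volume A := by
          refine mul_le_mul' (ENNReal.ofReal_le_ofReal ?_) le_rfl
          have h1 : volume.real V ^ (1 / 3 : ℝ) ≤ C0 ^ (1 / 3 : ℝ) * R ^ (-(β / 192)) := by
            calc volume.real V ^ (1 / 3 : ℝ) ≤ (C0 * R ^ (-(β / 64))) ^ (1 / 3 : ℝ) :=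
                  Real.rpow_le_rpow measureReal_nonneg hVv (by norm_num)
              _ = C0 ^ (1 / 3 : ℝ) * R ^ (-(β / 192)) := by
                  rw [Real.mul_rpow hC0.le (Real.rpow_nonneg hR0.le _), ← Real.rpow_mul hR0.le]
                  congr 2
                  ring
          have h2 : T ^ (β ^ 2 / 2000) = R ^ (β / 500) := by
            rw [hTdef, ← Real.rpow_mul hR0.le]
            congr 1
            field_simp
            ring
          have h3 : R ^ (β / 500) * R ^ (-(β / 192)) = R ^ (-(β / 192 - β / 500)) := by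
            rw [← Real.rpow_add hR0]
            congr 1
            ring
          calc C * T ^ (β ^ 2 / 2000) * volume.real V ^ (1 / 3 : ℝ)
              ≤ C * R ^ (β / 500) * (C0 ^ (1 / 3 : ℝ) * R ^ (-(β / 192))) := by
                rw [h2]
                exact mul_le_mul_of_nonneg_left h1 (by positivity)
            _ = C * C0 ^ (1 / 3 : ℝ) * (R ^ (β / 500) * R ^ (-(β / 192))) := by ring
            _ = C * C0 ^ (1 / 3 : ℝ) * R ^ (-(β / 192 - β / 500)) := by rw [h3]
            _ ≤ η := g6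
  · refine (far_part hE hT hAE mW (by linarith)).trans ?_
    rw [hAof, hWof, ← ENNReal.ofReal_natCast, ← ENNReal.ofReal_mul (by positivity),
      ← ENNReal.ofReal_mul (by positivity), ← ENNReal.ofReal_mul hη.le]
    apply ENNReal.ofReal_le_ofReal
    have hn0 : (0 : ℝ) ≤ n := Nat.cast_nonneg n
    calc (2 * ρ + 1) ^ 2 * volume.real W * n ≤ (2 * ρ + 1) ^ 2 * (C0 * R ^ (-4 : ℝ)) * n := by
          gcongr
      _ = (n * (2 * ρ + 1) ^ 2 * C0 * 2) * (R ^ (-4 : ℝ) / 2) := by ring
      _ ≤ (η * R) * (R ^ (-4 : ℝ) / 2) := mul_le_mul_of_nonneg_right g7 (by positivity)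
      _ = η * ((R ^ (-4 : ℝ) * R) / 2) := by ring
      _ ≤ η * volume.real A := by
          rw [hR4]
          exact mul_le_mul_of_nonneg_left hAv hη.le
  · rw [hρdef]
    exact near_mass hE hT hUE hS

end Pool.MPb9430d.Mom
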