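import Pool.Agent.Lib.MP_b9430d_co.Mom.Defs
import Pool.Agent.Lib.MP_b9430d_co.Frac.Pol

/-!
# GeoI: two integrals

`int_inv`: translate `w` to `0`; `r = √|B|`. On `‖y‖ ≤ r`: `∫⁻ 1/‖y‖ = 2πr` (polar coordinates), outside `1/‖y‖ ≤ 1/r`: total `≤ (2π+1) √|B| ≤ 8 √|B|`
(`|B| = 0` trivial). `nr_int`: translate by `w`, polar coordinates `y - w = d rot φ`, `w = ‖w‖ rot ω`: the condition of `NR` is
`‖w‖ |sin (φ - ω)| < 2ρ`, `cos (φ - ω) < 0`: the set of these `φ` in a period has measure `≤ 2 arcsin(2ρ/‖w‖) ≤ 8ρ/‖w‖`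
(e.g. shift by `ω + π`: `|sin ψ| < 2ρ/‖w‖`, `cos ψ > 0`, `|ψ| ≤ (π/2)|sin ψ|` on `[-π/2, π/2]`).
-/

set_option autoImplicit false

open MeasureTheory Complex Set Real Filter Topology
open scoped ENNReal

namespace Pool.MPb9430d.Mom

open Pool.MPb9430d Pool.MPb9430d.Rough Pool.MPb9430d.Frac

private theorem GeoI_polar {F : ℂ → ℝ≥0∞} (hF : Measurable F) :
    ∫⁻ y, F y = ∫⁻ θ in Ioc (-π) π, ∫⁻ r in Ioi (0 : ℝ), ENNReal.ofReal r * F (r * rot θ) := by
  rw [← Complex.lintegral_comp_polarCoord_symm]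
  have htar : (polarCoord.target : Set (ℝ × ℝ)) = Ioi (0 : ℝ) ×ˢ Ioo (-π) π := rfl
  rw [htar]
  have hsymm : ∀ q : ℝ × ℝ, Complex.polarCoord.symm q = (q.1 : ℂ) * rot q.2 := by
    intro q
    rw [Complex.polarCoord_symm_apply]
    unfold rot
    rw [Complex.exp_mul_I, Complex.ofReal_cos, Complex.ofReal_sin]
  simp only [hsymm]
  rw [Measure.volume_eq_prod, ← Measure.prod_restrict]
  have hmeas : Measurable fun q : ℝ × ℝ =>
      ENNReal.ofReal q.1 • F ((q.1 : ℂ) * rot q.2) := by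
    refine Measurable.smul (measurable_fst.ennreal_ofReal) (hF.comp ?_)
    exact (Complex.measurable_ofReal.comp measurable_fst).mul
      (measurable_rot.comp measurable_snd)
  rw [lintegral_prod_symm _ hmeas.aemeasurable]
  rw [Measure.restrict_congr_set (Ioo_ae_eq_Ioc : Ioo (-π) π =ᵐ[volume] Ioc (-π) π)]
  rfl

private theorem GeoI_norm (r θ : ℝ) (hr : 0 < r) : ‖(r : ℂ) * rot θ‖ = r := by
  rw [norm_mul, norm_rot, mul_one, Complex.norm_real, Real.norm_eq_abs, abs_of_pos hr]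

private theorem GeoI_ball {r : ℝ} (hr : 0 < r) (w : ℂ) :
    ∫⁻ y in Metric.closedBall w r, ENNReal.ofReal (1 / ‖y - w‖) =
      ENNReal.ofReal (2 * π * r) := by
  have hB : MeasurableSet (Metric.closedBall w r) := Metric.isClosed_closedBall.measurableSet
  have hB0 : MeasurableSet (Metric.closedBall (0 : ℂ) r) :=
    Metric.isClosed_closedBall.measurableSet
  obtain ⟨F, hF⟩ : ∃ F : ℂ → ℝ≥0∞, F =
    (Metric.closedBall (0 : ℂ) r).indicator (fun u => ENNReal.ofReal (1 / ‖u‖)) := ⟨_, rfl⟩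
  have hFm : Measurable F := by
    rw [hF]
    refine Measurable.indicator ?_ hB0
    exact (measurable_const.div measurable_norm).ennreal_ofReal
  have h1 : ∫⁻ y in Metric.closedBall w r, ENNReal.ofReal (1 / ‖y - w‖) = ∫⁻ y, F (y - w) := by
    rw [← lintegral_indicator hB]
    refine lintegral_congr fun y => ?_
    rw [hF]
    by_cases hy : y ∈ Metric.closedBall w r
    · have hy' : y - w ∈ Metric.closedBall (0 : ℂ) r := by
        rw [mem_closedBall_zero_iff]
        exact mem_closedBall_iff_norm.1 hy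
      rw [indicator_of_mem hy, indicator_of_mem hy']
    · have hy' : y - w ∉ Metric.closedBall (0 : ℂ) r := by
        rw [mem_closedBall_zero_iff]
        exact fun h => hy (mem_closedBall_iff_norm.2 h)
      rw [indicator_of_notMem hy, indicator_of_notMem hy']
  rw [h1, lintegral_sub_right_eq_self F w, GeoI_polar hFm]
  have h2 : ∀ θ : ℝ, ∫⁻ s in Ioi (0 : ℝ), ENNReal.ofReal s * F (s * rot θ) = ENNReal.ofReal r := by
    intro θ
    have h3 : ∀ s ∈ Ioi (0 : ℝ), ENNReal.ofReal s * F (s * rot θ) =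
        (Ioc 0 r).indicator (fun _ => (1 : ℝ≥0∞)) s := by
      intro s hs
      have hs0 : 0 < s := hs
      have hn := GeoI_norm s θ hs0
      rw [hF]
      by_cases h : s ≤ r
      · have e1 : (s : ℂ) * rot θ ∈ Metric.closedBall (0 : ℂ) r := by
          rw [mem_closedBall_zero_iff, hn]
          exact h
        have e2 : s ∈ Ioc 0 r := ⟨hs0, h⟩
        rw [indicator_of_mem e1, indicator_of_mem e2, hn, ← ENNReal.ofReal_mul hs0.le,
          mul_one_div_cancel hs0.ne', ENNReal.ofReal_one]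
      · have e1 : (s : ℂ) * rot θ ∉ Metric.closedBall (0 : ℂ) r := by
          rw [mem_closedBall_zero_iff, hn]
          exact h
        have e2 : s ∉ Ioc 0 r := fun h' => h h'.2
        rw [indicator_of_notMem e1, indicator_of_notMem e2, mul_zero]
    rw [setLIntegral_congr_fun measurableSet_Ioi h3, lintegral_indicator measurableSet_Ioc,
      lintegral_const, one_mul, Measure.restrict_restrict measurableSet_Ioc]
    have h4 : Ioc 0 r ∩ Ioi (0 : ℝ) = Ioc 0 r := inter_eq_left.2 fun s hs => hs.1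
    rw [h4, Measure.restrict_apply_univ, Real.volume_Ioc, sub_zero]
  simp only [h2]
  rw [lintegral_const, Measure.restrict_apply_univ, Real.volume_Ioc,
    ← ENNReal.ofReal_mul hr.le]
  congr 1
  ring

theorem int_inv {B : Set ℂ} (hB : MeasurableSet B) (hfin : volume B ≠ ∞) (w : ℂ) :
    ∫⁻ y in B, ENNReal.ofReal (1 / ‖y - w‖) ≤ ENNReal.ofReal (8 * √(volume.real B)) := by
  by_cases h0 : volume B = 0
  · rw [Measure.restrict_eq_zero.2 h0, lintegral_zero_measure]
    exact bot_le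
  have hv : 0 < volume.real B := ENNReal.toReal_pos h0 hfin
  obtain ⟨r, hr⟩ : ∃ r : ℝ, r = √(volume.real B) := ⟨_, rfl⟩
  have hr0 : 0 < r := by
    rw [hr]
    exact Real.sqrt_pos.2 hv
  have hrr : r * r = volume.real B := by
    rw [hr]
    exact Real.mul_self_sqrt hv.le
  rw [← hr]
  have hC : MeasurableSet (Metric.closedBall w r) := Metric.isClosed_closedBall.measurableSet
  have h1 : ∫⁻ y in B, ENNReal.ofReal (1 / ‖y - w‖) ≤
      (∫⁻ y in Metric.closedBall w r, ENNReal.ofReal (1 / ‖y - w‖)) +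
        ∫⁻ y in B \ Metric.closedBall w r, ENNReal.ofReal (1 / ‖y - w‖) := by
    refine le_trans (lintegral_mono_set (t := Metric.closedBall w r ∪ (B \ Metric.closedBall w r)) ?_)
      (lintegral_union_le _ _ _)
    intro y hy
    by_cases h : y ∈ Metric.closedBall w r
    · exact Or.inl h
    · exact Or.inr ⟨hy, h⟩
  have h2 : ∫⁻ y in B \ Metric.closedBall w r, ENNReal.ofReal (1 / ‖y - w‖) ≤
      ENNReal.ofReal r := by
    calc ∫⁻ y in B \ Metric.closedBall w r, ENNReal.ofReal (1 / ‖y - w‖)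
        ≤ ∫⁻ _ in B \ Metric.closedBall w r, ENNReal.ofReal (1 / r) := by
          refine setLIntegral_mono measurable_const fun y hy => ?_
          refine ENNReal.ofReal_le_ofReal (one_div_le_one_div_of_le hr0 ?_)
          have h3 := hy.2
          rw [mem_closedBall_iff_norm, not_le] at h3
          exact h3.le
      _ = ENNReal.ofReal (1 / r) * volume (B \ Metric.closedBall w r) := setLIntegral_const _ _
      _ ≤ ENNReal.ofReal (1 / r) * volume B := by
          gcongr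
          exact sdiff_subset
      _ = ENNReal.ofReal r := by
          rw [← ENNReal.ofReal_toReal hfin, ← measureReal_def, ← hrr,
            ← ENNReal.ofReal_mul (by positivity)]
          congr 1
          field_simp
  refine h1.trans ?_
  rw [GeoI_ball hr0 w]
  refine (add_le_add_right h2 _).trans ?_
  rw [← ENNReal.ofReal_add (by positivity) hr0.le]
  refine ENNReal.ofReal_le_ofReal ?_
  have hpi := Real.pi_lt_d2
  nlinarith

theorem nr_meas (ρ : ℝ) (w : ℂ) : MeasurableSet (NR ρ w) := by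
  have h1 : IsOpen {y : ℂ | |((starRingEnd ℂ) w * (y - w)).im| < 2 * ρ * ‖y - w‖} := by
    refine isOpen_lt ?_ ?_
    · exact (Complex.continuous_im.comp (by fun_prop)).abs
    · fun_prop
  have h2 : IsOpen {y : ℂ | ((starRingEnd ℂ) w * (y - w)).re < 0} := by
    refine isOpen_lt ?_ continuous_const
    exact Complex.continuous_re.comp (by fun_prop)
  exact (h1.inter h2).measurableSet

private theorem GeoI_angle {ρ W θ : ℝ} (hρ : 1 ≤ ρ) (hW : 0 < W) (hθ : θ ∈ Ioc (-π) π)
    (h1 : W * |Real.sin θ| < 2 * ρ) (h2 : 0 < Real.cos θ) :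
    θ ∈ Icc (-(4 * ρ / W)) (4 * ρ / W) := by
  have hpi := Real.pi_pos
  have habs : |θ| ≤ π := abs_le.2 ⟨hθ.1.le, hθ.2⟩
  have hhalf : |θ| ≤ π / 2 := by
    by_contra h
    push Not at h
    have h3 := Real.cos_nonpos_of_pi_div_two_le_of_le h.le (by linarith)
    rw [Real.cos_abs] at h3
    linarith
  have h3 := Real.mul_abs_le_abs_sin hhalf
  have h4 : W * (2 / π * |θ|) < 2 * ρ := lt_of_le_of_lt (mul_le_mul_of_nonneg_left h3 hW.le) h1
  have h5 : |θ| * W < π * ρ := by
    have e1 : W * (2 / π * |θ|) = 2 * (|θ| * W) / π := by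
      field_simp
    rw [e1, div_lt_iff₀ hpi] at h4
    linarith
  have h6 : |θ| ≤ 4 * ρ / W := by
    rw [le_div_iff₀ hW]
    have := Real.pi_lt_d2
    nlinarith
  exact abs_le.1 h6

theorem nr_int {ρ : ℝ} (hρ : 1 ≤ ρ) {w : ℂ} (hw : 1000 * ρ ≤ ‖w‖) {f : ℝ → ℝ≥0∞}
    (hf : Measurable f) : ∫⁻ y in NR ρ w, f ‖y - w‖ ≤
      ENNReal.ofReal (8 * ρ / ‖w‖) * ∫⁻ d in Ioi (0 : ℝ), ENNReal.ofReal d * f d := by
  have hW : 0 < ‖w‖ := by linarith
  have hw0 : w ≠ 0 := norm_pos_iff.1 hW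
  -- the two sets
  obtain ⟨Q', hQ'⟩ : ∃ Q' : Set ℂ, Q' = {z : ℂ | |((starRingEnd ℂ) w * z).im| < 2 * ρ * ‖z‖ ∧
    ((starRingEnd ℂ) w * z).re < 0} := ⟨_, rfl⟩
  obtain ⟨Q, hQ⟩ : ∃ Q : Set ℂ, Q = {u : ℂ | ‖w‖ * |u.im| < 2 * ρ * ‖u‖ ∧ 0 < u.re} := ⟨_, rfl⟩
  have hQm : MeasurableSet Q := by
    rw [hQ]
    have h1 : IsOpen {u : ℂ | ‖w‖ * |u.im| < 2 * ρ * ‖u‖} :=
      isOpen_lt (continuous_const.mul Complex.continuous_im.abs) (by fun_prop)
    have h2 : IsOpen {u : ℂ | 0 < u.re} := isOpen_lt continuous_const Complex.continuous_re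
    exact (h1.inter h2).measurableSet
  have hQ'm : MeasurableSet Q' := by
    rw [hQ']
    have h1 : IsOpen {z : ℂ | |((starRingEnd ℂ) w * z).im| < 2 * ρ * ‖z‖} := by
      refine isOpen_lt ?_ ?_
      · exact (Complex.continuous_im.comp (by fun_prop)).abs
      · fun_prop
    have h2 : IsOpen {z : ℂ | ((starRingEnd ℂ) w * z).re < 0} := by
      refine isOpen_lt ?_ continuous_const
      exact Complex.continuous_re.comp (by fun_prop)
    exact (h1.inter h2).measurableSet
  obtain ⟨G, hG⟩ : ∃ G : ℂ → ℝ≥0∞, G = Q'.indicator (fun u => f ‖u‖) := ⟨_, rfl⟩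
  obtain ⟨F, hF⟩ : ∃ F : ℂ → ℝ≥0∞, F = Q.indicator (fun u => f ‖u‖) := ⟨_, rfl⟩
  have hGm : Measurable G := by
    rw [hG]
    exact (hf.comp measurable_norm).indicator hQ'm
  have hFm : Measurable F := by
    rw [hF]
    exact (hf.comp measurable_norm).indicator hQm
  -- the rotation
  have hcn : ‖-(w / (‖w‖ : ℂ))‖ = 1 := by
    rw [norm_neg, norm_div, Complex.norm_real, norm_norm, div_self hW.ne']
  obtain ⟨R, hRu⟩ : ∃ R : ℂ ≃ₗᵢ[ℝ] ℂ, ∀ u : ℂ, R u = -(w / (‖w‖ : ℂ)) * u :=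
    ⟨rotation ⟨-(w / (‖w‖ : ℂ)), mem_sphere_zero_iff_norm.2 hcn⟩, fun u => by
      rw [rotation_apply]⟩
  have hR : MeasurePreserving (fun u : ℂ => R u) := R.measurePreserving
  have hWc : (‖w‖ : ℂ) ≠ 0 := by
    rw [Ne, Complex.ofReal_eq_zero]
    exact hW.ne'
  have hkey : ∀ u : ℂ, (starRingEnd ℂ) w * R u = -((‖w‖ : ℝ) : ℂ) * u := by
    intro u
    have e1 : (starRingEnd ℂ) w * w = (‖w‖ : ℂ) ^ 2 := Complex.conj_mul' w
    have e2 : (starRingEnd ℂ) w * (-(w / (‖w‖ : ℂ)) * u) =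
        -(((starRingEnd ℂ) w * w) / (‖w‖ : ℂ)) * u := by ring
    rw [hRu, e2, e1]
    field_simp
  have h4 : ∀ u : ℂ, G (R u) = F u := by
    intro u
    have hn : ‖R u‖ = ‖u‖ := R.norm_map u
    have him : ((starRingEnd ℂ) w * R u).im = -(‖w‖ * u.im) := by
      rw [hkey, ← Complex.ofReal_neg, Complex.im_ofReal_mul]
      ring
    have hre : ((starRingEnd ℂ) w * R u).re = -(‖w‖ * u.re) := by
      rw [hkey, ← Complex.ofReal_neg, Complex.re_ofReal_mul]
      ring
    have hiff : R u ∈ Q' ↔ u ∈ Q := by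
      rw [hQ', hQ]
      show (|((starRingEnd ℂ) w * R u).im| < 2 * ρ * ‖R u‖ ∧ ((starRingEnd ℂ) w * R u).re < 0) ↔
        (‖w‖ * |u.im| < 2 * ρ * ‖u‖ ∧ 0 < u.re)
      rw [him, hre, hn, abs_neg, abs_mul, abs_of_pos hW, neg_lt_zero, mul_pos_iff_of_pos_left hW]
    rw [hG, hF]
    by_cases h : u ∈ Q
    · rw [indicator_of_mem h, indicator_of_mem (hiff.2 h), hn]
    · rw [indicator_of_notMem h, indicator_of_notMem (fun h' => h (hiff.1 h'))]
  have h1 : ∫⁻ y in NR ρ w, f ‖y - w‖ = ∫⁻ y, G (y - w) := by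
    rw [← lintegral_indicator (nr_meas ρ w)]
    refine lintegral_congr fun y => ?_
    rw [hG]
    have hiff : y - w ∈ Q' ↔ y ∈ NR ρ w := by
      rw [hQ']
      rfl
    by_cases h : y ∈ NR ρ w
    · rw [indicator_of_mem h, indicator_of_mem (hiff.2 h)]
    · rw [indicator_of_notMem h, indicator_of_notMem (fun h' => h (hiff.1 h'))]
  rw [h1, lintegral_sub_right_eq_self G w, ← hR.lintegral_comp hGm]
  simp only [h4]
  rw [GeoI_polar hFm]
  obtain ⟨I, hI⟩ : ∃ I : ℝ≥0∞, I = ∫⁻ d in Ioi (0 : ℝ), ENNReal.ofReal d * f d := ⟨_, rfl⟩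
  rw [← hI]
  have h5 : ∀ θ ∈ Ioc (-π) π, ∫⁻ r in Ioi (0 : ℝ), ENNReal.ofReal r * F (r * rot θ) ≤
      (Icc (-(4 * ρ / ‖w‖)) (4 * ρ / ‖w‖)).indicator (fun _ => I) θ := by
    intro θ hθ
    have hrre : (rot θ).re = Real.cos θ := by
      unfold rot
      rw [Complex.exp_mul_I, ← Complex.ofReal_cos, ← Complex.ofReal_sin, Complex.add_re,
        Complex.mul_re, Complex.ofReal_re, Complex.ofReal_re, Complex.I_re, Complex.I_im,
        Complex.ofReal_im]
      ring
    have hrim : (rot θ).im = Real.sin θ := by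
      unfold rot
      rw [Complex.exp_mul_I, ← Complex.ofReal_cos, ← Complex.ofReal_sin, Complex.add_im,
        Complex.mul_im, Complex.ofReal_im, Complex.ofReal_re, Complex.I_re, Complex.I_im,
        Complex.ofReal_im]
      ring
    by_cases hin : θ ∈ Icc (-(4 * ρ / ‖w‖)) (4 * ρ / ‖w‖)
    · rw [indicator_of_mem hin, hI]
      refine setLIntegral_mono' measurableSet_Ioi fun s hs => ?_
      have hs0 : (0 : ℝ) < s := hs
      refine mul_le_mul_right ?_ _
      rw [hF]
      refine (indicator_le_self _ _ _).trans ?_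
      show f ‖(s : ℂ) * rot θ‖ ≤ f s
      rw [GeoI_norm s θ hs0]
    · rw [indicator_of_notMem hin]
      refine le_of_eq ?_
      have h6 : ∀ s ∈ Ioi (0 : ℝ), ENNReal.ofReal s * F (s * rot θ) = 0 := by
        intro s hs
        have hs0 : (0 : ℝ) < s := hs
        have h7 : (s : ℂ) * rot θ ∉ Q := by
          rw [hQ]
          rintro ⟨k1, k2⟩
          rw [Complex.im_ofReal_mul, GeoI_norm s θ hs0, hrim, abs_mul, abs_of_pos hs0] at k1
          rw [Complex.re_ofReal_mul, hrre] at k2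
          have k3 : 0 < Real.cos θ := pos_of_mul_pos_right k2 hs0.le
          have k4 : ‖w‖ * |Real.sin θ| < 2 * ρ := by
            have : s * (‖w‖ * |Real.sin θ|) < s * (2 * ρ) := by linarith
            exact lt_of_mul_lt_mul_left this hs0.le
          exact hin (GeoI_angle hρ hW hθ k4 k3)
        rw [hF, indicator_of_notMem h7, mul_zero]
      rw [setLIntegral_congr_fun measurableSet_Ioi h6, lintegral_zero]
  refine (setLIntegral_mono' measurableSet_Ioc h5).trans ?_
  refine (setLIntegral_le_lintegral _ _).trans ?_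
  rw [lintegral_indicator measurableSet_Icc, setLIntegral_const, Real.volume_Icc, mul_comm]
  refine mul_le_mul_left (ENNReal.ofReal_le_ofReal (le_of_eq ?_)) _
  ring

end Pool.MPb9430d.Mom
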