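import Pool.Agent.Lib.MP_b9430d_co.Mom.Defs
import Pool.Agent.Lib.MP_b9430d_co.Frac.GauF
import Pool.Agent.Lib.MP_b9430d_co.Frac.GauM
import Pool.Agent.Lib.MP_b9430d_co.Frac.Semi
import Pool.Agent.Lib.MP_b9430d_co.Frac.Fact

/-!
# SmB: elementary facts on the Gaussian smoothing

`smo N g` for `g` measurable with `|g| ≤ K` and `g` integrable. `measurable_smo`, `integrable_smo`
(convolution of integrable functions), `|smo N g| ≤ K` (`integral_gau`), `smo_nonneg`. `smo_sub`: for `A = 2√2 N`: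
`smo (2N) g - smo N g = smo (2√2 N) (sm N g)` where `sm N g y = ∫ psi N (y - t) * g t`, `psi N = gau (2√2 N) - gau (√(8/7) N)`
(`gau_conv` twice: `1/(2N)² = 1/(2√2N)² + 1/(2√2N)²` and `1/N² = 1/(2√2N)² + 1/(√(8/7)N)²`, Fubini).
`sm_eq`: `sm N g = smo (2√2 N) g - smo (√(8/7) N) g`. `tail_smo`: `g` vanishes outside the disc of radius `ρ`:
for `‖x‖ > ρ + 1`: `‖x - t‖ > 1` on the support of `g`, `gau N u ≤ 2 exp(-N²) gau (N/√2) u` for `‖u‖ ≥ 1` (as `π/2 ≥ 1`:
`N² e^(-πN²|u|²) ≤ N² e^(-πN²/2) e^(-πN²|u|²/2)`), integrate: `≤ 2 exp(-N²) ∫|g| ≤ 8 K ρ² exp(-N²)`.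
-/

set_option autoImplicit false

open MeasureTheory Complex Set Real Filter Topology
open scoped ENNReal

namespace Pool.MPb9430d.Mom

open Pool.MPb9430d Pool.MPb9430d.Rough Pool.MPb9430d.Frac

private theorem SmB_conv {k g : ℂ → ℝ} (hk : Integrable k) (hg : Integrable g) :
    Integrable (fun w : ℂ × ℂ => g w.2 * k (w.1 - w.2)) (volume.prod volume) :=
  Integrable.convolution_integrand (ContinuousLinearMap.mul ℝ ℝ) hg hk

private theorem SmB_int {M K : ℝ} (hM : 0 < M) {g : ℂ → ℝ} (hg : Measurable g)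
    (hK : ∀ x, |g x| ≤ K) (x : ℂ) : Integrable (fun t => gau M (x - t) * g t) := by
  have h1 : Integrable (fun t => gau M (x - t)) := (integrable_gau hM).comp_sub_left x
  have h2 : Integrable (fun t => g t * gau M (x - t)) :=
    Integrable.bdd_mul (c := K) h1 hg.aestronglyMeasurable
      (Filter.Eventually.of_forall fun t => by
        rw [Real.norm_eq_abs]
        exact hK t)
  refine h2.congr (Filter.Eventually.of_forall fun t => ?_)
  exact mul_comm _ _

theorem measurable_smo {N : ℝ} {g : ℂ → ℝ} (hg : Measurable g) : Measurable (smo N g) := by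
  have h1 : Measurable (fun w : ℂ × ℂ => gau N (w.1 - w.2) * g w.2) :=
    ((continuous_gau N).measurable.comp (measurable_fst.sub measurable_snd)).mul
      (hg.comp measurable_snd)
  exact (h1.stronglyMeasurable.integral_prod_right' (ν := volume)).measurable

theorem integrable_smo {N : ℝ} (hN : 0 < N) {g : ℂ → ℝ} (hi : Integrable g) :
    Integrable (smo N g) := by
  have h := (SmB_conv (integrable_gau hN) hi).integral_prod_left
  refine h.congr (Filter.Eventually.of_forall fun y => ?_)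
  unfold smo
  refine integral_congr_ae (Filter.Eventually.of_forall fun t => ?_)
  exact mul_comm _ _

theorem abs_smo_le {N K : ℝ} (hN : 0 < N) {g : ℂ → ℝ} (hg : Measurable g)
    (hK : ∀ x, |g x| ≤ K) (x : ℂ) : |smo N g x| ≤ K := by
  have h1 : Integrable (fun t => gau N (x - t) * K) :=
    ((integrable_gau hN).comp_sub_left x).mul_const K
  have h2 : ‖∫ t, gau N (x - t) * g t‖ ≤ ∫ t, gau N (x - t) * K := by
    refine norm_integral_le_of_norm_le h1 (Filter.Eventually.of_forall fun t => ?_)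
    rw [Real.norm_eq_abs, abs_mul, abs_of_nonneg (gau_nonneg N _)]
    exact mul_le_mul_of_nonneg_left (hK t) (gau_nonneg N _)
  have h3 : ∫ t, gau N (x - t) * K = K := by
    rw [integral_mul_const, integral_sub_left_eq_self (gau N) volume x, integral_gau hN, one_mul]
  rw [h3, Real.norm_eq_abs] at h2
  exact h2

theorem smo_nonneg {N : ℝ} {g : ℂ → ℝ} (h0 : ∀ x, 0 ≤ g x) (x : ℂ) : 0 ≤ smo N g x :=
  integral_nonneg fun t => mul_nonneg (gau_nonneg N _) (h0 t)

theorem integral_smo {N : ℝ} (hN : 0 < N) {g : ℂ → ℝ} (hi : Integrable g) :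
    ∫ x, smo N g x = ∫ x, g x := by
  have h1 : Integrable (Function.uncurry fun (x t : ℂ) => gau N (x - t) * g t)
      (volume.prod volume) := by
    refine (SmB_conv (integrable_gau hN) hi).congr (Filter.Eventually.of_forall fun w => ?_)
    exact mul_comm _ _
  unfold smo
  rw [integral_integral_swap h1]
  refine integral_congr_ae (Filter.Eventually.of_forall fun t => ?_)
  show ∫ x, gau N (x - t) * g t = g t
  rw [integral_mul_const, integral_sub_right_eq_self (gau N) t, integral_gau hN, one_mul]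

theorem sm_eq {N K : ℝ} (hN : 0 < N) {g : ℂ → ℝ} (hg : Measurable g) (hK : ∀ x, |g x| ≤ K)
    (x : ℂ) : sm N g x = smo (2 * √2 * N) g x - smo (√(8 / 7) * N) g x := by
  have h1 : 0 < 2 * √2 * N := by positivity
  have h2 : 0 < √(8 / 7) * N := by positivity
  unfold sm smo psi
  rw [← integral_sub (SmB_int h1 hg hK x) (SmB_int h2 hg hK x)]
  refine integral_congr_ae (Filter.Eventually.of_forall fun t => ?_)
  show (gau (2 * √2 * N) (x - t) - gau (√(8 / 7) * N) (x - t)) * g t =
    gau (2 * √2 * N) (x - t) * g t - gau (√(8 / 7) * N) (x - t) * g t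
  ring

private theorem SmB_gle (N : ℝ) (x : ℂ) : gau N x ≤ N ^ 2 := by
  unfold gau
  have h1 : Real.exp (-(π * N ^ 2 * ‖x‖ ^ 2)) ≤ 1 := by
    rw [Real.exp_le_one_iff]
    have : 0 ≤ π * N ^ 2 * ‖x‖ ^ 2 := by positivity
    linarith
  nlinarith [sq_nonneg N]

private theorem SmB_gg {A B : ℝ} (hB : 0 < B) (x : ℂ) :
    Integrable (fun y => gau A (x - y) * gau B y) := by
  refine Integrable.bdd_mul (c := A ^ 2) (integrable_gau hB) ?_
    (Filter.Eventually.of_forall fun t => ?_)
  · exact ((continuous_gau A).comp (continuous_const.sub continuous_id)).aestronglyMeasurable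
  · rw [Real.norm_eq_abs, abs_of_nonneg (gau_nonneg A _)]
    exact SmB_gle A _

private theorem SmB_psi {N : ℝ} (hN : 0 < N) (x t : ℂ) :
    ∫ y, gau (2 * √2 * N) (x - y) * psi N (y - t) = gau (2 * N) (x - t) - gau N (x - t) := by
  have hA : 0 < 2 * √2 * N := by positivity
  have hB : 0 < √(8 / 7) * N := by positivity
  have s2 : √2 ^ 2 = 2 := Real.sq_sqrt (by norm_num)
  have s8 : √(8 / 7) ^ 2 = 8 / 7 := Real.sq_sqrt (by norm_num)
  have e1 : ∫ y, gau (2 * √2 * N) (x - y) * psi N (y - t) =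
      ∫ y, gau (2 * √2 * N) (x - t - y) * psi N y := by
    have h := integral_sub_right_eq_self
      (fun y : ℂ => gau (2 * √2 * N) (x - t - y) * psi N y) (μ := volume) t
    rw [← h]
    refine integral_congr_ae (Filter.Eventually.of_forall fun y => ?_)
    show gau (2 * √2 * N) (x - y) * psi N (y - t) =
      gau (2 * √2 * N) (x - t - (y - t)) * psi N (y - t)
    rw [show x - t - (y - t) = x - y by ring]
  rw [e1]
  have c1 : ∫ y, gau (2 * √2 * N) (x - t - y) * gau (2 * √2 * N) y = gau (2 * N) (x - t) := by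
    refine gau_conv hA hA (by positivity) ?_ (x - t)
    rw [mul_pow, mul_pow, mul_pow, s2]
    field_simp
    norm_num
  have c2 : ∫ y, gau (2 * √2 * N) (x - t - y) * gau (√(8 / 7) * N) y = gau N (x - t) := by
    refine gau_conv hA hB hN ?_ (x - t)
    rw [mul_pow, mul_pow, mul_pow, s2, s8]
    field_simp
    norm_num
  rw [← c1, ← c2, ← integral_sub (SmB_gg hA _) (SmB_gg hB _)]
  refine integral_congr_ae (Filter.Eventually.of_forall fun y => ?_)
  show gau (2 * √2 * N) (x - t - y) * psi N y = gau (2 * √2 * N) (x - t - y) *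
    gau (2 * √2 * N) y - gau (2 * √2 * N) (x - t - y) * gau (√(8 / 7) * N) y
  unfold psi
  ring

theorem smo_sub {N K : ℝ} (hN : 0 < N) {g : ℂ → ℝ} (hg : Measurable g) (hi : Integrable g)
    (hK : ∀ x, |g x| ≤ K) (x : ℂ) :
    smo (2 * N) g x - smo N g x = smo (2 * √2 * N) (sm N g) x := by
  have h1 : Integrable (Function.uncurry fun (y t : ℂ) =>
      gau (2 * √2 * N) (x - y) * (psi N (y - t) * g t)) (volume.prod volume) := by
    refine Integrable.bdd_mul (c := (2 * √2 * N) ^ 2)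
      (f := fun w : ℂ × ℂ => gau (2 * √2 * N) (x - w.1))
      (g := fun w : ℂ × ℂ => psi N (w.1 - w.2) * g w.2) ?_ ?_
      (Filter.Eventually.of_forall fun w => ?_)
    · refine (SmB_conv (integrable_psi hN) hi).congr (Filter.Eventually.of_forall fun w => ?_)
      exact mul_comm _ _
    · exact ((continuous_gau _).comp (continuous_const.sub continuous_fst)).aestronglyMeasurable
    · rw [Real.norm_eq_abs, abs_of_nonneg (gau_nonneg _ _)]
      exact SmB_gle _ _
  have h2 : smo (2 * √2 * N) (sm N g) x =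
      ∫ y, ∫ t, gau (2 * √2 * N) (x - y) * (psi N (y - t) * g t) := by
    unfold smo sm
    refine integral_congr_ae (Filter.Eventually.of_forall fun y => ?_)
    exact (integral_const_mul _ _).symm
  rw [h2, integral_integral_swap h1]
  unfold smo
  rw [← integral_sub (SmB_int (by positivity) hg hK x) (SmB_int hN hg hK x)]
  refine integral_congr_ae (Filter.Eventually.of_forall fun t => ?_)
  show gau (2 * N) (x - t) * g t - gau N (x - t) * g t =
    ∫ y, gau (2 * √2 * N) (x - y) * (psi N (y - t) * g t)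
  rw [← sub_mul, ← SmB_psi hN x t, ← integral_mul_const]
  refine integral_congr_ae (Filter.Eventually.of_forall fun y => ?_)
  exact mul_assoc _ _ _

private theorem SmB_far {N : ℝ} {u : ℂ} (hu : 1 ≤ ‖u‖) :
    gau N u ≤ 2 * Real.exp (-N ^ 2) * gau (N / √2) u := by
  have s2 : √2 ^ 2 = 2 := Real.sq_sqrt (by norm_num)
  unfold gau
  rw [div_pow, s2]
  have h1 : Real.exp (-(π * N ^ 2 * ‖u‖ ^ 2)) =
      Real.exp (-(π * N ^ 2 * ‖u‖ ^ 2 / 2)) * Real.exp (-(π * (N ^ 2 / 2) * ‖u‖ ^ 2)) := by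
    rw [← Real.exp_add]
    congr 1
    ring
  have h2 : Real.exp (-(π * N ^ 2 * ‖u‖ ^ 2 / 2)) ≤ Real.exp (-N ^ 2) := by
    apply Real.exp_le_exp.2
    have hp := Real.pi_gt_three
    have h3 : 1 ≤ ‖u‖ ^ 2 := by nlinarith
    have h4 : N ^ 2 ≤ N ^ 2 * ‖u‖ ^ 2 := by nlinarith [sq_nonneg N]
    have h5 : 0 ≤ N ^ 2 * ‖u‖ ^ 2 := by positivity
    nlinarith
  rw [h1]
  have h6 : 0 ≤ N ^ 2 * Real.exp (-(π * (N ^ 2 / 2) * ‖u‖ ^ 2)) :=
    mul_nonneg (sq_nonneg N) (Real.exp_pos _).le
  calc N ^ 2 * (Real.exp (-(π * N ^ 2 * ‖u‖ ^ 2 / 2)) * Real.exp (-(π * (N ^ 2 / 2) * ‖u‖ ^ 2)))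
      = Real.exp (-(π * N ^ 2 * ‖u‖ ^ 2 / 2)) *
        (N ^ 2 * Real.exp (-(π * (N ^ 2 / 2) * ‖u‖ ^ 2))) := by ring
    _ ≤ Real.exp (-N ^ 2) * (N ^ 2 * Real.exp (-(π * (N ^ 2 / 2) * ‖u‖ ^ 2))) :=
        mul_le_mul_of_nonneg_right h2 h6
    _ = 2 * Real.exp (-N ^ 2) * (N ^ 2 / 2 * Real.exp (-(π * (N ^ 2 / 2) * ‖u‖ ^ 2))) := by ring

theorem tail_smo {N K ρ : ℝ} (hN : 1 ≤ N) (hρ : 1 ≤ ρ) (hK0 : 0 ≤ K) {g : ℂ → ℝ}
    (hg : Measurable g) (hK : ∀ x, |g x| ≤ K) (hs : ∀ x, ρ < ‖x‖ → g x = 0) :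
    ∫ x in {x : ℂ | ρ + 1 < ‖x‖}, |smo N g x| ≤ 8 * K * ρ ^ 2 * Real.exp (-N ^ 2) := by
  have hN0 : 0 < N := by linarith
  have hN2 : 0 < N / √2 := by positivity
  have hind : Integrable ((Metric.closedBall (0 : ℂ) ρ).indicator (fun _ => K)) := by
    rw [integrable_indicator_iff Metric.isClosed_closedBall.measurableSet]
    exact integrableOn_const (by
      rw [Complex.volume_closedBall]
      finiteness)
  have hle : ∀ x, |g x| ≤ (Metric.closedBall (0 : ℂ) ρ).indicator (fun _ => K) x := by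
    intro x
    by_cases hx : x ∈ Metric.closedBall (0 : ℂ) ρ
    · rw [Set.indicator_of_mem hx]
      exact hK x
    · rw [Set.indicator_of_notMem hx, hs x (by
        rw [Metric.mem_closedBall, dist_zero_right, not_le] at hx
        exact hx), abs_zero]
  have hi : Integrable g := by
    refine hind.mono' hg.aestronglyMeasurable (Filter.Eventually.of_forall fun x => ?_)
    rw [Real.norm_eq_abs]
    exact hle x
  have hia : Integrable (fun x => |g x|) := hi.abs
  have hga : Measurable (fun x => |g x|) := hg.abs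
  have hKa : ∀ x, |(|g x|)| ≤ K := fun x => by
    rw [abs_abs]
    exact hK x
  have hI : ∫ x, |g x| ≤ 4 * K * ρ ^ 2 := by
    refine (integral_mono hia hind hle).trans ?_
    rw [integral_indicator Metric.isClosed_closedBall.measurableSet, setIntegral_const,
      smul_eq_mul, Measure.real, Complex.volume_closedBall]
    have hv : (ENNReal.ofReal ρ ^ 2 * (NNReal.pi : ℝ≥0∞)).toReal = ρ ^ 2 * π := by
      rw [ENNReal.toReal_mul, ENNReal.toReal_pow, ENNReal.toReal_ofReal (by linarith)]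
      rfl
    first
      | rw [hv]
      | rw [mul_comm (ENNReal.ofReal ρ ^ 2)] at hv; rw [hv]
    have hp : π ≤ 4 := Real.pi_le_four
    have h3 : 0 ≤ K * ρ ^ 2 := by positivity
    nlinarith
  have hpt : ∀ x ∈ {x : ℂ | ρ + 1 < ‖x‖}, |smo N g x| ≤
      2 * Real.exp (-N ^ 2) * smo (N / √2) (fun t => |g t|) x := by
    intro x hx
    have hx' : ρ + 1 < ‖x‖ := hx
    have h1 : Integrable (fun t => 2 * Real.exp (-N ^ 2) * (gau (N / √2) (x - t) * |g t|)) :=
      (SmB_int hN2 hga hKa x).const_mul _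
    have h2 : ‖∫ t, gau N (x - t) * g t‖ ≤
        ∫ t, 2 * Real.exp (-N ^ 2) * (gau (N / √2) (x - t) * |g t|) := by
      refine norm_integral_le_of_norm_le h1 (Filter.Eventually.of_forall fun t => ?_)
      rw [Real.norm_eq_abs, abs_mul, abs_of_nonneg (gau_nonneg N _)]
      by_cases ht : ρ < ‖t‖
      · rw [hs t ht]
        simp
      · rw [not_lt] at ht
        have h3 : 1 ≤ ‖x - t‖ := by
          have h4 := norm_sub_norm_le x t
          linarith
        have h5 := mul_le_mul_of_nonneg_right (SmB_far (N := N) h3) (abs_nonneg (g t))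
        calc gau N (x - t) * |g t| ≤ 2 * Real.exp (-N ^ 2) * gau (N / √2) (x - t) * |g t| := h5
          _ = 2 * Real.exp (-N ^ 2) * (gau (N / √2) (x - t) * |g t|) := by ring
    rw [Real.norm_eq_abs, integral_const_mul] at h2
    exact h2
  have hSm : MeasurableSet {x : ℂ | ρ + 1 < ‖x‖} :=
    measurableSet_lt measurable_const measurable_norm
  have j1 : Integrable (fun x => |smo N g x|) := (integrable_smo hN0 hi).abs
  have j2 : Integrable (fun x => 2 * Real.exp (-N ^ 2) * smo (N / √2) (fun t => |g t|) x) :=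
    (integrable_smo hN2 hia).const_mul _
  calc ∫ x in {x : ℂ | ρ + 1 < ‖x‖}, |smo N g x|
      ≤ ∫ x in {x : ℂ | ρ + 1 < ‖x‖}, 2 * Real.exp (-N ^ 2) * smo (N / √2) (fun t => |g t|) x :=
        setIntegral_mono_on j1.integrableOn j2.integrableOn hSm hpt
    _ ≤ ∫ x, 2 * Real.exp (-N ^ 2) * smo (N / √2) (fun t => |g t|) x := by
        refine setIntegral_le_integral j2 (Filter.Eventually.of_forall fun x => ?_)
        exact mul_nonneg (by positivity) (smo_nonneg (fun t => abs_nonneg (g t)) x)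
    _ = 2 * Real.exp (-N ^ 2) * ∫ x, |g x| := by
        rw [integral_const_mul, integral_smo hN2 hia]
    _ ≤ 2 * Real.exp (-N ^ 2) * (4 * K * ρ ^ 2) :=
        mul_le_mul_of_nonneg_left hI (by positivity)
    _ = 8 * K * ρ ^ 2 * Real.exp (-N ^ 2) := by ring

end Pool.MPb9430d.Mom
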