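import Pool.Agent.Lib.MP_b9430d_co.Mom.SgA
import Pool.Agent.Lib.MP_b9430d_co.Mom.SmB

/-!
# HighG: high frequencies (g3)

`0 ≤ sA A ≤ n` a.e. Inside the disc of radius `ρ + 1`: Cauchy-Schwarz with `∫ (g - smo N g)² ≤ Λ²/N` and
`∫_{ball} (sA A)² ≤ n ∫_{ball} sA A ≤ n (2ρ+3)² |A|` (`ball_mass`). Outside: `g = 0`, `∫_{‖x‖>ρ+1} |smo N g| n ≤ 8 n K ρ² exp(-N²)`
(`tail_smo`). `(2ρ+3) ≤ 5ρ`. (Also used with another smoothness exponent, so the L² bound of `g - smo N g` is a number `L`.)
-/

set_option autoImplicit false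

open MeasureTheory Complex Set Real Filter Topology
open scoped ENNReal

namespace Pool.MPb9430d.Mom

open Pool.MPb9430d Pool.MPb9430d.Rough Pool.MPb9430d.Frac

/-- A bounded measurable function supported in a disc is integrable. -/
theorem integrable_of_supp {ρ K : ℝ} {g : ℂ → ℝ} (hg : Measurable g) (h0 : ∀ x, 0 ≤ g x)
    (hK : ∀ x, g x ≤ K) (hs : ∀ x, ρ < ‖x‖ → g x = 0) : Integrable g := by
  have h1 : IntegrableOn g (Metric.closedBall 0 ρ) := by
    refine Measure.integrableOn_of_bounded (M := K) measure_closedBall_lt_top.ne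
      hg.aestronglyMeasurable ?_
    filter_upwards with x
    rw [Real.norm_eq_abs, abs_of_nonneg (h0 x)]
    exact hK x
  rwa [integrableOn_iff_integrable_of_support_subset] at h1
  intro x hx
  rw [Metric.mem_closedBall, dist_zero_right]
  by_contra h
  exact hx (hs x (not_le.mp h))

theorem high_g {A : Set ℂ} {n : ℕ} (hA : MeasurableSet A) (hfin : volume A ≠ ∞)
    (hn : ∀ᵐ x : ℂ, SS (ind A) x ≤ n) {ρ K L N : ℝ} (hρ : 1 ≤ ρ) (hN : 1 ≤ N) (hL : 0 ≤ L)
    {g : ℂ → ℝ} (hg : Measurable g) (h0 : ∀ x, 0 ≤ g x) (hK : ∀ x, g x ≤ K)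
    (hs : ∀ x, ρ < ‖x‖ → g x = 0) (hsm : ∫ x, (g x - smo N g x) ^ 2 ≤ L ^ 2) :
    |∫ x, (g x - smo N g x) * sA A x| ≤
      5 * ρ * L * √(n * volume.real A) + 8 * n * K * ρ ^ 2 * Real.exp (-N ^ 2) := by
  have hK0 : 0 ≤ K := (h0 0).trans (hK 0)
  have hKa : ∀ x, |g x| ≤ K := fun x => by rw [abs_of_nonneg (h0 x)]; exact hK x
  have hgi : Integrable g := integrable_of_supp hg h0 hK hs
  have hsi : Integrable (smo N g) := integrable_smo (by linarith) hgi
  have hsm' : Measurable (smo N g) := measurable_smo hg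
  obtain ⟨hSm, hS0, hSn, hSe⟩ := sA_facts hA hn
  have hhm : Measurable (fun x => g x - smo N g x) := hg.sub hsm'
  have hhi : Integrable (fun x => g x - smo N g x) := hgi.sub hsi
  have hh2K : ∀ x, |g x - smo N g x| ≤ 2 * K := fun x => by
    have h1 := abs_smo_le (N := N) (by linarith) hg hKa x
    have h2 := hKa x
    have h3 := abs_sub (g x) (smo N g x)
    linarith
  have hh2 : Integrable (fun x => (g x - smo N g x) ^ 2) := by
    refine Integrable.mono' (g := fun x => 2 * K * |g x - smo N g x|)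
      (hhi.abs.const_mul (2 * K)) (hhm.pow_const 2).aestronglyMeasurable ?_
    filter_upwards with x
    rw [Real.norm_eq_abs, abs_of_nonneg (sq_nonneg _), ← sq_abs, sq]
    exact mul_le_mul_of_nonneg_right (hh2K x) (abs_nonneg _)
  -- the product
  have hprod : Integrable (fun x => |g x - smo N g x| * sA A x) := by
    refine Integrable.mono' (g := fun x => (n : ℝ) * |g x - smo N g x|)
      (hhi.abs.const_mul (n : ℝ)) ?_ ?_
    · exact ((hhm.norm).mul hSm).aestronglyMeasurable
    · filter_upwards [hSn] with x hx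
      rw [Real.norm_eq_abs, abs_of_nonneg (mul_nonneg (abs_nonneg _) (hS0 x)), mul_comm]
      exact mul_le_mul_of_nonneg_right hx (abs_nonneg _)
  have hstep1 : |∫ x, (g x - smo N g x) * sA A x| ≤ ∫ x, |g x - smo N g x| * sA A x := by
    refine (abs_integral_le_integral_abs).trans (le_of_eq ?_)
    refine integral_congr_ae ?_
    filter_upwards with x
    rw [abs_mul, abs_of_nonneg (hS0 x)]
  set B : Set ℂ := Metric.closedBall 0 (ρ + 1) with hB
  have hBm : MeasurableSet B := Metric.isClosed_closedBall.measurableSet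
  have hBf : volume B ≠ ∞ := measure_closedBall_lt_top.ne
  have hsplit : ∫ x, |g x - smo N g x| * sA A x =
      (∫ x in B, |g x - smo N g x| * sA A x) + ∫ x in Bᶜ, |g x - smo N g x| * sA A x :=
    (integral_add_compl hBm hprod).symm
  -- the integral of `sA A` over the disc
  have hSiB : IntegrableOn (sA A) B := by
    refine Measure.integrableOn_of_bounded (M := n) hBf hSm.aestronglyMeasurable ?_
    refine ae_restrict_of_ae ?_
    filter_upwards [hSn] with x hx
    rw [Real.norm_eq_abs, abs_of_nonneg (hS0 x)]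
    exact hx
  have hSB : ∫ x in B, sA A x ≤ (2 * ρ + 3) ^ 2 * volume.real A := by
    rw [integral_eq_lintegral_of_nonneg_ae (Eventually.of_forall hS0) hSm.aestronglyMeasurable]
    have h1 : ∫⁻ x in B, ENNReal.ofReal (sA A x) = ∫⁻ x in B, SS (ind A) x := by
      refine lintegral_congr_ae (ae_restrict_of_ae ?_)
      filter_upwards [hSe] with x hx
      exact hx
    rw [h1]
    have h2 := ball_mass hA (r := ρ + 1) (by linarith)
    have h3 : ENNReal.ofReal ((2 * (ρ + 1) + 1) ^ 2) * volume A ≠ ∞ :=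
      ENNReal.mul_ne_top ENNReal.ofReal_ne_top hfin
    refine (ENNReal.toReal_mono h3 h2).trans (le_of_eq ?_)
    rw [ENNReal.toReal_mul, ENNReal.toReal_ofReal (by positivity)]
    simp only [Measure.real]
    ring
  have hSsq : ∫ x in B, sA A x ^ 2 ≤ n * ((2 * ρ + 3) ^ 2 * volume.real A) := by
    calc ∫ x in B, sA A x ^ 2 ≤ ∫ x in B, (n : ℝ) * sA A x := by
          refine integral_mono_of_nonneg (Eventually.of_forall fun x => sq_nonneg _)
            (hSiB.const_mul (n : ℝ)) (ae_restrict_of_ae ?_)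
          filter_upwards [hSn] with x hx
          show sA A x ^ 2 ≤ (n : ℝ) * sA A x
          rw [sq]
          exact mul_le_mul_of_nonneg_right hx (hS0 x)
      _ = (n : ℝ) * ∫ x in B, sA A x := integral_const_mul _ _
      _ ≤ n * ((2 * ρ + 3) ^ 2 * volume.real A) := mul_le_mul_of_nonneg_left hSB (Nat.cast_nonneg _)
  have hhsq : ∫ x in B, |g x - smo N g x| ^ 2 ≤ L ^ 2 := by
    refine le_trans ?_ hsm
    have h1 : ∫ x in B, |g x - smo N g x| ^ 2 = ∫ x in B, (g x - smo N g x) ^ 2 := by
      refine integral_congr_ae ?_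
      filter_upwards with x
      exact sq_abs _
    rw [h1]
    exact setIntegral_le_integral hh2 (Eventually.of_forall fun x => sq_nonneg _)
  -- Cauchy-Schwarz inside the disc
  have hin : ∫ x in B, |g x - smo N g x| * sA A x ≤ 5 * ρ * L * √(n * volume.real A) := by
    have hm1 : MemLp (fun x => |g x - smo N g x|) (ENNReal.ofReal 2) (volume.restrict B) := by
      rw [show ENNReal.ofReal 2 = 2 by norm_num]
      have hha : Measurable (fun x => |g x - smo N g x|) := hhm.norm
      rw [memLp_two_iff_integrable_sq hha.aestronglyMeasurable]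
      have : (fun x => |g x - smo N g x| ^ 2) = fun x => (g x - smo N g x) ^ 2 := by
        funext x; exact sq_abs _
      show Integrable (fun x => |g x - smo N g x| ^ 2) (volume.restrict B)
      rw [this]
      exact hh2.integrableOn
    have hm2 : MemLp (sA A) (ENNReal.ofReal 2) (volume.restrict B) := by
      rw [show ENNReal.ofReal 2 = 2 by norm_num]
      rw [memLp_two_iff_integrable_sq hSm.aestronglyMeasurable]
      refine Integrable.mono' (g := fun x => (n : ℝ) * sA A x) (hSiB.const_mul (n : ℝ))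
        (hSm.pow_const 2).aestronglyMeasurable (ae_restrict_of_ae ?_)
      filter_upwards [hSn] with x hx
      rw [Real.norm_eq_abs, abs_of_nonneg (sq_nonneg _), sq]
      exact mul_le_mul_of_nonneg_right hx (hS0 x)
    have hcs := integral_mul_le_Lp_mul_Lq_of_nonneg (μ := volume.restrict B)
      (Real.HolderConjugate.two_two) (Eventually.of_forall fun x => abs_nonneg (g x - smo N g x))
      (Eventually.of_forall hS0) hm1 hm2
    have e1 : (∫ x in B, |g x - smo N g x| ^ (2 : ℝ)) = ∫ x in B, |g x - smo N g x| ^ 2 := by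
      refine integral_congr_ae ?_
      filter_upwards with x
      exact Real.rpow_natCast _ 2
    have e2 : (∫ x in B, sA A x ^ (2 : ℝ)) = ∫ x in B, sA A x ^ 2 := by
      refine integral_congr_ae ?_
      filter_upwards with x
      exact Real.rpow_natCast _ 2
    rw [e1, e2, ← Real.sqrt_eq_rpow, ← Real.sqrt_eq_rpow] at hcs
    have hA0 : 0 ≤ volume.real A := measureReal_nonneg
    calc ∫ x in B, |g x - smo N g x| * sA A x
        ≤ √(∫ x in B, |g x - smo N g x| ^ 2) * √(∫ x in B, sA A x ^ 2) := hcs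
      _ ≤ L * ((2 * ρ + 3) * √(n * volume.real A)) := by
          refine mul_le_mul ?_ ?_ (Real.sqrt_nonneg _) hL
          · rw [← Real.sqrt_sq hL]
            exact Real.sqrt_le_sqrt hhsq
          · rw [← Real.sqrt_sq (show 0 ≤ 2 * ρ + 3 by linarith), ← Real.sqrt_mul (sq_nonneg _)]
            refine Real.sqrt_le_sqrt (hSsq.trans (le_of_eq ?_))
            ring
      _ ≤ 5 * ρ * L * √(n * volume.real A) := by
          have h1 : 2 * ρ + 3 ≤ 5 * ρ := by linarith
          have h2 : 0 ≤ L * √(n * volume.real A) := mul_nonneg hL (Real.sqrt_nonneg _)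
          nlinarith [mul_le_mul_of_nonneg_right h1 h2]
  -- outside
  have hout : ∫ x in Bᶜ, |g x - smo N g x| * sA A x ≤ 8 * n * K * ρ ^ 2 * Real.exp (-N ^ 2) := by
    have hset : Bᶜ = {x : ℂ | ρ + 1 < ‖x‖} := by
      ext x
      rw [hB, mem_compl_iff, Metric.mem_closedBall, dist_zero_right, not_le, mem_setOf_eq]
    rw [hset]
    have ht := tail_smo hN hρ hK0 hg hKa hs
    have hms : MeasurableSet {x : ℂ | ρ + 1 < ‖x‖} := by
      rw [← hset]; exact hBm.compl
    calc ∫ x in {x : ℂ | ρ + 1 < ‖x‖}, |g x - smo N g x| * sA A x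
        ≤ ∫ x in {x : ℂ | ρ + 1 < ‖x‖}, (n : ℝ) * |smo N g x| := by
          refine integral_mono_of_nonneg
            (Eventually.of_forall fun x => mul_nonneg (abs_nonneg _) (hS0 x))
            (hsi.abs.integrableOn.const_mul (n : ℝ)) ?_
          have h1 := ae_restrict_mem (μ := (volume : Measure ℂ)) hms
          filter_upwards [h1, ae_restrict_of_ae hSn] with x hx hxn
          have hx' : ρ + 1 < ‖x‖ := hx
          show |g x - smo N g x| * sA A x ≤ (n : ℝ) * |smo N g x|
          rw [hs x (by linarith), zero_sub, abs_neg, mul_comm]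
          exact mul_le_mul_of_nonneg_right hxn (abs_nonneg _)
      _ = (n : ℝ) * ∫ x in {x : ℂ | ρ + 1 < ‖x‖}, |smo N g x| := integral_const_mul _ _
      _ ≤ n * (8 * K * ρ ^ 2 * Real.exp (-N ^ 2)) := mul_le_mul_of_nonneg_left ht (Nat.cast_nonneg _)
      _ = 8 * n * K * ρ ^ 2 * Real.exp (-N ^ 2) := by ring
  calc |∫ x, (g x - smo N g x) * sA A x| ≤ ∫ x, |g x - smo N g x| * sA A x := hstep1
    _ = (∫ x in B, |g x - smo N g x| * sA A x) + ∫ x in Bᶜ, |g x - smo N g x| * sA A x := hsplit
    _ ≤ _ := add_le_add hin hout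

end Pool.MPb9430d.Mom
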