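import Pool.Agent.Lib.MP_b9430d_co.Mom.SgA
import Pool.Agent.Lib.MP_b9430d_co.Mom.FFp

/-!
# LowG: low frequencies (g1)

`∫ smo N g * sA A = ∫ g * smo N (sA A)` (`pair_smo`) `= ∫ x, g x * ∫ y in A, FF N (x - y)` (`smo_sA`). For `‖x‖ ≤ ρ` and `y ∈ A`:
`‖x - y‖ ≥ R - ρ ≥ R/2`, so `|FF N (x - y) - 1| ≤ 32 N²/√(R/2) ≤ 64 N²/√R` (`ff_sub_one`). So
`|∫ smo N g * sA A - |A| ∫ g| ≤ (64 N²/√R) |A| ∫ g`, and `∫ g ≤ K π ρ² ≤ 4 K ρ²`. (`Complex.volume_closedBall` or
`EuclideanSpace.volume_ball`-type formula: `volume (closedBall (0 : ℂ) ρ) = π ρ²`.)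
-/

set_option autoImplicit false

open MeasureTheory Complex Set Real Filter Topology
open scoped ENNReal

namespace Pool.MPb9430d.Mom

open Pool.MPb9430d Pool.MPb9430d.Rough Pool.MPb9430d.Frac

private theorem LowG_gint {ρ K : ℝ} {g : ℂ → ℝ} (hg : Measurable g) (hK : ∀ x, |g x| ≤ K)
    (hs : ∀ x, ρ < ‖x‖ → g x = 0) : Integrable g := by
  have h1 : IntegrableOn g (Metric.closedBall (0 : ℂ) ρ) := by
    refine Measure.integrableOn_of_bounded (M := K) ?_ hg.aestronglyMeasurable ?_
    · exact measure_closedBall_lt_top.ne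
    · exact ae_of_all _ fun x => by rw [Real.norm_eq_abs]; exact hK x
  refine (integrableOn_iff_integrable_of_support_subset ?_).1 h1
  intro x hx
  rw [Metric.mem_closedBall, dist_zero_right]
  by_contra hc
  exact hx (hs x (not_le.1 hc))

private theorem LowG_mass {ρ K : ℝ} (hρ : 1 ≤ ρ) {g : ℂ → ℝ} (hg : Measurable g)
    (h0 : ∀ x, 0 ≤ g x) (hK : ∀ x, g x ≤ K) (hs : ∀ x, ρ < ‖x‖ → g x = 0) :
    ∫ x, g x ≤ 4 * K * ρ ^ 2 := by
  have hK0 : 0 ≤ K := (h0 0).trans (hK 0)
  have hgi : Integrable g := LowG_gint hg (fun x => by rw [abs_of_nonneg (h0 x)]; exact hK x) hs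
  have h1 : ∫ x, g x = ∫ x in Metric.closedBall (0 : ℂ) ρ, g x := by
    symm
    refine setIntegral_eq_integral_of_forall_compl_eq_zero fun x hx => hs x ?_
    rw [Metric.mem_closedBall, dist_zero_right] at hx
    exact not_le.1 hx
  rw [h1]
  calc ∫ x in Metric.closedBall (0 : ℂ) ρ, g x ≤ ∫ _x in Metric.closedBall (0 : ℂ) ρ, K :=
        setIntegral_mono hgi.integrableOn (integrableOn_const measure_closedBall_lt_top.ne) hK
    _ = volume.real (Metric.closedBall (0 : ℂ) ρ) * K := by
        rw [setIntegral_const, smul_eq_mul]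
    _ ≤ 4 * K * ρ ^ 2 := by
        have hv : volume.real (Metric.closedBall (0 : ℂ) ρ) = π * ρ ^ 2 := by
          rw [Measure.real, Complex.volume_closedBall]
          simp only [ENNReal.toReal_mul, ENNReal.toReal_pow, ENNReal.coe_toReal, NNReal.coe_real_pi]
          rw [ENNReal.toReal_ofReal (by linarith)]
          ring
        rw [hv]
        have : π ≤ 4 := Real.pi_le_four
        nlinarith [mul_nonneg hK0 (sq_nonneg ρ)]

theorem low_g {A : Set ℂ} {n : ℕ} (hA : MeasurableSet A) (hfin : volume A ≠ ∞)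
    (hn : ∀ᵐ x : ℂ, SS (ind A) x ≤ n) {ρ K R N : ℝ} (hρ : 1 ≤ ρ) (hR : 2 * ρ ≤ R) (hR4 : 4 ≤ R)
    (hRA : ∀ y ∈ A, R ≤ ‖y‖) (hN : 1 ≤ N) {g : ℂ → ℝ} (hg : Measurable g) (h0 : ∀ x, 0 ≤ g x)
    (hK : ∀ x, g x ≤ K) (hs : ∀ x, ρ < ‖x‖ → g x = 0) :
    |(∫ x, smo N g x * sA A x) - volume.real A * ∫ x, g x| ≤
      256 * K * ρ ^ 2 * N ^ 2 / √R * volume.real A := by
  have hN0 : 0 < N := by linarith
  have hK0 : 0 ≤ K := (h0 0).trans (hK 0)
  have hgab : ∀ x, |g x| ≤ K := fun x => by
    rw [abs_of_nonneg (h0 x)]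
    exact hK x
  have hgi : Integrable g := LowG_gint hg hgab hs
  rw [pair_smo hA hn hN hg hgi]
  obtain ⟨hAm, -, -, -⟩ := sA_facts hA hn
  have hWm : Measurable (smo N (sA A)) := measurable_smo hAm
  have hI : Integrable fun x => g x * smo N (sA A) x := by
    refine hgi.mul_bdd (c := (n : ℝ)) hWm.aestronglyMeasurable (ae_of_all _ fun x => ?_)
    rw [Real.norm_eq_abs, abs_of_nonneg (smo_sA_le_n hA hn hN x).1]
    exact (smo_sA_le_n hA hn hN x).2
  have hJ : Integrable fun x => volume.real A * g x := hgi.const_mul _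
  rw [← integral_const_mul, ← integral_sub hI hJ]
  have hR0 : 0 < R := by linarith
  have hc0 : 0 ≤ 64 * N ^ 2 / √R * volume.real A := by positivity
  have hpt : ∀ x, |g x * smo N (sA A) x - volume.real A * g x| ≤
      (64 * N ^ 2 / √R * volume.real A) * g x := by
    intro x
    by_cases hx : ρ < ‖x‖
    · rw [hs x hx]
      simp
    · push Not at hx
      obtain ⟨hi, he⟩ := smo_sA hA hfin hn hN x
      have h1 : |smo N (sA A) x - volume.real A| ≤ 64 * N ^ 2 / √R * volume.real A := by
        have hone : IntegrableOn (fun _ : ℂ => (1 : ℝ)) A := integrableOn_const hfin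
        have h2 : smo N (sA A) x - volume.real A = ∫ y in A, (FF N (x - y) - 1) := by
          rw [he, integral_sub hi hone, setIntegral_const, smul_eq_mul, mul_one]
        rw [h2]
        have h3 : ∀ y ∈ A, ‖FF N (x - y) - 1‖ ≤ 64 * N ^ 2 / √R := by
          intro y hy
          have h4 := hRA y hy
          have h5 : R / 2 ≤ ‖x - y‖ := by
            have := norm_sub_norm_le y x
            rw [norm_sub_rev] at this
            linarith
          have h6 : x - y ≠ 0 := by
            intro h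
            rw [h, norm_zero] at h5
            linarith
          rw [Real.norm_eq_abs]
          refine (ff_sub_one hN h6).trans ?_
          have h7 : √R / 2 ≤ √‖x - y‖ := by
            refine le_trans ?_ (Real.sqrt_le_sqrt h5)
            apply Real.le_sqrt_of_sq_le
            rw [div_pow, Real.sq_sqrt hR0.le]
            linarith
          have h8 : 0 < √R / 2 := by positivity
          calc 32 * N ^ 2 / √‖x - y‖ ≤ 32 * N ^ 2 / (√R / 2) :=
                div_le_div_of_nonneg_left (by positivity) h8 h7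
            _ = 64 * N ^ 2 / √R := by
                field_simp
                norm_num
        have h9 := norm_setIntegral_le_of_norm_le_const hfin.lt_top h3
        rwa [Real.norm_eq_abs] at h9
      calc |g x * smo N (sA A) x - volume.real A * g x| =
            |smo N (sA A) x - volume.real A| * g x := by
            rw [show g x * smo N (sA A) x - volume.real A * g x =
              (smo N (sA A) x - volume.real A) * g x by ring, abs_mul, abs_of_nonneg (h0 x)]
        _ ≤ (64 * N ^ 2 / √R * volume.real A) * g x :=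
            mul_le_mul_of_nonneg_right h1 (h0 x)
  calc |∫ x, (g x * smo N (sA A) x - volume.real A * g x)|
      ≤ ∫ x, |g x * smo N (sA A) x - volume.real A * g x| := abs_integral_le_integral_abs
    _ ≤ ∫ x, (64 * N ^ 2 / √R * volume.real A) * g x :=
        integral_mono (hI.sub hJ).abs (hgi.const_mul _) hpt
    _ = (64 * N ^ 2 / √R * volume.real A) * ∫ x, g x := integral_const_mul _ _
    _ ≤ (64 * N ^ 2 / √R * volume.real A) * (4 * K * ρ ^ 2) :=
        mul_le_mul_of_nonneg_left (LowG_mass hρ hg h0 hK hs) hc0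
    _ = 256 * K * ρ ^ 2 * N ^ 2 / √R * volume.real A := by ring

end Pool.MPb9430d.Mom
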