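import Pool.Agent.Lib.MP_b9430d_co.Mom.HolS
import Pool.Agent.Lib.MP_b9430d_co.Mom.Fin
import Pool.Agent.Lib.MP_b9430d_co.Mom.LowG
import Pool.Agent.Lib.MP_b9430d_co.Mom.HighG
import Pool.Agent.Lib.MP_b9430d_co.Mom.CoreI

/-!
# HolM: no Hoelder exponent

W.l.o.g. `a ≤ 1` and `Reg E K' a` for all `t` (`D E t ≤ 2|E| ≤ 2|E| ‖t‖^a` for `‖t‖ ≥ 1`). `ρ` with `∫⁻ cut ρ ind E ≥ n - 1/4` (as in Fin). By `all_moments` (`β = a/64`) and `big_tail_eps` (`ε = a/32`) there are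
arbitrarily large `R` with `|A| > R^(-a/32)`, `A = E ∩ {R ≤ ‖y‖}`. `g = cut ρ * chi E` (`K = 1`), `N = R^(1/8)`. `low_g`: error `256 ρ² R^(1/4 - 1/2)|A|`. `high_g` with `L² = 2(K'+|E|) N^(-a)`, `L = C R^(-a/16)`:
`5ρ L √(n|A|) ≤ C' R^(-a/16) |A| R^(a/64) → o(|A|)`; `8 n ρ² exp(-R^(1/4)) ≤ o(1) R^(-a/32)`. So `∫ g sA A ≥ |A| (∫ g - o(1)) ≥ |A| (n - 1/2)`, but `core_ineq` (`χ = ofReal ∘ cut ρ`): `∫ g sA A ≤ (n-1)|A|`.
`rough_inf_all`: as `rough_inf_half` in Frac/ThmAH (via `escape`), copy that proof with `0 < a`.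
-/

set_option autoImplicit false

open MeasureTheory Complex Set Real Filter Topology
open scoped ENNReal

namespace Pool.MPb9430d.Mom

open Pool.MPb9430d Pool.MPb9430d.Rough Pool.MPb9430d.Frac

private theorem HolM_two {E : Set ℂ} (hfin : volume E ≠ ∞) (t : ℂ) :
    D E t ≤ 2 * volume.real E := by
  have h1 : dif E t ⊆ E ∪ (fun x => x - t) ⁻¹' E := by
    rintro x (h | h)
    · exact Or.inl h.1
    · exact Or.inr h.1
  have h2 : volume ((fun x : ℂ => x - t) ⁻¹' E) ≠ ∞ := by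
    rw [volume_preimage_sub]
    exact hfin
  have h3 : volume (E ∪ (fun x => x - t) ⁻¹' E) ≠ ∞ :=
    ne_top_of_le_ne_top (ENNReal.add_ne_top.2 ⟨hfin, h2⟩) (measure_union_le _ _)
  have h4 : volume.real ((fun x : ℂ => x - t) ⁻¹' E) = volume.real E := by
    rw [measureReal_def, volume_preimage_sub, ← measureReal_def]
  calc D E t = volume.real (dif E t) := rfl
    _ ≤ volume.real (E ∪ (fun x => x - t) ⁻¹' E) := measureReal_mono h1 h3
    _ ≤ volume.real E + volume.real ((fun x => x - t) ⁻¹' E) := measureReal_union_le _ _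
    _ = 2 * volume.real E := by rw [h4]; ring

private theorem HolM_R {a : ℝ} (ha : 0 < a) (c1 c2 c3 R0 : ℝ) : ∃ R₁ : ℝ, R0 ≤ R₁ ∧
    ∀ R : ℝ, R₁ ≤ R → c1 * R ^ (-(1 / 4) : ℝ) + c2 * R ^ (-(3 * a / 64) : ℝ) +
      c3 * (Real.exp (-R ^ (1 / 4 : ℝ)) * R ^ (a / 32 : ℝ)) ≤ 1 / 4 := by
  have t1 : Tendsto (fun R : ℝ => R ^ (-(1 / 4) : ℝ)) atTop (𝓝 0) :=
    tendsto_rpow_neg_atTop (by norm_num)
  have t2 : Tendsto (fun R : ℝ => R ^ (-(3 * a / 64) : ℝ)) atTop (𝓝 0) :=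
    tendsto_rpow_neg_atTop (by positivity)
  have t3 : Tendsto (fun R : ℝ => Real.exp (-R ^ (1 / 4 : ℝ)) * R ^ (a / 32 : ℝ)) atTop (𝓝 0) := by
    have h1 := tendsto_rpow_mul_exp_neg_mul_atTop_nhds_zero (a / 8) 1 one_pos
    have h2 := h1.comp (tendsto_rpow_atTop (show (0 : ℝ) < 1 / 4 by norm_num))
    refine h2.congr' ?_
    filter_upwards [eventually_ge_atTop (0 : ℝ)] with R hR
    change (R ^ (1 / 4 : ℝ)) ^ (a / 8) * Real.exp (-1 * R ^ (1 / 4 : ℝ)) = _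
    rw [← Real.rpow_mul hR, mul_comm, neg_one_mul, show (1 / 4 : ℝ) * (a / 8) = a / 32 by ring]
  have t4 : Tendsto (fun R : ℝ => c1 * R ^ (-(1 / 4) : ℝ) + c2 * R ^ (-(3 * a / 64) : ℝ) +
      c3 * (Real.exp (-R ^ (1 / 4 : ℝ)) * R ^ (a / 32 : ℝ))) atTop (𝓝 0) := by
    have := ((t1.const_mul c1).add (t2.const_mul c2)).add (t3.const_mul c3)
    simpa using this
  have h5 := (t4.eventually (gt_mem_nhds (show (0 : ℝ) < 1 / 4 by norm_num)))
  obtain ⟨R₁, hR₁⟩ := eventually_atTop.1 h5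
  exact ⟨max R0 R₁, le_max_left _ _, fun R hR => (hR₁ R ((le_max_right _ _).trans hR)).le⟩

private theorem HolM_core {E : Set ℂ} {n : ℕ} (hn : 1 ≤ n) (hE : MeasurableSet E) (hT : Tile E n)
    {K a : ℝ} (hK : 0 ≤ K) (ha : 0 < a) (ha1 : a ≤ 1) (hReg : Reg E K a) : False := by
  have hvol := vol_tile hE hT
  have hfin : volume E ≠ ∞ := by
    rw [hvol]
    exact ENNReal.natCast_ne_top n
  have hV : volume.real E = n := by
    rw [measureReal_def, hvol, ENNReal.toReal_natCast]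
  have hn0 : (0 : ℝ) ≤ n := Nat.cast_nonneg n
  obtain ⟨S, hS0, hS⟩ := exists_disc hE hfin (show (0 : ℝ) < 1 / 4 by norm_num)
  obtain ⟨ρ, hρS⟩ : ∃ ρ : ℝ, ρ = S + 1 := ⟨_, rfl⟩
  have hρ : 1 ≤ ρ := by linarith
  have hchi0 : ∀ x, 0 ≤ chi E x := fun x => Set.indicator_nonneg (fun _ _ => zero_le_one) x
  have hchi1 : ∀ x, chi E x ≤ 1 := fun x => Set.indicator_le_self' (fun _ _ => zero_le_one) x
  have hchim : Measurable (chi E) := measurable_const.indicator hE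
  have hchii : Integrable (chi E) := integrable_chi hE hfin
  -- the function g
  obtain ⟨g, hg⟩ : ∃ g : ℂ → ℝ, g = fun x => cut ρ x * chi E x := ⟨_, rfl⟩
  have hgx : ∀ x, g x = cut ρ x * chi E x := fun x => by rw [hg]
  have hgm : Measurable g := by
    rw [hg]
    exact (continuous_cut ρ).measurable.mul hchim
  have hg0 : ∀ x, 0 ≤ g x := fun x => by
    rw [hgx]
    exact mul_nonneg (cut_nonneg ρ x) (hchi0 x)
  have hgchi : ∀ x, g x ≤ chi E x := fun x => by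
    rw [hgx]
    exact mul_le_of_le_one_left (hchi0 x) (cut_le_one ρ x)
  have hg1 : ∀ x, g x ≤ 1 := fun x => (hgchi x).trans (hchi1 x)
  have hgs : ∀ x, ρ < ‖x‖ → g x = 0 := fun x hx => by
    rw [hgx, cut_of_ge hx.le, zero_mul]
  have hgi : Integrable g := by
    refine hchii.mono' hgm.aestronglyMeasurable (Eventually.of_forall fun x => ?_)
    rw [Real.norm_of_nonneg (hg0 x)]
    exact hgchi x
  have hIg : (n : ℝ) - 1 / 4 ≤ ∫ x, g x := by
    have hB : MeasurableSet (Metric.closedBall (0 : ℂ) S) := Metric.isClosed_closedBall.measurableSet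
    have h1 := measureReal_inter_add_sdiff (μ := (volume : Measure ℂ)) (s := E) hB hfin
    have h2 : ∫ x, chi (E ∩ Metric.closedBall 0 S) x = volume.real (E ∩ Metric.closedBall 0 S) := by
      unfold chi
      rw [integral_indicator_const _ (hE.inter hB), smul_eq_mul, mul_one]
    have h3 : ∫ x, chi (E ∩ Metric.closedBall 0 S) x ≤ ∫ x, g x := by
      refine integral_mono (integrable_chi (hE.inter hB)
        (ne_top_of_le_ne_top hfin (measure_mono inter_subset_left))) hgi fun x => ?_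
      by_cases hx : x ∈ E ∩ Metric.closedBall 0 S
      · have h4 : chi (E ∩ Metric.closedBall 0 S) x = 1 := Set.indicator_of_mem hx _
        have h5 : chi E x = 1 := Set.indicator_of_mem hx.1 _
        have h6 : ‖x‖ ≤ S := mem_closedBall_zero_iff.1 hx.2
        rw [h4, hgx, h5, cut_of_le (by linarith), one_mul]
      · have h4 : chi (E ∩ Metric.closedBall 0 S) x = 0 := Set.indicator_of_notMem hx _
        rw [h4]
        exact hg0 x
    rw [h2] at h3
    linarith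
  -- the constants
  obtain ⟨CL, hCL⟩ : ∃ CL : ℝ, CL = √(2 * (K + volume.real E)) := ⟨_, rfl⟩
  have hCL0 : 0 ≤ CL := by
    rw [hCL]
    exact Real.sqrt_nonneg _
  have hCL2 : CL ^ 2 = 2 * (K + volume.real E) := by
    rw [hCL, Real.sq_sqrt]
    rw [hV]
    positivity
  obtain ⟨R₁, hR0, hR1⟩ := HolM_R ha (256 * ρ ^ 2) (5 * ρ * CL * √n) (8 * n * ρ ^ 2) (2 * ρ + 4)
  obtain ⟨R, hR, hRA⟩ := big_tail_eps hE hfin (β := a / 64) (ε := a / 32) (by positivity)
    (by linarith) (all_moments hn hE hT (by positivity)) R₁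
  have hest := hR1 R hR
  have hRρ : 2 * ρ ≤ R := by linarith
  have hR4 : 4 ≤ R := by linarith
  have hRpos : 0 < R := by linarith
  obtain ⟨A, hA⟩ : ∃ A : Set ℂ, A = E ∩ {y | R ≤ ‖y‖} := ⟨_, rfl⟩
  rw [← hA] at hRA
  have hAm : MeasurableSet A := by
    rw [hA]
    exact hE.inter (measurableSet_le measurable_const measurable_norm)
  have hAE : A ⊆ E := by
    rw [hA]
    exact inter_subset_left
  have hAR : ∀ y ∈ A, R ≤ ‖y‖ := fun y hy => by
    rw [hA] at hy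
    exact hy.2
  have hAfin : volume A ≠ ∞ := ne_top_of_le_ne_top hfin (measure_mono hAE)
  have hnA : ∀ᵐ x : ℂ, SS (ind A) x ≤ n := ss_le hE hT hAE
  obtain ⟨v, hv⟩ : ∃ v : ℝ, v = volume.real A := ⟨_, rfl⟩
  have hvR : R ^ (-(a / 32) : ℝ) < v := by
    rw [hv]
    exact hRA
  have hv0 : 0 < v := (Real.rpow_pos_of_pos hRpos _).trans hvR
  obtain ⟨N, hN⟩ : ∃ N : ℝ, N = R ^ (1 / 8 : ℝ) := ⟨_, rfl⟩
  have hN1 : 1 ≤ N := by
    rw [hN]
    exact Real.one_le_rpow (by linarith) (by norm_num)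
  have hN2 : N ^ 2 = R ^ (1 / 4 : ℝ) := by
    rw [hN, ← Real.rpow_natCast, ← Real.rpow_mul hRpos.le]
    norm_num
  have hlow := low_g hAm hAfin hnA hρ hRρ hR4 hAR hN1 hgm hg0 hg1 hgs
  rw [← hv] at hlow
  obtain ⟨L, hL⟩ : ∃ L : ℝ, L = CL * R ^ (-(a / 16) : ℝ) := ⟨_, rfl⟩
  have hL0 : 0 ≤ L := by
    rw [hL]
    positivity
  have hsm : ∫ x, (g x - smo N g x) ^ 2 ≤ L ^ 2 := by
    have h1 := hol_smooth hE hfin hK ha ha1 hReg hρ hN1
    have h2 : L ^ 2 = 2 * (K + volume.real E) * N ^ (-a) := by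
      rw [hL, mul_pow, hCL2, hN, ← Real.rpow_natCast (R ^ (-(a / 16))) 2,
        ← Real.rpow_mul hRpos.le, ← Real.rpow_mul hRpos.le]
      congr 2
      push_cast
      ring
    rw [h2, hg]
    exact h1
  have hhigh := high_g hAm hAfin hnA hρ hN1 hL0 hgm hg0 hg1 hgs hsm
  rw [← hv] at hhigh
  -- the integral of g sA
  obtain ⟨m1, m2, m3, m4⟩ := sA_facts hAm hnA
  have hbd : ∀ F : ℂ → ℝ, Integrable F → Integrable (fun x => F x * sA A x) := by
    intro F hF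
    refine (hF.norm.mul_const (n : ℝ)).mono' (hF.aestronglyMeasurable.mul m1.aestronglyMeasurable) ?_
    filter_upwards [m3] with x hx
    rw [norm_mul, Real.norm_of_nonneg (m2 x)]
    exact mul_le_mul_of_nonneg_left hx (norm_nonneg _)
  have hi1 := hbd g hgi
  have hi2 := hbd (smo N g) (integrable_smo (by linarith) hgi)
  have hsplit : ∫ x, (g x - smo N g x) * sA A x =
      (∫ x, g x * sA A x) - ∫ x, smo N g x * sA A x := by
    rw [← integral_sub hi1 hi2]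
    refine integral_congr_ae (Eventually.of_forall fun x => ?_)
    exact sub_mul _ _ _
  rw [hsplit] at hhigh
  -- the core inequality
  have hcore := core_ineq hE hT hAm hAE (χ := fun x => ENNReal.ofReal (cut ρ x))
    (continuous_cut ρ).measurable.ennreal_ofReal
    (fun x => ENNReal.ofReal_le_one.2 (cut_le_one ρ x))
    (fun x hx => by
      change ENNReal.ofReal (cut ρ x) = 0
      rw [cut_of_ge (by linarith [hAR x hx]), ENNReal.ofReal_zero])
  have hint : ∫⁻ x, ENNReal.ofReal (cut ρ x) * ind E x * SS (ind A) x =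
      ENNReal.ofReal (∫ x, g x * sA A x) := by
    rw [ofReal_integral_eq_lintegral_ofReal hi1
      (Eventually.of_forall fun x => mul_nonneg (hg0 x) (m2 x))]
    refine lintegral_congr_ae ?_
    filter_upwards [m4] with x hx
    rw [ENNReal.ofReal_mul (hg0 x), hx, hgx, ENNReal.ofReal_mul (cut_nonneg ρ x)]
    congr 2
    by_cases hxE : x ∈ E
    · have h5 : chi E x = 1 := Set.indicator_of_mem hxE _
      rw [ind_of_mem hxE, h5, ENNReal.ofReal_one]
    · have h5 : chi E x = 0 := Set.indicator_of_notMem hxE _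
      rw [ind_of_notMem hxE, h5, ENNReal.ofReal_zero]
  have hI0 : 0 ≤ ∫ x, g x * sA A x := integral_nonneg fun x => mul_nonneg (hg0 x) (m2 x)
  have hvA : volume A = ENNReal.ofReal v := by
    rw [hv, measureReal_def, ENNReal.ofReal_toReal hAfin]
  rw [hint, hvA, ← ENNReal.ofReal_natCast n, ← ENNReal.ofReal_add hI0 hv0.le,
    ← ENNReal.ofReal_mul hn0, ENNReal.ofReal_le_ofReal_iff (by positivity)] at hcore
  -- numbers
  have e1 : 256 * 1 * ρ ^ 2 * N ^ 2 / √R * v = 256 * ρ ^ 2 * R ^ (-(1 / 4) : ℝ) * v := by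
    have h1 : N ^ 2 / √R = R ^ (-(1 / 4) : ℝ) := by
      rw [hN2, Real.sqrt_eq_rpow, ← Real.rpow_sub hRpos]
      norm_num
    rw [← h1]
    ring
  rw [e1] at hlow
  have e2 : √(n * v) ≤ √n * (v * R ^ (a / 64 : ℝ)) := by
    rw [Real.sqrt_mul hn0]
    refine mul_le_mul_of_nonneg_left ?_ (Real.sqrt_nonneg _)
    have h1 : 1 ≤ √v * R ^ (a / 64 : ℝ) := by
      have h2 : R ^ (-(a / 64) : ℝ) ≤ √v := by
        refine Real.le_sqrt_of_sq_le ?_
        rw [← Real.rpow_natCast, ← Real.rpow_mul hRpos.le]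
        have h3 : -(a / 64) * ((2 : ℕ) : ℝ) = -(a / 32) := by
          push_cast
          ring
        rw [h3]
        exact hvR.le
      have h4 : R ^ (-(a / 64) : ℝ) * R ^ (a / 64 : ℝ) = 1 := by
        rw [← Real.rpow_add hRpos, neg_add_cancel, Real.rpow_zero]
      rw [← h4]
      exact mul_le_mul_of_nonneg_right h2 (Real.rpow_nonneg hRpos.le _)
    calc √v = √v * 1 := (mul_one _).symm
      _ ≤ √v * (√v * R ^ (a / 64 : ℝ)) := mul_le_mul_of_nonneg_left h1 (Real.sqrt_nonneg _)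
      _ = (√v * √v) * R ^ (a / 64 : ℝ) := by ring
      _ = v * R ^ (a / 64 : ℝ) := by rw [Real.mul_self_sqrt hv0.le]
  have e3 : 5 * ρ * L * √(n * v) ≤ 5 * ρ * CL * √n * R ^ (-(3 * a / 64) : ℝ) * v := by
    have h1 : R ^ (-(a / 16) : ℝ) * R ^ (a / 64 : ℝ) = R ^ (-(3 * a / 64) : ℝ) := by
      rw [← Real.rpow_add hRpos]
      congr 1
      ring
    calc 5 * ρ * L * √(n * v) ≤ 5 * ρ * L * (√n * (v * R ^ (a / 64 : ℝ))) :=
          mul_le_mul_of_nonneg_left e2 (by positivity)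
      _ = 5 * ρ * CL * √n * (R ^ (-(a / 16) : ℝ) * R ^ (a / 64 : ℝ)) * v := by
          rw [hL]
          ring
      _ = _ := by rw [h1]
  have e4 : 8 * n * 1 * ρ ^ 2 * Real.exp (-N ^ 2) ≤
      8 * n * ρ ^ 2 * (Real.exp (-R ^ (1 / 4 : ℝ)) * R ^ (a / 32 : ℝ)) * v := by
    have h1 : 1 ≤ R ^ (a / 32 : ℝ) * v := by
      have h4 : R ^ (a / 32 : ℝ) * R ^ (-(a / 32) : ℝ) = 1 := by
        rw [← Real.rpow_add hRpos, add_neg_cancel, Real.rpow_zero]
      rw [← h4]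
      exact mul_le_mul_of_nonneg_left hvR.le (Real.rpow_nonneg hRpos.le _)
    rw [hN2]
    calc 8 * n * 1 * ρ ^ 2 * Real.exp (-R ^ (1 / 4 : ℝ)) =
        8 * n * ρ ^ 2 * Real.exp (-R ^ (1 / 4 : ℝ)) * 1 := by ring
      _ ≤ 8 * n * ρ ^ 2 * Real.exp (-R ^ (1 / 4 : ℝ)) * (R ^ (a / 32 : ℝ) * v) :=
        mul_le_mul_of_nonneg_left h1 (by positivity)
      _ = _ := by ring
  have hl := (abs_le.1 hlow).1
  have hh := (abs_le.1 hhigh).1
  have hvI : v * ((n : ℝ) - 1 / 4) ≤ v * ∫ x, g x := mul_le_mul_of_nonneg_left hIg hv0.le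
  have hvE := mul_le_mul_of_nonneg_right hest hv0.le
  nlinarith

theorem no_reg_all {E : Set ℂ} {n : ℕ} (hn : 1 ≤ n) (hE : MeasurableSet E) (hT : Tile E n)
    {K a : ℝ} (ha : 0 < a) (hR : ∀ t : ℂ, ‖t‖ ≤ 1 → D E t ≤ K * ‖t‖ ^ a) : False := by
  have hfin : volume E ≠ ∞ := (volume_lt_top hE hT).ne
  obtain ⟨V, hV⟩ : ∃ V, V = volume.real E := ⟨_, rfl⟩
  have hV0 : 0 ≤ V := by
    rw [hV]
    exact measureReal_nonneg
  have ha' : 0 < min a 1 := lt_min ha one_pos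
  have hReg : Reg E (|K| + 2 * V) (min a 1) := by
    intro t
    rcases le_or_gt ‖t‖ 1 with ht | ht
    · have e1 : ‖t‖ ^ a ≤ ‖t‖ ^ (min a 1) :=
        Real.rpow_le_rpow_of_exponent_ge' (norm_nonneg t) ht ha'.le (min_le_left _ _)
      have e2 : 0 ≤ ‖t‖ ^ a := Real.rpow_nonneg (norm_nonneg t) _
      have e3 : 0 ≤ ‖t‖ ^ (min a 1) := Real.rpow_nonneg (norm_nonneg t) _
      calc D E t ≤ K * ‖t‖ ^ a := hR t ht
        _ ≤ |K| * ‖t‖ ^ a := mul_le_mul_of_nonneg_right (le_abs_self K) e2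
        _ ≤ |K| * ‖t‖ ^ (min a 1) := mul_le_mul_of_nonneg_left e1 (abs_nonneg K)
        _ ≤ (|K| + 2 * V) * ‖t‖ ^ (min a 1) :=
          mul_le_mul_of_nonneg_right (by linarith) e3
    · have e1 : 1 ≤ ‖t‖ ^ (min a 1) := Real.one_le_rpow ht.le ha'.le
      have e2 := HolM_two hfin t
      rw [← hV] at e2
      calc D E t ≤ 2 * V := e2
        _ ≤ |K| + 2 * V := by linarith [abs_nonneg K]
        _ ≤ (|K| + 2 * V) * ‖t‖ ^ (min a 1) :=
          le_mul_of_one_le_right (by linarith [abs_nonneg K]) e1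
  exact HolM_core hn hE hT (by linarith [abs_nonneg K]) ha' (min_le_right _ _) hReg

private theorem HolM_esc {E : Set ℂ} {n : ℕ} (hE : MeasurableSet E) (hT : Tile E n)
    (R : ℝ) : ∃ η : ℝ, 0 < η ∧ ∀ v : ℂ, volume.real (dif E v) < η →
      volume.real (dif E v) ≤ 8 * n * volume.real (dif E v \ Metric.closedBall 0 R) := by
  have hfin : volume E ≠ ∞ := (volume_lt_top hE hT).ne
  have hTv : ∀ v : ℂ, Tile ((fun x => x - v) ⁻¹' E) n := by
    intro v θ
    have h1 := (measurePreserving_sub_right (volume : Measure ℂ) v).quasiMeasurePreserving.ae (hT θ)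
    filter_upwards [h1] with x hx
    have h2 : {p : ℤ × ℤ | x + rot θ * lat p ∈ (fun x => x - v) ⁻¹' E} =
        {p : ℤ × ℤ | x - v + rot θ * lat p ∈ E} := by
      ext p
      change x + rot θ * lat p - v ∈ E ↔ x - v + rot θ * lat p ∈ E
      rw [sub_add_eq_add_sub]
    rw [h2]
    exact hx
  obtain ⟨η, hη, h⟩ := escape n R
  refine ⟨η, hη, fun v hv => ?_⟩
  have h1 : volume (dif E v) < ENNReal.ofReal η := by
    rw [← ENNReal.ofReal_toReal (volume_dif_ne_top hfin v)]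
    exact (ENNReal.ofReal_lt_ofReal_iff hη).2 hv
  have h2 := h E _ hE (hE.preimage (measurable_sub_const v)) hT (hTv v) h1
  have h3 : volume (dif E v \ Metric.closedBall 0 R) ≠ ∞ :=
    ne_top_of_le_ne_top (volume_dif_ne_top hfin v) (measure_mono sdiff_subset)
  have h4 := ENNReal.toReal_mono (ENNReal.mul_ne_top (ENNReal.mul_ne_top (by norm_num)
    (ENNReal.natCast_ne_top n)) h3) h2
  rw [ENNReal.toReal_mul, ENNReal.toReal_mul, ENNReal.toReal_natCast] at h4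
  have h5 : (8 : ℝ≥0∞).toReal = 8 := by norm_num
  rw [h5] at h4
  exact h4

private theorem HolM_small {E : Set ℂ} (hE : MeasurableSet E) (hfin : volume E ≠ ∞) {η : ℝ}
    (hη : 0 < η) : ∃ δ : ℝ, 0 < δ ∧ ∀ v : ℂ, ‖v‖ < δ → volume.real (dif E v) < η := by
  have h1 := tendsto_dif_zero hE hfin
  have h2 := (ENNReal.tendsto_nhds_zero.1 h1) (ENNReal.ofReal (η / 2))
    (ENNReal.ofReal_pos.2 (by linarith))
  obtain ⟨δ, hδ, h3⟩ := Metric.eventually_nhds_iff.1 h2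
  refine ⟨δ, hδ, fun v hv => ?_⟩
  have h4 := h3 (y := v) (by rwa [dist_zero_right])
  have h5 : volume.real (dif E v) ≤ η / 2 :=
    ENNReal.toReal_le_of_le_ofReal (by linarith) h4
  linarith

theorem rough_inf_all {E : Set ℂ} {n : ℕ} (hn : 1 ≤ n) (hE : MeasurableSet E) (hT : Tile E n)
    (R : ℝ) {a : ℝ} (ha : 0 < a) (C : ℝ) {δ : ℝ} (hδ : 0 < δ) :
    ∃ v : ℂ, v ≠ 0 ∧ ‖v‖ < δ ∧ C * ‖v‖ ^ a < volume.real (dif E v \ Metric.closedBall 0 R) := by
  by_contra hcon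
  push Not at hcon
  have hfin : volume E ≠ ∞ := (volume_lt_top hE hT).ne
  obtain ⟨η, hη, hesc⟩ := HolM_esc hE hT R
  obtain ⟨δ', hδ', hsmall⟩ := HolM_small hE hfin hη
  obtain ⟨δ₁, h1, h1a, h1b⟩ : ∃ δ₁ : ℝ, 0 < δ₁ ∧ δ₁ ≤ δ ∧ δ₁ ≤ δ' :=
    ⟨min δ δ', lt_min hδ hδ', min_le_left _ _, min_le_right _ _⟩
  have hp : 0 < δ₁ ^ a := Real.rpow_pos_of_pos h1 a
  have hV : 0 ≤ volume.real E := measureReal_nonneg
  have hn0 : (0 : ℝ) ≤ n := Nat.cast_nonneg n
  refine no_reg_all (K := 8 * n * |C| + 2 * volume.real E / δ₁ ^ a) hn hE hT ha fun t ht => ?_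
  have hta : 0 ≤ ‖t‖ ^ a := Real.rpow_nonneg (norm_nonneg t) a
  have hA : 0 ≤ 8 * n * |C| * ‖t‖ ^ a := by positivity
  have hB : 0 ≤ 2 * volume.real E / δ₁ ^ a * ‖t‖ ^ a := by positivity
  rw [add_mul]
  by_cases ht0 : t = 0
  · subst ht0
    have : D E 0 = 0 := by
      rw [D, dif_zero]
      simp
    rw [this]
    linarith
  by_cases htd : ‖t‖ < δ₁
  · have h2 := hesc t (hsmall t (htd.trans_le h1b))
    have h3 := hcon t ht0 (htd.trans_le h1a)
    have h4 : C * ‖t‖ ^ a ≤ |C| * ‖t‖ ^ a := mul_le_mul_of_nonneg_right (le_abs_self C) hta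
    have h5 : D E t ≤ 8 * n * (|C| * ‖t‖ ^ a) :=
      h2.trans (mul_le_mul_of_nonneg_left (h3.trans h4) (by positivity))
    linarith
  · push Not at htd
    have h2 := HolM_two hfin t
    have h3 : δ₁ ^ a ≤ ‖t‖ ^ a := Real.rpow_le_rpow h1.le htd ha.le
    have h4 : 2 * volume.real E ≤ 2 * volume.real E / δ₁ ^ a * ‖t‖ ^ a := by
      rw [div_mul_eq_mul_div, le_div_iff₀ hp]
      exact mul_le_mul_of_nonneg_left h3 (by positivity)
    linarith

end Pool.MPb9430d.Mom
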