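import Pool.Agent.Lib.MP_b9430d_co.Mom.SmB
import Pool.Agent.Lib.MP_b9430d_co.Frac.GauM
import Pool.Agent.Lib.MP_b9430d_co.Frac.IncB

/-!
# HolS: Hoelder regularity gives smoothness

`g = cut ρ * chi E`, `0 ≤ g ≤ 1`, `|g - smo N g| ≤ 1`, so `∫ (g - smo N g)² ≤ ∫ |g - smo N g| ≤ ∫ gau N t (∫ |g x - g (x - t)| dx) dt`; `|g x - g (x-t)| ≤ |chi E x - chi E (x - t)| + ‖t‖ chi E (x - t)` (`cut_lip`,
`cut ≤ 1`), so the inner integral is `≤ D E t + ‖t‖ |E| ≤ K‖t‖^a + ‖t‖|E|`; `gau_moment`: `≤ 2K N^(-a) + 2|E| N^(-1)`.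
-/

set_option autoImplicit false

open MeasureTheory Complex Set Real Filter Topology
open scoped ENNReal

namespace Pool.MPb9430d.Mom

open Pool.MPb9430d Pool.MPb9430d.Rough Pool.MPb9430d.Frac

private theorem HolS_chi (E : Set ℂ) (x : ℂ) : 0 ≤ chi E x ∧ chi E x ≤ 1 := by
  unfold chi
  by_cases h : x ∈ E
  · rw [Set.indicator_of_mem h]
    exact ⟨zero_le_one, le_rfl⟩
  · rw [Set.indicator_of_notMem h]
    exact ⟨le_rfl, zero_le_one⟩

private theorem HolS_smo (N : ℝ) (g : ℂ → ℝ) (x : ℂ) : smo N g x = ∫ t, gau N t * g (x - t) := by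
  unfold smo
  rw [← integral_sub_left_eq_self (fun t => gau N t * g (x - t)) volume x]
  refine integral_congr_ae (Eventually.of_forall fun t => ?_)
  show gau N (x - t) * g t = gau N (x - t) * g (x - (x - t))
  rw [sub_sub_cancel]

private theorem HolS_pt (ρ : ℝ) (E : Set ℂ) (x t : ℂ) :
    |cut ρ x * chi E x - cut ρ (x - t) * chi E (x - t)| ≤ |inc E t x| + ‖t‖ * chi E (x - t) := by
  have h1 : cut ρ x * chi E x - cut ρ (x - t) * chi E (x - t) =
      cut ρ x * -(inc E t x) + (cut ρ x - cut ρ (x - t)) * chi E (x - t) := by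
    unfold inc
    show _ = cut ρ x * -(chi E (x - t) - chi E x) + _
    ring
  rw [h1]
  refine (abs_add_le _ _).trans (add_le_add ?_ ?_)
  · rw [abs_mul, abs_neg, abs_of_nonneg (cut_nonneg ρ x)]
    exact mul_le_of_le_one_left (abs_nonneg _) (cut_le_one ρ x)
  · rw [abs_mul, abs_of_nonneg (HolS_chi E (x - t)).1]
    have h2 := cut_lip ρ x (x - t)
    rw [sub_sub_cancel] at h2
    exact mul_le_mul_of_nonneg_right h2 (HolS_chi E (x - t)).1

theorem hol_smooth {E : Set ℂ} (hE : MeasurableSet E) (hfin : volume E ≠ ∞) {K a : ℝ}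
    (hK : 0 ≤ K) (ha : 0 < a) (ha1 : a ≤ 1) (hR : Reg E K a) {ρ N : ℝ} (hρ : 1 ≤ ρ) (hN : 1 ≤ N) :
    ∫ x, (cut ρ x * chi E x - smo N (fun y => cut ρ y * chi E y) x) ^ 2 ≤
      2 * (K + volume.real E) * N ^ (-a) := by
  have hN0 : 0 < N := by linarith
  set g : ℂ → ℝ := fun y => cut ρ y * chi E y with hg
  have hchim : Measurable (chi E) := measurable_const.indicator hE
  have hchii : Integrable (chi E) := by
    unfold chi
    rw [integrable_indicator_iff hE]
    exact integrableOn_const hfin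
  have hgm : Measurable g := (continuous_cut ρ).measurable.mul hchim
  have hg0 : ∀ x, 0 ≤ g x := fun x => mul_nonneg (cut_nonneg ρ x) (HolS_chi E x).1
  have hg1 : ∀ x, g x ≤ 1 := fun x =>
    mul_le_one₀ (cut_le_one ρ x) (HolS_chi E x).1 (HolS_chi E x).2
  have hgi : Integrable g := by
    refine hchii.mono' hgm.aestronglyMeasurable (Eventually.of_forall fun x => ?_)
    rw [Real.norm_of_nonneg (hg0 x)]
    exact mul_le_of_le_one_left (HolS_chi E x).1 (cut_le_one ρ x)
  have hG := integrable_gau hN0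
  have h1 : Integrable (fun p : ℂ × ℂ => gau N p.2 * g p.1) (volume.prod volume) := by
    have := hgi.mul_prod hG
    refine this.congr (Eventually.of_forall fun p => ?_)
    show g p.1 * gau N p.2 = gau N p.2 * g p.1
    ring
  have h2 : Integrable (fun p : ℂ × ℂ => gau N p.2 * g (p.1 - p.2)) (volume.prod volume) :=
    hG.convolution_integrand (ContinuousLinearMap.mul ℝ ℝ) hgi
  have h3 : Integrable (fun p : ℂ × ℂ => |gau N p.2 * g p.1 - gau N p.2 * g (p.1 - p.2)|)
      (volume.prod volume) := (h1.sub h2).abs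
  -- pointwise
  have h4 : ∀ x, (g x - smo N g x) ^ 2 ≤ |g x - smo N g x| := by
    intro x
    have h5 : |g x - smo N g x| ≤ 1 := by
      have h6 := smo_nonneg (N := N) hg0 x
      have h7 : |smo N g x| ≤ 1 := abs_smo_le hN0 hgm (fun x => by
        rw [abs_of_nonneg (hg0 x)]
        exact hg1 x) x
      rw [abs_of_nonneg h6] at h7
      rw [abs_le]
      constructor <;> linarith [hg0 x, hg1 x]
    have h6 := abs_nonneg (g x - smo N g x)
    rw [← sq_abs]
    nlinarith
  have h5 : ∀ᵐ x, |g x - smo N g x| ≤ ∫ t, |gau N t * g x - gau N t * g (x - t)| := by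
    filter_upwards [h2.prod_right_ae] with x hx
    have e1 : g x = ∫ t, gau N t * g x := by
      rw [integral_mul_const, integral_gau hN0, one_mul]
    have e2 : g x - smo N g x = ∫ t, (gau N t * g x - gau N t * g (x - t)) := by
      rw [integral_sub (hG.mul_const _) hx, ← e1, HolS_smo]
    rw [e2]
    exact abs_integral_le_integral_abs
  have h6 : ∫ x, (g x - smo N g x) ^ 2 ≤
      ∫ x, ∫ t, |gau N t * g x - gau N t * g (x - t)| := by
    refine integral_mono_of_nonneg (Eventually.of_forall fun x => sq_nonneg _) h3.integral_prod_left ?_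
    filter_upwards [h5] with x hx
    exact (h4 x).trans hx
  have h7 : ∫ x, ∫ t, |gau N t * g x - gau N t * g (x - t)| =
      ∫ t, ∫ x, |gau N t * g x - gau N t * g (x - t)| := integral_integral_swap h3
  have h8 : ∀ t, ∫ x, |gau N t * g x - gau N t * g (x - t)| ≤
      K * (gau N t * ‖t‖ ^ a) + volume.real E * (gau N t * ‖t‖ ^ (1 : ℝ)) := by
    intro t
    have hi := inc_facts hE hfin t
    have hcs : Integrable fun x => chi E (x - t) := hchii.comp_sub_right t
    have h9 : ∫ x, |gau N t * g x - gau N t * g (x - t)| ≤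
        ∫ x, gau N t * (|inc E t x| + ‖t‖ * chi E (x - t)) := by
      refine integral_mono_of_nonneg (Eventually.of_forall fun x => abs_nonneg _)
        ((hi.2.1.abs.add (hcs.const_mul _)).const_mul _) (Eventually.of_forall fun x => ?_)
      show |gau N t * g x - gau N t * g (x - t)| ≤ gau N t * (|inc E t x| + ‖t‖ * chi E (x - t))
      rw [← mul_sub, abs_mul, abs_of_nonneg (gau_nonneg N t)]
      exact mul_le_mul_of_nonneg_left (HolS_pt ρ E x t) (gau_nonneg N t)
    refine h9.trans ?_
    rw [integral_const_mul, integral_add hi.2.1.abs (hcs.const_mul _), hi.2.2.2.1,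
      integral_const_mul, integral_sub_right_eq_self (chi E)]
    have h10 : ∫ x, chi E x = volume.real E := by
      unfold chi
      exact integral_indicator_one hE
    rw [h10, Real.rpow_one]
    have h11 := hR t
    have h12 := gau_nonneg N t
    have h13 := mul_le_mul_of_nonneg_left h11 h12
    nlinarith
  have h9 := gau_moment hN0 ha.le (by linarith : a ≤ 2)
  have h10 := gau_moment hN0 zero_le_one (by norm_num : (1 : ℝ) ≤ 2)
  have h11 : ∫ t, ∫ x, |gau N t * g x - gau N t * g (x - t)| ≤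
      ∫ t, (K * (gau N t * ‖t‖ ^ a) + volume.real E * (gau N t * ‖t‖ ^ (1 : ℝ))) := by
    refine integral_mono_of_nonneg
      (Eventually.of_forall fun t => integral_nonneg fun x => abs_nonneg _)
      ((h9.1.const_mul _).add (h10.1.const_mul _)) (Eventually.of_forall h8)
  rw [integral_add (h9.1.const_mul _) (h10.1.const_mul _), integral_const_mul,
    integral_const_mul] at h11
  have h12 : N ^ (-1 : ℝ) ≤ N ^ (-a) := Real.rpow_le_rpow_of_exponent_le hN (by linarith)
  have h13 : 0 ≤ volume.real E := measureReal_nonneg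
  calc ∫ x, (g x - smo N g x) ^ 2
      ≤ (K * ∫ t, gau N t * ‖t‖ ^ a) + volume.real E * ∫ t, gau N t * ‖t‖ ^ (1 : ℝ) := by
        rw [h7] at h6
        exact h6.trans h11
    _ ≤ K * (2 * N ^ (-a)) + volume.real E * (2 * N ^ (-a)) := by
        refine add_le_add (mul_le_mul_of_nonneg_left h9.2 hK)
          (mul_le_mul_of_nonneg_left ?_ h13)
        exact h10.2.trans (by linarith)
    _ = 2 * (K + volume.real E) * N ^ (-a) := by ring

end Pool.MPb9430d.Mom
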