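import Pool.Agent.Lib.MP_b9430d_co.Mom.ChD

/-!
# KerP: the kernel of two circles (K)

`adm_meas`: the set `{y | Adm ρ w y m m'}` is closed (for fixed `w, m, m'` it is the projection of the closed set
`{(x, y) | ‖x‖ ≤ ρ, ‖x - w‖² = m', ‖x - y‖² = m}` along the compact disc of the `x`; e.g. sequences and
`IsCompact.tendsto_subseq`, or `isClosedMap_snd_of_compactSpace`). Then `ka` is measurable.
`pp_le`: `s = √m`, `s' = √m'`. Substitute `β = α + ψ` (`lintegral_shift`), exchange the integrals. For fixed `ψ` put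
`q = s' + s rot ψ = ‖q‖ rot γ`: `w + s' rot α + s rot (α+ψ) = w + rot α * q`. If `x = w + s' rot α` is in the disc then `Adm ρ w y m m'`
for `y = w + rot α * q`. So `∫⁻ α .. ≤ ∫⁻ α, 1_{B ∩ Adm}(w + ‖q‖ rot (α + γ)) = H ‖q‖`, `H d = ∫⁻ α in Ioc (-π) π, 1_{B ∩ Adm}(w + d rot α)`
(shift again). `‖q‖ = √(s² + s'² + 2 s s' cos ψ)` is even in `ψ`: `∫⁻ ψ in Ioc (-π) π = 2 ∫⁻ ψ in Ioo 0 π`. `ch_dist`, and polar coordinates
around `w` (`Complex.lintegral_comp_polarCoord_symm` as in Rough/Near `lintegral_J`, or Frac/Pol `lint_polar`):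
`∫⁻ y in B, ofReal (ka ρ w m m' y) = ∫⁻ d in Ioi 0, ofReal d * ofReal (kw d m m') * H d`, `d * kw d m m' = 1/√(m' - bb d (m'-m)²)`. The constant is
`2/(4π²) ≤ 1`.
-/

set_option autoImplicit false

open MeasureTheory Complex Set Real Filter Topology
open scoped ENNReal

namespace Pool.MPb9430d.Mom

open Pool.MPb9430d Pool.MPb9430d.Rough Pool.MPb9430d.Frac

theorem adm_meas (ρ : ℝ) (w : ℂ) (m m' : ℕ) : MeasurableSet {y : ℂ | Adm ρ w y m m'} := by
  haveI : CompactSpace (Metric.closedBall (0 : ℂ) ρ) := isCompact_iff_compactSpace.1 (isCompact_closedBall 0 ρ)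
  have h1 : IsClosed {p : (Metric.closedBall (0 : ℂ) ρ) × ℂ | ‖(p.1 : ℂ) - w‖ ^ 2 = m' ∧ ‖(p.1 : ℂ) - p.2‖ ^ 2 = m} := by
    refine IsClosed.inter (isClosed_eq ?_ continuous_const) (isClosed_eq ?_ continuous_const)
    · fun_prop
    · fun_prop
  have h2 : {y : ℂ | Adm ρ w y m m'} =
      Prod.snd '' {p : (Metric.closedBall (0 : ℂ) ρ) × ℂ | ‖(p.1 : ℂ) - w‖ ^ 2 = m' ∧ ‖(p.1 : ℂ) - p.2‖ ^ 2 = m} := by
    ext y
    constructor
    · rintro ⟨x, hx, hx1, hx2⟩
      exact ⟨(⟨x, by rw [mem_closedBall_zero_iff]; exact hx⟩, y), ⟨hx1, hx2⟩, rfl⟩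
    · rintro ⟨⟨⟨x, hx⟩, y'⟩, ⟨hx1, hx2⟩, rfl⟩
      rw [mem_closedBall_zero_iff] at hx
      exact ⟨x, hx, hx1, hx2⟩
  rw [h2]
  exact (isClosedMap_snd_of_compactSpace _ h1).measurableSet

private theorem kerP_kw (m m' : ℕ) : Measurable (fun d : ℝ => kw d m m') := by
  unfold kw bb
  fun_prop

theorem ka_meas (ρ : ℝ) (w : ℂ) (m m' : ℕ) : Measurable (ka ρ w m m') := by
  unfold ka
  refine Measurable.indicator ?_ (adm_meas ρ w m m')
  exact (kerP_kw m m').comp (measurable_norm.comp (measurable_id.sub_const w))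

/-- polar coordinates in the whole plane around `w` -/
private theorem kerP_polar {G : ℂ → ℝ≥0∞} (hG : Measurable G) (w : ℂ) :
    ∫⁻ y, G y = ∫⁻ d in Ioi (0 : ℝ), ∫⁻ θ in Ioc (-π) π, ENNReal.ofReal d * G (w + d * rot θ) := by
  have h0 : ∫⁻ y, G y = ∫⁻ z, G (w + z) := (lintegral_add_left_eq_self G w).symm
  have hGw : Measurable (fun z => G (w + z)) := hG.comp (measurable_const_add w)
  rw [h0, ← Complex.lintegral_comp_polarCoord_symm]
  have htar : (polarCoord.target : Set (ℝ × ℝ)) = Ioi (0 : ℝ) ×ˢ Ioo (-π) π := rfl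
  rw [htar]
  have hsymm : ∀ q : ℝ × ℝ, Complex.polarCoord.symm q = (q.1 : ℂ) * rot q.2 := by
    intro q
    rw [Complex.polarCoord_symm_apply]
    unfold rot
    rw [Complex.exp_mul_I, Complex.ofReal_cos, Complex.ofReal_sin]
  simp only [hsymm]
  rw [Measure.volume_eq_prod, ← Measure.prod_restrict]
  have hmeas : Measurable fun q : ℝ × ℝ => ENNReal.ofReal q.1 • G (w + (q.1 : ℂ) * rot q.2) := by
    refine Measurable.smul (measurable_fst.ennreal_ofReal) (hGw.comp ?_)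
    exact (Complex.measurable_ofReal.comp measurable_fst).mul (measurable_rot.comp measurable_snd)
  rw [lintegral_prod _ hmeas.aemeasurable]
  refine lintegral_congr fun d => ?_
  rw [Measure.restrict_congr_set (Ioo_ae_eq_Ioc : Ioo (-π) π =ᵐ[volume] Ioc (-π) π)]
  rfl

private theorem kerP_even {K : ℝ → ℝ≥0∞} (hK : Measurable K) (he : ∀ x, K (-x) = K x) :
    ∫⁻ ψ in Ioc (-π) π, K ψ = 2 * ∫⁻ ψ in Ioo 0 π, K ψ := by
  have hπ := Real.pi_pos
  have h1 : Ioc (-π) π = Ioc (-π) 0 ∪ Ioc 0 π := (Ioc_union_Ioc_eq_Ioc (by linarith) hπ.le).symm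
  have h2 : Disjoint (Ioc (-π) (0 : ℝ)) (Ioc 0 π) := by
    rw [Set.disjoint_left]
    rintro x ⟨_, h3⟩ ⟨h4, _⟩
    exact absurd h3 (not_le.2 h4)
  rw [h1, lintegral_union measurableSet_Ioc h2]
  have h3 : ∫⁻ ψ in Ioc (-π) 0, K ψ = ∫⁻ ψ in Ioo 0 π, K ψ := by
    rw [Measure.restrict_congr_set (Ioo_ae_eq_Ioc : Ioo (-π) 0 =ᵐ[volume] Ioc (-π) 0).symm]
    have h4 : (fun x : ℝ => -x) ⁻¹' (Ioo 0 π) = Ioo (-π) 0 := by
      ext x
      simp only [mem_preimage, mem_Ioo]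
      constructor
      · rintro ⟨h5, h6⟩; exact ⟨by linarith, by linarith⟩
      · rintro ⟨h5, h6⟩; exact ⟨by linarith, by linarith⟩
    rw [← h4, ← (Measure.measurePreserving_neg volume).setLIntegral_comp_preimage_emb
      (MeasurableEquiv.neg ℝ).measurableEmbedding K (Ioo 0 π)]
    exact lintegral_congr fun x => (he x).symm
  have h5 : ∫⁻ ψ in Ioc 0 π, K ψ = ∫⁻ ψ in Ioo 0 π, K ψ := by
    rw [Measure.restrict_congr_set (Ioo_ae_eq_Ioc : Ioo 0 π =ᵐ[volume] Ioc 0 π)]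
  rw [h3, h5, two_mul]

private theorem kerP_norm {s s' : ℝ} (ψ : ℝ) :
    ‖(s' : ℂ) + s * rot ψ‖ = √(s ^ 2 + s' ^ 2 + 2 * s * s' * Real.cos ψ) := by
  have h1 : ‖(s' : ℂ) + s * rot ψ‖ ^ 2 = s ^ 2 + s' ^ 2 + 2 * s * s' * Real.cos ψ := by
    rw [← Complex.normSq_eq_norm_sq, Complex.normSq_apply]
    have hre : ((s' : ℂ) + s * rot ψ).re = s' + s * Real.cos ψ := by
      unfold rot
      rw [Complex.exp_mul_I]
      simp [← Complex.ofReal_cos, ← Complex.ofReal_sin]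
    have him : ((s' : ℂ) + s * rot ψ).im = s * Real.sin ψ := by
      unfold rot
      rw [Complex.exp_mul_I]
      simp [← Complex.ofReal_cos, ← Complex.ofReal_sin]
    rw [hre, him]
    have h2 := Real.sin_sq_add_cos_sq ψ
    nlinarith
  rw [← h1, Real.sqrt_sq (norm_nonneg _)]

theorem pp_le (ρ : ℝ) (w : ℂ) {B : Set ℂ} (hB : MeasurableSet B) {m m' : ℕ} (hm : 1 ≤ m)
    (hm' : 1 ≤ m') : PP ρ w B m m' ≤ ∫⁻ y in B, ENNReal.ofReal (ka ρ w m m' y) := by
  have hAd := adm_meas ρ w m m'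
  set C : Set ℂ := B ∩ {y : ℂ | Adm ρ w y m m'} with hC
  have hCm : MeasurableSet C := hB.inter hAd
  have hiC := measurable_ind hCm
  have hiB := measurable_ind hB
  have hiD : Measurable (ind (Metric.closedBall (0 : ℂ) ρ)) := measurable_ind Metric.isClosed_closedBall.measurableSet
  set s : ℝ := √(m : ℝ) with hs
  set s' : ℝ := √(m' : ℝ) with hs'
  have hs0 : 0 < s := Real.sqrt_pos.2 (by exact_mod_cast hm)
  have hs0' : 0 < s' := Real.sqrt_pos.2 (by exact_mod_cast hm')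
  have hs2 : s ^ 2 = m := Real.sq_sqrt (Nat.cast_nonneg _)
  have hs2' : s' ^ 2 = m' := Real.sq_sqrt (Nat.cast_nonneg _)
  -- the circle function
  set H : ℝ → ℝ≥0∞ := fun d => ∫⁻ θ in Ioc (-π) π, ind C (w + d * rot θ) with hH
  have hpm : Measurable fun p : ℝ × ℝ => ind C (w + p.1 * rot p.2) :=
    hiC.comp (measurable_const.add ((Complex.measurable_ofReal.comp measurable_fst).mul (measurable_rot.comp measurable_snd)))
  have hHm : Measurable H := hpm.lintegral_prod_right'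
  -- the double integral
  have h1 : ∫⁻ α in Ioc (-π) π, ∫⁻ β in Ioc (-π) π,
      ind (Metric.closedBall 0 ρ) (w + (s' : ℂ) * rot α) * ind B (w + (s' : ℂ) * rot α + (s : ℂ) * rot β) =
      ∫⁻ α in Ioc (-π) π, ∫⁻ ψ in Ioc (-π) π,
      ind (Metric.closedBall 0 ρ) (w + (s' : ℂ) * rot α) * ind B (w + (s' : ℂ) * rot α + (s : ℂ) * rot (ψ + α)) := by
    refine lintegral_congr fun α => ?_
    exact (lintegral_shift (fun β => ind (Metric.closedBall 0 ρ) (w + (s' : ℂ) * rot α) *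
      ind B (w + (s' : ℂ) * rot α + (s : ℂ) * rot β)) (fun x => by simp only [rot_periodic]) α).symm
  have hm3 : Measurable (fun p : ℝ × ℝ => ind (Metric.closedBall 0 ρ) (w + (s' : ℂ) * rot p.1) *
      ind B (w + (s' : ℂ) * rot p.1 + (s : ℂ) * rot (p.2 + p.1))) := by
    apply Measurable.mul
    · exact hiD.comp (measurable_const.add (measurable_const.mul (measurable_rot.comp measurable_fst)))
    · exact hiB.comp ((measurable_const.add (measurable_const.mul (measurable_rot.comp measurable_fst))).add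
        (measurable_const.mul (measurable_rot.comp (measurable_snd.add measurable_fst))))
  have h2 : ∫⁻ α in Ioc (-π) π, ∫⁻ ψ in Ioc (-π) π,
      ind (Metric.closedBall 0 ρ) (w + (s' : ℂ) * rot α) * ind B (w + (s' : ℂ) * rot α + (s : ℂ) * rot (ψ + α)) =
      ∫⁻ ψ in Ioc (-π) π, ∫⁻ α in Ioc (-π) π,
      ind (Metric.closedBall 0 ρ) (w + (s' : ℂ) * rot α) * ind B (w + (s' : ℂ) * rot α + (s : ℂ) * rot (ψ + α)) :=
    lintegral_lintegral_swap (f := fun α ψ => ind (Metric.closedBall 0 ρ) (w + (s' : ℂ) * rot α) *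
      ind B (w + (s' : ℂ) * rot α + (s : ℂ) * rot (ψ + α))) hm3.aemeasurable
  have h3 : ∀ ψ : ℝ, ∫⁻ α in Ioc (-π) π,
      ind (Metric.closedBall 0 ρ) (w + (s' : ℂ) * rot α) * ind B (w + (s' : ℂ) * rot α + (s : ℂ) * rot (ψ + α)) ≤
      H (√(s ^ 2 + s' ^ 2 + 2 * s * s' * Real.cos ψ)) := by
    intro ψ
    rw [← kerP_norm ψ]
    set q : ℂ := (s' : ℂ) + s * rot ψ with hq
    have hqa : (‖q‖ : ℂ) * rot (arg q) = q := by rw [rot]; exact Complex.norm_mul_exp_arg_mul_I q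
    have h4 : H ‖q‖ = ∫⁻ α in Ioc (-π) π, ind C (w + rot α * q) := by
      have h41 : H ‖q‖ = ∫⁻ θ in Ioc (-π) π, ind C (w + (‖q‖ : ℂ) * rot θ) := rfl
      rw [h41]
      rw [← lintegral_shift (fun θ => ind C (w + (‖q‖ : ℂ) * rot θ)) (fun x => by simp only [rot_periodic]) (arg q)]
      refine lintegral_congr fun α => ?_
      rw [rot_add]
      congr 2
      calc (‖q‖ : ℂ) * (rot α * rot (arg q)) = rot α * ((‖q‖ : ℂ) * rot (arg q)) := by ring
        _ = rot α * q := by rw [hqa]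
    rw [h4]
    refine lintegral_mono fun α => ?_
    have hy : w + (s' : ℂ) * rot α + (s : ℂ) * rot (ψ + α) = w + rot α * q := by
      rw [hq, rot_add]; ring
    rw [hy]
    by_cases hx : w + (s' : ℂ) * rot α ∈ Metric.closedBall (0 : ℂ) ρ
    · by_cases hyB : w + rot α * q ∈ B
      · have hyC : w + rot α * q ∈ C := by
          refine ⟨hyB, w + (s' : ℂ) * rot α, ?_, ?_, ?_⟩
          · rwa [mem_closedBall_zero_iff] at hx
          · rw [add_sub_cancel_left, norm_mul, norm_rot, mul_one, Complex.norm_real, Real.norm_eq_abs, abs_of_pos hs0', hs2']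
          · have h5 : w + (s' : ℂ) * rot α - (w + rot α * q) = -((s : ℂ) * rot (ψ + α)) := by
              rw [← hy]; ring
            rw [h5, norm_neg, norm_mul, norm_rot, mul_one, Complex.norm_real, Real.norm_eq_abs, abs_of_pos hs0, hs2]
        rw [ind_of_mem hx, ind_of_mem hyB, ind_of_mem hyC, one_mul]
      · rw [ind_of_notMem hyB, mul_zero]
        exact zero_le
    · rw [ind_of_notMem hx, zero_mul]
      exact zero_le
  have hKm : Measurable fun ψ : ℝ => H (√(s ^ 2 + s' ^ 2 + 2 * s * s' * Real.cos ψ)) := by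
    apply hHm.comp
    fun_prop
  have h4 : ∫⁻ ψ in Ioc (-π) π, ∫⁻ α in Ioc (-π) π,
      ind (Metric.closedBall 0 ρ) (w + (s' : ℂ) * rot α) * ind B (w + (s' : ℂ) * rot α + (s : ℂ) * rot (ψ + α)) ≤
      2 * ∫⁻ d in Ioi (0 : ℝ), H d * ENNReal.ofReal (1 / √(s' ^ 2 - ((d ^ 2 + s' ^ 2 - s ^ 2) / (2 * d)) ^ 2)) := by
    calc _ ≤ ∫⁻ ψ in Ioc (-π) π, H (√(s ^ 2 + s' ^ 2 + 2 * s * s' * Real.cos ψ)) := lintegral_mono h3
      _ = 2 * ∫⁻ ψ in Ioo 0 π, H (√(s ^ 2 + s' ^ 2 + 2 * s * s' * Real.cos ψ)) :=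
          kerP_even hKm (fun x => by rw [Real.cos_neg])
      _ ≤ _ := mul_le_mul_right (ch_dist hs0 hs0' hHm) 2
  -- the right side
  have h5 : ∫⁻ y in B, ENNReal.ofReal (ka ρ w m m' y) =
      ∫⁻ d in Ioi (0 : ℝ), H d * ENNReal.ofReal (1 / √(s' ^ 2 - ((d ^ 2 + s' ^ 2 - s ^ 2) / (2 * d)) ^ 2)) := by
    have hGm : Measurable fun y : ℂ => ind C y * ENNReal.ofReal (kw ‖y - w‖ m m') :=
      hiC.mul (ENNReal.measurable_ofReal.comp ((kerP_kw m m').comp (measurable_norm.comp (measurable_id.sub_const w))))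
    have h6 : ∫⁻ y in B, ENNReal.ofReal (ka ρ w m m' y) = ∫⁻ y, ind C y * ENNReal.ofReal (kw ‖y - w‖ m m') := by
      rw [← lintegral_indicator hB]
      refine lintegral_congr fun y => ?_
      by_cases hyB : y ∈ B
      · rw [indicator_of_mem hyB]
        by_cases hyA : Adm ρ w y m m'
        · rw [ind_of_mem (show y ∈ C from ⟨hyB, hyA⟩), one_mul]
          unfold ka
          rw [indicator_of_mem (show y ∈ {y : ℂ | Adm ρ w y m m'} from hyA)]
        · rw [ind_of_notMem (fun h => hyA h.2), zero_mul]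
          unfold ka
          rw [indicator_of_notMem (show y ∉ {y : ℂ | Adm ρ w y m m'} from hyA), ENNReal.ofReal_zero]
      · rw [indicator_of_notMem hyB, ind_of_notMem (fun h => hyB h.1), zero_mul]
    rw [h6, kerP_polar hGm w]
    refine setLIntegral_congr_fun measurableSet_Ioi fun d hd => ?_
    have hd0 : 0 < d := hd
    have h7 : ∀ θ : ℝ, ENNReal.ofReal d * (ind C (w + d * rot θ) * ENNReal.ofReal (kw ‖w + d * rot θ - w‖ m m')) =
        ind C (w + d * rot θ) * ENNReal.ofReal (1 / √(s' ^ 2 - ((d ^ 2 + s' ^ 2 - s ^ 2) / (2 * d)) ^ 2)) := by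
      intro θ
      rw [add_sub_cancel_left, norm_mul, norm_rot, mul_one, Complex.norm_real, Real.norm_eq_abs, abs_of_pos hd0]
      have h8 : ENNReal.ofReal d * ENNReal.ofReal (kw d m m') =
          ENNReal.ofReal (1 / √(s' ^ 2 - ((d ^ 2 + s' ^ 2 - s ^ 2) / (2 * d)) ^ 2)) := by
        rw [← ENNReal.ofReal_mul hd0.le]
        congr 1
        unfold kw bb
        rw [hs2, hs2']
        push_cast
        have h9 : (d ^ 2 + ((m' : ℝ) - m)) / (2 * d) = (d ^ 2 + m' - m) / (2 * d) := by ring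
        rw [h9, mul_one_div, mul_comm d (√_), div_mul_eq_div_div_swap, div_self hd0.ne']
      rw [← h8]
      ring
    simp only [h7]
    have hcm : Measurable fun θ : ℝ => ind C (w + (d : ℂ) * rot θ) :=
      hiC.comp (measurable_const.add (measurable_const.mul measurable_rot))
    rw [lintegral_mul_const _ hcm]
  have h6 : PP ρ w B m m' ≤ ENNReal.ofReal ((2 * π)⁻¹ ^ 2) * (2 * ∫⁻ y in B, ENNReal.ofReal (ka ρ w m m' y)) := by
    unfold PP
    rw [← hs, ← hs', h1, h2, h5]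
    gcongr
  refine h6.trans ?_
  rw [← mul_assoc]
  have h7 : ENNReal.ofReal ((2 * π)⁻¹ ^ 2) * 2 ≤ 1 := by
    rw [show (2 : ℝ≥0∞) = ENNReal.ofReal 2 by simp, ← ENNReal.ofReal_mul (by positivity), ENNReal.ofReal_le_one]
    have hπ := Real.pi_gt_three
    have h8 : (2 * π)⁻¹ ≤ 1 / 6 := by
      rw [inv_le_comm₀ (by positivity) (by norm_num)]
      linarith
    have h9 : 0 ≤ (2 * π)⁻¹ := by positivity
    nlinarith
  calc ENNReal.ofReal ((2 * π)⁻¹ ^ 2) * 2 * ∫⁻ y in B, ENNReal.ofReal (ka ρ w m m' y) ≤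
      1 * ∫⁻ y in B, ENNReal.ofReal (ka ρ w m m' y) := by gcongr
    _ = _ := one_mul _

end Pool.MPb9430d.Mom
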