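import Pool.Agent.Lib.MP_b9430d_co.Mom.SgA
import Pool.Agent.Lib.MP_b9430d_co.Mom.SmB

/-!
# MidG: middle frequencies (g2)

`smo (2N) g - smo N g = smo (2√2 N) (sm N g)` (`smo_sub`), so by `pair_smo` for the integrable function `sm N g`
(`|sm N g| ≤ 2K`): the integral is `∫ sm N g * smo N' (sA A)`, `N' = 2√2 N`. Split at `‖x‖ = ρ + 1`.
Inside: Cauchy-Schwarz: `≤ (∫ (sm N g)²)^(1/2) (∫_{ball} (smo N' (sA A))²)^(1/2)`. By `sm_eq` and the hypothesis `hsm` at
`N' ` and `√(8/7) N` (both `≥ N ≥ 1`): `∫ (sm N g)² ≤ 2 (Λ²/N' + Λ²/(√(8/7)N)) ≤ 4 Λ²/N`. And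
`∫_{ball} (smo N' (sA A))² ≤ sup * mass ≤ (C (max N' R)^ε (1 + N'/R) |A|) ((2ρ+3)² |A|)` (`smo_sA_le` as `ρ + 1 ≤ R/2`,
`smo_sA_mass`); `(max N' R)^ε ≤ 3^ε (max N R)^ε`, `1 + N'/R ≤ 3 (1 + N/R)`. Outside: `smo N' (sA A) ≤ n` and
`∫_{‖x‖ > ρ+1} |sm N g| ≤ 16 K ρ² exp(-N²)` (`sm_eq`, `tail_smo` twice).
-/

set_option autoImplicit false

open MeasureTheory Complex Set Real Filter Topology
open scoped ENNReal

namespace Pool.MPb9430d.Mom

open Pool.MPb9430d Pool.MPb9430d.Rough Pool.MPb9430d.Frac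

private theorem MidG_cs {μ : Measure ℂ} {f g : ℂ → ℝ} (hf : AEStronglyMeasurable f μ)
    (hg : AEStronglyMeasurable g μ) (hf0 : ∀ x, 0 ≤ f x) (hg0 : ∀ x, 0 ≤ g x)
    (hf2 : Integrable (fun x => f x ^ 2) μ) (hg2 : Integrable (fun x => g x ^ 2) μ) :
    ∫ x, f x * g x ∂μ ≤ √(∫ x, f x ^ 2 ∂μ) * √(∫ x, g x ^ 2 ∂μ) := by
  have h2 : ENNReal.ofReal (2 : ℝ) = 2 := by simp
  have hf3 : MemLp f (ENNReal.ofReal 2) μ := by
    rw [h2]
    exact (memLp_two_iff_integrable_sq hf).2 hf2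
  have hg3 : MemLp g (ENNReal.ofReal 2) μ := by
    rw [h2]
    exact (memLp_two_iff_integrable_sq hg).2 hg2
  have h := integral_mul_le_Lp_mul_Lq_of_nonneg Real.HolderConjugate.two_two
    (ae_of_all _ hf0) (ae_of_all _ hg0) hf3 hg3
  rw [Real.sqrt_eq_rpow, Real.sqrt_eq_rpow]
  simpa [Real.rpow_two] using h

private theorem MidG_sq_int {f : ℂ → ℝ} (hi : Integrable f) {c : ℝ} (hb : ∀ x, |f x| ≤ c) :
    Integrable (fun x => f x ^ 2) := by
  have h := hi.mul_bdd (c := c) hi.aestronglyMeasurable (ae_of_all _ fun x => by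
    rw [Real.norm_eq_abs]; exact hb x)
  refine h.congr (ae_of_all _ fun x => ?_)
  simp only
  ring

private theorem MidG_gint {ρ K : ℝ} {g : ℂ → ℝ} (hg : Measurable g) (hK : ∀ x, |g x| ≤ K)
    (hs : ∀ x, ρ < ‖x‖ → g x = 0) : Integrable g := by
  have h1 : IntegrableOn g (Metric.closedBall (0 : ℂ) ρ) := by
    refine Measure.integrableOn_of_bounded (M := K) ?_ hg.aestronglyMeasurable ?_
    · exact measure_closedBall_lt_top.ne
    · exact ae_of_all _ fun x => by rw [Real.norm_eq_abs]; exact hK x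
  refine (integrableOn_iff_integrable_of_support_subset ?_).1 h1
  intro x hx
  rw [Metric.mem_closedBall, dist_zero_right]
  by_contra hc
  exact hx (hs x (not_le.1 hc))

private theorem MidG_root : (1 : ℝ) ≤ √2 ∧ √2 ≤ 3 / 2 ∧ (1 : ℝ) ≤ √(8 / 7) := by
  refine ⟨?_, ?_, ?_⟩
  · exact Real.one_le_sqrt.2 (by norm_num)
  · rw [Real.sqrt_le_left (by norm_num)]
    norm_num
  · exact Real.one_le_sqrt.2 (by norm_num)

theorem mid_g {ε : ℝ} (hε : 0 < ε) (hε1 : ε ≤ 1) : ∃ C : ℝ, 0 < C ∧ ∀ (A : Set ℂ) (n : ℕ),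
    MeasurableSet A → volume A ≠ ∞ → (∀ᵐ x : ℂ, SS (ind A) x ≤ n) → ∀ ρ K Λ R N : ℝ, 1 ≤ ρ → 0 ≤ K →
    0 ≤ Λ → 4 * ρ ≤ R → (∀ y ∈ A, R ≤ ‖y‖) → 1 ≤ N → ∀ g : ℂ → ℝ, Measurable g → (∀ x, 0 ≤ g x) →
    (∀ x, g x ≤ K) → (∀ x, ρ < ‖x‖ → g x = 0) →
    (∀ N : ℝ, 1 ≤ N → ∫ x, (g x - smo N g x) ^ 2 ≤ Λ ^ 2 / N) →
    |∫ x, (smo (2 * N) g x - smo N g x) * sA A x| ≤
      C * ρ * Λ * √((max N R) ^ ε * (1 / N + 1 / R)) * volume.real A +
        16 * n * K * ρ ^ 2 * Real.exp (-N ^ 2) := by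
  obtain ⟨C0, hC0, hsup⟩ := smo_sA_le hε
  refine ⟨30 * √C0, by positivity, ?_⟩
  intro A n hA hfin hn ρ K Λ R N hρ hK hΛ hR hfar hN g hg h0 hgK hs hsm
  obtain ⟨r1, r2, r3⟩ := MidG_root
  have hN0 : 0 < N := by linarith
  have hgab : ∀ x, |g x| ≤ K := fun x => by
    rw [abs_of_nonneg (h0 x)]
    exact hgK x
  have hgi : Integrable g := MidG_gint hg hgab hs
  set M : ℝ := 2 * √2 * N with hM
  set M2 : ℝ := √(8 / 7) * N with hM2
  have hMN : 2 * N ≤ M := by
    rw [hM]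
    nlinarith
  have hM3 : M ≤ 3 * N := by
    rw [hM]
    nlinarith
  have hM2N : N ≤ M2 := by
    rw [hM2]
    nlinarith
  have hM1 : 1 ≤ M := by linarith
  have hM21 : 1 ≤ M2 := by linarith
  have hM0 : 0 < M := by linarith
  have hM20 : 0 < M2 := by linarith
  set G : ℂ → ℝ := fun x => smo M g x - smo M2 g x with hG
  have hsmG : sm N g = G := by
    funext x
    exact sm_eq hN0 hg hgab x
  have i1 : Integrable (smo M g) := integrable_smo hM0 hgi
  have i2 : Integrable (smo M2 g) := integrable_smo hM20 hgi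
  have hGi : Integrable G := i1.sub i2
  have hGm : Measurable G := (measurable_smo hg).sub (measurable_smo hg)
  have hGb : ∀ x, |G x| ≤ K + K := fun x =>
    (abs_sub _ _).trans (add_le_add (abs_smo_le hM0 hg hgab x) (abs_smo_le hM20 hg hgab x))
  set W : ℂ → ℝ := smo M (sA A) with hW
  obtain ⟨hAm, -, -, -⟩ := sA_facts hA hn
  have hWm : Measurable W := measurable_smo hAm
  have hW0 : ∀ x, 0 ≤ W x := fun x => (smo_sA_le_n hA hn hM1 x).1
  have hWn : ∀ x, W x ≤ n := fun x => (smo_sA_le_n hA hn hM1 x).2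
  -- the pairing
  have hpair : ∫ x, (smo (2 * N) g x - smo N g x) * sA A x = ∫ x, G x * W x := by
    rw [← pair_smo hA hn hM1 hGm hGi]
    refine integral_congr_ae (ae_of_all _ fun x => ?_)
    simp only
    rw [smo_sub hN0 hg hgi hgab x, hsmG]
  rw [hpair]
  have hGW : Integrable fun x => |G x| * W x := by
    refine hGi.abs.mul_bdd (c := (n : ℝ)) hWm.aestronglyMeasurable (ae_of_all _ fun x => ?_)
    rw [Real.norm_eq_abs, abs_of_nonneg (hW0 x)]
    exact hWn x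
  have hB : MeasurableSet (Metric.closedBall (0 : ℂ) (ρ + 1)) :=
    Metric.isClosed_closedBall.measurableSet
  have hBc : (Metric.closedBall (0 : ℂ) (ρ + 1))ᶜ = {x : ℂ | ρ + 1 < ‖x‖} := by
    ext x
    simp [Metric.mem_closedBall, dist_zero_right]
  have hsplit : |∫ x, G x * W x| ≤ (∫ x in Metric.closedBall (0 : ℂ) (ρ + 1), |G x| * W x) +
      ∫ x in {x : ℂ | ρ + 1 < ‖x‖}, |G x| * W x := by
    rw [← hBc, integral_add_compl hB hGW]
    refine (abs_integral_le_integral_abs).trans (le_of_eq ?_)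
    refine integral_congr_ae (ae_of_all _ fun x => ?_)
    simp only
    rw [abs_mul, abs_of_nonneg (hW0 x)]
  -- outside
  have hout : ∫ x in {x : ℂ | ρ + 1 < ‖x‖}, |G x| * W x ≤ 16 * n * K * ρ ^ 2 * Real.exp (-N ^ 2) := by
    have h1 : ∫ x in {x : ℂ | ρ + 1 < ‖x‖}, |G x| * W x ≤
        ∫ x in {x : ℂ | ρ + 1 < ‖x‖}, (|smo M g x| + |smo M2 g x|) * (n : ℝ) := by
      refine integral_mono hGW.integrableOn ((i1.abs.add i2.abs).mul_const _).integrableOn ?_
      intro x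
      exact mul_le_mul (abs_sub _ _) (hWn x) (hW0 x) (by positivity)
    have h2 : ∫ x in {x : ℂ | ρ + 1 < ‖x‖}, (|smo M g x| + |smo M2 g x|) * (n : ℝ) =
        ((∫ x in {x : ℂ | ρ + 1 < ‖x‖}, |smo M g x|) +
          ∫ x in {x : ℂ | ρ + 1 < ‖x‖}, |smo M2 g x|) * (n : ℝ) := by
      rw [integral_mul_const, integral_add i1.abs.integrableOn i2.abs.integrableOn]
    have h3 := tail_smo hM1 hρ hK hg hgab hs
    have h4 := tail_smo hM21 hρ hK hg hgab hs
    have e1 : Real.exp (-M ^ 2) ≤ Real.exp (-N ^ 2) := by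
      apply Real.exp_le_exp.2
      nlinarith
    have e2 : Real.exp (-M2 ^ 2) ≤ Real.exp (-N ^ 2) := by
      apply Real.exp_le_exp.2
      nlinarith
    have hK8 : 0 ≤ 8 * K * ρ ^ 2 := by positivity
    have h5 : 8 * K * ρ ^ 2 * Real.exp (-M ^ 2) ≤ 8 * K * ρ ^ 2 * Real.exp (-N ^ 2) :=
      mul_le_mul_of_nonneg_left e1 hK8
    have h6 : 8 * K * ρ ^ 2 * Real.exp (-M2 ^ 2) ≤ 8 * K * ρ ^ 2 * Real.exp (-N ^ 2) :=
      mul_le_mul_of_nonneg_left e2 hK8
    refine h1.trans ?_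
    rw [h2]
    calc ((∫ x in {x : ℂ | ρ + 1 < ‖x‖}, |smo M g x|) +
          ∫ x in {x : ℂ | ρ + 1 < ‖x‖}, |smo M2 g x|) * (n : ℝ)
        ≤ (8 * K * ρ ^ 2 * Real.exp (-N ^ 2) + 8 * K * ρ ^ 2 * Real.exp (-N ^ 2)) * (n : ℝ) := by
          refine mul_le_mul_of_nonneg_right ?_ (Nat.cast_nonneg n)
          linarith
      _ = 16 * n * K * ρ ^ 2 * Real.exp (-N ^ 2) := by ring
  -- inside
  have hG2 : ∫ x, |G x| ^ 2 ≤ 4 * (Λ ^ 2 / N) := by
    have d1 : Integrable fun x => (g x - smo M g x) ^ 2 :=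
      MidG_sq_int (hgi.sub i1) (c := K + K) fun x =>
        (abs_sub _ _).trans (add_le_add (hgab x) (abs_smo_le hM0 hg hgab x))
    have d2 : Integrable fun x => (g x - smo M2 g x) ^ 2 :=
      MidG_sq_int (hgi.sub i2) (c := K + K) fun x =>
        (abs_sub _ _).trans (add_le_add (hgab x) (abs_smo_le hM20 hg hgab x))
    have hGs : Integrable fun x => |G x| ^ 2 := by
      simp_rw [sq_abs]
      exact MidG_sq_int hGi hGb
    have h1 : ∫ x, |G x| ^ 2 ≤ ∫ x, (2 * (g x - smo M g x) ^ 2 + 2 * (g x - smo M2 g x) ^ 2) := by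
      refine integral_mono hGs ((d1.const_mul 2).add (d2.const_mul 2)) ?_
      intro x
      simp only [hG]
      rw [sq_abs]
      nlinarith [sq_nonneg ((g x - smo M g x) + (g x - smo M2 g x))]
    have h2 : ∫ x, (2 * (g x - smo M g x) ^ 2 + 2 * (g x - smo M2 g x) ^ 2) =
        2 * (∫ x, (g x - smo M g x) ^ 2) + 2 * (∫ x, (g x - smo M2 g x) ^ 2) := by
      rw [integral_add (d1.const_mul 2) (d2.const_mul 2), integral_const_mul, integral_const_mul]
    have h3 := hsm M hM1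
    have h4 := hsm M2 hM21
    have h5 : Λ ^ 2 / M ≤ Λ ^ 2 / N :=
      div_le_div_of_nonneg_left (sq_nonneg _) hN0 (by linarith)
    have h6 : Λ ^ 2 / M2 ≤ Λ ^ 2 / N :=
      div_le_div_of_nonneg_left (sq_nonneg _) hN0 hM2N
    rw [h2] at h1
    linarith
  set B : Set ℂ := Metric.closedBall (0 : ℂ) (ρ + 1) with hBdef
  set P : ℝ := (max N R) ^ ε * (1 + N / R) with hP
  have hR0 : 0 < R := by linarith
  have hmax0 : 0 < max N R := lt_max_of_lt_left hN0
  have hP0 : 0 ≤ P := by positivity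
  have hsupB : ∀ x ∈ B, W x ≤ 9 * C0 * P * volume.real A := by
    intro x hx
    rw [hBdef, Metric.mem_closedBall, dist_zero_right] at hx
    have h1 := hsup A n hA hfin hn R M (by linarith) hM1 hfar x (by linarith)
    have h2 : (max M R) ^ ε ≤ 3 * (max N R) ^ ε := by
      have a1 : max M R ≤ 3 * max N R := by
        apply max_le
        · exact hM3.trans (mul_le_mul_of_nonneg_left (le_max_left _ _) (by norm_num))
        · have := le_max_right N R
          linarith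
      have a2 : (3 : ℝ) ^ ε ≤ 3 := by
        calc (3 : ℝ) ^ ε ≤ 3 ^ (1 : ℝ) := Real.rpow_le_rpow_of_exponent_le (by norm_num) hε1
          _ = 3 := Real.rpow_one _
      calc (max M R) ^ ε ≤ (3 * max N R) ^ ε :=
            Real.rpow_le_rpow (le_max_of_le_left hM0.le) a1 hε.le
        _ = 3 ^ ε * (max N R) ^ ε := Real.mul_rpow (by norm_num) hmax0.le
        _ ≤ 3 * (max N R) ^ ε :=
            mul_le_mul_of_nonneg_right a2 (Real.rpow_nonneg hmax0.le _)
    have h3 : 1 + M / R ≤ 3 * (1 + N / R) := by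
      have : M / R ≤ 3 * (N / R) := by
        rw [← mul_div_assoc]
        exact div_le_div_of_nonneg_right hM3 hR0.le
      linarith
    have h4 : 0 ≤ 1 + M / R := by positivity
    have h5 : 0 ≤ (max M R) ^ ε := Real.rpow_nonneg (le_max_of_le_left hM0.le) _
    refine h1.trans ?_
    refine mul_le_mul_of_nonneg_right ?_ measureReal_nonneg
    calc C0 * (max M R) ^ ε * (1 + M / R) ≤ C0 * (3 * (max N R) ^ ε) * (3 * (1 + N / R)) := by
          refine mul_le_mul (mul_le_mul_of_nonneg_left h2 hC0.le) h3 h4 (by positivity)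
      _ = 9 * C0 * P := by
          rw [hP]
          ring
  have hWB : IntegrableOn W B := by
    refine Measure.integrableOn_of_bounded (M := n) measure_closedBall_lt_top.ne
      hWm.aestronglyMeasurable (ae_of_all _ fun x => ?_)
    rw [Real.norm_eq_abs, abs_of_nonneg (hW0 x)]
    exact hWn x
  have hW2B : IntegrableOn (fun x => W x ^ 2) B := by
    refine Measure.integrableOn_of_bounded (M := (n : ℝ) ^ 2) measure_closedBall_lt_top.ne
      (hWm.pow_const 2).aestronglyMeasurable (ae_of_all _ fun x => ?_)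
    rw [Real.norm_eq_abs, abs_of_nonneg (sq_nonneg _)]
    exact pow_le_pow_left₀ (hW0 x) (hWn x) 2
  have hW2 : ∫ x in B, W x ^ 2 ≤ (9 * C0 * P * volume.real A) * ((5 * ρ) ^ 2 * volume.real A) := by
    have h1 : ∫ x in B, W x ^ 2 ≤ ∫ x in B, (9 * C0 * P * volume.real A) * W x := by
      refine setIntegral_mono_on hW2B (hWB.const_mul _) hB ?_
      intro x hx
      rw [sq]
      exact mul_le_mul_of_nonneg_right (hsupB x hx) (hW0 x)
    rw [integral_const_mul] at h1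
    refine h1.trans ?_
    refine mul_le_mul_of_nonneg_left ?_ (by positivity)
    have h2 := smo_sA_mass hA hfin hn hM1 (show (0 : ℝ) ≤ ρ + 1 by linarith)
    refine h2.trans ?_
    refine mul_le_mul_of_nonneg_right ?_ measureReal_nonneg
    nlinarith
  have hin : ∫ x in B, |G x| * W x ≤
      30 * √C0 * ρ * Λ * √((max N R) ^ ε * (1 / N + 1 / R)) * volume.real A := by
    have hGs : Integrable fun x => |G x| ^ 2 := by
      simp_rw [sq_abs]
      exact MidG_sq_int hGi hGb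
    have h1 := MidG_cs (μ := volume.restrict B) hGm.abs.aestronglyMeasurable
      hWm.aestronglyMeasurable (fun x => abs_nonneg _) hW0 hGs.integrableOn hW2B
    refine h1.trans ?_
    have h2 : ∫ x in B, |G x| ^ 2 ≤ 4 * (Λ ^ 2 / N) := by
      refine le_trans ?_ hG2
      exact setIntegral_le_integral hGs (ae_of_all _ fun x => by positivity)
    have h3 : √(∫ x in B, |G x| ^ 2) ≤ 2 * Λ * √(1 / N) := by
      refine (Real.sqrt_le_sqrt h2).trans (le_of_eq ?_)
      rw [show 4 * (Λ ^ 2 / N) = (2 * Λ) ^ 2 * (1 / N) by ring,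
        Real.sqrt_mul (sq_nonneg _), Real.sqrt_sq (by positivity)]
    have h4 : √(∫ x in B, W x ^ 2) ≤ 15 * √C0 * ρ * volume.real A * √P := by
      refine (Real.sqrt_le_sqrt hW2).trans (le_of_eq ?_)
      rw [show (9 * C0 * P * volume.real A) * ((5 * ρ) ^ 2 * volume.real A) =
        (15 * ρ * volume.real A) ^ 2 * (C0 * P) by ring,
        Real.sqrt_mul (sq_nonneg _), Real.sqrt_sq (by positivity), Real.sqrt_mul hC0.le]
      ring
    have h5 : √((max N R) ^ ε * (1 / N + 1 / R)) = √(1 / N) * √P := by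
      rw [← Real.sqrt_mul (by positivity)]
      congr 1
      rw [hP]
      field_simp
    rw [h5]
    calc √(∫ x in B, |G x| ^ 2) * √(∫ x in B, W x ^ 2)
        ≤ (2 * Λ * √(1 / N)) * (15 * √C0 * ρ * volume.real A * √P) :=
          mul_le_mul h3 h4 (Real.sqrt_nonneg _) (by positivity)
      _ = 30 * √C0 * ρ * Λ * (√(1 / N) * √P) * volume.real A := by ring
  exact hsplit.trans (add_le_add hin hout)

end Pool.MPb9430d.Mom
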