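import Pool.Agent.Lib.MP_b9430d_co.Mom.LowG
import Pool.Agent.Lib.MP_b9430d_co.Mom.MidG
import Pool.Agent.Lib.MP_b9430d_co.Mom.HighG

/-!
# LemG: Lemma G

`R ≥ R₁(n, ρ)`. Choose `k₀` with `2^k₀ ≤ R^(1/8) < 2^(k₀+1)` and `k₁` with `2^(k₁-1) < R^8 ≤ 2^k₁` (so `k₁ ≤ 12 log R + 2`,
`2^k ≤ 2 R^8` for `k ≤ k₁`). `g = smo N₀ g + ∑_{k₀ ≤ k < k₁} (smo 2^(k+1) g - smo 2^k g) + (g - smo N₁ g)`, `N₀ = 2^k₀`, `N₁ = 2^k₁`
(telescoping). (g1) `low_g`: `256 K ρ² N₀²/√R |A| ≤ 256 K ρ² R^(-1/4) |A|`. (g2) `mid_g` with `ε = 1/400`: `(max N R)^ε ≤ (2R^8)^ε ≤ 2 R^(1/50)`,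
`√(..) ≤ 2 R^(1/100) (N^(-1/2) + R^(-1/2))`, the sum over `k` of `2^(-k/2)` is `≤ 4 N₀^(-1/2) ≤ 6 R^(-1/16)`, the number of `k` is
`≤ 12 log R + 2`: total `≤ C ρ Λ (R^(1/100 - 1/16) + R^(1/100-1/2) log R) |A| ≤ C' ρ Λ R^(-1/20) |A|`; the exponentials:
`N₀ ≥ R^(1/8)/2`, `(12 log R + 2) exp(-R^(1/4)/4) ≤ R^(-10)` for `R ≥ R₁`. (g3) `high_g` with `L = Λ/√N₁ ≤ Λ R^(-4)`.
-/

set_option autoImplicit false

open MeasureTheory Complex Set Real Filter Topology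
open scoped ENNReal

namespace Pool.MPb9430d.Mom

open Pool.MPb9430d Pool.MPb9430d.Rough Pool.MPb9430d.Frac

private theorem LemG_exp : ∃ E : ℝ, 0 < E ∧ ∀ R : ℝ, 1 ≤ R →
    4802 * R * Real.exp (-(R ^ (1 / 4 : ℝ) / 4)) ≤ E * R ^ (-10 : ℝ) := by
  obtain ⟨F, hF0, hF⟩ : ∃ F : ℝ, 0 < F ∧ ∀ x : ℝ, 0 ≤ x → x ^ 44 / F ≤ Real.exp x :=
    ⟨(Nat.factorial 44 : ℝ), by positivity, fun x hx => Real.pow_div_factorial_le_exp x hx 44⟩
  refine ⟨4802 * F * 4 ^ 44, by positivity, fun R hR => ?_⟩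
  have hR0 : 0 < R := by linarith
  have h1 := hF (R ^ (1 / 4 : ℝ) / 4) (by positivity)
  have h2 : (R ^ (1 / 4 : ℝ) / 4) ^ 44 = R ^ 11 / 4 ^ 44 := by
    rw [div_pow, ← Real.rpow_natCast (R ^ (1 / 4 : ℝ)) 44, ← Real.rpow_mul hR0.le,
      show (1 / 4 : ℝ) * ((44 : ℕ) : ℝ) = ((11 : ℕ) : ℝ) by norm_num, Real.rpow_natCast]
  rw [h2] at h1
  have h3 : Real.exp (-(R ^ (1 / 4 : ℝ) / 4)) ≤ F * 4 ^ 44 / R ^ 11 := by
    rw [Real.exp_neg, ← one_div, div_le_div_iff₀ (Real.exp_pos _) (by positivity), one_mul]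
    rw [div_div, div_le_iff₀ (by positivity)] at h1
    calc R ^ 11 ≤ Real.exp (R ^ (1 / 4 : ℝ) / 4) * (4 ^ 44 * F) := h1
      _ = F * 4 ^ 44 * Real.exp (R ^ (1 / 4 : ℝ) / 4) := by ring
  have h4 : R ^ (-10 : ℝ) = 1 / R ^ 10 := by
    rw [Real.rpow_neg hR0.le, one_div]
    congr 1
    rw [show (10 : ℝ) = ((10 : ℕ) : ℝ) by norm_num, Real.rpow_natCast]
  rw [h4]
  calc 4802 * R * Real.exp (-(R ^ (1 / 4 : ℝ) / 4)) ≤ 4802 * R * (F * 4 ^ 44 / R ^ 11) :=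
        mul_le_mul_of_nonneg_left h3 (by positivity)
    _ = 4802 * F * 4 ^ 44 * (1 / R ^ 10) := by
        field_simp

private theorem LemG_log {R : ℝ} (hR : 1 ≤ R) {m : ℕ} (hm : (2 : ℝ) ^ m ≤ R ^ 8) :
    ((m : ℝ) + 1) ≤ 4802 * R ^ (1 / 400 : ℝ) := by
  have hR0 : 0 < R := by linarith
  have h1 : (m : ℝ) * Real.log 2 ≤ 8 * Real.log R := by
    have h := Real.log_le_log (by positivity) hm
    rw [Real.log_pow, Real.log_pow] at h
    simpa using h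
  have h2 := Real.log_two_gt_d9
  have h3 := Real.log_le_rpow_div hR0.le (ε := 1 / 400) (by norm_num)
  have h4 : 1 ≤ R ^ (1 / 400 : ℝ) := Real.one_le_rpow hR (by norm_num)
  have hm0 : (0 : ℝ) ≤ m := Nat.cast_nonneg m
  have h5 : (m : ℝ) * (2 / 3) ≤ 8 * (R ^ (1 / 400 : ℝ) / (1 / 400)) := by
    nlinarith
  have h6 : R ^ (1 / 400 : ℝ) / (1 / 400) = 400 * R ^ (1 / 400 : ℝ) := by
    rw [div_div_eq_mul_div, div_one, mul_comm]
  rw [h6] at h5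
  linarith

private theorem LemG_sqrt {R N : ℝ} (hR : 1 ≤ R) (hN0 : R ^ (1 / 8 : ℝ) / 2 ≤ N) (hN1 : N ≤ R ^ 8) :
    √((max N R) ^ (1 / 400 : ℝ) * (1 / N + 1 / R)) ≤ 2 * R ^ (-(21 / 400) : ℝ) := by
  have hR0 : 0 < R := by linarith
  have hp : 0 < R ^ (1 / 8 : ℝ) := Real.rpow_pos_of_pos hR0 _
  have hN : 0 < N := by linarith
  have h1 : max N R ≤ R ^ 8 := max_le hN1 (by
    calc R = R ^ 1 := (pow_one R).symm
      _ ≤ R ^ 8 := pow_le_pow_right₀ hR (by norm_num))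
  have h2 : (max N R) ^ (1 / 400 : ℝ) ≤ R ^ (1 / 50 : ℝ) := by
    have h := Real.rpow_le_rpow (le_max_of_le_left hN.le) h1 (z := (1 / 400 : ℝ)) (by norm_num)
    rw [← Real.rpow_natCast R 8, ← Real.rpow_mul hR0.le,
      show ((8 : ℕ) : ℝ) * (1 / 400) = 1 / 50 by norm_num] at h
    exact h
  have h3 : 1 / N ≤ 2 * R ^ (-(1 / 8) : ℝ) := by
    rw [Real.rpow_neg hR0.le, ← one_div, div_le_iff₀ hN]
    have h4 : 2 * (1 / R ^ (1 / 8 : ℝ)) * (R ^ (1 / 8 : ℝ) / 2) = 1 := by field_simp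
    calc (1 : ℝ) = 2 * (1 / R ^ (1 / 8 : ℝ)) * (R ^ (1 / 8 : ℝ) / 2) := h4.symm
      _ ≤ 2 * (1 / R ^ (1 / 8 : ℝ)) * N := mul_le_mul_of_nonneg_left hN0 (by positivity)
  have h5 : 1 / R ≤ 2 * R ^ (-(1 / 8) : ℝ) := by
    have h6 : R ^ (-1 : ℝ) ≤ R ^ (-(1 / 8) : ℝ) := Real.rpow_le_rpow_of_exponent_le hR (by norm_num)
    rw [Real.rpow_neg_one] at h6
    rw [one_div]
    have h7 : 0 < R ^ (-(1 / 8) : ℝ) := Real.rpow_pos_of_pos hR0 _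
    linarith
  have h8 : (max N R) ^ (1 / 400 : ℝ) * (1 / N + 1 / R) ≤ (2 * R ^ (-(21 / 400) : ℝ)) ^ 2 := by
    have e : (2 * R ^ (-(21 / 400) : ℝ)) ^ 2 = R ^ (1 / 50 : ℝ) * (4 * R ^ (-(1 / 8) : ℝ)) := by
      rw [mul_pow, ← Real.rpow_natCast (R ^ (-(21 / 400) : ℝ)) 2, ← Real.rpow_mul hR0.le]
      rw [show R ^ (1 / 50 : ℝ) * (4 * R ^ (-(1 / 8) : ℝ)) =
        4 * (R ^ (1 / 50 : ℝ) * R ^ (-(1 / 8) : ℝ)) by ring, ← Real.rpow_add hR0]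
      norm_num
    rw [e]
    refine mul_le_mul h2 (by linarith) (by positivity) (by positivity)
  calc √((max N R) ^ (1 / 400 : ℝ) * (1 / N + 1 / R)) ≤ √((2 * R ^ (-(21 / 400) : ℝ)) ^ 2) :=
        Real.sqrt_le_sqrt h8
    _ = 2 * R ^ (-(21 / 400) : ℝ) := Real.sqrt_sq (by positivity)

private theorem LemG_gint {K ρ : ℝ} {g : ℂ → ℝ} (hg : Measurable g) (h0 : ∀ x, 0 ≤ g x)
    (hK : ∀ x, g x ≤ K) (hs : ∀ x, ρ < ‖x‖ → g x = 0) : Integrable g := by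
  have h1 : IntegrableOn g (Metric.closedBall 0 ρ) := by
    refine Measure.integrableOn_of_bounded (M := K) measure_closedBall_lt_top.ne
      hg.aestronglyMeasurable (Eventually.of_forall fun x => ?_)
    rw [Real.norm_of_nonneg (h0 x)]
    exact hK x
  refine (integrableOn_iff_integrable_of_support_subset ?_).1 h1
  intro x hx
  rw [mem_closedBall_zero_iff]
  by_contra h
  exact hx (hs x (not_le.1 h))

private theorem LemG_mulint {A : Set ℂ} {n : ℕ} (hA : MeasurableSet A)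
    (hn : ∀ᵐ x : ℂ, SS (ind A) x ≤ n) {f : ℂ → ℝ} (hf : Integrable f) :
    Integrable (fun x => f x * sA A x) := by
  obtain ⟨h1, h2, h3, -⟩ := sA_facts hA hn
  refine Integrable.mul_bdd (c := n) hf h1.aestronglyMeasurable ?_
  filter_upwards [h3] with x hx
  rw [Real.norm_of_nonneg (h2 x)]
  exact hx

theorem lem_g (n : ℕ) {ρ : ℝ} (hρ : 1 ≤ ρ) : ∃ C R₁ : ℝ, 0 < C ∧ 1 ≤ R₁ ∧ ∀ R : ℝ, R₁ ≤ R →
    ∀ A : Set ℂ, MeasurableSet A → volume A ≠ ∞ → (∀ᵐ x : ℂ, SS (ind A) x ≤ n) →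
    (∀ y ∈ A, R ≤ ‖y‖) → ∀ K Λ : ℝ, 0 ≤ K → 0 ≤ Λ → ∀ g : ℂ → ℝ, Measurable g → (∀ x, 0 ≤ g x) →
    (∀ x, g x ≤ K) → (∀ x, ρ < ‖x‖ → g x = 0) →
    (∀ N : ℝ, 1 ≤ N → ∫ x, (g x - smo N g x) ^ 2 ≤ Λ ^ 2 / N) →
    |(∫ x, g x * sA A x) - volume.real A * ∫ x, g x| ≤
      C * (K + Λ) * (R ^ (-(1 / 20) : ℝ) * volume.real A + R ^ (-4 : ℝ) * √(volume.real A) +
        R ^ (-10 : ℝ)) := by
  obtain ⟨C₂, hC₂, hmid⟩ := mid_g (ε := 1 / 400) (by norm_num) (by norm_num)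
  obtain ⟨E, hE, hexp⟩ := LemG_exp
  refine ⟨256 * ρ ^ 2 + 9604 * C₂ * ρ + 24 * n * ρ ^ 2 * E + 5 * ρ * √n, 4 * ρ, by positivity,
    by linarith, ?_⟩
  intro R hR A hA hfin hn hRA K Λ hK0 hΛ g hg h0 hK hs hsm
  have hR1 : 1 ≤ R := by linarith
  have hR0 : 0 < R := by linarith
  obtain ⟨k₀, hk₀, hk₀'⟩ := exists_nat_pow_near (x := R ^ (1 / 8 : ℝ)) (y := 2)
    (Real.one_le_rpow hR1 (by norm_num)) one_lt_two
  obtain ⟨m, hm, hm'⟩ := exists_nat_pow_near (x := R ^ 8) (y := 2) (one_le_pow₀ hR1) one_lt_two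
  have hgi := LemG_gint hg h0 hK hs
  have hpow1 : ∀ k : ℕ, (1 : ℝ) ≤ 2 ^ k := fun k => one_le_pow₀ one_le_two
  have hpow0 : ∀ k : ℕ, (0 : ℝ) < 2 ^ k := fun k => by positivity
  have hlow := low_g hA hfin hn hρ (R := R) (N := 2 ^ k₀) (by linarith) (by linarith) hRA (hpow1 k₀) hg h0 hK hs
  have hIi : ∀ k : ℕ, Integrable (fun x => smo (2 ^ k) g x * sA A x) := fun k =>
    LemG_mulint hA hn (integrable_smo (hpow0 k) hgi)
  set I : ℕ → ℝ := fun k => ∫ x, smo (2 ^ k) g x * sA A x with hI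
  set V := volume.real A with hV
  have hV0 : 0 ≤ V := measureReal_nonneg
  set X := Real.exp (-(R ^ (1 / 4 : ℝ) / 4)) with hX
  have hX0 : 0 < X := Real.exp_pos _
  have hN0' : R ^ (1 / 8 : ℝ) / 2 ≤ 2 ^ k₀ := by
    rw [pow_succ] at hk₀'
    linarith
  have hexpN : ∀ k : ℕ, k₀ ≤ k → Real.exp (-((2 : ℝ) ^ k) ^ 2) ≤ X := by
    intro k hk
    rw [hX]
    refine Real.exp_le_exp.2 (neg_le_neg ?_)
    have h1 : R ^ (1 / 8 : ℝ) / 2 ≤ 2 ^ k :=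
      hN0'.trans (pow_le_pow_right₀ one_le_two hk)
    have h2 := pow_le_pow_left₀ (by positivity) h1 2
    have h3 : (R ^ (1 / 8 : ℝ) / 2) ^ 2 = R ^ (1 / 4 : ℝ) / 4 := by
      rw [div_pow, ← Real.rpow_natCast (R ^ (1 / 8 : ℝ)) 2, ← Real.rpow_mul hR0.le]
      norm_num
    rwa [h3] at h2
  -- one step
  have hstep : ∀ k : ℕ, k₀ ≤ k → k ≤ m → |I (k + 1) - I k| ≤
      C₂ * ρ * Λ * (2 * R ^ (-(21 / 400) : ℝ)) * V + 16 * n * K * ρ ^ 2 * X := by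
    intro k hk hkm
    have h1 := hmid A n hA hfin hn ρ K Λ R (2 ^ k) hρ hK0 hΛ hR hRA (hpow1 k) g hg h0 hK hs hsm
    have e : ∫ x, (smo (2 * 2 ^ k) g x - smo (2 ^ k) g x) * sA A x = I (k + 1) - I k := by
      simp only [hI]
      rw [← integral_sub (hIi (k + 1)) (hIi k)]
      refine integral_congr_ae (Eventually.of_forall fun x => ?_)
      simp only
      rw [pow_succ, mul_comm (2 ^ k : ℝ) 2, sub_mul]
    rw [e] at h1
    refine h1.trans ?_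
    have h2 := LemG_sqrt hR1 (N := 2 ^ k) (hN0'.trans (pow_le_pow_right₀ one_le_two hk))
      ((pow_le_pow_right₀ one_le_two hkm).trans hm)
    have h3 := hexpN k hk
    exact add_le_add (mul_le_mul_of_nonneg_right (mul_le_mul_of_nonneg_left h2 (by positivity)) hV0)
      (mul_le_mul_of_nonneg_left h3 (by positivity))
  set B := C₂ * ρ * Λ * (2 * R ^ (-(21 / 400) : ℝ)) * V + 16 * n * K * ρ ^ 2 * X with hB
  have hB0 : 0 ≤ B := by positivity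
  have hk₀m : k₀ ≤ m := by
    by_contra hcon
    rw [not_le] at hcon
    have h1 : (2 : ℝ) ^ (m + 1) ≤ 2 ^ k₀ := pow_le_pow_right₀ one_le_two hcon
    have h2 : R ^ (1 / 8 : ℝ) ≤ R ^ 8 := by
      rw [← Real.rpow_natCast R 8]
      exact Real.rpow_le_rpow_of_exponent_le hR1 (by norm_num)
    linarith
  have hsteps : ∀ j : ℕ, k₀ + j ≤ m + 1 → |I (k₀ + j) - I k₀| ≤ j * B := by
    intro j
    induction j with
    | zero => intro _; simp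
    | succ j ih =>
      intro hj
      have h1 := ih (by omega)
      have h2 := hstep (k₀ + j) (by omega) (by omega)
      have h3 : |I (k₀ + (j + 1)) - I k₀| ≤ |I (k₀ + j + 1) - I (k₀ + j)| + |I (k₀ + j) - I k₀| := by
        rw [show k₀ + (j + 1) = k₀ + j + 1 by ring]
        exact abs_sub_le _ _ _
      push_cast
      linarith
  have hmidt : |I (m + 1) - I k₀| ≤ ((m : ℝ) + 1) * B := by
    obtain ⟨j, hj⟩ := Nat.exists_eq_add_of_le (show k₀ ≤ m + 1 by omega)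
    have h1 := hsteps j (by omega)
    rw [← hj] at h1
    refine h1.trans (mul_le_mul_of_nonneg_right ?_ hB0)
    have h2 : j ≤ m + 1 := by omega
    exact_mod_cast h2
  -- high frequencies
  have hN1 : R ^ 8 ≤ 2 ^ (m + 1) := hm'.le
  have hhigh := high_g hA hfin hn hρ (hpow1 (m + 1)) (L := Λ / √(2 ^ (m + 1))) (by positivity) hg h0 hK hs
    (by
      rw [div_pow, Real.sq_sqrt (hpow0 _).le]
      exact hsm _ (hpow1 _))
  have hsplit : ∫ x, g x * sA A x = I (m + 1) + ∫ x, (g x - smo (2 ^ (m + 1)) g x) * sA A x := by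
    have hdi : Integrable (fun x => (g x - smo (2 ^ (m + 1)) g x) * sA A x) :=
      LemG_mulint hA hn (hgi.sub (integrable_smo (hpow0 (m + 1)) hgi))
    simp only [hI]
    rw [← integral_add (hIi (m + 1)) hdi]
    refine integral_congr_ae (Eventually.of_forall fun x => ?_)
    simp only
    ring
  have htri : |(∫ x, g x * sA A x) - V * ∫ x, g x| ≤ |I k₀ - V * ∫ x, g x| + |I (m + 1) - I k₀| +
      |∫ x, (g x - smo (2 ^ (m + 1)) g x) * sA A x| := by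
    rw [hsplit]
    have e : I (m + 1) + (∫ x, (g x - smo (2 ^ (m + 1)) g x) * sA A x) - V * ∫ x, g x =
      (I k₀ - V * ∫ x, g x) + (I (m + 1) - I k₀) + ∫ x, (g x - smo (2 ^ (m + 1)) g x) * sA A x := by ring
    rw [e]
    exact abs_add_three _ _ _
  -- the three bounds
  have hP : 0 < R ^ (-(1 / 20) : ℝ) := Real.rpow_pos_of_pos hR0 _
  have hQ : 0 < R ^ (-4 : ℝ) := Real.rpow_pos_of_pos hR0 _
  have hS : 0 < R ^ (-10 : ℝ) := Real.rpow_pos_of_pos hR0 _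
  have b1 : |I k₀ - V * ∫ x, g x| ≤ 256 * K * ρ ^ 2 * R ^ (-(1 / 20) : ℝ) * V := by
    refine hlow.trans (mul_le_mul_of_nonneg_right ?_ hV0)
    rw [mul_div_assoc]
    refine mul_le_mul_of_nonneg_left ?_ (by positivity)
    have h1 : ((2 : ℝ) ^ k₀) ^ 2 ≤ R ^ (1 / 4 : ℝ) := by
      have h2 := pow_le_pow_left₀ (hpow0 k₀).le hk₀ 2
      rw [← Real.rpow_natCast (R ^ (1 / 8 : ℝ)) 2, ← Real.rpow_mul hR0.le] at h2
      norm_num at h2
      norm_num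
      exact h2
    have h3 : R ^ (1 / 4 : ℝ) / √R = R ^ (-(1 / 4) : ℝ) := by
      rw [Real.sqrt_eq_rpow, ← Real.rpow_sub hR0]
      norm_num
    calc ((2 : ℝ) ^ k₀) ^ 2 / √R ≤ R ^ (1 / 4 : ℝ) / √R :=
          div_le_div_of_nonneg_right h1 (Real.sqrt_nonneg _)
      _ = R ^ (-(1 / 4) : ℝ) := h3
      _ ≤ R ^ (-(1 / 20) : ℝ) := Real.rpow_le_rpow_of_exponent_le hR1 (by norm_num)
  have hlogm := LemG_log hR1 hm
  have hXb : 4802 * R * X ≤ E * R ^ (-10 : ℝ) := hexp R hR1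
  have hR4 : R ^ (1 / 400 : ℝ) ≤ R := by
    have h := Real.rpow_le_rpow_of_exponent_le hR1 (show (1 / 400 : ℝ) ≤ 1 by norm_num)
    rwa [Real.rpow_one] at h
  have hmX : ((m : ℝ) + 1) * X ≤ E * R ^ (-10 : ℝ) := by
    refine le_trans (mul_le_mul_of_nonneg_right ?_ hX0.le) hXb
    linarith
  have b2 : |I (m + 1) - I k₀| ≤ 9604 * C₂ * ρ * Λ * R ^ (-(1 / 20) : ℝ) * V +
      16 * n * K * ρ ^ 2 * (E * R ^ (-10 : ℝ)) := by
    refine hmidt.trans ?_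
    rw [hB, mul_add]
    refine add_le_add ?_ ?_
    · have h1 : R ^ (1 / 400 : ℝ) * R ^ (-(21 / 400) : ℝ) = R ^ (-(1 / 20) : ℝ) := by
        rw [← Real.rpow_add hR0]
        norm_num
      calc ((m : ℝ) + 1) * (C₂ * ρ * Λ * (2 * R ^ (-(21 / 400) : ℝ)) * V)
          ≤ (4802 * R ^ (1 / 400 : ℝ)) * (C₂ * ρ * Λ * (2 * R ^ (-(21 / 400) : ℝ)) * V) :=
            mul_le_mul_of_nonneg_right hlogm (by positivity)
        _ = 9604 * C₂ * ρ * Λ * (R ^ (1 / 400 : ℝ) * R ^ (-(21 / 400) : ℝ)) * V := by ring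
        _ = 9604 * C₂ * ρ * Λ * R ^ (-(1 / 20) : ℝ) * V := by rw [h1]
    · calc ((m : ℝ) + 1) * (16 * n * K * ρ ^ 2 * X) = 16 * n * K * ρ ^ 2 * (((m : ℝ) + 1) * X) := by
            ring
        _ ≤ 16 * n * K * ρ ^ 2 * (E * R ^ (-10 : ℝ)) := mul_le_mul_of_nonneg_left hmX (by positivity)
  have b3 : |∫ x, (g x - smo (2 ^ (m + 1)) g x) * sA A x| ≤
      5 * ρ * √n * Λ * R ^ (-4 : ℝ) * √V + 8 * n * K * ρ ^ 2 * (E * R ^ (-10 : ℝ)) := by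
    refine hhigh.trans (add_le_add ?_ ?_)
    · rw [Real.sqrt_mul (Nat.cast_nonneg n)]
      have h1 : 1 / √(2 ^ (m + 1)) ≤ R ^ (-4 : ℝ) := by
        have h2 : R ^ 4 ≤ √(2 ^ (m + 1)) := by
          refine Real.le_sqrt_of_sq_le ?_
          rw [← pow_mul]
          exact hN1
        have h3 : R ^ (-4 : ℝ) = 1 / R ^ 4 := by
          rw [Real.rpow_neg hR0.le, one_div, show (4 : ℝ) = ((4 : ℕ) : ℝ) by norm_num,
            Real.rpow_natCast]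
        rw [h3]
        exact one_div_le_one_div_of_le (by positivity) h2
      calc 5 * ρ * (Λ / √(2 ^ (m + 1))) * (√n * √V) = 5 * ρ * √n * Λ * √V * (1 / √(2 ^ (m + 1))) := by
            ring
        _ ≤ 5 * ρ * √n * Λ * √V * R ^ (-4 : ℝ) := mul_le_mul_of_nonneg_left h1 (by positivity)
        _ = 5 * ρ * √n * Λ * R ^ (-4 : ℝ) * √V := by ring
    · refine mul_le_mul_of_nonneg_left ?_ (by positivity)
      refine le_trans (hexpN (m + 1) (by omega)) (le_trans ?_ hmX)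
      have hm0 : (0 : ℝ) ≤ m := Nat.cast_nonneg m
      exact le_mul_of_one_le_left hX0.le (by linarith)
  refine htri.trans ?_
  have hn0 : (0 : ℝ) ≤ n := Nat.cast_nonneg n
  have hsn : 0 ≤ √(n : ℝ) := Real.sqrt_nonneg _
  have hsV : 0 ≤ √V := Real.sqrt_nonneg _
  set P := R ^ (-(1 / 20) : ℝ) with hPd
  set Q := R ^ (-4 : ℝ) with hQd
  set S := R ^ (-10 : ℝ) with hSd
  have t1 : 256 * K * ρ ^ 2 * P * V ≤ 256 * ρ ^ 2 * (K + Λ) * (P * V) := by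
    have : 0 ≤ 256 * ρ ^ 2 * Λ * (P * V) := by positivity
    linarith
  have t2 : 9604 * C₂ * ρ * Λ * P * V ≤ 9604 * C₂ * ρ * (K + Λ) * (P * V) := by
    have : 0 ≤ 9604 * C₂ * ρ * K * (P * V) := by positivity
    linarith
  have t3 : 16 * n * K * ρ ^ 2 * (E * S) + 8 * n * K * ρ ^ 2 * (E * S) ≤
      24 * n * ρ ^ 2 * E * (K + Λ) * S := by
    have : 0 ≤ 24 * n * ρ ^ 2 * E * Λ * S := by positivity
    linarith
  have t4 : 5 * ρ * √n * Λ * Q * √V ≤ 5 * ρ * √n * (K + Λ) * (Q * √V) := by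
    have : 0 ≤ 5 * ρ * √n * K * (Q * √V) := by positivity
    linarith
  have hKΛ : 0 ≤ K + Λ := by linarith
  have c1 : 0 ≤ 256 * ρ ^ 2 * (K + Λ) * (Q * √V + S) := by positivity
  have c2 : 0 ≤ 9604 * C₂ * ρ * (K + Λ) * (Q * √V + S) := by positivity
  have c3 : 0 ≤ 24 * n * ρ ^ 2 * E * (K + Λ) * (P * V + Q * √V) := by positivity
  have c4 : 0 ≤ 5 * ρ * √n * (K + Λ) * (P * V + S) := by positivity
  have efin : (256 * ρ ^ 2 + 9604 * C₂ * ρ + 24 * n * ρ ^ 2 * E + 5 * ρ * √n) * (K + Λ) *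
      (P * V + Q * √V + S) = 256 * ρ ^ 2 * (K + Λ) * (P * V) + 9604 * C₂ * ρ * (K + Λ) * (P * V) +
      24 * n * ρ ^ 2 * E * (K + Λ) * S + 5 * ρ * √n * (K + Λ) * (Q * √V) +
      (256 * ρ ^ 2 * (K + Λ) * (Q * √V + S) + 9604 * C₂ * ρ * (K + Λ) * (Q * √V + S) +
      24 * n * ρ ^ 2 * E * (K + Λ) * (P * V + Q * √V) + 5 * ρ * √n * (K + Λ) * (P * V + S)) := by ring
  rw [efin]
  linarith

end Pool.MPb9430d.Mom
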