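import Pool.Agent.Lib.MP_b9430d_co.Mom.Sym
import Pool.Agent.Lib.MP_b9430d_co.Mom.FFp
import Pool.Agent.Lib.MP_b9430d_co.Frac.GauF

/-!
# Lsm: SS of a smoothed function

`ofReal (smo N g x) = ∫⁻ t, ofReal (gau N (x - t)) * ofReal (g t)` (`ofReal_integral_eq_lintegral_ofReal`, the integrand is
integrable: `gau N` bounded, `g` integrable). So `SS (..) y = (2π)⁻¹ ∫⁻ θ ∑' p ∫⁻ t ofReal(gau N (y + rot θ * lat p - t)) ofReal (g t)
= ∫⁻ t ofReal (g t) * [(2π)⁻¹ ∫⁻ θ ∑' p ofReal (gau N (y - t + rot θ * lat p))]` (Tonelli), and the bracket is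
`∑' p ofReal (cir N (lat p) (y - t)) = ofReal (FF N (y - t))` (`summable_cir`, `ENNReal.ofReal_tsum_of_nonneg`,
`cir N z u = (2π)⁻¹ ∫ φ in -π..π, gau N (u + rot φ * z)`).
-/

set_option autoImplicit false

open MeasureTheory Complex Set Real Filter Topology
open scoped ENNReal

namespace Pool.MPb9430d.Mom

open Pool.MPb9430d Pool.MPb9430d.Rough Pool.MPb9430d.Frac

private theorem Lsm_gau (N : ℝ) (x t : ℂ) : gau N (x - t) ≤ N ^ 2 := by
  unfold gau
  have h : Real.exp (-(π * N ^ 2 * ‖x - t‖ ^ 2)) ≤ 1 := by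
    rw [Real.exp_le_one_iff]
    have : 0 ≤ π * N ^ 2 * ‖x - t‖ ^ 2 := by positivity
    linarith
  nlinarith [sq_nonneg N]

private theorem Lsm_int (N : ℝ) {g : ℂ → ℝ} (hi : Integrable g) (x : ℂ) : Integrable (fun t => gau N (x - t) * g t) := by
  refine hi.bdd_mul (c := N ^ 2) ?_ (Eventually.of_forall fun t => ?_)
  · exact ((continuous_gau N).comp (continuous_const.sub continuous_id)).aestronglyMeasurable
  · rw [Real.norm_eq_abs, abs_of_nonneg (gau_nonneg N _)]
    exact Lsm_gau N x t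

private theorem Lsm_smo (N : ℝ) {g : ℂ → ℝ} (h0 : ∀ x, 0 ≤ g x) (hi : Integrable g) (x : ℂ) :
    ENNReal.ofReal (smo N g x) = ∫⁻ t, ENNReal.ofReal (gau N (x - t)) * ENNReal.ofReal (g t) := by
  unfold smo
  rw [ofReal_integral_eq_lintegral_ofReal (Lsm_int N hi x)
    (Eventually.of_forall fun t => mul_nonneg (gau_nonneg N _) (h0 t))]
  refine lintegral_congr fun t => ?_
  rw [ENNReal.ofReal_mul (gau_nonneg N _)]

private theorem Lsm_cont (N : ℝ) (z u : ℂ) : Continuous (fun φ : ℝ => gau N (u + rot φ * z)) := by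
  unfold gau rot
  fun_prop

private theorem Lsm_cir (N : ℝ) (z u : ℂ) : ENNReal.ofReal (cir N z u) =
    ENNReal.ofReal (2 * π)⁻¹ * ∫⁻ φ in Ioc (-π) π, ENNReal.ofReal (gau N (u + rot φ * z)) := by
  have hpi := Real.pi_pos
  unfold cir
  rw [ENNReal.ofReal_mul (by positivity), intervalIntegral.integral_of_le (by linarith)]
  congr 1
  rw [ofReal_integral_eq_lintegral_ofReal]
  · have h := (Lsm_cont N z u).intervalIntegrable (μ := volume) (-π) π
    rw [intervalIntegrable_iff_integrableOn_Ioc_of_le (by linarith)] at h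
    exact h
  · exact Eventually.of_forall fun φ => gau_nonneg N _

private theorem Lsm_FF {N : ℝ} (hN : 0 < N) (u : ℂ) : ENNReal.ofReal (FF N u) =
    ENNReal.ofReal (2 * π)⁻¹ * ∫⁻ φ in Ioc (-π) π, ∑' p : ℤ × ℤ, ENNReal.ofReal (gau N (u + rot φ * lat p)) := by
  unfold FF
  rw [ENNReal.ofReal_tsum_of_nonneg (fun p => cir_nonneg N _ _) (summable_cir hN u)]
  rw [lintegral_tsum fun p => ((Lsm_cont N (lat p) u).measurable.ennreal_ofReal).aemeasurable, ← ENNReal.tsum_mul_left]
  exact tsum_congr fun p => Lsm_cir N (lat p) u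

theorem ss_smo {N : ℝ} (hN : 0 < N) {g : ℂ → ℝ} (hg : Measurable g) (h0 : ∀ x, 0 ≤ g x)
    (hi : Integrable g) (y : ℂ) :
    SS (fun x => ENNReal.ofReal (smo N g x)) y =
      ∫⁻ x, ENNReal.ofReal (g x) * ENNReal.ofReal (FF N (y - x)) := by
  have hm : ∀ p : ℤ × ℤ, Measurable (fun q : ℝ × ℂ => ENNReal.ofReal (gau N (y + rot q.1 * lat p - q.2)) * ENNReal.ofReal (g q.2)) := by
    intro p
    have h1 : Continuous (fun q : ℝ × ℂ => gau N (y + rot q.1 * lat p - q.2)) := by
      unfold gau rot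
      fun_prop
    exact h1.measurable.ennreal_ofReal.mul (hg.comp measurable_snd).ennreal_ofReal
  have h1 : SS (fun x => ENNReal.ofReal (smo N g x)) y =
      ENNReal.ofReal (2 * π)⁻¹ * ∫⁻ θ in Ioc (-π) π, ∫⁻ t, ∑' p : ℤ × ℤ,
        ENNReal.ofReal (gau N (y + rot θ * lat p - t)) * ENNReal.ofReal (g t) := by
    unfold SS
    congr 1
    refine lintegral_congr fun θ => ?_
    have hm' : ∀ p : ℤ × ℤ, AEMeasurable (fun t : ℂ => ENNReal.ofReal (gau N (y + rot θ * lat p - t)) * ENNReal.ofReal (g t)) volume :=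
      fun p => ((hm p).comp (measurable_const.prodMk measurable_id)).aemeasurable
    rw [lintegral_tsum hm']
    exact tsum_congr fun p => Lsm_smo N h0 hi _
  rw [h1, lintegral_lintegral_swap]
  · rw [← lintegral_const_mul']
    · refine lintegral_congr fun t => ?_
      rw [Lsm_FF hN (y - t)]
      have h2 : ∀ θ : ℝ, ∑' p : ℤ × ℤ, ENNReal.ofReal (gau N (y + rot θ * lat p - t)) * ENNReal.ofReal (g t) =
          ENNReal.ofReal (g t) * ∑' p : ℤ × ℤ, ENNReal.ofReal (gau N (y - t + rot θ * lat p)) := by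
        intro θ
        rw [ENNReal.tsum_mul_right, mul_comm]
        congr 1
        refine tsum_congr fun p => ?_
        congr 2
        ring
      simp only [h2]
      rw [lintegral_const_mul' _ _ ENNReal.ofReal_ne_top]
      ring
    · exact ENNReal.ofReal_ne_top
  · exact (Measurable.ennreal_tsum hm).aemeasurable

end Pool.MPb9430d.Mom
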