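import Pool.Agent.Lib.MP_b9430d_co.Mom.Sym

/-!
# TileF: a tile satisfies `SS (ind E) = n` almost everywhere

`hT θ` gives for every `θ` and a.e. `x`: `∑' p, ind E (x + rot θ * lat p) = n` (`tsum_ind_of_encard`). The set of the pairs
`(x, θ)` where this fails is measurable (both sides measurable in `(x, θ)`), so by Fubini for a.e. `x` it holds for a.e.
`θ` (`Measure.ae_ae_of_ae_prod`, `measure_prod_null`-type lemmas; see how `sum_zero` in Frac/SumZ does it). Then the mean
over `Ioc (-π) π` is `n` (`(2π)⁻¹ * n * 2π`). `sp_tile` from `ss_eq`; `ss_le` by monotonicity.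
-/

set_option autoImplicit false

open MeasureTheory Complex Set Real Filter Topology
open scoped ENNReal

namespace Pool.MPb9430d.Mom

open Pool.MPb9430d Pool.MPb9430d.Rough Pool.MPb9430d.Frac

theorem ss_tile {E : Set ℂ} {n : ℕ} (hE : MeasurableSet E) (hT : Tile E n) :
    ∀ᵐ x : ℂ, SS (ind E) x = n := by
  have hm : Measurable (fun w : ℂ × ℝ => ∑' p : ℤ × ℤ, ind E (w.1 + rot w.2 * lat p)) := by
    refine Measurable.tsum fun p => (measurable_ind hE).comp ?_
    exact measurable_fst.add ((measurable_rot.comp measurable_snd).mul_const _)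
  have hm2 : Measurable (fun w : ℝ × ℂ => ∑' p : ℤ × ℤ, ind E (w.2 + rot w.1 * lat p)) :=
    hm.comp measurable_swap
  have hs : MeasurableSet {w : ℝ × ℂ | ∑' p : ℤ × ℤ, ind E (w.2 + rot w.1 * lat p) = n} :=
    measurableSet_eq_fun hm2 measurable_const
  have hs1 : MeasurableSet {w : ℂ × ℝ | ∑' p : ℤ × ℤ, ind E (w.1 + rot w.2 * lat p) = n} :=
    measurableSet_eq_fun hm measurable_const
  have h1 : ∀ᵐ w ∂((volume.restrict (Ioc (-π) π)).prod (volume : Measure ℂ)),
      w ∈ {w : ℝ × ℂ | ∑' p : ℤ × ℤ, ind E (w.2 + rot w.1 * lat p) = n} := by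
    rw [Measure.ae_prod_mem_iff_ae_ae_mem hs]
    refine Filter.Eventually.of_forall fun θ => ?_
    filter_upwards [hT θ] with y hy
    exact tsum_ind_of_encard hy
  have h2 : ∀ᵐ w ∂((volume : Measure ℂ).prod (volume.restrict (Ioc (-π) π))),
      w ∈ {w : ℂ × ℝ | ∑' p : ℤ × ℤ, ind E (w.1 + rot w.2 * lat p) = n} := by
    rw [← Measure.prod_swap] at h1
    exact ae_of_ae_map measurable_swap.aemeasurable h1
  rw [Measure.ae_prod_mem_iff_ae_ae_mem hs1] at h2
  filter_upwards [h2] with x hx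
  unfold SS
  have h3 : ∫⁻ θ in Ioc (-π) π, ∑' p : ℤ × ℤ, ind E (x + rot θ * lat p) = ∫⁻ _θ in Ioc (-π) π, (n : ℝ≥0∞) := by
    refine lintegral_congr_ae ?_
    filter_upwards [hx] with θ hθ
    exact hθ
  rw [h3, lintegral_const, Measure.restrict_apply_univ, Real.volume_Ioc, mul_comm (n : ℝ≥0∞), ← mul_assoc,
    ← ENNReal.ofReal_mul (by positivity)]
  have h4 : (2 * π)⁻¹ * (π - -π) = 1 := by
    have : π ≠ 0 := Real.pi_ne_zero
    field_simp
    ring
  rw [h4, ENNReal.ofReal_one, one_mul]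

theorem sp_tile {E : Set ℂ} {n : ℕ} (hE : MeasurableSet E) (hT : Tile E n) :
    ∀ᵐ x : ℂ, ind E x + SP (ind E) x = n := by
  filter_upwards [ss_tile hE hT] with x hx
  rw [← ss_eq (measurable_ind hE), hx]

theorem ss_le {E A : Set ℂ} {n : ℕ} (hE : MeasurableSet E) (hT : Tile E n) (hAE : A ⊆ E) :
    ∀ᵐ x : ℂ, SS (ind A) x ≤ n := by
  filter_upwards [ss_tile hE hT] with x hx
  rw [← hx]
  refine ss_mono (fun y => ?_) x
  by_cases h : y ∈ A
  · rw [ind_of_mem h, ind_of_mem (hAE h)]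
  · rw [ind_of_notMem h]
    exact bot_le

theorem sp_le {E A : Set ℂ} {n : ℕ} (hE : MeasurableSet E) (hT : Tile E n) (hAE : A ⊆ E) :
    ∀ᵐ x : ℂ, SP (ind A) x ≤ n := by
  filter_upwards [ss_le hE hT hAE] with x hx
  exact (sp_le_ss _ _).trans hx

end Pool.MPb9430d.Mom
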