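import Pool.Agent.Lib.MP_b9430d_co.Mom.Sym
import Pool.Agent.Lib.MP_b9430d_co.Mom.CirS
import Pool.Agent.Lib.MP_b9430d_co.Mom.CutS
import Pool.Agent.Lib.MP_b9430d_co.Mom.TileF
import Pool.Agent.Lib.MP_b9430d_co.Frac.LatS

/-!
# PhiU: the near part of the counting function

`U ⊆ closedBall 0 r`, `X ≥ r + ρ`. `phi_eq`: for `‖x‖ ≤ ρ` the terms of `SP (ind U) x` with `‖lat p‖ > X` vanish, and for `p ≠ 0`
`(2π)⁻¹ ∫⁻ θ in Ioc (-π) π, ind U (x + rot θ * lat p) = ofReal (cA ‖lat p‖ U x)` (write `lat p = ‖lat p‖ rot a`, `lintegral_shift`),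
`lintegral_tsum` and the finite sum over `near X` (`mem_near`). `phi_le`: for a.e. `x` everywhere in the plane `phi U X x ≤ n`
(the finite sum is `≤ SP (ind U) x ≤ n` by `sp_le`, `U ⊆ E`). `phi_smooth`: `cut_mul_smooth` for `φ = min (phi U X) n` (equal a.e. to
`phi U X`, `smo` does not see null sets), `(∑_{p ∈ near X} h_p)² ≤ #near ∑ h_p²`, `cA_smooth`, `#near X ≤ (2X+1)² ≤ 9X²`:
`∫ (phi - smo N phi)² ≤ (9X²)² 16 |U|/N`, so the total is `≤ 2 * 81 X⁴ * 16 |U|/N + 64 n² ρ²/N² ≤ (60 X² (√|U| + n + 1) ρ)²/N`.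
-/

set_option autoImplicit false

open MeasureTheory Complex Set Real Filter Topology
open scoped ENNReal

namespace Pool.MPb9430d.Mom

open Pool.MPb9430d Pool.MPb9430d.Rough Pool.MPb9430d.Frac

private theorem PhiU_chi (U : Set ℂ) (y : ℂ) : ENNReal.ofReal (chi U y) = ind U y := by
  unfold chi
  by_cases h : y ∈ U
  · rw [Set.indicator_of_mem h, ind_of_mem h, ENNReal.ofReal_one]
  · rw [Set.indicator_of_notMem h, ind_of_notMem h, ENNReal.ofReal_zero]

private theorem PhiU_chi0 (U : Set ℂ) (x : ℂ) : 0 ≤ chi U x := by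
  unfold chi
  exact Set.indicator_nonneg (fun _ _ => zero_le_one) x

private theorem PhiU_chi1 (U : Set ℂ) (x : ℂ) : chi U x ≤ 1 := by
  unfold chi
  exact Set.indicator_le_self' (fun _ _ => zero_le_one) x

private theorem PhiU_polar (z : ℂ) (θ : ℝ) : rot θ * z = ‖z‖ * rot (θ + arg z) := by
  have h : (‖z‖ : ℂ) * rot (arg z) = z := by
    unfold rot
    exact Complex.norm_mul_exp_arg_mul_I z
  calc rot θ * z = rot θ * ((‖z‖ : ℂ) * rot (arg z)) := by rw [h]
    _ = ‖z‖ * rot (θ + arg z) := by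
      rw [rot_add]
      ring

private theorem PhiU_cA0 (s : ℝ) (U : Set ℂ) (x : ℂ) : 0 ≤ cA s U x := by
  have hpi := Real.pi_pos
  unfold cA
  exact mul_nonneg (by positivity) (intervalIntegral.integral_nonneg (by linarith)
    fun _ _ => PhiU_chi0 _ _)

private theorem PhiU_key {U : Set ℂ} (hU : MeasurableSet U) (x z : ℂ) :
    ENNReal.ofReal (2 * π)⁻¹ * ∫⁻ θ in Ioc (-π) π, ind U (x + rot θ * z) =
      ENNReal.ofReal (cA ‖z‖ U x) := by
  have hpi := Real.pi_pos
  have h1 : ∫⁻ θ in Ioc (-π) π, ind U (x + rot θ * z) =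
      ∫⁻ θ in Ioc (-π) π, ind U (x + ‖z‖ * rot θ) := by
    rw [← lintegral_shift (fun θ => ind U (x + ‖z‖ * rot θ))
      (fun t => by rw [rot_periodic]) (arg z)]
    refine lintegral_congr fun θ => ?_
    rw [PhiU_polar]
  have hm : Measurable fun θ : ℝ => x + (‖z‖ : ℂ) * rot θ :=
    measurable_const.add (measurable_rot.const_mul _)
  have hi : Integrable (fun θ : ℝ => chi U (x + ‖z‖ * rot θ))
      (volume.restrict (Ioc (-π) π)) := by
    refine Measure.integrableOn_of_bounded (M := 1) measure_Ioc_lt_top.ne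
      ((measurable_const.indicator hU).comp hm).aestronglyMeasurable
      (Eventually.of_forall fun θ => ?_)
    rw [Real.norm_of_nonneg (PhiU_chi0 _ _)]
    exact PhiU_chi1 _ _
  unfold cA
  rw [intervalIntegral.integral_of_le (by linarith), ENNReal.ofReal_mul (by positivity),
    ofReal_integral_eq_lintegral_ofReal hi (Eventually.of_forall fun θ => PhiU_chi0 _ _), h1]
  congr 1
  exact lintegral_congr fun θ => (PhiU_chi _ _).symm

private theorem PhiU_meas {U : Set ℂ} (hU : MeasurableSet U) (x z : ℂ) :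
    Measurable fun θ : ℝ => ind U (x + rot θ * z) :=
  (measurable_ind hU).comp (measurable_const.add (measurable_rot.mul_const _))

theorem phi_eq {U : Set ℂ} (hU : MeasurableSet U) {r ρ X : ℝ} (hr : ∀ x ∈ U, ‖x‖ ≤ r)
    (hX : r + ρ ≤ X) {x : ℂ} (hx : ‖x‖ ≤ ρ) : SP (ind U) x = ENNReal.ofReal (phi U X x) := by
  have h1 : ∀ θ : ℝ, (∑' p : ℤ × ℤ, (if p = 0 then 0 else ind U (x + rot θ * lat p))) =
      ∑ p ∈ near X, ind U (x + rot θ * lat p) := by
    intro θ
    rw [tsum_eq_sum (s := near X)]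
    · refine Finset.sum_congr rfl fun p hp => ?_
      rw [if_neg (mem_near.1 hp).1]
    · intro p hp
      by_cases h0 : p = 0
      · rw [if_pos h0]
      · rw [if_neg h0]
        apply ind_of_notMem
        intro hmem
        have h2 := hr _ hmem
        apply hp
        rw [mem_near]
        refine ⟨h0, ?_⟩
        have h3 : ‖rot θ * lat p‖ = ‖lat p‖ := by rw [norm_mul, norm_rot, one_mul]
        have h4 : ‖rot θ * lat p‖ ≤ ‖x + rot θ * lat p‖ + ‖x‖ := by
          have := norm_sub_le (x + rot θ * lat p) x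
          rwa [add_sub_cancel_left] at this
        linarith
  unfold SP
  simp_rw [h1]
  rw [lintegral_finset_sum _ (fun p _ => PhiU_meas hU x _), Finset.mul_sum]
  unfold phi
  rw [ENNReal.ofReal_sum_of_nonneg (fun p _ => PhiU_cA0 _ _ _)]
  exact Finset.sum_congr rfl fun p _ => PhiU_key hU x (lat p)

theorem phi_facts {U : Set ℂ} (hU : MeasurableSet U) (hfin : volume U ≠ ∞) (X : ℝ) :
    Measurable (phi U X) ∧ ∀ x, 0 ≤ phi U X x := by
  constructor
  · unfold phi
    exact Finset.measurable_fun_sum _ fun p _ => (cA_facts hU hfin _).1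
  · intro x
    unfold phi
    exact Finset.sum_nonneg fun p _ => PhiU_cA0 _ _ _

theorem phi_le {E U : Set ℂ} {n : ℕ} (hE : MeasurableSet E) (hT : Tile E n)
    (hU : MeasurableSet U) (hUE : U ⊆ E) (hfin : volume U ≠ ∞) (X : ℝ) :
    ∀ᵐ x : ℂ, phi U X x ≤ n := by
  filter_upwards [sp_le hE hT hUE] with x hx
  have h1 : ENNReal.ofReal (phi U X x) ≤ SP (ind U) x := by
    unfold phi SP
    rw [ENNReal.ofReal_sum_of_nonneg (fun p _ => PhiU_cA0 _ _ _)]
    calc ∑ p ∈ near X, ENNReal.ofReal (cA ‖lat p‖ U x)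
        = ∑ p ∈ near X, ENNReal.ofReal (2 * π)⁻¹ *
            ∫⁻ θ in Ioc (-π) π, ind U (x + rot θ * lat p) :=
          Finset.sum_congr rfl fun p _ => (PhiU_key hU x _).symm
      _ = ENNReal.ofReal (2 * π)⁻¹ *
            ∫⁻ θ in Ioc (-π) π, ∑ p ∈ near X, ind U (x + rot θ * lat p) := by
          rw [lintegral_finset_sum _ (fun p _ => PhiU_meas hU x _), Finset.mul_sum]
      _ ≤ _ := by
          refine mul_le_mul_right (lintegral_mono fun θ => ?_) _
          calc ∑ p ∈ near X, ind U (x + rot θ * lat p)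
              = ∑ p ∈ near X, (if p = 0 then 0 else ind U (x + rot θ * lat p)) := by
                refine Finset.sum_congr rfl fun p hp => ?_
                rw [if_neg (mem_near.1 hp).1]
            _ ≤ _ := ENNReal.sum_le_tsum _
  have h2 := h1.trans hx
  exact ENNReal.ofReal_le_natCast.1 h2

private theorem PhiU_card {X : ℝ} (hX : 1 ≤ X) : ((near X).card : ℝ) ≤ 8 * X ^ 2 := by
  have h1 := sum_near hX
  have hX0 : 0 < X := by linarith
  have hs : 0 < √X := Real.sqrt_pos.mpr hX0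
  have h2 : ((near X).card : ℝ) * (1 / √X) ≤ ∑ p ∈ near X, 1 / √‖lat p‖ := by
    rw [← nsmul_eq_mul]
    refine Finset.card_nsmul_le_sum _ _ _ fun p hp => ?_
    have h3 := mem_near.1 hp
    have h4 : 0 < ‖lat p‖ := lt_of_lt_of_le one_pos (one_le_norm_lat h3.1)
    have h5 : √‖lat p‖ ≤ √X := Real.sqrt_le_sqrt h3.2
    have h6 : 0 < √‖lat p‖ := Real.sqrt_pos.mpr h4
    exact one_div_le_one_div_of_le h6 h5
  have h3 := h2.trans h1
  rw [mul_one_div, div_le_iff₀ hs] at h3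
  have h4 : 8 * (X * √X) * √X = 8 * X ^ 2 := by
    have : √X * √X = X := Real.mul_self_sqrt hX0.le
    calc 8 * (X * √X) * √X = 8 * X * (√X * √X) := by ring
      _ = 8 * X ^ 2 := by rw [this]; ring
  rwa [h4] at h3

private theorem PhiU_sm {U : Set ℂ} (hU : MeasurableSet U) (hfin : volume U ≠ ∞) {N : ℝ}
    (hN : 0 < N) (X : ℝ) (x : ℂ) :
    smo N (phi U X) x = ∑ p ∈ near X, smo N (cA ‖lat p‖ U) x := by
  unfold smo phi
  rw [← integral_finset_sum]
  · refine integral_congr_ae (Eventually.of_forall fun t => ?_)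
    simp only [Finset.mul_sum]
  · intro p _
    obtain ⟨hm, h0, h1, -⟩ := cA_facts hU hfin ‖lat p‖
    refine Integrable.mul_bdd (c := 1) ((integrable_gau hN).comp_sub_left x)
      hm.aestronglyMeasurable (Eventually.of_forall fun t => ?_)
    rw [Real.norm_of_nonneg (h0 t)]
    exact h1 t

private theorem PhiU_int {U : Set ℂ} (hU : MeasurableSet U) (hfin : volume U ≠ ∞) {N : ℝ}
    (hN : 0 < N) (s : ℝ) : Integrable (fun x => (cA s U x - smo N (cA s U) x) ^ 2) := by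
  obtain ⟨hm, h0, h1, hi⟩ := cA_facts hU hfin s
  have hi2 := integrable_smo hN hi
  have hm2 := measurable_smo (N := N) hm
  have habs : ∀ x, |cA s U x| ≤ 1 := fun x => by
    rw [abs_of_nonneg (h0 x)]
    exact h1 x
  have e : (fun x => (cA s U x - smo N (cA s U) x) ^ 2) =
      fun x => (cA s U x - smo N (cA s U) x) * (cA s U x - smo N (cA s U) x) := by
    funext x
    ring
  rw [e]
  refine Integrable.mul_bdd (c := 2) (hi.sub hi2) (hm.sub hm2).aestronglyMeasurable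
    (Eventually.of_forall fun x => ?_)
  rw [Real.norm_eq_abs]
  have h3 := abs_smo_le hN hm habs x
  have h4 := habs x
  have h5 := abs_sub (cA s U x) (smo N (cA s U) x)
  linarith

theorem phi_smooth {E U : Set ℂ} {n : ℕ} (hE : MeasurableSet E) (hT : Tile E n)
    (hU : MeasurableSet U) (hUE : U ⊆ E) (hfin : volume U ≠ ∞) {ρ X N : ℝ} (hρ : 1 ≤ ρ)
    (hX : 1 ≤ X) (hN : 1 ≤ N) :
    ∫ x, (cut ρ x * min (phi U X x) n - smo N (fun y => cut ρ y * min (phi U X y) n) x) ^ 2 ≤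
      (60 * X ^ 2 * (√(volume.real U) + n + 1) * ρ) ^ 2 / N := by
  have hN0 : 0 < N := by linarith
  obtain ⟨hpm, hp0⟩ := phi_facts hU hfin X
  have hple := phi_le hE hT hU hUE hfin X
  have hn0 : (0 : ℝ) ≤ n := Nat.cast_nonneg n
  have hmm : Measurable (fun x => min (phi U X x) (n : ℝ)) := hpm.min measurable_const
  have hmain := cut_mul_smooth (ρ := ρ) (K := n) (N := N) hρ hn0 hN
    (φ := fun x => min (phi U X x) n) hmm (fun x => by
      rw [abs_of_nonneg (le_min (hp0 x) hn0)]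
      exact min_le_right _ _)
  have hae : (fun x => min (phi U X x) (n : ℝ)) =ᵐ[volume] phi U X := by
    filter_upwards [hple] with x hx
    exact min_eq_left hx
  have hsm : ∀ x, smo N (fun x => min (phi U X x) (n : ℝ)) x = smo N (phi U X) x := by
    intro x
    unfold smo
    refine integral_congr_ae ?_
    filter_upwards [hae] with t ht
    exact congrArg (fun z => gau N (x - t) * z) ht
  have h1 : ∫ x in Metric.closedBall 0 ρ, ((fun x => min (phi U X x) (n : ℝ)) x -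
      smo N (fun x => min (phi U X x) (n : ℝ)) x) ^ 2 =
      ∫ x in Metric.closedBall 0 ρ, (phi U X x - smo N (phi U X) x) ^ 2 := by
    refine integral_congr_ae (ae_restrict_of_ae ?_)
    filter_upwards [hae] with x hx
    rw [hsm x]
    exact congrArg (fun z => (z - smo N (phi U X) x) ^ 2) hx
  have h2 : ∫ x in Metric.closedBall 0 ρ, (phi U X x - smo N (phi U X) x) ^ 2 ≤
      ∫ x, ((near X).card : ℝ) * ∑ p ∈ near X, (cA ‖lat p‖ U x - smo N (cA ‖lat p‖ U) x) ^ 2 := by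
    have hi : Integrable (fun x => ((near X).card : ℝ) *
        ∑ p ∈ near X, (cA ‖lat p‖ U x - smo N (cA ‖lat p‖ U) x) ^ 2) :=
      (integrable_finset_sum _ fun p _ => PhiU_int hU hfin hN0 _).const_mul _
    have hpt : ∀ x, (phi U X x - smo N (phi U X) x) ^ 2 ≤ ((near X).card : ℝ) *
        ∑ p ∈ near X, (cA ‖lat p‖ U x - smo N (cA ‖lat p‖ U) x) ^ 2 := by
      intro x
      rw [PhiU_sm hU hfin hN0, show phi U X x = ∑ p ∈ near X, cA ‖lat p‖ U x from rfl,
        ← Finset.sum_sub_distrib]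
      exact sq_sum_le_card_mul_sum_sq
    calc ∫ x in Metric.closedBall 0 ρ, (phi U X x - smo N (phi U X) x) ^ 2
        ≤ ∫ x in Metric.closedBall 0 ρ, ((near X).card : ℝ) *
          ∑ p ∈ near X, (cA ‖lat p‖ U x - smo N (cA ‖lat p‖ U) x) ^ 2 :=
          integral_mono_of_nonneg (Eventually.of_forall fun x => sq_nonneg _) hi.integrableOn
            (Eventually.of_forall hpt)
      _ ≤ _ := setIntegral_le_integral hi (Eventually.of_forall fun x =>
          mul_nonneg (Nat.cast_nonneg _) (Finset.sum_nonneg fun _ _ => sq_nonneg _))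
  have h3 : ∫ x, ((near X).card : ℝ) *
      ∑ p ∈ near X, (cA ‖lat p‖ U x - smo N (cA ‖lat p‖ U) x) ^ 2 ≤
      ((near X).card : ℝ) * (((near X).card : ℝ) * (16 * volume.real U / N)) := by
    rw [integral_const_mul, integral_finset_sum _ fun p _ => PhiU_int hU hfin hN0 _]
    refine mul_le_mul_of_nonneg_left ?_ (Nat.cast_nonneg _)
    rw [← nsmul_eq_mul]
    refine Finset.sum_le_card_nsmul _ _ _ fun p hp => ?_
    exact cA_smooth hU hfin (one_le_norm_lat (mem_near.1 hp).1) hN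
  have hc := PhiU_card hX
  have hc0 : (0 : ℝ) ≤ (near X).card := Nat.cast_nonneg _
  set c : ℝ := ((near X).card : ℝ) with hcdef
  set V : ℝ := volume.real U with hVdef
  have hV0 : 0 ≤ V := measureReal_nonneg
  have hX0 : 0 < X := by linarith
  have h4 : c * (c * (16 * V / N)) ≤ (8 * X ^ 2) * ((8 * X ^ 2) * (16 * V / N)) := by
    have hq : 0 ≤ 16 * V / N := by positivity
    exact mul_le_mul hc (mul_le_mul_of_nonneg_right hc hq) (mul_nonneg hc0 hq) (by positivity)
  have h5 : ∫ x in Metric.closedBall 0 ρ, ((fun x => min (phi U X x) (n : ℝ)) x -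
      smo N (fun x => min (phi U X x) (n : ℝ)) x) ^ 2 ≤ 1024 * X ^ 4 * V / N := by
    rw [h1]
    refine (h2.trans (h3.trans h4)).trans (le_of_eq ?_)
    ring
  have h6 : 64 * (n : ℝ) ^ 2 * ρ ^ 2 / N ^ 2 ≤ 64 * (n : ℝ) ^ 2 * ρ ^ 2 / N := by
    refine div_le_div_of_nonneg_left (by positivity) hN0 ?_
    nlinarith
  refine hmain.trans ?_
  have h7 : 2 * (1024 * X ^ 4 * V / N) + 64 * (n : ℝ) ^ 2 * ρ ^ 2 / N =
      (2048 * X ^ 4 * V + 64 * (n : ℝ) ^ 2 * ρ ^ 2) / N := by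
    ring
  have h8 : 2048 * X ^ 4 * V + 64 * (n : ℝ) ^ 2 * ρ ^ 2 ≤
      (60 * X ^ 2 * (√V + n + 1) * ρ) ^ 2 := by
    have hs : √V ^ 2 = V := Real.sq_sqrt hV0
    have hs0 : 0 ≤ √V := Real.sqrt_nonneg V
    have hX4 : 1 ≤ X ^ 4 := one_le_pow₀ hX
    have hr2 : 1 ≤ ρ ^ 2 := one_le_pow₀ hρ
    have e1 : (60 * X ^ 2 * (√V + n + 1) * ρ) ^ 2 = 3600 * X ^ 4 * ρ ^ 2 * (√V + n + 1) ^ 2 := by
      ring
    have e2 : V + (n : ℝ) ^ 2 ≤ (√V + n + 1) ^ 2 := by
      nlinarith [mul_nonneg hs0 hn0]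
    have e3 : 3600 * X ^ 4 * ρ ^ 2 * (V + (n : ℝ) ^ 2) ≤
        3600 * X ^ 4 * ρ ^ 2 * (√V + n + 1) ^ 2 :=
      mul_le_mul_of_nonneg_left e2 (by positivity)
    have e4 : 2048 * X ^ 4 * V ≤ 3600 * X ^ 4 * ρ ^ 2 * V := by
      have : 2048 * X ^ 4 * V * 1 ≤ 3600 * X ^ 4 * V * ρ ^ 2 :=
        mul_le_mul (by nlinarith [mul_nonneg (pow_nonneg hX0.le 4) hV0]) hr2 zero_le_one
          (by positivity)
      linarith
    have e5 : 64 * (n : ℝ) ^ 2 * ρ ^ 2 ≤ 3600 * X ^ 4 * ρ ^ 2 * (n : ℝ) ^ 2 := by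
      have : 64 * ((n : ℝ) ^ 2 * ρ ^ 2) * 1 ≤ 3600 * ((n : ℝ) ^ 2 * ρ ^ 2) * X ^ 4 :=
        mul_le_mul (by nlinarith [mul_nonneg (sq_nonneg (n : ℝ)) (sq_nonneg ρ)]) hX4 zero_le_one
          (by positivity)
      linarith
    rw [e1]
    linarith
  calc 2 * (∫ x in Metric.closedBall 0 ρ, ((fun x => min (phi U X x) (n : ℝ)) x -
      smo N (fun x => min (phi U X x) (n : ℝ)) x) ^ 2) + 64 * (n : ℝ) ^ 2 * ρ ^ 2 / N ^ 2
      ≤ 2 * (1024 * X ^ 4 * V / N) + 64 * (n : ℝ) ^ 2 * ρ ^ 2 / N := by linarith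
    _ = (2048 * X ^ 4 * V + 64 * (n : ℝ) ^ 2 * ρ ^ 2) / N := h7
    _ ≤ _ := div_le_div_of_nonneg_right h8 hN0.le

end Pool.MPb9430d.Mom
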