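import Pool.Agent.Lib.MP_b9430d_co.Mom.LemG
import Pool.Agent.Lib.MP_b9430d_co.Mom.PhiU
import Pool.Agent.Lib.MP_b9430d_co.Mom.CutS
import Pool.Agent.Lib.MP_b9430d_co.Mom.TileF

/-!
# NearM: the near part of the proof

`g₁ = cut ρ` (`K = 1`, `Λ = 8ρ`, `cut_smooth`) and `g₂ = cut ρ * min (phi U X) n` (`K = n`, `Λ = 60 X² (√|U| + n + 1) ρ`, `phi_smooth`),
`X = R^(1/64) + ρ ≤ 2 R^(1/64)` for `R` large, `|U| ≤ |E| < ∞`, so `Λ ≤ C R^(1/32)`. `lem_g` for both; `|A| ≥ R^(-3)/2` gives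
`R^(-4) √|A| ≤ 2 R^(-5/2) |A|`, `R^(-10) ≤ 2 R^(-7) |A|`, and `R^(1/32 - 1/20) → 0`: for `R ≥ R₁(η)` both errors are `≤ η |A|`.
Translate: `∫⁻ ofReal (cut ρ x) * SS (ind A) x = ofReal (∫ cut ρ * sA A)` (`sA_facts`), and
`∫⁻ ofReal (cut ρ x) * SP (ind U) x * SS (ind A) x = ofReal (∫ g₂ * sA A)` (`phi_eq` on the disc with `r = R^(1/64)`, `phi_le`).
`U = E ∩ closedBall 0 (R^(1/64))` (closed ball instead of open ball, irrelevant).
-/

set_option autoImplicit false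

open MeasureTheory Complex Set Real Filter Topology
open scoped ENNReal

namespace Pool.MPb9430d.Mom

open Pool.MPb9430d Pool.MPb9430d.Rough Pool.MPb9430d.Frac

private theorem NearM_gint {K ρ : ℝ} {g : ℂ → ℝ} (hg : Measurable g) (h0 : ∀ x, 0 ≤ g x)
    (hK : ∀ x, g x ≤ K) (hs : ∀ x, ρ < ‖x‖ → g x = 0) : Integrable g := by
  have h1 : IntegrableOn g (Metric.closedBall 0 ρ) := by
    refine Measure.integrableOn_of_bounded (M := K) measure_closedBall_lt_top.ne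
      hg.aestronglyMeasurable (Eventually.of_forall fun x => ?_)
    rw [Real.norm_of_nonneg (h0 x)]
    exact hK x
  refine (integrableOn_iff_integrable_of_support_subset ?_).1 h1
  intro x hx
  rw [mem_closedBall_zero_iff]
  by_contra hcon
  exact hx (hs x (not_le.1 hcon))

private theorem NearM_conv {A : Set ℂ} {n : ℕ} (hA : MeasurableSet A)
    (hn : ∀ᵐ x : ℂ, SS (ind A) x ≤ n) {K ρ : ℝ} {g : ℂ → ℝ} (hg : Measurable g)
    (h0 : ∀ x, 0 ≤ g x) (hK : ∀ x, g x ≤ K) (hs : ∀ x, ρ < ‖x‖ → g x = 0) :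
    (∫⁻ x, ENNReal.ofReal (g x) = ENNReal.ofReal (∫ x, g x)) ∧
      ∫⁻ x, ENNReal.ofReal (g x) * SS (ind A) x = ENNReal.ofReal (∫ x, g x * sA A x) := by
  obtain ⟨h1, h2, h3, h4⟩ := sA_facts hA hn
  have hi := NearM_gint hg h0 hK hs
  refine ⟨(ofReal_integral_eq_lintegral_ofReal hi (Eventually.of_forall h0)).symm, ?_⟩
  have hi2 : Integrable (fun x => g x * sA A x) := by
    refine Integrable.mul_bdd (c := n) hi h1.aestronglyMeasurable ?_
    filter_upwards [h3] with x hx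
    rw [Real.norm_of_nonneg (h2 x)]
    exact hx
  rw [ofReal_integral_eq_lintegral_ofReal hi2
    (Eventually.of_forall fun x => mul_nonneg (h0 x) (h2 x))]
  refine lintegral_congr_ae ?_
  filter_upwards [h4] with x hx
  rw [ENNReal.ofReal_mul (h0 x), hx]

private theorem NearM_err {R a : ℝ} (hR : 1 ≤ R) (ha : R ^ (-3 : ℝ) / 2 ≤ a) :
    R ^ (-(1 / 20) : ℝ) * a + R ^ (-4 : ℝ) * √a + R ^ (-10 : ℝ) ≤
      5 * (R ^ (-(1 / 20) : ℝ) * a) := by
  have hR0 : 0 < R := by linarith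
  have hp3 : 0 < R ^ (-3 : ℝ) := Real.rpow_pos_of_pos hR0 _
  have hp32 : 0 < R ^ (-(3 / 2) : ℝ) := Real.rpow_pos_of_pos hR0 _
  have hp20 : 0 < R ^ (-(1 / 20) : ℝ) := Real.rpow_pos_of_pos hR0 _
  have ha0 : 0 < a := by linarith
  have hs : R ^ (-(3 / 2) : ℝ) / 2 ≤ √a := by
    refine Real.le_sqrt_of_sq_le ?_
    have h1 : (R ^ (-(3 / 2) : ℝ)) ^ 2 = R ^ (-3 : ℝ) := by
      rw [← Real.rpow_natCast (R ^ (-(3 / 2) : ℝ)) 2, ← Real.rpow_mul hR0.le]
      norm_num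
    rw [div_pow, h1]
    linarith
  have hs0 : 0 ≤ √a := Real.sqrt_nonneg a
  have hss : √a * √a = a := Real.mul_self_sqrt ha0.le
  have h1 : R ^ (-4 : ℝ) ≤ R ^ (-(1 / 20) : ℝ) * R ^ (-(3 / 2) : ℝ) := by
    rw [← Real.rpow_add hR0]
    exact Real.rpow_le_rpow_of_exponent_le hR (by norm_num)
  have h2 : R ^ (-10 : ℝ) ≤ R ^ (-(1 / 20) : ℝ) * R ^ (-3 : ℝ) := by
    rw [← Real.rpow_add hR0]
    exact Real.rpow_le_rpow_of_exponent_le hR (by norm_num)
  have h3 : R ^ (-4 : ℝ) * √a ≤ 2 * (R ^ (-(1 / 20) : ℝ) * a) := by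
    calc R ^ (-4 : ℝ) * √a ≤ (R ^ (-(1 / 20) : ℝ) * R ^ (-(3 / 2) : ℝ)) * √a :=
          mul_le_mul_of_nonneg_right h1 hs0
      _ ≤ (R ^ (-(1 / 20) : ℝ) * (2 * √a)) * √a := by
          refine mul_le_mul_of_nonneg_right (mul_le_mul_of_nonneg_left (by linarith) hp20.le) hs0
      _ = 2 * (R ^ (-(1 / 20) : ℝ) * (√a * √a)) := by ring
      _ = _ := by rw [hss]
  have h4 : R ^ (-10 : ℝ) ≤ 2 * (R ^ (-(1 / 20) : ℝ) * a) := by
    calc R ^ (-10 : ℝ) ≤ R ^ (-(1 / 20) : ℝ) * R ^ (-3 : ℝ) := h2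
      _ ≤ R ^ (-(1 / 20) : ℝ) * (2 * a) := mul_le_mul_of_nonneg_left (by linarith) hp20.le
      _ = _ := by ring
  linarith

theorem near_main {E : Set ℂ} {n : ℕ} (hE : MeasurableSet E) (hT : Tile E n) {ρ : ℝ}
    (hρ : 1 ≤ ρ) {η : ℝ} (hη : 0 < η) : ∃ R₁ : ℝ, 1 ≤ R₁ ∧ ∀ R : ℝ, R₁ ≤ R → ∀ A : Set ℂ,
    MeasurableSet A → A ⊆ E → (∀ y ∈ A, R ≤ ‖y‖) → R ^ (-3 : ℝ) / 2 ≤ volume.real A →
    (∫⁻ x, ENNReal.ofReal (cut ρ x)) * volume A ≤
      (∫⁻ x, ENNReal.ofReal (cut ρ x) * SS (ind A) x) + ENNReal.ofReal η * volume A ∧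
    (∫⁻ x, ENNReal.ofReal (cut ρ x) *
        SP (ind (E ∩ Metric.closedBall 0 (R ^ (1 / 64 : ℝ)))) x * SS (ind A) x) ≤
      (∫⁻ x, ENNReal.ofReal (cut ρ x) *
        SP (ind (E ∩ Metric.closedBall 0 (R ^ (1 / 64 : ℝ)))) x) * volume A +
        ENNReal.ofReal η * volume A := by
  have hEfin : volume E ≠ ∞ := (volume_lt_top hE hT).ne
  obtain ⟨C, R₁, hC, hR₁, hlem⟩ := lem_g n hρ
  have hρ0 : 0 < ρ := by linarith
  have hn0 : (0 : ℝ) ≤ n := Nat.cast_nonneg n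
  set V : ℝ := volume.real E with hVdef
  have hV0 : 0 ≤ V := measureReal_nonneg
  set B : ℝ := n + 60 * (1 + ρ) ^ 2 * (√V + n + 1) * ρ + 1 + 8 * ρ with hBdef
  have hB0 : 0 < B := by positivity
  have hlim := (tendsto_rpow_neg_atTop (show (0 : ℝ) < 3 / 160 by norm_num)).eventually
    (gt_mem_nhds (show 0 < η / (5 * C * B) by positivity))
  obtain ⟨R₂, hR₂⟩ := eventually_atTop.1 hlim
  refine ⟨max R₁ (max R₂ 1), le_max_of_le_left hR₁, fun R hR A hA hAE hAR ha => ?_⟩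
  have hRR₁ : R₁ ≤ R := (le_max_left _ _).trans hR
  have hRR₂ : R₂ ≤ R := ((le_max_left _ _).trans (le_max_right _ _)).trans hR
  have hR1 : 1 ≤ R := hR₁.trans hRR₁
  have hR0 : 0 < R := by linarith
  have hAfin : volume A ≠ ∞ := measure_ne_top_of_subset hAE hEfin
  have hss := ss_le hE hT hAE
  have hkey := hlem R hRR₁ A hA hAfin hss hAR
  set a : ℝ := volume.real A with hadef
  have ha0 : 0 < a := by
    have := Real.rpow_pos_of_pos hR0 (-3 : ℝ)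
    linarith
  have hvA : volume A = ENNReal.ofReal a := by
    rw [hadef, ofReal_measureReal hAfin]
  -- the error bound
  have herr : ∀ Q : ℝ, 0 ≤ Q → Q ≤ B * R ^ (1 / 32 : ℝ) →
      C * Q * (R ^ (-(1 / 20) : ℝ) * a + R ^ (-4 : ℝ) * √a + R ^ (-10 : ℝ)) ≤ η * a := by
    intro Q hQ0 hQ
    have h1 := NearM_err hR1 ha
    have h2 := (hR₂ R hRR₂).le
    have h3 : R ^ (1 / 32 : ℝ) * R ^ (-(1 / 20) : ℝ) = R ^ (-(3 / 160) : ℝ) := by
      rw [← Real.rpow_add hR0]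
      norm_num
    have h4 : 0 < R ^ (-(1 / 20) : ℝ) := Real.rpow_pos_of_pos hR0 _
    calc C * Q * (R ^ (-(1 / 20) : ℝ) * a + R ^ (-4 : ℝ) * √a + R ^ (-10 : ℝ))
        ≤ C * Q * (5 * (R ^ (-(1 / 20) : ℝ) * a)) :=
          mul_le_mul_of_nonneg_left h1 (mul_nonneg hC.le hQ0)
      _ = (5 * C * R ^ (-(1 / 20) : ℝ) * a) * Q := by ring
      _ ≤ (5 * C * R ^ (-(1 / 20) : ℝ) * a) * (B * R ^ (1 / 32 : ℝ)) :=
          mul_le_mul_of_nonneg_left hQ (by positivity)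
      _ = (5 * C * B) * (R ^ (1 / 32 : ℝ) * R ^ (-(1 / 20) : ℝ)) * a := by ring
      _ = (5 * C * B) * R ^ (-(3 / 160) : ℝ) * a := by rw [h3]
      _ ≤ (5 * C * B) * (η / (5 * C * B)) * a := by
          refine mul_le_mul_of_nonneg_right (mul_le_mul_of_nonneg_left h2 (by positivity)) ha0.le
      _ = η * a := by
          rw [mul_div_cancel₀ _ (by positivity)]
  have hR32 : 1 ≤ R ^ (1 / 32 : ℝ) := Real.one_le_rpow hR1 (by norm_num)
  have hcut0 : ∀ x, ρ < ‖x‖ → cut ρ x = 0 := fun x hx => cut_of_ge hx.le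
  constructor
  · -- the first function
    obtain ⟨e1, e2⟩ := NearM_conv (K := 1) (ρ := ρ) hA hss (continuous_cut ρ).measurable
      (cut_nonneg ρ) (cut_le_one ρ) hcut0
    have h1 := hkey 1 (8 * ρ) zero_le_one (by positivity) (cut ρ) (continuous_cut ρ).measurable
      (cut_nonneg ρ) (cut_le_one ρ) hcut0 (fun N hN => cut_smooth hρ hN)
    have h2 := herr (1 + 8 * ρ) (by positivity) (by
      have h3 : 1 + 8 * ρ ≤ B := by
        have : 0 ≤ 60 * (1 + ρ) ^ 2 * (√V + n + 1) * ρ := by positivity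
        rw [hBdef]
        linarith
      calc 1 + 8 * ρ ≤ B := h3
        _ = B * 1 := (mul_one B).symm
        _ ≤ B * R ^ (1 / 32 : ℝ) := mul_le_mul_of_nonneg_left hR32 hB0.le)
    have h3 := (abs_le.1 (h1.trans h2)).1
    have hs0 : 0 ≤ ∫ x, cut ρ x * sA A x :=
      integral_nonneg fun x => mul_nonneg (cut_nonneg ρ x) ENNReal.toReal_nonneg
    rw [e1, e2, hvA, ← ENNReal.ofReal_mul (integral_nonneg (cut_nonneg ρ)),
      ← ENNReal.ofReal_mul hη.le, ← ENNReal.ofReal_add hs0 (mul_nonneg hη.le ha0.le)]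
    refine ENNReal.ofReal_le_ofReal ?_
    linarith
  · -- the second function
    set U : Set ℂ := E ∩ Metric.closedBall 0 (R ^ (1 / 64 : ℝ)) with hUdef
    have hU : MeasurableSet U := hE.inter measurableSet_closedBall
    have hUE : U ⊆ E := Set.inter_subset_left
    have hUfin : volume U ≠ ∞ := measure_ne_top_of_subset hUE hEfin
    have hR64 : 1 ≤ R ^ (1 / 64 : ℝ) := Real.one_le_rpow hR1 (by norm_num)
    set X : ℝ := R ^ (1 / 64 : ℝ) + ρ with hXdef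
    have hX1 : 1 ≤ X := by linarith
    obtain ⟨hpm, hp0⟩ := phi_facts hU hUfin X
    have hple := phi_le hE hT hU hUE hUfin X
    set g : ℂ → ℝ := fun x => cut ρ x * min (phi U X x) n with hgdef
    have hgm : Measurable g := (continuous_cut ρ).measurable.mul (hpm.min measurable_const)
    have hg0 : ∀ x, 0 ≤ g x := fun x => mul_nonneg (cut_nonneg ρ x) (le_min (hp0 x) hn0)
    have hgn : ∀ x, g x ≤ n := fun x => by
      calc g x ≤ 1 * n := mul_le_mul (cut_le_one ρ x) (min_le_right _ _)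
            (le_min (hp0 x) hn0) zero_le_one
        _ = n := one_mul _
    have hgs : ∀ x, ρ < ‖x‖ → g x = 0 := fun x hx => by
      simp only [hgdef]
      rw [hcut0 x hx, zero_mul]
    obtain ⟨e1, e2⟩ := NearM_conv (K := n) (ρ := ρ) hA hss hgm hg0 hgn hgs
    set Λ : ℝ := 60 * X ^ 2 * (√(volume.real U) + n + 1) * ρ with hΛdef
    have hΛ0 : 0 ≤ Λ := by positivity
    have h1 := hkey n Λ hn0 hΛ0 g hgm hg0 hgn hgs
      (fun N hN => phi_smooth hE hT hU hUE hUfin hρ hX1 hN)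
    have hX2 : X ^ 2 ≤ (1 + ρ) ^ 2 * R ^ (1 / 32 : ℝ) := by
      have hx1 : X ≤ (1 + ρ) * R ^ (1 / 64 : ℝ) := by
        rw [hXdef]
        nlinarith
      have hx2 : (R ^ (1 / 64 : ℝ)) ^ 2 = R ^ (1 / 32 : ℝ) := by
        rw [← Real.rpow_natCast (R ^ (1 / 64 : ℝ)) 2, ← Real.rpow_mul hR0.le]
        norm_num
      calc X ^ 2 ≤ ((1 + ρ) * R ^ (1 / 64 : ℝ)) ^ 2 := pow_le_pow_left₀ (by linarith) hx1 2
        _ = _ := by rw [mul_pow, hx2]
    have hUV : √(volume.real U) ≤ √V := Real.sqrt_le_sqrt (measureReal_mono hUE hEfin)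
    have hΛ : Λ ≤ 60 * (1 + ρ) ^ 2 * (√V + n + 1) * ρ * R ^ (1 / 32 : ℝ) := by
      calc Λ = 60 * ρ * (X ^ 2 * (√(volume.real U) + n + 1)) := by
            rw [hΛdef]
            ring
        _ ≤ 60 * ρ * (((1 + ρ) ^ 2 * R ^ (1 / 32 : ℝ)) * (√V + n + 1)) := by
            refine mul_le_mul_of_nonneg_left ?_ (by positivity)
            exact mul_le_mul hX2 (by linarith) (by positivity) (by positivity)
        _ = _ := by ring
    have h2 := herr (n + Λ) (by positivity) (by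
      have h3 : (n : ℝ) ≤ n * R ^ (1 / 32 : ℝ) := by nlinarith
      have h4 : 0 ≤ (1 + 8 * ρ) * R ^ (1 / 32 : ℝ) := by positivity
      calc (n : ℝ) + Λ ≤ n * R ^ (1 / 32 : ℝ) +
            60 * (1 + ρ) ^ 2 * (√V + n + 1) * ρ * R ^ (1 / 32 : ℝ) +
            (1 + 8 * ρ) * R ^ (1 / 32 : ℝ) := by linarith
        _ = B * R ^ (1 / 32 : ℝ) := by
            rw [hBdef]
            ring)
    have h3 := (abs_le.1 (h1.trans h2)).2
    have hae : ∀ᵐ x : ℂ, ENNReal.ofReal (cut ρ x) * SP (ind U) x = ENNReal.ofReal (g x) := by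
      filter_upwards [hple] with x hx
      by_cases hxρ : ‖x‖ ≤ ρ
      · rw [phi_eq hU (r := R ^ (1 / 64 : ℝ)) (ρ := ρ) (X := X) (fun y hy => by
          simpa using hy.2) le_rfl hxρ, ← ENNReal.ofReal_mul (cut_nonneg ρ x)]
        simp only [hgdef]
        rw [min_eq_left hx]
      · rw [hcut0 x (not_le.1 hxρ), hgs x (not_le.1 hxρ)]
        simp
    have f1 : ∫⁻ x, ENNReal.ofReal (cut ρ x) * SP (ind U) x = ENNReal.ofReal (∫ x, g x) := by
      rw [← e1]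
      exact lintegral_congr_ae hae
    have f2 : ∫⁻ x, ENNReal.ofReal (cut ρ x) * SP (ind U) x * SS (ind A) x =
        ENNReal.ofReal (∫ x, g x * sA A x) := by
      rw [← e2]
      refine lintegral_congr_ae ?_
      filter_upwards [hae] with x hx
      rw [hx]
    have hg00 : 0 ≤ ∫ x, g x := integral_nonneg hg0
    rw [f1, f2, hvA, ← ENNReal.ofReal_mul hg00, ← ENNReal.ofReal_mul hη.le,
      ← ENNReal.ofReal_add (mul_nonneg hg00 ha0.le) (mul_nonneg hη.le ha0.le)]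
    refine ENNReal.ofReal_le_ofReal ?_
    linarith

end Pool.MPb9430d.Mom
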