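import Pool.Agent.Lib.MP_b9430d_co.Mom.PwG

/-!
# PwN: the kernel in the radial direction (P2)

`d = ‖y - w‖`, `D0 < 2ρ`. `‖y‖ ≤ ‖w‖` gives `Re(conj w (y - w)) = (‖y‖² - ‖w‖² - d²)/2 < 0`. By `adm_geo`: `δ = √(m' - b²) ≤ 3ρ`, `b = bb d v`,
`b > -ρ`, `b² = m' - δ² ≥ (‖w‖-ρ)² - 9ρ² ≥ (‖w‖ - 2ρ)²` and `b ≤ √m' ≤ ‖w‖ + ρ`, so `b > 0`, `|b - ‖w‖| ≤ 2ρ`, `v ∈ JJ ρ ‖w‖ d` (`mem_JJ`). For given
`v`: `m' ≥ b²` so `m' = ⌈b²⌉ + j` with `j ≥ 0`, `m' - b² = uu d v + j ≤ 9ρ²`, so `j ≤ 9ρ²`; `1/(d √(uu + j))`, and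
`∑_{j=1}^{⌊9ρ²⌋} 1/√j ≤ 2 √(9ρ²) = 6ρ`.
-/

set_option autoImplicit false

open MeasureTheory Complex Set Real Filter Topology
open scoped ENNReal

namespace Pool.MPb9430d.Mom

open Pool.MPb9430d Pool.MPb9430d.Rough Pool.MPb9430d.Frac

private theorem PwN_sum (K : ℕ) :
    ∑ j ∈ Finset.range K, 1 / √((j : ℝ) + 1) ≤ 2 * √(K : ℝ) := by
  induction K with
  | zero => simp
  | succ K ih =>
    rw [Finset.sum_range_succ]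
    push_cast
    have h1 : 0 < √((K : ℝ) + 1) := Real.sqrt_pos.2 (by positivity)
    have h2 : 0 ≤ √(K : ℝ) := Real.sqrt_nonneg _
    have h3 : √((K : ℝ) + 1) ^ 2 = K + 1 := Real.sq_sqrt (by positivity)
    have h4 : √(K : ℝ) ^ 2 = K := Real.sq_sqrt (by positivity)
    have h5 : 1 / √((K : ℝ) + 1) ≤ 2 * √((K : ℝ) + 1) - 2 * √(K : ℝ) := by
      rw [div_le_iff₀ h1]
      nlinarith [sq_nonneg (√((K : ℝ) + 1) - √(K : ℝ))]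
    linarith

private theorem PwN_inner {ρ u : ℝ} (hρ : 1 ≤ ρ) (hu : 0 ≤ u) :
    ∑ j ∈ Finset.range (⌊9 * ρ ^ 2⌋₊ + 1), 1 / √(u + (j : ℝ)) ≤ 1 / √u + 6 * ρ := by
  rw [Finset.sum_range_succ']
  have h1 : ∑ j ∈ Finset.range ⌊9 * ρ ^ 2⌋₊, 1 / √(u + ((j + 1 : ℕ) : ℝ)) ≤
      ∑ j ∈ Finset.range ⌊9 * ρ ^ 2⌋₊, 1 / √((j : ℝ) + 1) := by
    refine Finset.sum_le_sum fun j _ => ?_
    refine one_div_le_one_div_of_le (Real.sqrt_pos.2 (by positivity)) ?_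
    refine Real.sqrt_le_sqrt ?_
    push_cast
    linarith
  have h2 := PwN_sum ⌊9 * ρ ^ 2⌋₊
  have h3 : √((⌊9 * ρ ^ 2⌋₊ : ℕ) : ℝ) ≤ 3 * ρ := by
    rw [Real.sqrt_le_left (by linarith)]
    refine (Nat.floor_le (by positivity)).trans (le_of_eq ?_)
    ring
  rw [Nat.cast_zero, add_zero]
  linarith

theorem pw_near {ρ : ℝ} (hρ : 1 ≤ ρ) {w y : ℂ} (hyw : y ≠ w) (hw : 1000 * ρ ≤ ‖w‖)
    (hy : ‖y‖ ≤ ‖w‖) (hD : |((starRingEnd ℂ) w * (y - w)).im| < 2 * ρ * ‖y - w‖) (M : ℕ) :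
    ∑ m ∈ Finset.Icc 1 M, ∑ m' ∈ Finset.Icc 1 M, ka ρ w m m' y ≤
      1 / ‖y - w‖ * ∑ v ∈ JJ ρ ‖w‖ ‖y - w‖, (1 / √(uu ‖y - w‖ v) + 6 * ρ) := by
  classical
  obtain ⟨d, hd⟩ : ∃ d : ℝ, d = ‖y - w‖ := ⟨_, rfl⟩
  obtain ⟨D0, hD0⟩ : ∃ D0 : ℝ, D0 = |((starRingEnd ℂ) w * (y - w)).im| / ‖y - w‖ := ⟨_, rfl⟩
  have hdpos : 0 < d := by
    rw [hd]
    exact norm_pos_iff.2 (sub_ne_zero.2 hyw)
  have hD2 : D0 < 2 * ρ := by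
    rw [hD0, div_lt_iff₀ (by rw [← hd]; exact hdpos)]
    exact hD
  have hρ0 : 0 < ρ := by linarith
  have hre : ((starRingEnd ℂ) w * (y - w)).re ≤ 0 := by
    have e1 : ‖y‖ ^ 2 = ‖w‖ ^ 2 + 2 * ((starRingEnd ℂ) w * (y - w)).re + ‖y - w‖ ^ 2 := by
      rw [Complex.sq_norm, Complex.sq_norm, Complex.sq_norm, Complex.normSq_apply,
        Complex.normSq_apply, Complex.normSq_apply]
      simp only [Complex.mul_re, Complex.conj_re, Complex.conj_im, Complex.sub_re, Complex.sub_im]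
      ring
    have e2 : ‖y‖ ^ 2 ≤ ‖w‖ ^ 2 := by gcongr
    nlinarith [sq_nonneg ‖y - w‖]
  obtain ⟨P, hP⟩ : ∃ P : Finset (ℕ × ℕ), P = (Finset.Icc 1 M ×ˢ Finset.Icc 1 M).filter
      (fun p : ℕ × ℕ => Adm ρ w y p.1 p.2) := ⟨_, rfl⟩
  have hPm : ∀ p ∈ P, Adm ρ w y p.1 p.2 := by
    intro p hp
    rw [hP, Finset.mem_filter] at hp
    exact hp.2
  have hsum : ∑ m ∈ Finset.Icc 1 M, ∑ m' ∈ Finset.Icc 1 M, ka ρ w m m' y =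
      ∑ p ∈ P, kw d p.1 p.2 := by
    rw [← Finset.sum_product', hP, Finset.sum_filter]
    refine Finset.sum_congr rfl fun p _ => ?_
    unfold ka
    by_cases h : Adm ρ w y p.1 p.2
    · rw [indicator_of_mem (show y ∈ {y : ℂ | Adm ρ w y p.1 p.2} from h), if_pos h, hd]
    · rw [indicator_of_notMem (show y ∉ {y : ℂ | Adm ρ w y p.1 p.2} from h), if_neg h]
  obtain ⟨F, hF⟩ : ∃ F : (Σ _ : ℤ, ℕ) → ℝ, F = fun q =>
      1 / d * (1 / √(uu d q.1 + (q.2 : ℝ))) := ⟨_, rfl⟩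
  obtain ⟨φ, hφ⟩ : ∃ φ : ℕ × ℕ → (Σ _ : ℤ, ℕ), φ = fun p =>
      ⟨(p.2 : ℤ) - p.1, ((p.2 : ℤ) - ⌈bb d ((p.2 : ℤ) - p.1) ^ 2⌉).toNat⟩ := ⟨_, rfl⟩
  have hgeo : ∀ p ∈ P, ⌈bb d ((p.2 : ℤ) - p.1) ^ 2⌉ ≤ (p.2 : ℤ) ∧
      (p.2 : ℝ) - bb d ((p.2 : ℤ) - p.1) ^ 2 ≤ 9 * ρ ^ 2 ∧
      |bb d ((p.2 : ℤ) - p.1) - ‖w‖| ≤ 2 * ρ := by
    intro p hp
    obtain ⟨h1, h2, h3, h4⟩ := adm_geo hyw (hPm p hp)
    rw [← hD0, ← hd] at h2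
    rw [← hd] at h1 h3
    rw [abs_le] at h2 h3 h4
    have hs := Real.sq_sqrt h1
    have hs0 := Real.sqrt_nonneg ((p.2 : ℝ) - bb d ((p.2 : ℤ) - p.1) ^ 2)
    have h5 : √((p.2 : ℝ) - bb d ((p.2 : ℤ) - p.1) ^ 2) ≤ 3 * ρ := by linarith [h2.2]
    have h6 : (p.2 : ℝ) - bb d ((p.2 : ℤ) - p.1) ^ 2 ≤ 9 * ρ ^ 2 := by
      rw [← hs]
      nlinarith
    have hq := Real.sq_sqrt (Nat.cast_nonneg (α := ℝ) p.2)
    have hq0 := Real.sqrt_nonneg (p.2 : ℝ)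
    have h7 : ((starRingEnd ℂ) w * (y - w)).re / d ≤ 0 :=
      div_nonpos_of_nonpos_of_nonneg hre hdpos.le
    have h8 : -ρ ≤ bb d ((p.2 : ℤ) - p.1) := by linarith [h3.1]
    have h9 : (‖w‖ - 2 * ρ) ^ 2 ≤ bb d ((p.2 : ℤ) - p.1) ^ 2 := by
      have h10 : (‖w‖ - ρ) ^ 2 ≤ √(p.2 : ℝ) ^ 2 := by
        have : 0 ≤ ‖w‖ - ρ := by linarith
        gcongr
        linarith [h4.1]
      nlinarith
    have h11 : ‖w‖ - 2 * ρ ≤ bb d ((p.2 : ℤ) - p.1) := by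
      have h12 := sq_le_sq.1 h9
      rw [abs_of_nonneg (by linarith)] at h12
      rcases le_total 0 (bb d ((p.2 : ℤ) - p.1)) with h13 | h13
      · rwa [abs_of_nonneg h13] at h12
      · rw [abs_of_nonpos h13] at h12
        linarith
    have h14 : bb d ((p.2 : ℤ) - p.1) ≤ √(p.2 : ℝ) := by
      refine Real.le_sqrt_of_sq_le ?_
      linarith
    refine ⟨?_, h6, ?_⟩
    · rw [Int.ceil_le, Int.cast_natCast]
      linarith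
    · rw [abs_le]
      constructor
      · linarith
      · linarith [h4.2]
  have hφF : ∀ p ∈ P, kw d p.1 p.2 = F (φ p) := by
    intro p hp
    obtain ⟨h1, h2, h3⟩ := hgeo p hp
    rw [hF, hφ]
    simp only
    unfold kw uu
    have e : ((((p.2 : ℤ) - ⌈bb d ((p.2 : ℤ) - p.1) ^ 2⌉).toNat : ℕ) : ℝ) =
        (p.2 : ℝ) - (⌈bb d ((p.2 : ℤ) - p.1) ^ 2⌉ : ℝ) := by
      have e1 : ((((p.2 : ℤ) - ⌈bb d ((p.2 : ℤ) - p.1) ^ 2⌉).toNat : ℤ) : ℝ) =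
          (((p.2 : ℤ) - ⌈bb d ((p.2 : ℤ) - p.1) ^ 2⌉ : ℤ) : ℝ) := by
        rw [Int.toNat_of_nonneg (by linarith)]
      rw [Int.cast_natCast] at e1
      rw [e1]
      push_cast
      ring
    rw [e, one_div_mul_one_div]
    congr 3
    ring
  have hinj : Set.InjOn φ (P : Set (ℕ × ℕ)) := by
    intro p hp q hq hpq
    obtain ⟨h1, -, -⟩ := hgeo p (Finset.mem_coe.1 hp)
    obtain ⟨h2, -, -⟩ := hgeo q (Finset.mem_coe.1 hq)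
    rw [hφ] at hpq
    simp only [Sigma.mk.injEq, heq_eq_eq] at hpq
    obtain ⟨e1, e2⟩ := hpq
    rw [e1] at e2 h1
    have e3 : (p.2 : ℤ) = q.2 := by
      have e4 : ((((p.2 : ℤ) - ⌈bb d ((q.2 : ℤ) - q.1) ^ 2⌉).toNat : ℕ) : ℤ) =
          ((((q.2 : ℤ) - ⌈bb d ((q.2 : ℤ) - q.1) ^ 2⌉).toNat : ℕ) : ℤ) := by rw [e2]
      rw [Int.toNat_of_nonneg (by linarith), Int.toNat_of_nonneg (by linarith)] at e4
      linarith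
    have e5 : (p.1 : ℤ) = q.1 := by linarith
    exact Prod.ext (by exact_mod_cast e5) (by exact_mod_cast e3)
  have hFnn : ∀ q, 0 ≤ F q := by
    intro q
    rw [hF]
    simp only
    positivity
  rw [hsum, ← hd]
  calc ∑ p ∈ P, kw d p.1 p.2 = ∑ p ∈ P, F (φ p) := Finset.sum_congr rfl hφF
    _ = ∑ q ∈ P.image φ, F q := by rw [Finset.sum_image hinj]
    _ ≤ ∑ q ∈ (JJ ρ ‖w‖ d).sigma (fun _ => Finset.range (⌊9 * ρ ^ 2⌋₊ + 1)), F q := by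
        refine Finset.sum_le_sum_of_subset_of_nonneg ?_ (fun q _ _ => hFnn q)
        intro q hq
        rw [Finset.mem_image] at hq
        obtain ⟨p, hp, rfl⟩ := hq
        obtain ⟨h1, h2, h3⟩ := hgeo p hp
        rw [hφ, Finset.mem_sigma]
        refine ⟨(mem_JJ hdpos).2 h3, ?_⟩
        simp only
        rw [Finset.mem_range, Nat.lt_succ_iff, Nat.le_floor_iff (by positivity)]
        have e1 : ((((p.2 : ℤ) - ⌈bb d ((p.2 : ℤ) - p.1) ^ 2⌉).toNat : ℤ) : ℝ) =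
            (((p.2 : ℤ) - ⌈bb d ((p.2 : ℤ) - p.1) ^ 2⌉ : ℤ) : ℝ) := by
          rw [Int.toNat_of_nonneg (by linarith)]
        rw [Int.cast_natCast] at e1
        rw [e1]
        push_cast
        linarith [Int.le_ceil (bb d ((p.2 : ℤ) - p.1) ^ 2)]
    _ = ∑ v ∈ JJ ρ ‖w‖ d, ∑ j ∈ Finset.range (⌊9 * ρ ^ 2⌋₊ + 1), F ⟨v, j⟩ := by
        rw [Finset.sum_sigma]
    _ ≤ ∑ v ∈ JJ ρ ‖w‖ d, 1 / d * (1 / √(uu d v) + 6 * ρ) := by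
        refine Finset.sum_le_sum fun v _ => ?_
        rw [hF]
        simp only
        rw [← Finset.mul_sum]
        gcongr
        exact PwN_inner hρ (uu_nonneg d v)
    _ = 1 / d * ∑ v ∈ JJ ρ ‖w‖ d, (1 / √(uu d v) + 6 * ρ) := by rw [Finset.mul_sum]

end Pool.MPb9430d.Mom
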