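import Pool.Agent.Lib.MP_b9430d_co.Mom.CntV

/-!
# SumV: the regular part of the sum over `v`

For `v` with `1/d < uu d v < 1` choose `i` with `2^(-(i+1)) < uu ≤ 2^(-i)`, then `2^i < d`, so `i ≤ log d/log 2`, and `1/√uu ≤ 2^((i+1)/2)`. By `cnt_v` with
`κ = 2^(-i) ≥ 1/d`: the `v` of level `i` contribute `≤ 2^((i+1)/2) C d √(2^(-i) log (2+d)) = √2 C d √(log(2+d))`. Number of levels `≤ 2 log(2+d) + 1`,
and `√(log(2+d)) ≤ 2 log(2+d)`... total `≤ C' d log(2+d)²`.
-/

set_option autoImplicit false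

open MeasureTheory Complex Set Real Filter Topology
open scoped ENNReal

namespace Pool.MPb9430d.Mom

open Pool.MPb9430d Pool.MPb9430d.Rough Pool.MPb9430d.Frac

private theorem SumV_level {d u : ℝ} (hd : 1 ≤ d) (hu : 1 / d < u) (hu1 : u ≤ 1) :
    ∃ i ∈ Finset.range (⌊Real.log d / Real.log 2⌋₊ + 1), u ≤ (1 / 2) ^ i ∧ 1 / √u ≤ √(2 ^ (i + 1)) := by
  have hd0 : 0 < d := by linarith
  have h1 : 0 < u := lt_trans (by positivity) hu
  obtain ⟨i, hi1, hi2⟩ := exists_nat_pow_near_of_lt_one h1 hu1 (y := (1 / 2 : ℝ)) (by norm_num) (by norm_num)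
  refine ⟨i, ?_, hi2, ?_⟩
  · rw [Finset.mem_range, Nat.lt_succ_iff, Nat.le_floor_iff (by
      have := Real.log_nonneg hd
      have := Real.log_pos one_lt_two
      positivity)]
    have h2 : (2 : ℝ) ^ i ≤ d := by
      have h3 : 1 / d < (1 / 2) ^ i := hu.trans_le hi2
      rw [one_div_pow, div_lt_div_iff₀ hd0 (by positivity)] at h3
      linarith
    have h4 := Real.log_le_log (by positivity) h2
    rw [Real.log_pow] at h4
    rw [le_div_iff₀ (Real.log_pos one_lt_two)]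
    exact h4
  · have h3 : 0 < √u := Real.sqrt_pos.mpr h1
    have h4 : 1 / √u = √(1 / u) := by
      rw [Real.sqrt_div zero_le_one, Real.sqrt_one]
    rw [h4]
    refine Real.sqrt_le_sqrt ?_
    rw [div_le_iff₀ h1]
    have h6 : (2 : ℝ) ^ (i + 1) * (1 / 2) ^ (i + 1) = 1 := by
      rw [← mul_pow]
      norm_num
    calc (1 : ℝ) = 2 ^ (i + 1) * (1 / 2) ^ (i + 1) := h6.symm
      _ ≤ 2 ^ (i + 1) * u := mul_le_mul_of_nonneg_left hi1.le (by positivity)

theorem sum_v {ρ : ℝ} (hρ : 1 ≤ ρ) : ∃ C : ℝ, 0 < C ∧ ∀ r d : ℝ, 1 ≤ d →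
    1 / d * ∑ v ∈ (JJ ρ r d).filter (fun v => 1 / d < uu d v), 1 / √(uu d v) ≤
      C * Real.log (2 + d) ^ 2 := by
  classical
  obtain ⟨C, hC, h⟩ := cnt_v hρ
  refine ⟨6 * C, by linarith, fun r d hd => ?_⟩
  have hd0 : 0 < d := by linarith
  set L : ℝ := Real.log (2 + d) with hL
  set M : ℕ := ⌊Real.log d / Real.log 2⌋₊ + 1 with hM
  set F : Finset ℤ := (JJ ρ r d).filter (fun v => 1 / d < uu d v) with hF
  have hL1 : 1 ≤ L := by
    rw [hL, Real.le_log_iff_exp_le (by linarith)]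
    have := Real.exp_one_lt_d9
    linarith
  have hlog2 : (1 : ℝ) / 2 < Real.log 2 := by
    have := Real.log_two_gt_d9
    linarith
  have hMle : (M : ℝ) ≤ 3 * L := by
    rw [hM]
    push_cast
    have h1 : Real.log d / Real.log 2 ≤ 2 * L := by
      rw [div_le_iff₀ (by linarith)]
      have h2 : Real.log d ≤ L := Real.log_le_log hd0 (by linarith)
      have h3 : 0 ≤ Real.log d := Real.log_nonneg hd
      nlinarith
    have h4 : (⌊Real.log d / Real.log 2⌋₊ : ℝ) ≤ Real.log d / Real.log 2 :=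
      Nat.floor_le (by
        have := Real.log_nonneg hd
        positivity)
    linarith
  have h1 : ∀ v ∈ F, 1 / √(uu d v) ≤
      ∑ i ∈ Finset.range M, if uu d v ≤ (1 / 2) ^ i then √(2 ^ (i + 1)) else 0 := by
    intro v hv
    rw [hF, Finset.mem_filter] at hv
    obtain ⟨i, hi, hi1, hi2⟩ := SumV_level hd hv.2 (uu_lt_one d v).le
    refine hi2.trans ?_
    have h2 := Finset.single_le_sum (f := fun i : ℕ => if uu d v ≤ (1 / 2) ^ i then √(2 ^ (i + 1)) else 0)
      (fun j _ => by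
        show (0 : ℝ) ≤ if uu d v ≤ (1 / 2) ^ j then √(2 ^ (j + 1)) else 0
        split_ifs
        · exact Real.sqrt_nonneg _
        · exact le_rfl) hi
    rw [if_pos hi1] at h2
    exact h2
  have h2 : ∑ v ∈ F, 1 / √(uu d v) ≤ ∑ i ∈ Finset.range M, C * d * √(2 * L) := by
    refine (Finset.sum_le_sum h1).trans ?_
    rw [Finset.sum_comm]
    refine Finset.sum_le_sum fun i hi => ?_
    rw [← Finset.sum_filter, Finset.sum_const, nsmul_eq_mul]
    have hi1 : 1 / d ≤ (1 / 2 : ℝ) ^ i := by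
      rw [Finset.mem_range, hM, Nat.lt_succ_iff, Nat.le_floor_iff (by
        have := Real.log_nonneg hd
        positivity), le_div_iff₀ (by linarith), ← Real.log_pow] at hi
      have h3 : (2 : ℝ) ^ i ≤ d := (Real.log_le_log_iff (by positivity) hd0).1 hi
      rw [one_div_pow]
      exact one_div_le_one_div_of_le (by positivity) h3
    have h4 : ((F.filter fun v => uu d v ≤ (1 / 2) ^ i).card : ℝ) ≤ C * d * √((1 / 2) ^ i * L) := by
      refine le_trans ?_ (h r d ((1 / 2) ^ i) hd hi1 (pow_le_one₀ (by norm_num) (by norm_num)))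
      have h5 : F.filter (fun v => uu d v ≤ (1 / 2) ^ i) ⊆ (JJ ρ r d).filter fun v => uu d v ≤ (1 / 2) ^ i := by
        intro v hv
        rw [Finset.mem_filter, hF, Finset.mem_filter] at hv
        rw [Finset.mem_filter]
        exact ⟨hv.1.1, hv.2⟩
      exact_mod_cast Finset.card_le_card h5
    calc ((F.filter fun v => uu d v ≤ (1 / 2) ^ i).card : ℝ) * √(2 ^ (i + 1))
        ≤ C * d * √((1 / 2) ^ i * L) * √(2 ^ (i + 1)) :=
          mul_le_mul_of_nonneg_right h4 (Real.sqrt_nonneg _)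
      _ = C * d * √(2 * L) := by
        rw [mul_assoc, ← Real.sqrt_mul (by positivity)]
        congr 2
        have h6 : (1 / 2 : ℝ) ^ i * 2 ^ i = 1 := by
          rw [← mul_pow]
          norm_num
        calc (1 / 2 : ℝ) ^ i * L * 2 ^ (i + 1) = ((1 / 2) ^ i * 2 ^ i) * (2 * L) := by ring
          _ = 2 * L := by rw [h6, one_mul]
  rw [Finset.sum_const, Finset.card_range, nsmul_eq_mul] at h2
  have h3 : √(2 * L) ≤ 2 * L := by
    rw [Real.sqrt_le_left (by linarith)]
    nlinarith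
  have h4 : 0 ≤ (M : ℝ) := Nat.cast_nonneg M
  calc 1 / d * ∑ v ∈ F, 1 / √(uu d v) ≤ 1 / d * ((M : ℝ) * (C * d * √(2 * L))) :=
        mul_le_mul_of_nonneg_left h2 (by positivity)
    _ = C * ((M : ℝ) * √(2 * L)) := by
        field_simp
    _ ≤ C * (3 * L * (2 * L)) := by
        have h5 := mul_le_mul hMle h3 (Real.sqrt_nonneg _) (by linarith)
        exact mul_le_mul_of_nonneg_left h5 hC.le
    _ = 6 * C * L ^ 2 := by ring

end Pool.MPb9430d.Mom
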