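import Pool.Agent.Lib.MP_b9430d_co.Mom.PwF
import Pool.Agent.Lib.MP_b9430d_co.Mom.PwN
import Pool.Agent.Lib.MP_b9430d_co.Mom.SumV
import Pool.Agent.Lib.MP_b9430d_co.Mom.CntV

/-!
# PwT: the pointwise bound of the kernel

`d = ‖y - w‖ ≤ 2‖w‖`. If `2ρd ≤ |Im|`: `pw_far`. Otherwise `y ∈ NR ρ w` (`Re(conj w (y-w)) = (‖y‖²-‖w‖²-d²)/2 < 0`) and `pw_near`: the sum is
`(1/d) ∑_{v ∈ JJ} (1/√uu + 6ρ)`; `(1/d) 6ρ #JJ ≤ 6ρ(8ρ + 1/d)`. The `v` with `uu ≤ 1/d` belong to `Th` because `400ρ ≤ |d - bb d v|`: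
`‖y‖² = (d - b0)² + D0²`, `b0 = -Re(..)/d`, `b0² + D0² = ‖w‖²`, `0 < b0 ≤ ‖w‖`, `b0 ≥ ‖w‖ - 1`, so `|d - b0| ≥ √(10⁶ρ² - 4ρ²) ≥ 900ρ`, `|bb d v - b0| ≤ 2ρ + 1`.
The `v` with `uu > 1/d`: none if `d < 1` (`uu_lt_one`), else `sum_v`, `log(2+d) ≤ log(2+2‖w‖) ≤ 2 log(2+‖w‖)`.
-/

set_option autoImplicit false

open MeasureTheory Complex Set Real Filter Topology
open scoped ENNReal

namespace Pool.MPb9430d.Mom

open Pool.MPb9430d Pool.MPb9430d.Rough Pool.MPb9430d.Frac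

private theorem pwT_Th_nonneg {ρ r d : ℝ} (hd : 0 ≤ d) : 0 ≤ Th ρ r d := by
  unfold Th
  exact mul_nonneg (by positivity) (Finset.sum_nonneg (fun v _ => by positivity))

private theorem pwT_re (w y : ℂ) : ((starRingEnd ℂ) w * (y - w)).re =
    (‖y‖ ^ 2 - ‖w‖ ^ 2 - ‖y - w‖ ^ 2) / 2 := by
  rw [Complex.sq_norm, Complex.sq_norm, Complex.sq_norm, Complex.normSq_apply,
    Complex.normSq_apply, Complex.normSq_apply]
  simp only [Complex.mul_re, Complex.conj_re, Complex.conj_im, Complex.sub_re, Complex.sub_im]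
  ring

private theorem pwT_sq (w y : ℂ) : ((starRingEnd ℂ) w * (y - w)).re ^ 2 +
    ((starRingEnd ℂ) w * (y - w)).im ^ 2 = ‖w‖ ^ 2 * ‖y - w‖ ^ 2 := by
  rw [Complex.sq_norm, Complex.sq_norm, Complex.normSq_apply, Complex.normSq_apply]
  simp only [Complex.mul_re, Complex.mul_im, Complex.conj_re, Complex.conj_im, Complex.sub_re,
    Complex.sub_im]
  ring

private theorem pwT_real {ρ W Y d R I b : ℝ} (hρ : 1 ≤ ρ) (hd : 0 < d) (hY : 1000 * ρ ≤ Y)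
    (hYW : Y ≤ W) (hR : R = (Y ^ 2 - W ^ 2 - d ^ 2) / 2) (hN : R ^ 2 + I ^ 2 = W ^ 2 * d ^ 2)
    (hI : |I| < 2 * ρ * d) (hb : |b - W| ≤ 2 * ρ) : 400 * ρ ≤ |d - b| := by
  obtain ⟨b0, hb0⟩ : ∃ b0 : ℝ, R = -(b0 * d) := ⟨-R / d, by field_simp⟩
  obtain ⟨D, hD⟩ : ∃ D : ℝ, I = D * d := ⟨I / d, by field_simp⟩
  have hd2 : 0 < d ^ 2 := by positivity
  have h1 : b0 ^ 2 + D ^ 2 = W ^ 2 := by
    rw [hb0, hD] at hN
    have : (b0 ^ 2 + D ^ 2) * d ^ 2 = W ^ 2 * d ^ 2 := by linarith [hN]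
    exact mul_right_cancel₀ hd2.ne' this
  have h2 : (d - b0) ^ 2 + D ^ 2 = Y ^ 2 := by
    rw [hb0] at hR
    nlinarith [hR, h1]
  have hD2 : D ^ 2 < (2 * ρ) ^ 2 := by
    rw [hD, abs_mul, abs_of_pos hd] at hI
    have h3 : |D| < 2 * ρ := lt_of_mul_lt_mul_right hI hd.le
    exact sq_lt_sq' (by linarith [(abs_lt.1 h3).1]) (abs_lt.1 h3).2
  have hb0p : 0 < b0 := by
    have h4 : b0 * d = (W ^ 2 + d ^ 2 - Y ^ 2) / 2 := by linarith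
    have h5 : 0 < b0 * d := by
      rw [h4]
      nlinarith
    exact (mul_pos_iff_of_pos_right hd).1 h5
  have hW0 : 0 < W := by linarith
  have hbW : b0 ≤ W := by
    by_contra hcon
    push Not at hcon
    nlinarith [sq_nonneg D]
  have hbW2 : W - b0 ≤ ρ := by
    by_contra hcon
    push Not at hcon
    have h6 : (W - b0) * (W + b0) = D ^ 2 := by linarith [h1]
    nlinarith
  have h7 : 999 * ρ ≤ |d - b0| := by
    by_contra hcon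
    push Not at hcon
    have h8 : (d - b0) ^ 2 < (999 * ρ) ^ 2 :=
      sq_lt_sq' (by linarith [(abs_lt.1 hcon).1]) (abs_lt.1 hcon).2
    nlinarith
  have h9 : |d - b0| ≤ |d - b| + |b - W| + |W - b0| := by
    have e1 : d - b0 = (d - b) + (b - W) + (W - b0) := by ring
    rw [e1]
    exact (abs_add_le _ _).trans (add_le_add (abs_add_le _ _) le_rfl)
  have h10 : |W - b0| ≤ ρ := by
    rw [abs_of_nonneg (by linarith)]
    exact hbW2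
  linarith

theorem pw_all {ρ : ℝ} (hρ : 1 ≤ ρ) : ∃ C : ℝ, 0 < C ∧ ∀ w y : ℂ, y ≠ w → 1000 * ρ ≤ ‖y‖ →
    ‖y‖ ≤ ‖w‖ → ∀ M : ℕ, ∑ m ∈ Finset.Icc 1 M, ∑ m' ∈ Finset.Icc 1 M, ka ρ w m m' y ≤
      C * (1 / ‖y - w‖ + Real.log (2 + ‖w‖) ^ 2) +
        (NR ρ w).indicator (fun y => C * Th ρ ‖w‖ ‖y - w‖) y := by
  obtain ⟨C, hC, hsum⟩ := sum_v hρ
  refine ⟨88 * ρ ^ 2 + 6 * ρ + 4 * C + 1, by positivity, ?_⟩
  intro w y hyw hy hYW M
  have hd : 0 < ‖y - w‖ := norm_pos_iff.2 (sub_ne_zero.2 hyw)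
  have hw : 1000 * ρ ≤ ‖w‖ := hy.trans hYW
  have hL1 : 1 ≤ Real.log (2 + ‖w‖) := by
    rw [Real.le_log_iff_exp_le (by positivity)]
    linarith [Real.exp_one_lt_d9]
  have hL2 : 1 ≤ Real.log (2 + ‖w‖) ^ 2 := one_le_pow₀ hL1
  have hinv : 0 < 1 / ‖y - w‖ := by positivity
  rcases le_or_gt (2 * ρ * ‖y - w‖) |((starRingEnd ℂ) w * (y - w)).im| with hD | hD
  · refine (pw_far hρ hyw hD M).trans ?_
    have h0 : 0 ≤ (NR ρ w).indicator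
        (fun y => (88 * ρ ^ 2 + 6 * ρ + 4 * C + 1) * Th ρ ‖w‖ ‖y - w‖) y :=
      Set.indicator_nonneg (fun y _ => mul_nonneg (by positivity) (pwT_Th_nonneg (norm_nonneg _))) y
    have h1 : 40 * ρ ^ 2 * (1 + 1 / ‖y - w‖) ≤ (88 * ρ ^ 2 + 6 * ρ + 4 * C + 1) *
        (1 / ‖y - w‖ + Real.log (2 + ‖w‖) ^ 2) := by
      refine mul_le_mul ?_ (by linarith) (by positivity) (by positivity)
      nlinarith [sq_nonneg ρ]
    linarith
  · have hRe := pwT_re w y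
    have hReneg : ((starRingEnd ℂ) w * (y - w)).re < 0 := by
      rw [hRe]
      have := norm_nonneg y
      nlinarith
    have hNR : y ∈ NR ρ w := ⟨hD, hReneg⟩
    rw [Set.indicator_of_mem hNR]
    refine (pw_near hρ hyw hw hYW hD M).trans ?_
    rw [Finset.sum_add_distrib, Finset.sum_const, nsmul_eq_mul, mul_add]
    have hcard : 1 / ‖y - w‖ * (((JJ ρ ‖w‖ ‖y - w‖).card : ℝ) * (6 * ρ)) ≤
        48 * ρ ^ 2 + 6 * ρ * (1 / ‖y - w‖) := by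
      have h2 := card_JJ hρ hd ‖w‖
      calc 1 / ‖y - w‖ * (((JJ ρ ‖w‖ ‖y - w‖).card : ℝ) * (6 * ρ))
          ≤ 1 / ‖y - w‖ * ((8 * ρ * ‖y - w‖ + 1) * (6 * ρ)) := by gcongr
        _ = 48 * ρ ^ 2 + 6 * ρ * (1 / ‖y - w‖) := by
            field_simp
            ring
    have hsplit : ∑ v ∈ JJ ρ ‖w‖ ‖y - w‖, 1 / √(uu ‖y - w‖ v) =
        ∑ v ∈ (JJ ρ ‖w‖ ‖y - w‖).filter (fun v => uu ‖y - w‖ v ≤ 1 / ‖y - w‖ ∧
            400 * ρ ≤ |‖y - w‖ - bb ‖y - w‖ v|), 1 / √(uu ‖y - w‖ v) +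
        ∑ v ∈ (JJ ρ ‖w‖ ‖y - w‖).filter (fun v => 1 / ‖y - w‖ < uu ‖y - w‖ v),
          1 / √(uu ‖y - w‖ v) := by
      rw [← Finset.sum_filter_add_sum_filter_not (JJ ρ ‖w‖ ‖y - w‖)
        (fun v => uu ‖y - w‖ v ≤ 1 / ‖y - w‖)]
      congr 1
      · refine Finset.sum_congr (Finset.filter_congr (fun v hv => ?_)) (fun _ _ => rfl)
        refine ⟨fun h => ⟨h, ?_⟩, fun h => h.1⟩
        exact pwT_real hρ hd hy hYW hRe (pwT_sq w y) hD ((mem_JJ hd).1 hv)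
      · refine Finset.sum_congr (Finset.filter_congr (fun v _ => ?_)) (fun _ _ => rfl)
        exact not_le
    have hTh : 1 / ‖y - w‖ * ∑ v ∈ (JJ ρ ‖w‖ ‖y - w‖).filter (fun v => uu ‖y - w‖ v ≤
        1 / ‖y - w‖ ∧ 400 * ρ ≤ |‖y - w‖ - bb ‖y - w‖ v|), 1 / √(uu ‖y - w‖ v) =
        Th ρ ‖w‖ ‖y - w‖ := rfl
    have hbig : 1 / ‖y - w‖ * ∑ v ∈ (JJ ρ ‖w‖ ‖y - w‖).filter
        (fun v => 1 / ‖y - w‖ < uu ‖y - w‖ v), 1 / √(uu ‖y - w‖ v) ≤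
        4 * C * Real.log (2 + ‖w‖) ^ 2 := by
      rcases lt_or_ge ‖y - w‖ 1 with h1 | h1
      · have hempty : (JJ ρ ‖w‖ ‖y - w‖).filter (fun v => 1 / ‖y - w‖ < uu ‖y - w‖ v) = ∅ := by
          refine Finset.filter_eq_empty_iff.2 (fun v _ hcon => ?_)
          have h3 : 1 < 1 / ‖y - w‖ := by
            rw [lt_div_iff₀ hd]
            linarith
          linarith [uu_lt_one ‖y - w‖ v]
        rw [hempty, Finset.sum_empty, mul_zero]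
        positivity
      · refine (hsum ‖w‖ ‖y - w‖ h1).trans ?_
        have h4 : ‖y - w‖ ≤ 2 * ‖w‖ := by
          have := norm_sub_le y w
          linarith
        have h5 : Real.log (2 + ‖y - w‖) ≤ 2 * Real.log (2 + ‖w‖) := by
          have h6 : Real.log (2 + ‖y - w‖) ≤ Real.log ((2 + ‖w‖) ^ 2) := by
            apply Real.log_le_log (by positivity)
            nlinarith [norm_nonneg w]
          rwa [Real.log_pow, Nat.cast_ofNat] at h6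
        have h7 : 0 ≤ Real.log (2 + ‖y - w‖) := Real.log_nonneg (by linarith)
        calc C * Real.log (2 + ‖y - w‖) ^ 2 ≤ C * (2 * Real.log (2 + ‖w‖)) ^ 2 := by gcongr
          _ = 4 * C * Real.log (2 + ‖w‖) ^ 2 := by ring
    rw [hsplit, mul_add, hTh]
    have hTh0 : 0 ≤ Th ρ ‖w‖ ‖y - w‖ := pwT_Th_nonneg (norm_nonneg _)
    have k1 : 0 ≤ (88 * ρ ^ 2 + 6 * ρ + 4 * C) * Th ρ ‖w‖ ‖y - w‖ := by positivity
    have k2 : 0 ≤ (88 * ρ ^ 2 + 4 * C + 1) * (1 / ‖y - w‖) := by positivity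
    have k3 : 0 ≤ (40 * ρ ^ 2 + 6 * ρ + 1) * Real.log (2 + ‖w‖) ^ 2 := by positivity
    have k4 : 48 * ρ ^ 2 ≤ 48 * ρ ^ 2 * Real.log (2 + ‖w‖) ^ 2 :=
      le_mul_of_one_le_right (by positivity) hL2
    nlinarith [hcard, hbig, k1, k2, k3, k4]

end Pool.MPb9430d.Mom
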