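import Pool.Agent.Lib.MP_b9430d_co.Mom.ThL
import Pool.Agent.Lib.MP_b9430d_co.Mom.GeoI

/-!
# ThI: the integral of Th

`B ⊆ NR ρ w`, `‖y - w‖ ≤ 3‖w‖` on `B`, `b = |B| ≤ 1`, `r = ‖w‖`. `th_le`, so `∫⁻_B Th ≤ ∑_i T_i`, `T_i = ∫⁻_B ofReal √(2^(i+1)/d) NN_i(d)`.
(A) Cauchy-Schwarz (`ENNReal.lintegral_mul_le_Lp_mul_Lq` or the square form): `T_i ≤ √b (∫⁻_{NR ∩ d ≤ 3r} (2^(i+1)/d) NN_i²)^(1/2)`, `nr_int` with
`f d = 1[d ≤ 3r] (2^(i+1)/d) NN_i²`: `≤ (8ρ/r) 2^(i+1) ∫_{Ioc 0 3r} NN_i² ≤ 16 ρ C log r`. So `T_i ≤ C₁ √b √(log r)`.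
(B) `T_i ≤ (8ρ/r) ∫ √(2^(i+1)) √d NN_i ≤ C₂ 2^(-i/2) √r`. Let `I` be minimal with `2^I ≥ r/b` (`b > 0`; `b = 0` trivial): `∑_{i<I} ≤ I C₁ √b √(log r)`, `I ≤ 1 + 2 log(r/b)`;
`∑_{i ≥ I} ≤ 4 C₂ 2^(-I/2) √r ≤ 4 C₂ √b`. And `√b log(1/b) ≤ 6 b^(1/3)` (`log x ≤ 6 x^(1/6)`), `√b ≤ b^(1/3)`, `log r ≥ 1`: total `≤ C (log r)² b^(1/3)`.
-/

set_option autoImplicit false

open MeasureTheory Complex Set Real Filter Topology
open scoped ENNReal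

namespace Pool.MPb9430d.Mom

open Pool.MPb9430d Pool.MPb9430d.Rough Pool.MPb9430d.Frac

private lemma ThI_q : 0 ≤ √2 / 2 ∧ √2 / 2 ≤ (3 / 4 : ℝ) := by
  have h : √2 ≤ (3 / 2 : ℝ) := by
    rw [Real.sqrt_le_left (by norm_num)]
    norm_num
  have h0 := Real.sqrt_nonneg 2
  constructor <;> linarith

private lemma ThI_seq {T : ℕ → ℝ≥0∞} {a c : ℝ} (ha : 0 ≤ a) (hc : 0 ≤ c) (h1 : ∀ i, T i ≤ ENNReal.ofReal a)
    (h2 : ∀ i, T i ≤ ENNReal.ofReal (c * (√2 / 2) ^ i)) (I : ℕ) :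
    ∑' i, T i ≤ ENNReal.ofReal (I * a + 4 * c * (√2 / 2) ^ I) := by
  obtain ⟨hq0, hq1⟩ := ThI_q
  have hs : ∑' i, T i = ∑ i ∈ Finset.range I, T i + ∑' i, T (i + I) :=
    (ENNReal.summable.sum_add_tsum_nat_add' (f := T) (k := I)).symm
  rw [hs, ENNReal.ofReal_add (by positivity) (by positivity)]
  refine add_le_add ?_ ?_
  · calc ∑ i ∈ Finset.range I, T i ≤ ∑ i ∈ Finset.range I, ENNReal.ofReal a := Finset.sum_le_sum fun i _ => h1 i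
      _ = ENNReal.ofReal (I * a) := by
        rw [Finset.sum_const, Finset.card_range, nsmul_eq_mul, ENNReal.ofReal_mul (Nat.cast_nonneg _), ENNReal.ofReal_natCast]
  · have hsum : Summable fun i : ℕ => c * (√2 / 2) ^ (i + I) := by
      have h3 : (fun i : ℕ => c * (√2 / 2) ^ (i + I)) = fun i : ℕ => (c * (√2 / 2) ^ I) * (√2 / 2) ^ i := by
        funext i
        rw [pow_add]
        ring
      rw [h3]
      exact (summable_geometric_of_lt_one hq0 (by linarith)).mul_left _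
    calc ∑' i, T (i + I) ≤ ∑' i, ENNReal.ofReal (c * (√2 / 2) ^ (i + I)) := ENNReal.tsum_le_tsum fun i => h2 _
      _ = ENNReal.ofReal (∑' i, c * (√2 / 2) ^ (i + I)) := (ENNReal.ofReal_tsum_of_nonneg (fun i => by positivity) hsum).symm
      _ ≤ ENNReal.ofReal (4 * c * (√2 / 2) ^ I) := by
        refine ENNReal.ofReal_le_ofReal ?_
        have h3 : ∀ i : ℕ, c * (√2 / 2) ^ (i + I) = (c * (√2 / 2) ^ I) * (√2 / 2) ^ i := by
          intro i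
          rw [pow_add]
          ring
        rw [tsum_congr h3, tsum_mul_left, tsum_geometric_of_lt_one hq0 (by linarith)]
        have h4 : (1 - √2 / 2)⁻¹ ≤ 4 := by
          rw [inv_le_comm₀ (by linarith) (by norm_num)]
          linarith
        calc c * (√2 / 2) ^ I * (1 - √2 / 2)⁻¹ ≤ c * (√2 / 2) ^ I * 4 := mul_le_mul_of_nonneg_left h4 (by positivity)
          _ = _ := by ring

private lemma ThI_fin {r b c1 c2 : ℝ} (hr : 1000 ≤ r) (hb : 0 < b) (hb1 : b ≤ 1) (hc1 : 0 ≤ c1) (hc2 : 0 ≤ c2) :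
    ∃ I : ℕ, I * (c1 * √(Real.log r) * √b) + 4 * (c2 * √r) * (√2 / 2) ^ I ≤
      (15 * c1 + 4 * c2) * Real.log r ^ 2 * b ^ (1 / 3 : ℝ) := by
  obtain ⟨hq0, hq1⟩ := ThI_q
  have hr0 : 0 < r := by linarith
  have hL : 1 ≤ Real.log r := by
    rw [Real.le_log_iff_exp_le hr0]
    have := Real.exp_one_lt_d9
    linarith
  have hrb : 1 ≤ r / b := by
    rw [le_div_iff₀ hb]
    linarith
  have hlrb : 0 ≤ Real.log (r / b) := Real.log_nonneg hrb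
  refine ⟨⌈2 * Real.log (r / b)⌉₊, ?_⟩
  set I := ⌈2 * Real.log (r / b)⌉₊ with hI
  have hI1 : 2 * Real.log (r / b) ≤ I := Nat.le_ceil _
  have hI2 : (I : ℝ) ≤ 2 * Real.log (r / b) + 1 := (Nat.ceil_lt_add_one (by positivity)).le
  -- the geometric factor
  have hpow : r / b ≤ 2 ^ I := by
    have h1 : Real.log (r / b) ≤ I * Real.log 2 := by
      have := Real.log_two_gt_d9
      have h2 : (I : ℝ) * (1 / 2) ≤ I * Real.log 2 := mul_le_mul_of_nonneg_left (by linarith) (Nat.cast_nonneg _)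
      linarith
    rw [← Real.log_le_log_iff (by positivity) (by positivity), Real.log_pow]
    exact h1
  have hq2 : (√2 / 2) ^ I ≤ √(b / r) := by
    refine Real.le_sqrt_of_sq_le ?_
    have h1 : (√2 / 2) ^ 2 = (1 / 2 : ℝ) := by
      rw [div_pow, Real.sq_sqrt (by norm_num)]
      norm_num
    rw [← pow_mul, mul_comm, pow_mul, h1, one_div, inv_pow, ← one_div, div_le_div_iff₀ (by positivity) hr0]
    rw [div_le_iff₀ hb] at hpow
    linarith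
  have hq3 : √r * (√2 / 2) ^ I ≤ √b := by
    calc √r * (√2 / 2) ^ I ≤ √r * √(b / r) := mul_le_mul_of_nonneg_left hq2 (Real.sqrt_nonneg _)
      _ = √b := by
        rw [← Real.sqrt_mul hr0.le]
        congr 1
        field_simp
  -- powers of b
  have hb3 : √b ≤ b ^ (1 / 3 : ℝ) := by
    rw [Real.sqrt_eq_rpow]
    exact Real.rpow_le_rpow_of_exponent_ge hb hb1 (by norm_num)
  have hblog : √b * (-Real.log b) ≤ 6 * b ^ (1 / 3 : ℝ) := by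
    have h1 : Real.log b⁻¹ ≤ b⁻¹ ^ (1 / 6 : ℝ) / (1 / 6) := Real.log_le_rpow_div (by positivity) (by norm_num)
    rw [Real.log_inv] at h1
    calc √b * (-Real.log b) ≤ √b * (b⁻¹ ^ (1 / 6 : ℝ) / (1 / 6)) := mul_le_mul_of_nonneg_left h1 (Real.sqrt_nonneg _)
      _ = 6 * b ^ (1 / 3 : ℝ) := by
        rw [Real.inv_rpow hb.le, ← Real.rpow_neg hb.le, Real.sqrt_eq_rpow]
        have h2 : b ^ (1 / 3 : ℝ) = b ^ (1 / 2 : ℝ) * b ^ (-(1 / 6) : ℝ) := by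
          rw [← Real.rpow_add hb]
          norm_num
        rw [h2]
        ring
  have hsL : √(Real.log r) ≤ Real.log r := by
    rw [Real.sqrt_le_left (by linarith)]
    nlinarith
  have hlog : Real.log (r / b) = Real.log r - Real.log b := Real.log_div (by positivity) (by positivity)
  have hlb : 0 ≤ -Real.log b := by
    have := Real.log_nonpos hb.le hb1
    linarith
  set L := Real.log r
  set t := b ^ (1 / 3 : ℝ)
  have ht : 0 ≤ t := by positivity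
  have hsb := Real.sqrt_nonneg b
  have hsL0 := Real.sqrt_nonneg L
  have hA : I * (c1 * √L * √b) ≤ 15 * c1 * L ^ 2 * t := by
    have h1 : (I : ℝ) * √b ≤ 15 * L * t := by
      have h2 : (I : ℝ) * √b ≤ (2 * (L - Real.log b) + 1) * √b := by
        refine mul_le_mul_of_nonneg_right ?_ hsb
        rw [← hlog]
        exact hI2
      have h3 : (2 * (L - Real.log b) + 1) * √b = (2 * L + 1) * √b + 2 * (√b * (-Real.log b)) := by ring
      have h4 : (2 * L + 1) * √b ≤ (3 * L) * t := mul_le_mul (by linarith) hb3 hsb (by linarith)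
      have h5 : t ≤ L * t := by nlinarith
      rw [h3] at h2
      linarith
    calc I * (c1 * √L * √b) = (c1 * √L) * (I * √b) := by ring
      _ ≤ (c1 * L) * (15 * L * t) := mul_le_mul (mul_le_mul_of_nonneg_left hsL hc1) h1 (by positivity) (by positivity)
      _ = 15 * c1 * L ^ 2 * t := by ring
  have hB : 4 * (c2 * √r) * (√2 / 2) ^ I ≤ 4 * c2 * L ^ 2 * t := by
    calc 4 * (c2 * √r) * (√2 / 2) ^ I = 4 * c2 * (√r * (√2 / 2) ^ I) := by ring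
      _ ≤ 4 * c2 * √b := mul_le_mul_of_nonneg_left hq3 (by positivity)
      _ ≤ 4 * c2 * t := mul_le_mul_of_nonneg_left hb3 (by positivity)
      _ ≤ 4 * c2 * (L ^ 2 * t) := by
        refine mul_le_mul_of_nonneg_left ?_ (by positivity)
        have : 1 ≤ L ^ 2 := one_le_pow₀ hL
        nlinarith
      _ = _ := by ring
  calc _ ≤ 15 * c1 * L ^ 2 * t + 4 * c2 * L ^ 2 * t := add_le_add hA hB
    _ = _ := by ring

/-- one layer of the kernel -/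
private noncomputable def ThI_F (ρ r : ℝ) (i : ℕ) (d : ℝ) : ℝ≥0∞ :=
  (Ioc 0 (3 * r)).indicator (fun d => ENNReal.ofReal (√(2 ^ (i + 1) / d)) * ((NN ρ r i d : ℕ) : ℝ≥0∞)) d

private lemma ThI_meas (ρ r : ℝ) (i : ℕ) : Measurable (ThI_F ρ r i) := by
  have h1 : Measurable fun d : ℝ => ENNReal.ofReal (√(2 ^ (i + 1) / d)) := by fun_prop
  have h2 : Measurable fun d : ℝ => ((NN ρ r i d : ℕ) : ℝ≥0∞) :=
    (measurable_from_top : Measurable (Nat.cast : ℕ → ℝ≥0∞)).comp (nn_meas ρ r i)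
  exact (h1.mul h2).indicator measurableSet_Ioc

private lemma ThI_sq (i : ℕ) : √((2 : ℝ) ^ (i + 1)) = √2 * √2 ^ i := by
  rw [← pow_succ', Real.sqrt_eq_iff_mul_self_eq (by positivity) (by positivity), ← mul_pow, Real.mul_self_sqrt (by norm_num)]

private lemma ThI_A {ρ : ℝ} (hρ : 1 ≤ ρ) {C : ℝ} (hC : 0 < C)
    (h : ∀ r : ℝ, 1000 * ρ ≤ r → ∀ i : ℕ, ∫⁻ d in Ioc 0 (3 * r), ((NN ρ r i d : ℕ) : ℝ≥0∞) ^ 2 ≤
      ENNReal.ofReal (C * (1 / 2) ^ i * r * Real.log r)) {w : ℂ} (hw : 1000 * ρ ≤ ‖w‖) (i : ℕ) :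
    ∫⁻ y in NR ρ w, ThI_F ρ ‖w‖ i ‖y - w‖ ^ 2 ≤ ENNReal.ofReal (16 * ρ * C * Real.log ‖w‖) := by
  have hr0 : 0 < ‖w‖ := by linarith
  have hL : 0 ≤ Real.log ‖w‖ := Real.log_nonneg (by linarith)
  have hm : Measurable fun d : ℝ => ((NN ρ ‖w‖ i d : ℕ) : ℝ≥0∞) ^ 2 :=
    ((measurable_from_top : Measurable (Nat.cast : ℕ → ℝ≥0∞)).comp (nn_meas ρ ‖w‖ i)).pow_const 2
  have h1 := nr_int hρ hw (f := fun d => ThI_F ρ ‖w‖ i d ^ 2) ((ThI_meas ρ ‖w‖ i).pow_const 2)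
  refine h1.trans ?_
  have h2 : ∀ d : ℝ, ENNReal.ofReal d * ThI_F ρ ‖w‖ i d ^ 2 =
      (Ioc 0 (3 * ‖w‖)).indicator (fun d => ENNReal.ofReal (2 ^ (i + 1)) * ((NN ρ ‖w‖ i d : ℕ) : ℝ≥0∞) ^ 2) d := by
    intro d
    unfold ThI_F
    by_cases hd : d ∈ Ioc 0 (3 * ‖w‖)
    · rw [indicator_of_mem hd, indicator_of_mem hd, mul_pow, ← mul_assoc, ← ENNReal.ofReal_pow (Real.sqrt_nonneg _),
        ← ENNReal.ofReal_mul hd.1.le, Real.sq_sqrt (by have := hd.1; positivity), mul_div_cancel₀ _ hd.1.ne']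
    · rw [indicator_of_notMem hd, indicator_of_notMem hd]
      simp
  have h3 : ∫⁻ d in Ioi (0 : ℝ), ENNReal.ofReal d * ThI_F ρ ‖w‖ i d ^ 2 ≤
      ENNReal.ofReal (2 ^ (i + 1)) * ENNReal.ofReal (C * (1 / 2) ^ i * ‖w‖ * Real.log ‖w‖) := by
    calc ∫⁻ d in Ioi (0 : ℝ), ENNReal.ofReal d * ThI_F ρ ‖w‖ i d ^ 2
        ≤ ∫⁻ d, ENNReal.ofReal d * ThI_F ρ ‖w‖ i d ^ 2 := setLIntegral_le_lintegral _ _
      _ = ∫⁻ d, (Ioc 0 (3 * ‖w‖)).indicator (fun d => ENNReal.ofReal (2 ^ (i + 1)) * ((NN ρ ‖w‖ i d : ℕ) : ℝ≥0∞) ^ 2) d :=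
          lintegral_congr h2
      _ = ∫⁻ d in Ioc 0 (3 * ‖w‖), ENNReal.ofReal (2 ^ (i + 1)) * ((NN ρ ‖w‖ i d : ℕ) : ℝ≥0∞) ^ 2 :=
          lintegral_indicator measurableSet_Ioc _
      _ = ENNReal.ofReal (2 ^ (i + 1)) * ∫⁻ d in Ioc 0 (3 * ‖w‖), ((NN ρ ‖w‖ i d : ℕ) : ℝ≥0∞) ^ 2 :=
          lintegral_const_mul _ hm
      _ ≤ _ := by
          gcongr
          exact h ‖w‖ hw i
  calc ENNReal.ofReal (8 * ρ / ‖w‖) * ∫⁻ d in Ioi (0 : ℝ), ENNReal.ofReal d * ThI_F ρ ‖w‖ i d ^ 2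
      ≤ ENNReal.ofReal (8 * ρ / ‖w‖) * (ENNReal.ofReal (2 ^ (i + 1)) * ENNReal.ofReal (C * (1 / 2) ^ i * ‖w‖ * Real.log ‖w‖)) := by
        gcongr
    _ = ENNReal.ofReal (16 * ρ * C * Real.log ‖w‖) := by
        rw [← ENNReal.ofReal_mul (by positivity), ← ENNReal.ofReal_mul (by positivity)]
        congr 1
        have h4 : (2 : ℝ) ^ (i + 1) * (1 / 2) ^ i = 2 := by
          rw [pow_succ, mul_right_comm, ← mul_pow]
          norm_num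
        calc 8 * ρ / ‖w‖ * (2 ^ (i + 1) * (C * (1 / 2) ^ i * ‖w‖ * Real.log ‖w‖))
            = 8 * ρ * C * Real.log ‖w‖ * (2 ^ (i + 1) * (1 / 2) ^ i) * (‖w‖ / ‖w‖) := by ring
          _ = _ := by
            rw [h4, div_self hr0.ne']
            ring

private lemma ThI_B {ρ : ℝ} (hρ : 1 ≤ ρ) {C : ℝ} (hC : 0 < C)
    (h : ∀ r : ℝ, 1000 * ρ ≤ r → ∀ i : ℕ, ∫⁻ d in Ioc 0 (3 * r), ENNReal.ofReal (√d) * ((NN ρ r i d : ℕ) : ℝ≥0∞) ≤
      ENNReal.ofReal (C * (1 / 2) ^ i * r * √r)) {w : ℂ} (hw : 1000 * ρ ≤ ‖w‖) (i : ℕ) :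
    ∫⁻ y in NR ρ w, ThI_F ρ ‖w‖ i ‖y - w‖ ≤ ENNReal.ofReal (8 * √2 * ρ * C * √‖w‖ * (√2 / 2) ^ i) := by
  have hr0 : 0 < ‖w‖ := by linarith
  have hm : Measurable fun d : ℝ => ENNReal.ofReal (√d) * ((NN ρ ‖w‖ i d : ℕ) : ℝ≥0∞) := by
    have h1 : Measurable fun d : ℝ => ENNReal.ofReal (√d) := by fun_prop
    exact h1.mul ((measurable_from_top : Measurable (Nat.cast : ℕ → ℝ≥0∞)).comp (nn_meas ρ ‖w‖ i))
  have h1 := nr_int hρ hw (f := fun d => ThI_F ρ ‖w‖ i d) (ThI_meas ρ ‖w‖ i)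
  refine h1.trans ?_
  have h2 : ∀ d : ℝ, ENNReal.ofReal d * ThI_F ρ ‖w‖ i d =
      (Ioc 0 (3 * ‖w‖)).indicator (fun d => ENNReal.ofReal (√(2 ^ (i + 1))) * (ENNReal.ofReal (√d) * ((NN ρ ‖w‖ i d : ℕ) : ℝ≥0∞))) d := by
    intro d
    unfold ThI_F
    by_cases hd : d ∈ Ioc 0 (3 * ‖w‖)
    · have hd0 : 0 < d := hd.1
      rw [indicator_of_mem hd, indicator_of_mem hd, ← mul_assoc, ← mul_assoc, ← ENNReal.ofReal_mul hd0.le,
        ← ENNReal.ofReal_mul (Real.sqrt_nonneg _)]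
      congr 2
      rw [Real.sqrt_div' _ hd0.le]
      have h3 : √d ≠ 0 := (Real.sqrt_pos.2 hd0).ne'
      have h4 : √d * √d = d := Real.mul_self_sqrt hd0.le
      field_simp
      rw [sq, h4]
    · rw [indicator_of_notMem hd, indicator_of_notMem hd, mul_zero]
  have h3 : ∫⁻ d in Ioi (0 : ℝ), ENNReal.ofReal d * ThI_F ρ ‖w‖ i d ≤
      ENNReal.ofReal (√(2 ^ (i + 1))) * ENNReal.ofReal (C * (1 / 2) ^ i * ‖w‖ * √‖w‖) := by
    calc ∫⁻ d in Ioi (0 : ℝ), ENNReal.ofReal d * ThI_F ρ ‖w‖ i d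
        ≤ ∫⁻ d, ENNReal.ofReal d * ThI_F ρ ‖w‖ i d := setLIntegral_le_lintegral _ _
      _ = ∫⁻ d, (Ioc 0 (3 * ‖w‖)).indicator (fun d => ENNReal.ofReal (√(2 ^ (i + 1))) * (ENNReal.ofReal (√d) * ((NN ρ ‖w‖ i d : ℕ) : ℝ≥0∞))) d :=
          lintegral_congr h2
      _ = ∫⁻ d in Ioc 0 (3 * ‖w‖), ENNReal.ofReal (√(2 ^ (i + 1))) * (ENNReal.ofReal (√d) * ((NN ρ ‖w‖ i d : ℕ) : ℝ≥0∞)) :=
          lintegral_indicator measurableSet_Ioc _
      _ = ENNReal.ofReal (√(2 ^ (i + 1))) * ∫⁻ d in Ioc 0 (3 * ‖w‖), ENNReal.ofReal (√d) * ((NN ρ ‖w‖ i d : ℕ) : ℝ≥0∞) :=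
          lintegral_const_mul _ hm
      _ ≤ _ := by
          gcongr
          exact h ‖w‖ hw i
  calc ENNReal.ofReal (8 * ρ / ‖w‖) * ∫⁻ d in Ioi (0 : ℝ), ENNReal.ofReal d * ThI_F ρ ‖w‖ i d
      ≤ ENNReal.ofReal (8 * ρ / ‖w‖) * (ENNReal.ofReal (√(2 ^ (i + 1))) * ENNReal.ofReal (C * (1 / 2) ^ i * ‖w‖ * √‖w‖)) := by
        gcongr
    _ = ENNReal.ofReal (8 * √2 * ρ * C * √‖w‖ * (√2 / 2) ^ i) := by
        rw [← ENNReal.ofReal_mul (by positivity), ← ENNReal.ofReal_mul (by positivity)]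
        congr 1
        have h4 : √((2 : ℝ) ^ (i + 1)) * (1 / 2) ^ i = √2 * (√2 / 2) ^ i := by
          rw [ThI_sq, mul_assoc, ← mul_pow]
          congr 2
          ring
        calc 8 * ρ / ‖w‖ * (√(2 ^ (i + 1)) * (C * (1 / 2) ^ i * ‖w‖ * √‖w‖))
            = 8 * ρ * C * √‖w‖ * (√(2 ^ (i + 1)) * (1 / 2) ^ i) * (‖w‖ / ‖w‖) := by ring
          _ = _ := by
            rw [h4, div_self hr0.ne']
            ring

private lemma ThI_cs {B : Set ℂ} (hB : MeasurableSet B) (hfin : volume B ≠ ∞) {f : ℂ → ℝ≥0∞} (hf : Measurable f) {S : ℝ}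
    (hS : ∫⁻ y in B, f y ^ 2 ≤ ENNReal.ofReal S) (hS0 : 0 ≤ S) :
    ∫⁻ y in B, f y ≤ ENNReal.ofReal (√S * √(volume.real B)) := by
  have h1 := ENNReal.lintegral_mul_le_Lp_mul_Lq (volume.restrict B) Real.HolderConjugate.two_two
    (f := f) (g := fun _ => 1) hf.aemeasurable aemeasurable_const
  have h2 : ∫⁻ y in B, f y = ∫⁻ y in B, (f * (fun _ => 1 : ℂ → ℝ≥0∞)) y := by
    refine lintegral_congr fun y => ?_
    rw [Pi.mul_apply, mul_one]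
  rw [h2]
  refine h1.trans ?_
  have h3 : ∫⁻ y in B, f y ^ (2 : ℝ) ≤ ENNReal.ofReal S := by
    refine le_trans (le_of_eq ?_) hS
    refine lintegral_congr fun y => ?_
    rw [ENNReal.rpow_two]
  have h4 : ∫⁻ _ in B, (1 : ℝ≥0∞) ^ (2 : ℝ) = ENNReal.ofReal (volume.real B) := by
    rw [ENNReal.one_rpow, setLIntegral_one, Measure.real, ENNReal.ofReal_toReal hfin]
  rw [h4]
  calc (∫⁻ y in B, f y ^ (2 : ℝ)) ^ (1 / 2 : ℝ) * ENNReal.ofReal (volume.real B) ^ (1 / 2 : ℝ)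
      ≤ ENNReal.ofReal S ^ (1 / 2 : ℝ) * ENNReal.ofReal (volume.real B) ^ (1 / 2 : ℝ) := by
        gcongr
    _ = _ := by
        rw [ENNReal.ofReal_rpow_of_nonneg hS0 (by norm_num), ENNReal.ofReal_rpow_of_nonneg measureReal_nonneg (by norm_num),
          ← ENNReal.ofReal_mul (by positivity), Real.sqrt_eq_rpow, Real.sqrt_eq_rpow]

theorem th_int {ρ : ℝ} (hρ : 1 ≤ ρ) : ∃ C : ℝ, 0 < C ∧ ∀ w : ℂ, 1000 * ρ ≤ ‖w‖ → ∀ B : Set ℂ,
    MeasurableSet B → B ⊆ NR ρ w → (∀ y ∈ B, ‖y - w‖ ≤ 3 * ‖w‖) → volume B ≤ 1 →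
    ∫⁻ y in B, ENNReal.ofReal (Th ρ ‖w‖ ‖y - w‖) ≤
      ENNReal.ofReal (C * Real.log ‖w‖ ^ 2 * volume.real B ^ (1 / 3 : ℝ)) := by
  obtain ⟨C1, hC1, hsq⟩ := nn_sq hρ
  obtain ⟨C2, hC2, hfi⟩ := nn_first hρ
  refine ⟨15 * √(16 * ρ * C1) + 4 * (8 * √2 * ρ * C2), by positivity, ?_⟩
  intro w hw B hB hsub h3 hvol
  have hr0 : 0 < ‖w‖ := by linarith
  have hfin : volume B ≠ ∞ := ne_top_of_le_ne_top ENNReal.one_ne_top hvol
  rcases eq_or_ne (volume B) 0 with hz | hz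
  · rw [setLIntegral_measure_zero _ _ hz]
    exact zero_le
  have hb0 : 0 < volume.real B := ENNReal.toReal_pos hz hfin
  have hb1 : volume.real B ≤ 1 := by
    have := ENNReal.toReal_mono ENNReal.one_ne_top hvol
    simpa [Measure.real] using this
  have hmF : ∀ i, Measurable fun y : ℂ => ThI_F ρ ‖w‖ i ‖y - w‖ := fun i =>
    (ThI_meas ρ ‖w‖ i).comp (by fun_prop)
  have hT : ∫⁻ y in B, ENNReal.ofReal (Th ρ ‖w‖ ‖y - w‖) ≤ ∑' i, ∫⁻ y in B, ThI_F ρ ‖w‖ i ‖y - w‖ := by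
    rw [← lintegral_tsum fun i => (hmF i).aemeasurable]
    refine setLIntegral_mono' hB fun y hy => ?_
    have hd : 0 < ‖y - w‖ := by
      rw [norm_pos_iff, sub_ne_zero]
      rintro rfl
      have := (hsub hy).2
      simp at this
    refine (th_le hd).trans (ENNReal.tsum_le_tsum fun i => le_of_eq ?_)
    unfold ThI_F
    rw [indicator_of_mem (show ‖y - w‖ ∈ Ioc 0 (3 * ‖w‖) from ⟨hd, h3 y hy⟩)]
  obtain ⟨I, hI⟩ := ThI_fin (r := ‖w‖) (b := volume.real B) (c1 := √(16 * ρ * C1)) (c2 := 8 * √2 * ρ * C2)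
    (by linarith) hb0 hb1 (Real.sqrt_nonneg _) (by positivity)
  have hL : 0 ≤ Real.log ‖w‖ := Real.log_nonneg (by linarith)
  have hA : ∀ i, ∫⁻ y in B, ThI_F ρ ‖w‖ i ‖y - w‖ ≤
      ENNReal.ofReal (√(16 * ρ * C1) * √(Real.log ‖w‖) * √(volume.real B)) := by
    intro i
    have h5 := ThI_cs hB hfin (hmF i) (S := 16 * ρ * C1 * Real.log ‖w‖)
      ((lintegral_mono_set hsub).trans (ThI_A hρ hC1 hsq hw i)) (by positivity)
    rw [Real.sqrt_mul (by positivity)] at h5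
    exact h5
  have hBd : ∀ i, ∫⁻ y in B, ThI_F ρ ‖w‖ i ‖y - w‖ ≤
      ENNReal.ofReal ((8 * √2 * ρ * C2 * √‖w‖) * (√2 / 2) ^ i) := by
    intro i
    exact (lintegral_mono_set hsub).trans (ThI_B hρ hC2 hfi hw i)
  refine hT.trans ((ThI_seq (by positivity) (by positivity) hA hBd I).trans ?_)
  exact ENNReal.ofReal_le_ofReal hI

end Pool.MPb9430d.Mom
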