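import Pool.Agent.Lib.MP_b9430d_co.Mom.XiR
import Pool.Agent.Lib.MP_b9430d_co.Mom.KerP
import Pool.Agent.Lib.MP_b9430d_co.Mom.PwT
import Pool.Agent.Lib.MP_b9430d_co.Mom.ThI
import Pool.Agent.Lib.MP_b9430d_co.Mom.GeoI

/-!
# PropM: Proposition M

`xi_le` with `ε/2`, `pp_le`, exchange the finite sums with the integral: `∑∑ PP ≤ ∫⁻ y in B, ofReal (∑∑ ka)` (`ENNReal.ofReal_sum_of_nonneg`, `ka ≥ 0`), `pw_all` for `y ≠ w` (a.e.),
`int_inv`: `C √|B|`; the term `log²`: `C log(2+‖w‖)² |B|`; `th_int` for `B ∩ NR ρ w` (`‖y - w‖ ≤ 2‖w‖`). With `|B| ≤ 1`: `√|B|, |B| ≤ |B|^(1/3)`. The logarithms are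
`≤ C ‖w‖^(ε/2)`.
-/

set_option autoImplicit false

open MeasureTheory Complex Set Real Filter Topology
open scoped ENNReal

namespace Pool.MPb9430d.Mom

open Pool.MPb9430d Pool.MPb9430d.Rough Pool.MPb9430d.Frac

private theorem propM_ka_nonneg (ρ : ℝ) (w : ℂ) (m m' : ℕ) (y : ℂ) : 0 ≤ ka ρ w m m' y := by
  unfold ka
  refine Set.indicator_nonneg (fun y _ => ?_) y
  unfold kw
  positivity

private theorem propM_Th_nonneg (ρ r d : ℝ) (hd : 0 ≤ d) : 0 ≤ Th ρ r d := by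
  unfold Th
  refine mul_nonneg (by positivity) (Finset.sum_nonneg (fun v _ => by positivity))

private theorem propM_sum (ρ : ℝ) (w : ℂ) {B : Set ℂ} (hB : MeasurableSet B) (M : ℕ) :
    ∑ m ∈ Finset.Icc 1 M, ∑ m' ∈ Finset.Icc 1 M, PP ρ w B m m' ≤
      ∫⁻ y in B, ENNReal.ofReal
        (∑ m ∈ Finset.Icc 1 M, ∑ m' ∈ Finset.Icc 1 M, ka ρ w m m' y) := by
  calc ∑ m ∈ Finset.Icc 1 M, ∑ m' ∈ Finset.Icc 1 M, PP ρ w B m m'
      ≤ ∑ m ∈ Finset.Icc 1 M, ∑ m' ∈ Finset.Icc 1 M,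
          ∫⁻ y in B, ENNReal.ofReal (ka ρ w m m' y) := by
        refine Finset.sum_le_sum (fun m hm => Finset.sum_le_sum (fun m' hm' => ?_))
        exact pp_le ρ w hB (Finset.mem_Icc.1 hm).1 (Finset.mem_Icc.1 hm').1
    _ = ∑ m ∈ Finset.Icc 1 M, ∫⁻ y in B,
          ∑ m' ∈ Finset.Icc 1 M, ENNReal.ofReal (ka ρ w m m' y) := by
        refine Finset.sum_congr rfl (fun m _ => ?_)
        rw [lintegral_finsetSum]
        intro m' _
        exact (ka_meas ρ w m m').ennreal_ofReal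
    _ = ∫⁻ y in B, ∑ m ∈ Finset.Icc 1 M,
          ∑ m' ∈ Finset.Icc 1 M, ENNReal.ofReal (ka ρ w m m' y) := by
        rw [lintegral_finsetSum]
        intro m _
        exact Finset.measurable_sum _ (fun m' _ => (ka_meas ρ w m m').ennreal_ofReal)
    _ = _ := by
        refine lintegral_congr (fun y => ?_)
        rw [ENNReal.ofReal_sum_of_nonneg (fun m _ =>
          Finset.sum_nonneg (fun m' _ => propM_ka_nonneg ρ w m m' y))]
        refine Finset.sum_congr rfl (fun m _ => ?_)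
        rw [ENNReal.ofReal_sum_of_nonneg (fun m' _ => propM_ka_nonneg ρ w m m' y)]

private theorem propM_int {ρ C₂ C₃ L : ℝ} {w : ℂ} {B : Set ℂ} (hB : MeasurableSet B)
    (hC₂ : 0 < C₂) (hv : volume B ≤ 1) {S : ℂ → ℝ}
    (hS : ∀ y ∈ B, y ≠ w → S y ≤ C₂ * (1 / ‖y - w‖ + L ^ 2) +
      (NR ρ w).indicator (fun y => C₂ * Th ρ ‖w‖ ‖y - w‖) y)
    (hT : ∫⁻ y in NR ρ w ∩ B, ENNReal.ofReal (Th ρ ‖w‖ ‖y - w‖) ≤ ENNReal.ofReal C₃) :
    ∫⁻ y in B, ENNReal.ofReal (S y) ≤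
      ENNReal.ofReal C₂ * ENNReal.ofReal (8 * √(volume.real B)) +
        ENNReal.ofReal (C₂ * L ^ 2) * volume B + ENNReal.ofReal C₂ * ENNReal.ofReal C₃ := by
  have hfin : volume B ≠ ∞ := (hv.trans_lt ENNReal.one_lt_top).ne
  have hne : ∀ᵐ y : ℂ ∂volume, y ≠ w := by
    have h0 : volume ({w} : Set ℂ) = 0 := measure_singleton w
    rw [measure_eq_zero_iff_ae_notMem] at h0
    filter_upwards [h0] with y hy
    simpa using hy
  have hae : ∀ᵐ y ∂(volume.restrict B), ENNReal.ofReal (S y) ≤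
      (ENNReal.ofReal C₂ * ENNReal.ofReal (1 / ‖y - w‖) + ENNReal.ofReal (C₂ * L ^ 2)) +
        (NR ρ w).indicator
          (fun y => ENNReal.ofReal C₂ * ENNReal.ofReal (Th ρ ‖w‖ ‖y - w‖)) y := by
    rw [ae_restrict_iff' hB]
    filter_upwards [hne] with y hy hyB
    refine (ENNReal.ofReal_le_ofReal (hS y hyB hy)).trans ?_
    refine (ENNReal.ofReal_add_le).trans ?_
    refine add_le_add ?_ ?_
    · rw [mul_add, ← ENNReal.ofReal_mul hC₂.le]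
      exact ENNReal.ofReal_add_le
    · by_cases hN : y ∈ NR ρ w
      · rw [Set.indicator_of_mem hN, Set.indicator_of_mem hN, ENNReal.ofReal_mul hC₂.le]
      · rw [Set.indicator_of_notMem hN, Set.indicator_of_notMem hN, ENNReal.ofReal_zero]
  refine (lintegral_mono_ae hae).trans ?_
  rw [lintegral_add_left (by fun_prop), lintegral_add_left (by fun_prop)]
  refine add_le_add (add_le_add ?_ ?_) ?_
  · rw [lintegral_const_mul' _ _ ENNReal.ofReal_ne_top]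
    exact mul_le_mul_right (int_inv hB hfin w) _
  · rw [lintegral_const, Measure.restrict_apply_univ]
  · rw [lintegral_indicator (nr_meas ρ w), Measure.restrict_restrict (nr_meas ρ w),
      lintegral_const_mul' _ _ ENNReal.ofReal_ne_top]
    exact mul_le_mul_right hT _

private theorem propM_log {ε : ℝ} (hε : 0 < ε) {r : ℝ} (hr : 1 ≤ r) :
    Real.log (2 + r) ^ 2 ≤ 16 / ε ^ 2 * 3 ^ (ε / 2) * r ^ (ε / 2) := by
  have h1 : Real.log (2 + r) ≤ (2 + r) ^ (ε / 4) / (ε / 4) :=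
    Real.log_le_rpow_div (by linarith) (by positivity)
  have h0 : 0 ≤ Real.log (2 + r) := Real.log_nonneg (by linarith)
  have h2 : (2 + r) ^ (ε / 4) ≤ (3 * r) ^ (ε / 4) :=
    Real.rpow_le_rpow (by linarith) (by linarith) (by positivity)
  have h3 : Real.log (2 + r) ≤ (3 * r) ^ (ε / 4) / (ε / 4) := h1.trans (by gcongr)
  have h4 : Real.log (2 + r) ^ 2 ≤ ((3 * r) ^ (ε / 4) / (ε / 4)) ^ 2 := by gcongr
  refine h4.trans (le_of_eq ?_)
  have h5 : ((3 * r) ^ (ε / 4)) ^ 2 = 3 ^ (ε / 2) * r ^ (ε / 2) := by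
    rw [← Real.rpow_natCast, ← Real.rpow_mul (by positivity),
      ← Real.mul_rpow (by norm_num) (by linarith)]
    congr 1
    push_cast
    ring
  rw [div_pow, h5]
  field_simp
  ring

private theorem propM_le_third {b : ℝ} (h0 : 0 ≤ b) (h1 : b ≤ 1) : b ≤ b ^ (1 / 3 : ℝ) := by
  rcases h0.eq_or_lt with h | h
  · rw [← h, Real.zero_rpow (by norm_num)]
  · calc b = b ^ (1 : ℝ) := (Real.rpow_one b).symm
      _ ≤ b ^ (1 / 3 : ℝ) := Real.rpow_le_rpow_of_exponent_ge h h1 (by norm_num)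

private theorem propM_sqrt_le_third {b : ℝ} (h0 : 0 ≤ b) (h1 : b ≤ 1) :
    √b ≤ b ^ (1 / 3 : ℝ) := by
  rcases h0.eq_or_lt with h | h
  · rw [← h, Real.zero_rpow (by norm_num), Real.sqrt_zero]
  · rw [Real.sqrt_eq_rpow]
    exact Real.rpow_le_rpow_of_exponent_ge h h1 (by norm_num)

theorem prop_m {ε : ℝ} (hε : 0 < ε) {ρ : ℝ} (hρ : 1 ≤ ρ) : ∃ C : ℝ, 0 < C ∧ ∀ w : ℂ,
    1000 * ρ ≤ ‖w‖ → ∀ B : Set ℂ, MeasurableSet B → (∀ y ∈ B, 1000 * ρ ≤ ‖y‖ ∧ ‖y‖ ≤ ‖w‖) →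
    volume B ≤ 1 → SS (fun x => ind (Metric.closedBall 0 ρ) x * SS (ind B) x) w ≤
      ENNReal.ofReal (C * ‖w‖ ^ ε * volume.real B ^ (1 / 3 : ℝ)) := by
  obtain ⟨C₁, hC₁, h₁⟩ := xi_le (half_pos hε)
  obtain ⟨C₂, hC₂, h₂⟩ := pw_all hρ
  obtain ⟨C₃, hC₃, h₃⟩ := th_int hρ
  refine ⟨C₁ * (C₂ * 8 + C₂ + C₂ * C₃) * (16 / ε ^ 2 * 3 ^ (ε / 2)), by positivity, ?_⟩
  intro w hw B hB hBy hv
  have hw1 : (1 : ℝ) ≤ ‖w‖ := by linarith
  set r : ℝ := ‖w‖ with hr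
  set b : ℝ := volume.real B with hb
  have hfin : volume B ≠ ∞ := (hv.trans_lt ENNReal.one_lt_top).ne
  have hb0 : 0 ≤ b := measureReal_nonneg
  have hb1 : b ≤ 1 := by
    rw [hb, Measure.real]
    exact ENNReal.toReal_le_of_le_ofReal zero_le_one (by rwa [ENNReal.ofReal_one])
  have hbv : volume B = ENNReal.ofReal b := by
    rw [hb, ofReal_measureReal hfin]
  set L : ℝ := Real.log (2 + r) with hL
  have hL1 : 1 ≤ L := by
    rw [hL, Real.le_log_iff_exp_le (by linarith)]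
    linarith [Real.exp_one_lt_d9]
  have hlog0 : 0 ≤ Real.log r := Real.log_nonneg hw1
  have hlogL : Real.log r ≤ L := Real.log_le_log (by linarith) (by linarith)
  have hT : ∫⁻ y in NR ρ w ∩ B, ENNReal.ofReal (Th ρ ‖w‖ ‖y - w‖) ≤
      ENNReal.ofReal (C₃ * L ^ 2 * b ^ (1 / 3 : ℝ)) := by
    refine (h₃ w hw (NR ρ w ∩ B) ((nr_meas ρ w).inter hB) Set.inter_subset_left
      (fun y hy => ?_) ((measure_mono Set.inter_subset_right).trans hv)).trans ?_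
    · have h4 := (hBy y hy.2).2
      have h5 := norm_sub_le y w
      linarith
    · refine ENNReal.ofReal_le_ofReal ?_
      have h6 : volume.real (NR ρ w ∩ B) ≤ b := measureReal_mono Set.inter_subset_right hfin
      have h7 : volume.real (NR ρ w ∩ B) ^ (1 / 3 : ℝ) ≤ b ^ (1 / 3 : ℝ) :=
        Real.rpow_le_rpow measureReal_nonneg h6 (by norm_num)
      have h8 : Real.log ‖w‖ ^ 2 ≤ L ^ 2 := by
        rw [← hr]
        gcongr
      gcongr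
  have hI := propM_int (S := fun y => ∑ m ∈ Finset.Icc 1 ⌊9 * ‖w‖ ^ 2⌋₊,
      ∑ m' ∈ Finset.Icc 1 ⌊9 * ‖w‖ ^ 2⌋₊, ka ρ w m m' y) hB hC₂ hv
      (fun y hy hyw => h₂ w y hyw (hBy y hy).1 (hBy y hy).2 _) hT
  refine (h₁ ρ hρ w hw B hB hBy).trans ?_
  refine (mul_le_mul_right ((propM_sum ρ w hB _).trans hI) _).trans ?_
  rw [hbv, ← ENNReal.ofReal_mul hC₂.le, ← ENNReal.ofReal_mul (by positivity),
    ← ENNReal.ofReal_mul hC₂.le, ← ENNReal.ofReal_add (by positivity) (by positivity),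
    ← ENNReal.ofReal_add (by positivity) (by positivity), ← ENNReal.ofReal_mul (by positivity)]
  refine ENNReal.ofReal_le_ofReal ?_
  have hb3 : b ≤ b ^ (1 / 3 : ℝ) := propM_le_third hb0 hb1
  have hs3 : √b ≤ b ^ (1 / 3 : ℝ) := propM_sqrt_le_third hb0 hb1
  have hL2 : 1 ≤ L ^ 2 := one_le_pow₀ hL1
  have hq0 : 0 ≤ b ^ (1 / 3 : ℝ) := by positivity
  have hsum : C₂ * (8 * √b) + C₂ * L ^ 2 * b + C₂ * (C₃ * L ^ 2 * b ^ (1 / 3 : ℝ)) ≤
      (C₂ * 8 + C₂ + C₂ * C₃) * (L ^ 2 * b ^ (1 / 3 : ℝ)) := by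
    have e1 : √b ≤ L ^ 2 * b ^ (1 / 3 : ℝ) := by nlinarith
    have e2 : L ^ 2 * b ≤ L ^ 2 * b ^ (1 / 3 : ℝ) := by gcongr
    have e3 : C₂ * (8 * √b) ≤ C₂ * (8 * (L ^ 2 * b ^ (1 / 3 : ℝ))) := by gcongr
    have e4 : C₂ * (L ^ 2 * b) ≤ C₂ * (L ^ 2 * b ^ (1 / 3 : ℝ)) := by gcongr
    nlinarith
  have hlog := propM_log hε hw1
  have hsplit : r ^ ε = r ^ (ε / 2) * r ^ (ε / 2) := by
    rw [← Real.rpow_add (by linarith)]
    congr 1
    ring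
  calc C₁ * r ^ (ε / 2) * (C₂ * (8 * √b) + C₂ * L ^ 2 * b +
        C₂ * (C₃ * L ^ 2 * b ^ (1 / 3 : ℝ)))
      ≤ C₁ * r ^ (ε / 2) * ((C₂ * 8 + C₂ + C₂ * C₃) * (L ^ 2 * b ^ (1 / 3 : ℝ))) := by gcongr
    _ ≤ C₁ * r ^ (ε / 2) * ((C₂ * 8 + C₂ + C₂ * C₃) *
          ((16 / ε ^ 2 * 3 ^ (ε / 2) * r ^ (ε / 2)) * b ^ (1 / 3 : ℝ))) := by gcongr
    _ = C₁ * (C₂ * 8 + C₂ + C₂ * C₃) * (16 / ε ^ 2 * 3 ^ (ε / 2)) * r ^ ε *
          b ^ (1 / 3 : ℝ) := by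
        rw [hsplit]
        ring

end Pool.MPb9430d.Mom
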