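import Pool.Agent.Lib.MP_b9430d_co.Mom.PwG

/-!
# PwF: the kernel away from the radial direction (P1)

`d = ‖y - w‖`, `D0 = |Im (conj w (y-w))|/d ≥ 2ρ`. By `adm_geo` an admissible pair has `v = m' - m` with `|bb d v - b0| ≤ ρ`
(`b0 = -Re(..)/d`), i.e. `v` in an interval of length `4 d ρ`: at most `4 d ρ + 1` values; for given `v`, `δ = √(m' - bb²) ∈ [D0 - ρ, D0 + ρ]`, so `m'` lies
in an interval of length `4 ρ D0`: at most `4 ρ D0 + 1` values; `δ ≥ D0/2`, `kw = 1/(d δ) ≤ 2/(d D0)`. The pair `(m, m')` is determined by `(v, m')`.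
Sum `≤ (4dρ+1)(4ρD0+1) 2/(d D0) ≤ 2 (4ρ + 1/d)(4ρ+1) ≤ 40 ρ² (1 + 1/d)`.
-/

set_option autoImplicit false

open MeasureTheory Complex Set Real Filter Topology
open scoped ENNReal

namespace Pool.MPb9430d.Mom

open Pool.MPb9430d Pool.MPb9430d.Rough Pool.MPb9430d.Frac

private theorem PwF_Icc {a b : ℝ} (h : a ≤ b) :
    ((Finset.Icc ⌈a⌉ ⌊b⌋).card : ℝ) ≤ b - a + 1 := by
  rw [Int.card_Icc]
  have h1 : ((⌊b⌋ + 1 - ⌈a⌉ : ℤ) : ℝ) ≤ b - a + 1 := by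
    push_cast
    linarith [Int.floor_le b, Int.le_ceil a]
  rcases le_total 0 (⌊b⌋ + 1 - ⌈a⌉) with h0 | h0
  · have h2 : (((⌊b⌋ + 1 - ⌈a⌉).toNat : ℤ) : ℝ) = ((⌊b⌋ + 1 - ⌈a⌉ : ℤ) : ℝ) := by
      rw [Int.toNat_of_nonneg h0]
    rw [Int.cast_natCast] at h2
    rw [h2]
    exact h1
  · rw [Int.toNat_of_nonpos h0]
    push_cast
    linarith

theorem pw_far {ρ : ℝ} (hρ : 1 ≤ ρ) {w y : ℂ} (hyw : y ≠ w)
    (hD : 2 * ρ * ‖y - w‖ ≤ |((starRingEnd ℂ) w * (y - w)).im|) (M : ℕ) :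
    ∑ m ∈ Finset.Icc 1 M, ∑ m' ∈ Finset.Icc 1 M, ka ρ w m m' y ≤
      40 * ρ ^ 2 * (1 + 1 / ‖y - w‖) := by
  classical
  obtain ⟨d, hd⟩ : ∃ d : ℝ, d = ‖y - w‖ := ⟨_, rfl⟩
  obtain ⟨D0, hD0⟩ : ∃ D0 : ℝ, D0 = |((starRingEnd ℂ) w * (y - w)).im| / ‖y - w‖ := ⟨_, rfl⟩
  obtain ⟨b0, hb0⟩ : ∃ b0 : ℝ, b0 = -(((starRingEnd ℂ) w * (y - w)).re / ‖y - w‖) := ⟨_, rfl⟩
  have hdpos : 0 < d := by
    rw [hd]
    exact norm_pos_iff.2 (sub_ne_zero.2 hyw)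
  have hD2 : 2 * ρ ≤ D0 := by
    rw [hD0, le_div_iff₀ (by rw [← hd]; exact hdpos)]
    exact hD
  have hρ0 : 0 < ρ := by linarith
  have hD0pos : 0 < D0 := by linarith
  obtain ⟨P, hP⟩ : ∃ P : Finset (ℕ × ℕ), P = (Finset.Icc 1 M ×ˢ Finset.Icc 1 M).filter
      (fun p : ℕ × ℕ => Adm ρ w y p.1 p.2) := ⟨_, rfl⟩
  have hPm : ∀ p ∈ P, Adm ρ w y p.1 p.2 := by
    intro p hp
    rw [hP, Finset.mem_filter] at hp
    exact hp.2
  have hsum : ∑ m ∈ Finset.Icc 1 M, ∑ m' ∈ Finset.Icc 1 M, ka ρ w m m' y =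
      ∑ p ∈ P, kw d p.1 p.2 := by
    rw [← Finset.sum_product', hP, Finset.sum_filter]
    refine Finset.sum_congr rfl fun p _ => ?_
    unfold ka
    by_cases h : Adm ρ w y p.1 p.2
    · rw [indicator_of_mem (show y ∈ {y : ℂ | Adm ρ w y p.1 p.2} from h), if_pos h, hd]
    · rw [indicator_of_notMem (show y ∉ {y : ℂ | Adm ρ w y p.1 p.2} from h), if_neg h]
  obtain ⟨V, hV⟩ : ∃ V : Finset ℤ, V = Finset.Icc ⌈2 * d * (b0 - ρ) - d ^ 2⌉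
      ⌊2 * d * (b0 + ρ) - d ^ 2⌋ := ⟨_, rfl⟩
  obtain ⟨T, hT⟩ : ∃ T : ℤ → Finset ℤ, T = fun v => Finset.Icc ⌈bb d v ^ 2 + (D0 - ρ) ^ 2⌉
      ⌊bb d v ^ 2 + (D0 + ρ) ^ 2⌋ := ⟨_, rfl⟩
  have hgeo : ∀ p ∈ P, 0 ≤ (p.2 : ℝ) - bb d ((p.2 : ℤ) - p.1) ^ 2 ∧
      D0 - ρ ≤ √((p.2 : ℝ) - bb d ((p.2 : ℤ) - p.1) ^ 2) ∧
      √((p.2 : ℝ) - bb d ((p.2 : ℤ) - p.1) ^ 2) ≤ D0 + ρ ∧
      b0 - ρ ≤ bb d ((p.2 : ℤ) - p.1) ∧ bb d ((p.2 : ℤ) - p.1) ≤ b0 + ρ := by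
    intro p hp
    obtain ⟨h1, h2, h3, -⟩ := adm_geo hyw (hPm p hp)
    rw [← hD0, ← hd] at h2
    rw [← hd] at h1
    have e : ((starRingEnd ℂ) w * (y - w)).re / ‖y - w‖ = -b0 := by rw [hb0]; ring
    rw [e, ← hd] at h3
    rw [abs_le] at h2 h3
    exact ⟨h1, by linarith [h2.1], by linarith [h2.2], by linarith [h3.1], by linarith [h3.2]⟩
  have hcard : (P.card : ℝ) ≤ (4 * d * ρ + 1) * (4 * ρ * D0 + 1) := by
    have h1 : P.card ≤ (V.sigma T).card := by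
      refine Finset.card_le_card_of_injOn
        (fun p : ℕ × ℕ => (⟨(p.2 : ℤ) - p.1, (p.2 : ℤ)⟩ : Σ _ : ℤ, ℤ)) ?_ ?_
      · intro p hp
        obtain ⟨g1, g2, g3, g4, g5⟩ := hgeo p (Finset.mem_coe.1 hp)
        rw [Finset.mem_coe, Finset.mem_sigma]
        refine ⟨?_, ?_⟩
        · rw [hV, Finset.mem_Icc, Int.ceil_le, Int.le_floor]
          unfold bb at g4 g5
          rw [le_div_iff₀ (by positivity)] at g4
          rw [div_le_iff₀ (by positivity)] at g5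
          constructor
          · simp only at g4 ⊢
            linarith
          · simp only at g5 ⊢
            linarith
        · rw [hT]
          simp only
          rw [Finset.mem_Icc, Int.ceil_le, Int.le_floor, Int.cast_natCast]
          have hs := Real.sq_sqrt g1
          constructor
          · nlinarith
          · nlinarith [Real.sqrt_nonneg ((p.2 : ℝ) - bb d ((p.2 : ℤ) - p.1) ^ 2)]
      · intro p _ q _ hpq
        simp only [Sigma.mk.injEq, heq_eq_eq, Nat.cast_inj] at hpq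
        obtain ⟨e1, e2⟩ := hpq
        rw [e2] at e1
        have e3 : (p.1 : ℤ) = q.1 := by linarith
        exact Prod.ext (by exact_mod_cast e3) e2
    have h2 : ((V.sigma T).card : ℝ) ≤ (4 * d * ρ + 1) * (4 * ρ * D0 + 1) := by
      rw [Finset.card_sigma, Nat.cast_sum]
      have h3 : ∀ v ∈ V, ((T v).card : ℝ) ≤ 4 * ρ * D0 + 1 := by
        intro v _
        rw [hT]
        refine (PwF_Icc ?_).trans ?_
        · nlinarith
        · nlinarith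
      have h4 : (V.card : ℝ) ≤ 4 * d * ρ + 1 := by
        rw [hV]
        refine (PwF_Icc ?_).trans ?_
        · nlinarith
        · nlinarith
      calc ∑ v ∈ V, ((T v).card : ℝ) ≤ ∑ _v ∈ V, (4 * ρ * D0 + 1) := Finset.sum_le_sum h3
        _ = (V.card : ℝ) * (4 * ρ * D0 + 1) := by rw [Finset.sum_const, nsmul_eq_mul]
        _ ≤ (4 * d * ρ + 1) * (4 * ρ * D0 + 1) := by gcongr
    exact le_trans (by exact_mod_cast h1) h2
  have hterm : ∀ p ∈ P, kw d p.1 p.2 ≤ 2 / (d * D0) := by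
    intro p hp
    obtain ⟨g1, g2, g3, g4, g5⟩ := hgeo p hp
    unfold kw
    have h1 : D0 / 2 ≤ √((p.2 : ℝ) - bb d ((p.2 : ℤ) - p.1) ^ 2) := by linarith
    have h2 : d * (D0 / 2) ≤ d * √((p.2 : ℝ) - bb d ((p.2 : ℤ) - p.1) ^ 2) := by gcongr
    calc 1 / (d * √((p.2 : ℝ) - bb d ((p.2 : ℤ) - p.1) ^ 2)) ≤ 1 / (d * (D0 / 2)) :=
          one_div_le_one_div_of_le (by positivity) h2
      _ = 2 / (d * D0) := by field_simp
  rw [hsum, ← hd]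
  calc ∑ p ∈ P, kw d p.1 p.2 ≤ ∑ _p ∈ P, 2 / (d * D0) := Finset.sum_le_sum hterm
    _ = (P.card : ℝ) * (2 / (d * D0)) := by rw [Finset.sum_const, nsmul_eq_mul]
    _ ≤ ((4 * d * ρ + 1) * (4 * ρ * D0 + 1)) * (2 / (d * D0)) := by gcongr
    _ = 2 * (4 * ρ + 1 / d) * (4 * ρ + 1 / D0) := by field_simp
    _ ≤ 2 * (4 * ρ + 1 / d) * (4 * ρ + 1 / 2) := by
        gcongr
        linarith
    _ ≤ 40 * ρ ^ 2 * (1 + 1 / d) := by
        have hx : 0 < 1 / d := by positivity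
        have hr2 : ρ ≤ ρ ^ 2 := by nlinarith
        have h1 : 1 / d ≤ ρ ^ 2 * (1 / d) := by nlinarith
        have h2 : ρ * (1 / d) ≤ ρ ^ 2 * (1 / d) := by gcongr
        nlinarith

end Pool.MPb9430d.Mom
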