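import Pool.Agent.Lib.MP_b9430d_co.Mom.Defs

/-!
# PwG: the geometry of an admissible point

`d = ‖y - w‖ > 0`, `e = (y - w)/d`, `x` with `‖x‖ ≤ ρ`, `‖x - w‖² = m'`, `‖x - y‖² = m`, `v = m' - m`. `(x - w) conj e = b + i δ'` with
`b = bb d v` (`‖x - y‖² = ‖x - w‖² - 2 d Re((x-w) conj e) + d²`) and `δ'² = m' - b²`. Further
`δ' = Im (x conj e) - Im (w conj e)` so `| |δ'| - D0 | ≤ ρ`, `D0 = |Im (conj w * e)|`, and `|b + Re (conj w * e)| ≤ ρ` (`Re (w conj e) = Re (conj w * e)`).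
-/

set_option autoImplicit false

open MeasureTheory Complex Set Real Filter Topology
open scoped ENNReal

namespace Pool.MPb9430d.Mom

open Pool.MPb9430d Pool.MPb9430d.Rough Pool.MPb9430d.Frac

private theorem PwG_cs {a b p q d r : ℝ} (hd : 0 < d) (hd2 : d ^ 2 = a ^ 2 + b ^ 2) (hr : 0 ≤ r) (hr2 : p ^ 2 + q ^ 2 ≤ r ^ 2) :
    |(p * a + q * b) / d| ≤ r := by
  rw [abs_div, abs_of_pos hd, div_le_iff₀ hd]
  refine abs_le_of_sq_le_sq ?_ (by positivity)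
  have h1 : (p * a + q * b) ^ 2 ≤ (p ^ 2 + q ^ 2) * (a ^ 2 + b ^ 2) := by nlinarith [sq_nonneg (p * b - q * a)]
  calc (p * a + q * b) ^ 2 ≤ (p ^ 2 + q ^ 2) * (a ^ 2 + b ^ 2) := h1
    _ ≤ r ^ 2 * (a ^ 2 + b ^ 2) := mul_le_mul_of_nonneg_right hr2 (by positivity)
    _ = (r * d) ^ 2 := by rw [mul_pow, hd2]

private theorem PwG_sq (z : ℂ) : ‖z‖ ^ 2 = z.re ^ 2 + z.im ^ 2 := by
  rw [← Complex.normSq_eq_norm_sq, Complex.normSq_apply]
  ring

theorem adm_geo {ρ : ℝ} {w y : ℂ} (hyw : y ≠ w) {m m' : ℕ} (h : Adm ρ w y m m') :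
    0 ≤ (m' : ℝ) - bb ‖y - w‖ ((m' : ℤ) - m) ^ 2 ∧
    |√((m' : ℝ) - bb ‖y - w‖ ((m' : ℤ) - m) ^ 2) -
      |((starRingEnd ℂ) w * (y - w)).im| / ‖y - w‖| ≤ ρ ∧
    |bb ‖y - w‖ ((m' : ℤ) - m) + ((starRingEnd ℂ) w * (y - w)).re / ‖y - w‖| ≤ ρ ∧
    |√(m' : ℝ) - ‖w‖| ≤ ρ := by
  obtain ⟨x, hx, h1, h2⟩ := h
  have hd : 0 < ‖y - w‖ := norm_pos_iff.2 (sub_ne_zero.2 hyw)
  have hρ : 0 ≤ ρ := (norm_nonneg x).trans hx
  have hx2 : x.re ^ 2 + x.im ^ 2 ≤ ρ ^ 2 := by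
    rw [← PwG_sq]
    exact pow_le_pow_left₀ (norm_nonneg _) hx 2
  have hd2 := PwG_sq (y - w)
  have h4 : |√(m' : ℝ) - ‖w‖| ≤ ρ := by
    rw [← h1, Real.sqrt_sq (norm_nonneg _)]
    refine le_trans ?_ hx
    have h5 := abs_norm_sub_norm_le (x - w) (-w)
    rw [norm_neg] at h5
    have h6 : x - w - -w = x := by ring
    rw [h6] at h5
    exact h5
  rw [PwG_sq] at h1 h2
  obtain ⟨d, hdd⟩ : ∃ d, d = ‖y - w‖ := ⟨_, rfl⟩
  rw [← hdd] at hd hd2 ⊢
  obtain ⟨a, ha⟩ : ∃ a, a = (y - w).re := ⟨_, rfl⟩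
  obtain ⟨b, hb⟩ : ∃ b, b = (y - w).im := ⟨_, rfl⟩
  rw [← ha, ← hb] at hd2
  have him : ((starRingEnd ℂ) w * (y - w)).im = w.re * b - w.im * a := by
    rw [Complex.mul_im, Complex.conj_re, Complex.conj_im, ha, hb]
    ring
  have hre : ((starRingEnd ℂ) w * (y - w)).re = w.re * a + w.im * b := by
    rw [Complex.mul_re, Complex.conj_re, Complex.conj_im, ha, hb]
    ring
  rw [him, hre]
  have hp : (x - w).re = x.re - w.re := Complex.sub_re _ _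
  have hq : (x - w).im = x.im - w.im := Complex.sub_im _ _
  have hp' : (x - y).re = x.re - w.re - a := by rw [ha, Complex.sub_re, Complex.sub_re]; ring
  have hq' : (x - y).im = x.im - w.im - b := by rw [hb, Complex.sub_im, Complex.sub_im]; ring
  rw [hp, hq] at h1
  rw [hp', hq'] at h2
  have hbb : bb d ((m' : ℤ) - m) = ((x.re - w.re) * a + (x.im - w.im) * b) / d := by
    unfold bb
    push_cast
    rw [← h1, ← h2, hd2, div_eq_div_iff (by positivity) hd.ne']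
    ring
  have hdis : (m' : ℝ) - bb d ((m' : ℤ) - m) ^ 2 = (((x.im - w.im) * a - (x.re - w.re) * b) / d) ^ 2 := by
    rw [hbb, ← h1, div_pow, div_pow, eq_div_iff (by positivity), sub_mul, div_mul_cancel₀ _ (by positivity), hd2]
    ring
  refine ⟨?_, ?_, ?_, h4⟩
  · rw [hdis]
    positivity
  · rw [hdis, Real.sqrt_sq_eq_abs]
    have e1 : |w.re * b - w.im * a| / d = |(w.re * b - w.im * a) / d| := by rw [abs_div, abs_of_pos hd]
    rw [e1]
    refine (abs_abs_sub_abs_le _ _).trans ?_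
    have e2 : ((x.im - w.im) * a - (x.re - w.re) * b) / d - (w.re * b - w.im * a) / d = (x.im * a + (-x.re) * b) / d := by
      rw [← sub_div]
      congr 1
      ring
    rw [e2]
    exact PwG_cs hd hd2 hρ (by rw [neg_sq]; linarith)
  · rw [hbb]
    have e2 : ((x.re - w.re) * a + (x.im - w.im) * b) / d + (w.re * a + w.im * b) / d = (x.re * a + x.im * b) / d := by
      rw [← add_div]
      congr 1
      ring
    rw [e2]
    exact PwG_cs hd hd2 hρ hx2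

end Pool.MPb9430d.Mom
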