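import Pool.Agent.Lib.MP_b9430d_co.Mom.Defs

/-!
# SqA: second moment of a counting function of intervals

Expand the square, `∫⁻ 1[|d - c p| ≤ τ p] 1[|d - c q| ≤ τ q] ≤ ofReal (2 min (τ p) (τ q))`, and `0` unless `|c p - c q| ≤ τ p + τ q ≤ 2 max`. Every pair `(p, q)` has
`τ q ≤ τ p` or `τ p ≤ τ q`; by symmetry the total is at most `2 ∑_{p,q : τ q ≤ τ p} 2 τ q 1[|c p - c q| ≤ 2 τ p]`.
-/

set_option autoImplicit false

open MeasureTheory Complex Set Real Filter Topology
open scoped ENNReal

namespace Pool.MPb9430d.Mom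

open Pool.MPb9430d Pool.MPb9430d.Rough Pool.MPb9430d.Frac

private theorem card_ind {ι : Type} (P : Finset ι) (c τ : ι → ℝ) (d : ℝ) :
    (((P.filter fun p => |d - c p| ≤ τ p).card : ℕ) : ℝ≥0∞) =
      ∑ p ∈ P, (Metric.closedBall (c p) (τ p)).indicator (1 : ℝ → ℝ≥0∞) d := by
  classical
  rw [Finset.card_filter]
  push_cast
  refine Finset.sum_congr rfl fun p _ => ?_
  by_cases h : |d - c p| ≤ τ p
  · have h' : d ∈ Metric.closedBall (c p) (τ p) := by
      rw [Metric.mem_closedBall, Real.dist_eq]; exact h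
    rw [if_pos h, Set.indicator_of_mem h', Pi.one_apply]
  · have h' : d ∉ Metric.closedBall (c p) (τ p) := by
      rw [Metric.mem_closedBall, Real.dist_eq]; exact h
    rw [if_neg h, Set.indicator_of_notMem h']

theorem sq_abs {ι : Type} [DecidableEq ι] (P : Finset ι) (c τ : ι → ℝ) (hτ : ∀ p ∈ P, 0 ≤ τ p) :
    ∫⁻ d : ℝ, (((P.filter fun p => |d - c p| ≤ τ p).card : ℕ) : ℝ≥0∞) ^ 2 ≤
      ENNReal.ofReal (∑ p ∈ P, ∑ q ∈ P.filter (fun q => τ q ≤ τ p ∧ |c p - c q| ≤ 2 * τ p),
        4 * τ q) := by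
  set I : ι → Set ℝ := fun p => Metric.closedBall (c p) (τ p) with hI
  have h1 : ∀ d : ℝ, (((P.filter fun p => |d - c p| ≤ τ p).card : ℕ) : ℝ≥0∞) ^ 2 =
      ∑ p ∈ P, ∑ q ∈ P, (I p ∩ I q).indicator (1 : ℝ → ℝ≥0∞) d := by
    intro d
    rw [card_ind, sq, Finset.sum_mul_sum]
    refine Finset.sum_congr rfl fun p _ => Finset.sum_congr rfl fun q _ => ?_
    rw [Set.inter_indicator_one, Pi.mul_apply]
  have hm : ∀ p q, MeasurableSet (I p ∩ I q) := fun p q =>
    Metric.isClosed_closedBall.measurableSet.inter Metric.isClosed_closedBall.measurableSet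
  have h2 : ∫⁻ d : ℝ, (((P.filter fun p => |d - c p| ≤ τ p).card : ℕ) : ℝ≥0∞) ^ 2 =
      ∑ p ∈ P, ∑ q ∈ P, volume (I p ∩ I q) := by
    rw [lintegral_congr h1, lintegral_finsetSum]
    · refine Finset.sum_congr rfl fun p _ => ?_
      rw [lintegral_finsetSum]
      · refine Finset.sum_congr rfl fun q _ => ?_
        exact lintegral_indicator_one (hm p q)
      · intro q _
        exact measurable_one.indicator (hm p q)
    · intro p _
      exact Finset.measurable_sum _ fun q _ => measurable_one.indicator (hm p q)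
  rw [h2]
  set a : ι → ι → ℝ≥0∞ := fun p q =>
    if τ q ≤ τ p ∧ |c p - c q| ≤ 2 * τ p then ENNReal.ofReal (2 * τ q) else 0 with ha
  have hvol : ∀ q, volume (I q) = ENNReal.ofReal (2 * τ q) := fun q => Real.volume_closedBall _ _
  have key0 : ∀ p q, τ q ≤ τ p → volume (I p ∩ I q) ≤ a p q := by
    intro p q hpq
    by_cases hc : |c p - c q| ≤ 2 * τ p
    · simp only [ha, if_pos (And.intro hpq hc)]
      rw [← hvol q]
      exact measure_mono Set.inter_subset_right
    · have he : I p ∩ I q = ∅ := by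
        rw [Set.eq_empty_iff_forall_notMem]
        rintro d ⟨h1, h2⟩
        simp only [hI, Metric.mem_closedBall, Real.dist_eq] at h1 h2
        apply hc
        have h3 : |c p - c q| ≤ |d - c p| + |d - c q| := by
          have : c p - c q = (d - c q) - (d - c p) := by ring
          rw [this]
          refine (abs_sub _ _).trans (le_of_eq ?_)
          ring
        linarith
      rw [he, measure_empty]
      exact zero_le
  have key : ∀ p q, volume (I p ∩ I q) ≤ a p q + a q p := by
    intro p q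
    rcases le_total (τ q) (τ p) with h | h
    · exact (key0 p q h).trans le_self_add
    · rw [Set.inter_comm]
      exact (key0 q p h).trans le_add_self
  have h3 : ∑ p ∈ P, ∑ q ∈ P, volume (I p ∩ I q) ≤
      ∑ p ∈ P, ∑ q ∈ P, a p q + ∑ p ∈ P, ∑ q ∈ P, a q p := by
    rw [← Finset.sum_add_distrib]
    refine Finset.sum_le_sum fun p _ => ?_
    rw [← Finset.sum_add_distrib]
    exact Finset.sum_le_sum fun q _ => key p q
  refine h3.trans (le_of_eq ?_)
  rw [Finset.sum_comm (f := fun p q => a q p), ← two_mul, ENNReal.ofReal_sum_of_nonneg,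
    Finset.mul_sum]
  · refine Finset.sum_congr rfl fun p _ => ?_
    rw [ENNReal.ofReal_sum_of_nonneg, Finset.mul_sum, Finset.sum_filter]
    · refine Finset.sum_congr rfl fun q hq => ?_
      simp only [ha]
      split_ifs with h
      · have h4 : (2 : ℝ≥0∞) = ENNReal.ofReal 2 := by norm_num
        rw [h4, ← ENNReal.ofReal_mul (by norm_num)]
        congr 1
        ring
      · rw [mul_zero]
    · intro q hq
      have := hτ q (Finset.mem_filter.mp hq).1
      positivity
  · intro p _
    refine Finset.sum_nonneg fun q hq => ?_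
    have := hτ q (Finset.mem_filter.mp hq).1
    positivity

theorem first_abs {ι : Type} [DecidableEq ι] (P : Finset ι) (c τ : ι → ℝ)
    (hτ : ∀ p ∈ P, 0 ≤ τ p) :
    ∫⁻ d : ℝ, (((P.filter fun p => |d - c p| ≤ τ p).card : ℕ) : ℝ≥0∞) =
      ENNReal.ofReal (∑ p ∈ P, 2 * τ p) := by
  rw [lintegral_congr (card_ind P c τ), lintegral_finsetSum, ENNReal.ofReal_sum_of_nonneg]
  · refine Finset.sum_congr rfl fun p _ => ?_
    rw [lintegral_indicator_one Metric.isClosed_closedBall.measurableSet, Real.volume_closedBall]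
  · intro p hp
    have := hτ p hp
    positivity
  · intro p _
    exact measurable_one.indicator Metric.isClosed_closedBall.measurableSet

end Pool.MPb9430d.Mom
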