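import Pool.Agent.Lib.MP_b9430d_co.Mom.VPair
import Pool.Agent.Lib.MP_b9430d_co.Mom.CntQ
import Pool.Agent.Lib.MP_b9430d_co.Mom.SqA

/-!
# SecM: the moments of NN (P5, P6)

`P` = finite set of pairs `(m, m')` (`p.1 = m`, `p.2 = m'`), `1 ≤ m, m'`, `|√m' - r| ≤ 3ρ`, `400ρ ≤ √m ≤ 5r` (inside `range (⌊25r²⌋₊+1) ×ˢ range (⌊4 r²⌋₊+1)`), `τ p = 16 2⁻ⁱ/(√m r)`,
`c± p = √m' ∓ √m`. By `v_pair` (`v ↦ (m, m')` is injective: `v = m' - m`): for `0 < d ≤ 3r`: `NN ρ r i d ≤ #{p ∈ P : |d - c₊ p| ≤ τ p} + #{p ∈ P : |d - c₋ p| ≤ τ p}`. Square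
`≤ 2(..)² + 2(..)²`, `sq_abs`; `τ q ≤ τ p` means `m_q ≥ m_p`, `τ q ≤ τ p`: `∑_p ∑_q 4 τ q ≤ ∑_{m} 4 τ_m #{(m₂, m', m₂')} ≤ ∑_m 4 τ_m C r log r` (`cnt_quad`), `∑_{m ≤ 25r²} 1/√m ≤ 10 r`, so
`∑_m 4 τ_m ≤ 640 2⁻ⁱ`. First moment: `√d ≤ √(3r)`, `first_abs`: `∑_p 2τ p ≤ #{m'} ∑_m 2τ_m ≤ (13ρr)(320 2⁻ⁱ)`. `nn_meas`: measurability of `NN` in `d` (finite sum over `v ∈ ℤ`,
countable: `NN = ∑' v, 1[..]`, each condition is measurable in `d`; `⌈·⌉` is measurable).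
-/

set_option autoImplicit false

open MeasureTheory Complex Set Real Filter Topology
open scoped ENNReal

namespace Pool.MPb9430d.Mom

open Pool.MPb9430d Pool.MPb9430d.Rough Pool.MPb9430d.Frac

private noncomputable def SecM_P (ρ r : ℝ) : Finset (ℕ × ℕ) :=
  ((Finset.Icc 1 ⌊25 * r ^ 2⌋₊) ×ˢ (Finset.Icc 1 ⌊4 * r ^ 2⌋₊)).filter
    (fun p => |√(p.2 : ℝ) - r| ≤ 3 * ρ ∧ 400 * ρ ≤ √(p.1 : ℝ) ∧ √(p.1 : ℝ) ≤ 5 * r)

private noncomputable def SecM_t (r : ℝ) (i : ℕ) (p : ℕ × ℕ) : ℝ := 16 * (1 / 2) ^ i / (√(p.1 : ℝ) * r)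

private noncomputable def SecM_c (σ : ℝ) (p : ℕ × ℕ) : ℝ := √(p.2 : ℝ) - σ * √(p.1 : ℝ)

private noncomputable def SecM_A (ρ r : ℝ) (i : ℕ) (σ d : ℝ) : ℕ :=
  ((SecM_P ρ r).filter fun p => |d - SecM_c σ p| ≤ SecM_t r i p).card

private theorem SecM_mem {ρ r : ℝ} (hρ : 1 ≤ ρ) (hr : 1000 * ρ ≤ r) {p : ℕ × ℕ} : p ∈ SecM_P ρ r ↔
    1 ≤ p.1 ∧ 1 ≤ p.2 ∧ |√(p.2 : ℝ) - r| ≤ 3 * ρ ∧ 400 * ρ ≤ √(p.1 : ℝ) ∧ √(p.1 : ℝ) ≤ 5 * r := by
  unfold SecM_P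
  rw [Finset.mem_filter, Finset.mem_product, Finset.mem_Icc, Finset.mem_Icc]
  constructor
  · rintro ⟨⟨⟨h1, _⟩, h2, _⟩, h3, h4, h5⟩
    exact ⟨h1, h2, h3, h4, h5⟩
  · rintro ⟨h1, h2, h3, h4, h5⟩
    have e1 : (p.1 : ℝ) ≤ 25 * r ^ 2 := by
      have e2 : √(p.1 : ℝ) ^ 2 = p.1 := Real.sq_sqrt (Nat.cast_nonneg _)
      have e3 : √(p.1 : ℝ) ^ 2 ≤ (5 * r) ^ 2 := pow_le_pow_left₀ (Real.sqrt_nonneg _) h5 2
      rw [e2] at e3
      nlinarith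
    have e2 : (p.2 : ℝ) ≤ 4 * r ^ 2 := by
      have e4 := (abs_le.1 h3).2
      have e5 : √(p.2 : ℝ) ^ 2 = p.2 := Real.sq_sqrt (Nat.cast_nonneg _)
      have e6 : √(p.2 : ℝ) ^ 2 ≤ (2 * r) ^ 2 := pow_le_pow_left₀ (Real.sqrt_nonneg _) (by linarith) 2
      rw [e5] at e6
      nlinarith
    exact ⟨⟨⟨h1, Nat.le_floor e1⟩, h2, Nat.le_floor e2⟩, h3, h4, h5⟩

private theorem SecM_le {ρ r d : ℝ} (hρ : 1 ≤ ρ) (hr : 1000 * ρ ≤ r) (hd : 0 < d) (hd3 : d ≤ 3 * r) (i : ℕ) :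
    NN ρ r i d ≤ SecM_A ρ r i 1 d + SecM_A ρ r i (-1) d := by
  classical
  unfold NN SecM_A
  set A := (SecM_P ρ r).filter fun p => |d - SecM_c 1 p| ≤ SecM_t r i p with hA
  set B := (SecM_P ρ r).filter fun p => |d - SecM_c (-1) p| ≤ SecM_t r i p with hB
  have h1 : (JJ ρ r d).filter (fun v => uu d v ≤ (1 / 2) ^ i / d ∧ 400 * ρ ≤ |d - bb d v|) ⊆
      (A ∪ B).image (fun p : ℕ × ℕ => ((p.2 : ℤ) - (p.1 : ℤ))) := by
    intro v hv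
    rw [Finset.mem_filter] at hv
    obtain ⟨hv1, hv2, hv3⟩ := hv
    obtain ⟨m, m', e1, e2, e3, e4, e5, e6, e7⟩ := v_pair hρ hr hd hd3 i hv1 hv2 hv3
    rw [Finset.mem_image]
    refine ⟨(m, m'), ?_, e1⟩
    have hP : (m, m') ∈ SecM_P ρ r := (SecM_mem hρ hr).2 ⟨e2, e3, e4, e5, e6⟩
    rw [Finset.mem_union, hA, hB, Finset.mem_filter, Finset.mem_filter]
    rcases e7 with e7 | e7
    · refine Or.inl ⟨hP, ?_⟩
      unfold SecM_c SecM_t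
      rw [one_mul]
      exact e7
    · refine Or.inr ⟨hP, ?_⟩
      unfold SecM_c SecM_t
      have e8 : √(((m, m') : ℕ × ℕ).2 : ℝ) - -1 * √(((m, m') : ℕ × ℕ).1 : ℝ) = √(m' : ℝ) + √(m : ℝ) := by
        ring
      rw [e8]
      exact e7
  calc ((JJ ρ r d).filter (fun v => uu d v ≤ (1 / 2) ^ i / d ∧ 400 * ρ ≤ |d - bb d v|)).card ≤
      ((A ∪ B).image (fun p : ℕ × ℕ => ((p.2 : ℤ) - (p.1 : ℤ)))).card := Finset.card_le_card h1
    _ ≤ (A ∪ B).card := Finset.card_image_le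
    _ ≤ A.card + B.card := Finset.card_union_le _ _

private theorem SecM_meas (ρ r : ℝ) (i : ℕ) (σ : ℝ) : Measurable fun d => ((SecM_A ρ r i σ d : ℕ) : ℝ≥0∞) := by
  have h : (fun d => ((SecM_A ρ r i σ d : ℕ) : ℝ≥0∞)) =
      fun d => ∑ p ∈ SecM_P ρ r, if |d - SecM_c σ p| ≤ SecM_t r i p then (1 : ℝ≥0∞) else 0 := by
    funext d
    unfold SecM_A
    rw [Finset.card_filter]
    push_cast
    rfl
  rw [h]
  refine Finset.measurable_fun_sum _ fun p _ => Measurable.ite ?_ measurable_const measurable_const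
  exact measurableSet_le (by fun_prop) measurable_const

private theorem SecM_sqrt (M : ℕ) : ∑ m ∈ Finset.Icc 1 M, 1 / √(m : ℝ) ≤ 2 * √(M : ℝ) := by
  induction M with
  | zero => simp
  | succ M ih =>
    rw [Finset.sum_Icc_succ_top (by omega)]
    have h1 : 0 < √((M + 1 : ℕ) : ℝ) := Real.sqrt_pos.2 (by positivity)
    have h2 : 0 ≤ √(M : ℝ) := Real.sqrt_nonneg _
    have h3 : √(M : ℝ) ≤ √((M + 1 : ℕ) : ℝ) := Real.sqrt_le_sqrt (by push_cast; linarith)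
    have h4 : √((M + 1 : ℕ) : ℝ) ^ 2 = M + 1 := by
      rw [Real.sq_sqrt (by positivity)]
      push_cast
      ring
    have h5 : √(M : ℝ) ^ 2 = M := Real.sq_sqrt (Nat.cast_nonneg _)
    have h6 : 1 / √((M + 1 : ℕ) : ℝ) ≤ 2 * (√((M + 1 : ℕ) : ℝ) - √(M : ℝ)) := by
      rw [div_le_iff₀ h1]
      nlinarith
    linarith

private theorem SecM_sumt {r : ℝ} (hr : 0 < r) (i : ℕ) :
    ∑ m ∈ Finset.Icc 1 ⌊25 * r ^ 2⌋₊, 16 * (1 / 2 : ℝ) ^ i / (√(m : ℝ) * r) ≤ 160 * (1 / 2) ^ i := by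
  have h1 : ∑ m ∈ Finset.Icc 1 ⌊25 * r ^ 2⌋₊, 16 * (1 / 2 : ℝ) ^ i / (√(m : ℝ) * r) =
      16 * (1 / 2) ^ i / r * ∑ m ∈ Finset.Icc 1 ⌊25 * r ^ 2⌋₊, 1 / √(m : ℝ) := by
    rw [Finset.mul_sum]
    apply Finset.sum_congr rfl
    intro m _
    rw [div_mul_div_comm, mul_one, mul_comm r]
  have h2 := SecM_sqrt ⌊25 * r ^ 2⌋₊
  have h3 : √((⌊25 * r ^ 2⌋₊ : ℕ) : ℝ) ≤ 5 * r := by
    rw [Real.sqrt_le_left (by positivity)]
    have := Nat.floor_le (show 0 ≤ 25 * r ^ 2 by positivity)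
    nlinarith
  rw [h1]
  calc 16 * (1 / 2) ^ i / r * ∑ m ∈ Finset.Icc 1 ⌊25 * r ^ 2⌋₊, 1 / √(m : ℝ) ≤ 16 * (1 / 2) ^ i / r * (10 * r) := by
        apply mul_le_mul_of_nonneg_left _ (by positivity)
        linarith
    _ = 160 * (1 / 2) ^ i := by
        field_simp
        ring

private theorem SecM_dbl {ρ : ℝ} (hρ : 1 ≤ ρ) : ∃ C : ℝ, 0 < C ∧ ∀ r : ℝ, 1000 * ρ ≤ r → ∀ (i : ℕ) (σ : ℝ),
    (σ = 1 ∨ σ = -1) → ∑ p ∈ SecM_P ρ r, ∑ q ∈ (SecM_P ρ r).filter (fun q => SecM_t r i q ≤ SecM_t r i p ∧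
      |SecM_c σ p - SecM_c σ q| ≤ 2 * SecM_t r i p), 4 * SecM_t r i q ≤ C * (1 / 2) ^ i * r * Real.log r := by
  classical
  obtain ⟨C, hC, hcnt⟩ := cnt_quad hρ
  refine ⟨640 * C, by positivity, ?_⟩
  intro r hr i σ hσ
  have hr0 : 0 < r := by linarith
  have hr1 : 1 ≤ r := by linarith
  have hlog : 0 ≤ Real.log r := Real.log_nonneg hr1
  set P := SecM_P ρ r with hP
  set F : ℕ × ℕ → Finset (ℕ × ℕ) := fun p => P.filter (fun q => SecM_t r i q ≤ SecM_t r i p ∧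
      |SecM_c σ p - SecM_c σ q| ≤ 2 * SecM_t r i p) with hF
  set tm : ℕ → ℝ := fun m => 16 * (1 / 2 : ℝ) ^ i / (√(m : ℝ) * r) with htm
  have htm0 : ∀ m, 0 ≤ tm m := by
    intro m
    simp only [htm]
    positivity
  have h1 : ∀ p ∈ P, ∑ q ∈ F p, 4 * SecM_t r i q ≤ 4 * tm p.1 * (F p).card := by
    intro p _
    calc ∑ q ∈ F p, 4 * SecM_t r i q ≤ ∑ _q ∈ F p, 4 * tm p.1 := by
          apply Finset.sum_le_sum
          intro q hq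
          have := (Finset.mem_filter.1 hq).2.1
          have h2 : SecM_t r i p = tm p.1 := rfl
          linarith
      _ = 4 * tm p.1 * (F p).card := by
          rw [Finset.sum_const, nsmul_eq_mul]
          ring
  have h2 : ∀ m ∈ Finset.Icc 1 ⌊25 * r ^ 2⌋₊, ∑ p ∈ P.filter (fun p => p.1 = m), 4 * tm p.1 * ((F p).card : ℝ) ≤
      tm m * (4 * (C * r * Real.log r)) := by
    intro m _
    have h3 : ∑ p ∈ P.filter (fun p => p.1 = m), 4 * tm p.1 * ((F p).card : ℝ) =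
        4 * tm m * ((∑ p ∈ P.filter (fun p => p.1 = m), (F p).card : ℕ) : ℝ) := by
      push_cast
      rw [Finset.mul_sum]
      apply Finset.sum_congr rfl
      intro p hp
      rw [(Finset.mem_filter.1 hp).2]
    rw [h3]
    have h4 : ((∑ p ∈ P.filter (fun p => p.1 = m), (F p).card : ℕ) : ℝ) ≤ C * r * Real.log r := by
      rcases (P.filter (fun p => p.1 = m)).eq_empty_or_nonempty with he | ⟨p0, hp0⟩
      · rw [he, Finset.sum_empty, Nat.cast_zero]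
        positivity
      · have hp1 := (Finset.mem_filter.1 hp0).2
        have hp2 := (SecM_mem hρ hr).1 (Finset.mem_filter.1 hp0).1
        rw [hp1] at hp2
        set S : Finset (ℕ × ℕ × ℕ) := ((P.filter (fun p => p.1 = m)).sigma F).image
          (fun x => (x.2.1, x.1.2, x.2.2)) with hS
        have h5 : S.card = ∑ p ∈ P.filter (fun p => p.1 = m), (F p).card := by
          rw [hS, Finset.card_image_of_injOn, Finset.card_sigma]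
          rintro ⟨⟨a1, a2⟩, ⟨b1, b2⟩⟩ hx ⟨⟨a1', a2'⟩, ⟨b1', b2'⟩⟩ hy he
          have hx1 := (Finset.mem_filter.1 (Finset.mem_sigma.1 hx).1).2
          have hy1 := (Finset.mem_filter.1 (Finset.mem_sigma.1 hy).1).2
          simp only at hx1 hy1
          simp only [Prod.mk.injEq] at he
          obtain ⟨e1, e2, e3⟩ := he
          subst e1 e2 e3
          subst hx1
          subst hy1
          rfl
        rw [← h5]
        refine hcnt r hr i m σ hσ hp2.2.2.2.1 hp2.2.2.2.2 S ?_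
        intro q hq
        rw [hS, Finset.mem_image] at hq
        obtain ⟨⟨a, b⟩, hx, rfl⟩ := hq
        have hx1 := Finset.mem_filter.1 (Finset.mem_sigma.1 hx).1
        have hx2 := Finset.mem_filter.1 (Finset.mem_sigma.1 hx).2
        simp only at hx1 hx2
        obtain ⟨ha, ham⟩ := hx1
        obtain ⟨hb, hb1, hb2⟩ := hx2
        have ha' := (SecM_mem hρ hr).1 ha
        have hb' := (SecM_mem hρ hr).1 hb
        refine ⟨?_, ha'.2.2.1, hb'.2.2.1, ?_⟩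
        · unfold SecM_t at hb1
          rw [ham] at hb1
          have hm0 : 0 < √(m : ℝ) := by linarith [hp2.2.2.2.1]
          have hb0 : 0 < √(b.1 : ℝ) := by linarith [hb'.2.2.2.1]
          have h6 : (0 : ℝ) < 16 * (1 / 2) ^ i := by positivity
          rw [div_le_div_iff_of_pos_left h6 (by positivity) (by positivity)] at hb1
          have h7 : √(m : ℝ) ≤ √(b.1 : ℝ) := le_of_mul_le_mul_right hb1 hr0
          rw [Real.sqrt_le_sqrt_iff (Nat.cast_nonneg _)] at h7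
          exact_mod_cast h7
        · unfold SecM_c SecM_t at hb2
          rw [ham] at hb2
          exact hb2
    calc 4 * tm m * ((∑ p ∈ P.filter (fun p => p.1 = m), (F p).card : ℕ) : ℝ) ≤ 4 * tm m * (C * r * Real.log r) :=
          mul_le_mul_of_nonneg_left h4 (by have := htm0 m; positivity)
      _ = tm m * (4 * (C * r * Real.log r)) := by ring
  have h3 : ∑ p ∈ P, 4 * tm p.1 * ((F p).card : ℝ) =
      ∑ m ∈ Finset.Icc 1 ⌊25 * r ^ 2⌋₊, ∑ p ∈ P.filter (fun p => p.1 = m), 4 * tm p.1 * ((F p).card : ℝ) := by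
    symm
    apply Finset.sum_fiberwise_of_maps_to
    intro p hp
    rw [hP] at hp
    unfold SecM_P at hp
    exact (Finset.mem_product.1 (Finset.mem_filter.1 hp).1).1
  calc ∑ p ∈ P, ∑ q ∈ F p, 4 * SecM_t r i q ≤ ∑ p ∈ P, 4 * tm p.1 * ((F p).card : ℝ) := Finset.sum_le_sum h1
    _ = ∑ m ∈ Finset.Icc 1 ⌊25 * r ^ 2⌋₊, ∑ p ∈ P.filter (fun p => p.1 = m), 4 * tm p.1 * ((F p).card : ℝ) := h3
    _ ≤ ∑ m ∈ Finset.Icc 1 ⌊25 * r ^ 2⌋₊, tm m * (4 * (C * r * Real.log r)) := Finset.sum_le_sum h2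
    _ = (∑ m ∈ Finset.Icc 1 ⌊25 * r ^ 2⌋₊, tm m) * (4 * (C * r * Real.log r)) := by rw [Finset.sum_mul]
    _ ≤ (160 * (1 / 2) ^ i) * (4 * (C * r * Real.log r)) :=
        mul_le_mul_of_nonneg_right (SecM_sumt hr0 i) (by positivity)
    _ = 640 * C * (1 / 2) ^ i * r * Real.log r := by ring

private theorem SecM_t_nonneg {r : ℝ} (hr : 0 < r) (i : ℕ) (p : ℕ × ℕ) : 0 ≤ SecM_t r i p := by
  unfold SecM_t
  positivity

private theorem SecM_one {ρ r : ℝ} (hρ : 1 ≤ ρ) (hr : 1000 * ρ ≤ r) (i : ℕ) :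
    ∑ p ∈ SecM_P ρ r, 2 * SecM_t r i p ≤ 4160 * ρ * (1 / 2) ^ i * r := by
  have hr0 : 0 < r := by linarith
  set J := Finset.Icc ⌈(r - 3 * ρ) ^ 2⌉₊ ⌊(r + 3 * ρ) ^ 2⌋₊ with hJ
  have h1 : SecM_P ρ r ⊆ (Finset.Icc 1 ⌊25 * r ^ 2⌋₊) ×ˢ J := by
    intro p hp
    have h2 := (SecM_mem hρ hr).1 hp
    unfold SecM_P at hp
    have h3 := (Finset.mem_product.1 (Finset.mem_filter.1 hp).1).1
    obtain ⟨e1, e2⟩ := abs_le.1 h2.2.2.1
    have e3 : √(p.2 : ℝ) ^ 2 = p.2 := Real.sq_sqrt (Nat.cast_nonneg _)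
    refine Finset.mem_product.2 ⟨h3, ?_⟩
    rw [hJ, Finset.mem_Icc]
    refine ⟨Nat.ceil_le.2 ?_, Nat.le_floor ?_⟩
    · rw [← e3]
      exact pow_le_pow_left₀ (by linarith) (by linarith) 2
    · rw [← e3]
      exact pow_le_pow_left₀ (Real.sqrt_nonneg _) (by linarith) 2
  have h2 : (J.card : ℝ) ≤ 13 * ρ * r := by
    rw [hJ, Nat.card_Icc]
    have e1 : ((⌊(r + 3 * ρ) ^ 2⌋₊ + 1 - ⌈(r - 3 * ρ) ^ 2⌉₊ : ℕ) : ℝ) ≤ (r + 3 * ρ) ^ 2 + 1 - (r - 3 * ρ) ^ 2 := by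
      have e2 := Nat.floor_le (show 0 ≤ (r + 3 * ρ) ^ 2 by positivity)
      have e3 := Nat.le_ceil ((r - 3 * ρ) ^ 2)
      rcases le_total ⌈(r - 3 * ρ) ^ 2⌉₊ (⌊(r + 3 * ρ) ^ 2⌋₊ + 1) with h | h
      · rw [Nat.cast_sub h]
        push_cast
        linarith
      · rw [Nat.sub_eq_zero_of_le h, Nat.cast_zero]
        nlinarith
    refine e1.trans ?_
    nlinarith
  calc ∑ p ∈ SecM_P ρ r, 2 * SecM_t r i p ≤ ∑ p ∈ (Finset.Icc 1 ⌊25 * r ^ 2⌋₊) ×ˢ J, 2 * SecM_t r i p := by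
        apply Finset.sum_le_sum_of_subset_of_nonneg h1
        intro p _ _
        have := SecM_t_nonneg hr0 i p
        linarith
    _ = ∑ m ∈ Finset.Icc 1 ⌊25 * r ^ 2⌋₊, (J.card : ℝ) * (2 * (16 * (1 / 2 : ℝ) ^ i / (√(m : ℝ) * r))) := by
        rw [Finset.sum_product]
        apply Finset.sum_congr rfl
        intro m _
        rw [← nsmul_eq_mul, ← Finset.sum_const]
        rfl
    _ = 2 * (J.card : ℝ) * ∑ m ∈ Finset.Icc 1 ⌊25 * r ^ 2⌋₊, 16 * (1 / 2 : ℝ) ^ i / (√(m : ℝ) * r) := by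
        rw [Finset.mul_sum]
        apply Finset.sum_congr rfl
        intro m _
        ring
    _ ≤ 2 * (13 * ρ * r) * (160 * (1 / 2) ^ i) := by
        apply mul_le_mul _ (SecM_sumt hr0 i)
        · apply Finset.sum_nonneg
          intro m _
          positivity
        · positivity
        · linarith
    _ = 4160 * ρ * (1 / 2) ^ i * r := by ring

private theorem SecM_ncast {a b c : ℕ} (h : c ≤ a + b) : ((c : ℕ) : ℝ≥0∞) ^ 2 ≤ 2 * ((a : ℕ) : ℝ≥0∞) ^ 2 + 2 * ((b : ℕ) : ℝ≥0∞) ^ 2 := by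
  have h1 : c ^ 2 ≤ 2 * a ^ 2 + 2 * b ^ 2 := by
    have h2 : c ^ 2 ≤ (a + b) ^ 2 := Nat.pow_le_pow_left h 2
    have h3 : (a + b) ^ 2 ≤ 2 * a ^ 2 + 2 * b ^ 2 := by
      zify
      nlinarith [sq_nonneg ((a : ℤ) - b)]
    exact h2.trans h3
  exact_mod_cast h1

theorem nn_meas (ρ r : ℝ) (i : ℕ) : Measurable (NN ρ r i) := by
  classical
  set Q : ℤ → Set ℝ := fun v => {d : ℝ | (2 * d * (r - 2 * ρ) - d ^ 2 ≤ v ∧ (v : ℝ) ≤ 2 * d * (r + 2 * ρ) - d ^ 2) ∧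
    uu d v ≤ (1 / 2) ^ i / d ∧ 400 * ρ ≤ |d - bb d v|} with hQ
  have hbb : ∀ v : ℤ, Measurable fun d : ℝ => bb d v := by
    intro v
    unfold bb
    fun_prop
  have huu : ∀ v : ℤ, Measurable fun d : ℝ => uu d v := by
    intro v
    unfold uu
    have h1 : Measurable fun d : ℝ => bb d v ^ 2 := (hbb v).pow_const 2
    have h2 : Measurable fun d : ℝ => ((⌈bb d v ^ 2⌉ : ℤ) : ℝ) := by
      have h3 : Measurable fun d : ℝ => ⌈bb d v ^ 2⌉ := Int.measurable_ceil.comp h1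
      exact (measurable_of_countable (fun n : ℤ => (n : ℝ))).comp h3
    exact h2.sub h1
  have hQm : ∀ v, MeasurableSet (Q v) := by
    intro v
    have q1 : MeasurableSet {d : ℝ | 2 * d * (r - 2 * ρ) - d ^ 2 ≤ (v : ℝ)} :=
      measurableSet_le (by fun_prop) measurable_const
    have q2 : MeasurableSet {d : ℝ | (v : ℝ) ≤ 2 * d * (r + 2 * ρ) - d ^ 2} :=
      measurableSet_le measurable_const (by fun_prop)
    have q3 : MeasurableSet {d : ℝ | uu d v ≤ (1 / 2) ^ i / d} :=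
      measurableSet_le (huu v) (by fun_prop)
    have q4 : MeasurableSet {d : ℝ | 400 * ρ ≤ |d - bb d v|} :=
      measurableSet_le measurable_const (measurable_id.sub (hbb v)).abs
    exact (q1.inter q2).inter (q3.inter q4)
  have hE : (fun d => ((NN ρ r i d : ℕ) : ℝ≥0∞)) = fun d => ∑' v : ℤ, (Q v).indicator (fun _ => (1 : ℝ≥0∞)) d := by
    funext d
    have h1 : ∀ v, v ∉ (JJ ρ r d).filter (fun v => uu d v ≤ (1 / 2) ^ i / d ∧ 400 * ρ ≤ |d - bb d v|) →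
        (Q v).indicator (fun _ => (1 : ℝ≥0∞)) d = 0 := by
      intro v hv
      refine Set.indicator_of_notMem ?_ _
      intro hd
      apply hv
      rw [Finset.mem_filter]
      unfold JJ
      rw [Finset.mem_Icc, Int.ceil_le, Int.le_floor]
      exact hd
    rw [tsum_eq_sum h1]
    have h2 : ∀ v ∈ (JJ ρ r d).filter (fun v => uu d v ≤ (1 / 2) ^ i / d ∧ 400 * ρ ≤ |d - bb d v|),
        (Q v).indicator (fun _ => (1 : ℝ≥0∞)) d = 1 := by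
      intro v hv
      refine Set.indicator_of_mem ?_ _
      rw [Finset.mem_filter] at hv
      unfold JJ at hv
      rw [Finset.mem_Icc, Int.ceil_le, Int.le_floor] at hv
      exact hv
    rw [Finset.sum_congr rfl h2, Finset.sum_const, nsmul_eq_mul, mul_one]
    rfl
  have hM : Measurable fun d => ((NN ρ r i d : ℕ) : ℝ≥0∞) := by
    rw [hE]
    refine Measurable.ennreal_tsum fun v => ?_
    exact measurable_const.indicator (hQm v)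
  refine measurable_to_countable' fun k => ?_
  have h3 : NN ρ r i ⁻¹' {k} = (fun d => ((NN ρ r i d : ℕ) : ℝ≥0∞)) ⁻¹' {((k : ℕ) : ℝ≥0∞)} := by
    ext d
    simp only [Set.mem_preimage, Set.mem_singleton_iff, Nat.cast_inj]
  rw [h3]
  exact hM (measurableSet_singleton _)

theorem nn_sq {ρ : ℝ} (hρ : 1 ≤ ρ) : ∃ C : ℝ, 0 < C ∧ ∀ r : ℝ, 1000 * ρ ≤ r → ∀ i : ℕ,
    ∫⁻ d in Ioc 0 (3 * r), ((NN ρ r i d : ℕ) : ℝ≥0∞) ^ 2 ≤
      ENNReal.ofReal (C * (1 / 2) ^ i * r * Real.log r) := by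
  obtain ⟨C, hC, hdbl⟩ := SecM_dbl hρ
  refine ⟨4 * C, by positivity, ?_⟩
  intro r hr i
  have hr0 : 0 < r := by linarith
  have hlog : 0 ≤ Real.log r := Real.log_nonneg (by linarith)
  have hm : ∀ σ, Measurable fun d => 2 * ((SecM_A ρ r i σ d : ℕ) : ℝ≥0∞) ^ 2 := fun σ =>
    ((SecM_meas ρ r i σ).pow_const 2).const_mul 2
  have hb : ∀ σ : ℝ, (σ = 1 ∨ σ = -1) → ∫⁻ d : ℝ, 2 * ((SecM_A ρ r i σ d : ℕ) : ℝ≥0∞) ^ 2 ≤
      ENNReal.ofReal (2 * (C * (1 / 2) ^ i * r * Real.log r)) := by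
    intro σ hσ
    rw [lintegral_const_mul _ ((SecM_meas ρ r i σ).pow_const 2), ENNReal.ofReal_mul (by norm_num)]
    have h2 : ENNReal.ofReal 2 = 2 := by norm_num
    rw [h2]
    refine mul_le_mul_right ?_ 2
    refine (sq_abs (SecM_P ρ r) (SecM_c σ) (SecM_t r i) fun p _ => SecM_t_nonneg hr0 i p).trans ?_
    exact ENNReal.ofReal_le_ofReal (hdbl r hr i σ hσ)
  calc ∫⁻ d in Ioc 0 (3 * r), ((NN ρ r i d : ℕ) : ℝ≥0∞) ^ 2 ≤
      ∫⁻ d in Ioc 0 (3 * r), (2 * ((SecM_A ρ r i 1 d : ℕ) : ℝ≥0∞) ^ 2 + 2 * ((SecM_A ρ r i (-1) d : ℕ) : ℝ≥0∞) ^ 2) := by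
        refine setLIntegral_mono ((hm 1).add (hm (-1))) fun d hd => ?_
        exact SecM_ncast (SecM_le hρ hr hd.1 hd.2 i)
    _ ≤ ∫⁻ d : ℝ, (2 * ((SecM_A ρ r i 1 d : ℕ) : ℝ≥0∞) ^ 2 + 2 * ((SecM_A ρ r i (-1) d : ℕ) : ℝ≥0∞) ^ 2) :=
        setLIntegral_le_lintegral _ _
    _ = (∫⁻ d : ℝ, 2 * ((SecM_A ρ r i 1 d : ℕ) : ℝ≥0∞) ^ 2) + ∫⁻ d : ℝ, 2 * ((SecM_A ρ r i (-1) d : ℕ) : ℝ≥0∞) ^ 2 :=
        lintegral_add_left (hm 1) _
    _ ≤ ENNReal.ofReal (2 * (C * (1 / 2) ^ i * r * Real.log r)) + ENNReal.ofReal (2 * (C * (1 / 2) ^ i * r * Real.log r)) :=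
        add_le_add (hb 1 (Or.inl rfl)) (hb (-1) (Or.inr rfl))
    _ = ENNReal.ofReal (4 * C * (1 / 2) ^ i * r * Real.log r) := by
        rw [← ENNReal.ofReal_add (by positivity) (by positivity)]
        congr 1
        ring

theorem nn_first {ρ : ℝ} (hρ : 1 ≤ ρ) : ∃ C : ℝ, 0 < C ∧ ∀ r : ℝ, 1000 * ρ ≤ r → ∀ i : ℕ,
    ∫⁻ d in Ioc 0 (3 * r), ENNReal.ofReal (√d) * ((NN ρ r i d : ℕ) : ℝ≥0∞) ≤
      ENNReal.ofReal (C * (1 / 2) ^ i * r * √r) := by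
  refine ⟨2 * 2 * (4160 * ρ), by positivity, ?_⟩
  intro r hr i
  have hr0 : 0 < r := by linarith
  have hm : ∀ σ, Measurable fun d => ((SecM_A ρ r i σ d : ℕ) : ℝ≥0∞) := fun σ => SecM_meas ρ r i σ
  have hb : ∀ σ : ℝ, ∫⁻ d : ℝ, ((SecM_A ρ r i σ d : ℕ) : ℝ≥0∞) ≤ ENNReal.ofReal (4160 * ρ * (1 / 2) ^ i * r) := by
    intro σ
    refine (le_of_eq (first_abs (SecM_P ρ r) (SecM_c σ) (SecM_t r i) fun p _ => SecM_t_nonneg hr0 i p)).trans ?_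
    exact ENNReal.ofReal_le_ofReal (SecM_one hρ hr i)
  have hs : √(3 * r) ≤ 2 * √r := by
    rw [Real.sqrt_le_left (by positivity), mul_pow, Real.sq_sqrt hr0.le]
    linarith
  calc ∫⁻ d in Ioc 0 (3 * r), ENNReal.ofReal (√d) * ((NN ρ r i d : ℕ) : ℝ≥0∞) ≤
      ∫⁻ d in Ioc 0 (3 * r), ENNReal.ofReal (2 * √r) * (((SecM_A ρ r i 1 d : ℕ) : ℝ≥0∞) + ((SecM_A ρ r i (-1) d : ℕ) : ℝ≥0∞)) := by
        refine setLIntegral_mono (((hm 1).add (hm (-1))).const_mul _) fun d hd => ?_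
        refine mul_le_mul' (ENNReal.ofReal_le_ofReal ((Real.sqrt_le_sqrt hd.2).trans hs)) ?_
        have := SecM_le hρ hr hd.1 hd.2 i
        exact_mod_cast this
    _ ≤ ∫⁻ d : ℝ, ENNReal.ofReal (2 * √r) * (((SecM_A ρ r i 1 d : ℕ) : ℝ≥0∞) + ((SecM_A ρ r i (-1) d : ℕ) : ℝ≥0∞)) :=
        setLIntegral_le_lintegral _ _
    _ = ENNReal.ofReal (2 * √r) * ((∫⁻ d : ℝ, ((SecM_A ρ r i 1 d : ℕ) : ℝ≥0∞)) + ∫⁻ d : ℝ, ((SecM_A ρ r i (-1) d : ℕ) : ℝ≥0∞)) := by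
        have hms : Measurable fun d => ((SecM_A ρ r i 1 d : ℕ) : ℝ≥0∞) + ((SecM_A ρ r i (-1) d : ℕ) : ℝ≥0∞) :=
          (hm 1).add (hm (-1))
        rw [lintegral_const_mul _ hms, lintegral_add_left (hm 1) _]
    _ ≤ ENNReal.ofReal (2 * √r) * (ENNReal.ofReal (4160 * ρ * (1 / 2) ^ i * r) + ENNReal.ofReal (4160 * ρ * (1 / 2) ^ i * r)) :=
        mul_le_mul' le_rfl (add_le_add (hb 1) (hb (-1)))
    _ = ENNReal.ofReal (2 * 2 * (4160 * ρ) * (1 / 2) ^ i * r * √r) := by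
        rw [← ENNReal.ofReal_add (by positivity) (by positivity), ← ENNReal.ofReal_mul (by positivity)]
        congr 1
        ring

end Pool.MPb9430d.Mom
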