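import Pool.Agent.Lib.MP_b9430d_co.Mom.Sym
import Pool.Agent.Lib.MP_b9430d_co.Mom.FFp
import Pool.Agent.Lib.MP_b9430d_co.Mom.FFs
import Pool.Agent.Lib.MP_b9430d_co.Mom.LocM
import Pool.Agent.Lib.MP_b9430d_co.Mom.Lsm
import Pool.Agent.Lib.MP_b9430d_co.Mom.SmB

/-!
# SgA: the smoothed counting function of a far set

`A` measurable of finite measure, `SS (ind A) ≤ n` a.e.; `sA A x = (SS (ind A) x).toReal` is measurable, nonnegative, `≤ n` a.e.
`smo_sA`: `smo N (sA A) x = ∫ t, gau N (x - t) * sA A t`; as `∫⁻`: `∫⁻ gau N (x - t) SS (ind A) t dt = ∫⁻ y in A, SS (gau N (x - ·)) y`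
(`ss_symm`) `= ∫⁻ y in A, ofReal (FF N (x - y))` (the function `gau N (x - ·)`: `SS` of it at `y` is
`(2π)⁻¹ ∫⁻ θ ∑' p ofReal (gau N (x - y - rot θ * lat p)) = ofReal (FF N (x - y))`, `p ↦ -p`, as in Lsm). `smo_sA_le`: `ff_sup` with
`X = R/4`: `‖x‖ ≤ R/2`, `‖y‖ ≥ R` so `‖x - y‖ ≥ 2X`; `(max N (R/4))^ε ≤ (max N R)^ε`, `1 + 4N/R ≤ 4(1 + N/R)`. `smo_sA_le_n`: `sA ≤ n` a.e.,
`∫ gau = 1`. `smo_sA_mass`: `∫⁻ ind K * smo N (sA A) = ∫⁻ smo N (chi K) * SS (ind A)` (Tonelli, `gau` even)
`= ∫⁻ y in A, SS (ofReal ∘ smo N (chi K)) y ≤ (2r+1)² |A|` (`ss_symm`, `ss_smo_ball`). `pair_smo`: Fubini for a bounded function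
`sA A` and an integrable `g`: `∫ smo N g * sA A = ∫ g * smo N (sA A)` (`gau` is even).
-/

set_option autoImplicit false

open MeasureTheory Complex Set Real Filter Topology
open scoped ENNReal

namespace Pool.MPb9430d.Mom

open Pool.MPb9430d Pool.MPb9430d.Rough Pool.MPb9430d.Frac

private theorem SgA_gle (N : ℝ) (x : ℂ) : gau N x ≤ N ^ 2 := by
  unfold gau
  have h : Real.exp (-(π * N ^ 2 * ‖x‖ ^ 2)) ≤ 1 := by
    rw [Real.exp_le_one_iff]
    have : 0 ≤ π * N ^ 2 * ‖x‖ ^ 2 := by positivity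
    linarith
  nlinarith [sq_nonneg N]

private theorem SgA_even (N : ℝ) (x y : ℂ) : gau N (x - y) = gau N (y - x) := by
  unfold gau
  rw [norm_sub_rev]

private theorem SgA_cir (N : ℝ) (z u : ℂ) :
    ENNReal.ofReal (cir N z u) =
      ENNReal.ofReal (2 * π)⁻¹ * ∫⁻ φ in Ioc (-π) π, ENNReal.ofReal (gau N (u + rot φ * z)) := by
  unfold cir
  rw [ENNReal.ofReal_mul (by positivity),
    intervalIntegral.integral_of_le (by linarith [Real.pi_pos]),
    ofReal_integral_eq_lintegral_ofReal]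
  · have hc : Continuous fun φ : ℝ => gau N (u + rot φ * z) :=
      (continuous_gau N).comp (continuous_const.add (continuous_rot.mul continuous_const))
    exact (hc.integrableOn_Icc).mono_set Ioc_subset_Icc_self
  · exact ae_of_all _ fun _ => gau_nonneg _ _

private theorem SgA_meas (N : ℝ) (x : ℂ) :
    Measurable fun t : ℂ => ENNReal.ofReal (gau N (x - t)) :=
  ((continuous_gau N).comp (continuous_const.sub continuous_id)).measurable.ennreal_ofReal

private theorem SgA_ss {N : ℝ} (hN : 0 < N) (x y : ℂ) :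
    SS (fun t => ENNReal.ofReal (gau N (x - t))) y = ENNReal.ofReal (FF N (x - y)) := by
  unfold SS FF
  rw [ENNReal.ofReal_tsum_of_nonneg (fun p => cir_nonneg N (lat p) (x - y))
    (summable_cir hN (x - y))]
  simp_rw [SgA_cir]
  rw [ENNReal.tsum_mul_left, ← lintegral_tsum]
  · congr 1
    refine lintegral_congr fun θ => ?_
    rw [← (Equiv.neg (ℤ × ℤ)).tsum_eq]
    refine tsum_congr fun p => ?_
    simp only [Equiv.neg_apply, lat_neg]
    congr 2
    ring
  · intro p
    exact ((continuous_gau N).comp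
      (continuous_const.add (continuous_rot.mul continuous_const))).measurable.ennreal_ofReal.aemeasurable

private theorem SgA_ind (A : Set ℂ) (hA : MeasurableSet A) (f : ℂ → ℝ≥0∞) :
    ∫⁻ y, ind A y * f y = ∫⁻ y in A, f y := by
  rw [← lintegral_indicator hA]
  refine lintegral_congr fun y => ?_
  by_cases h : y ∈ A
  · rw [ind_of_mem h, indicator_of_mem h, one_mul]
  · rw [ind_of_notMem h, indicator_of_notMem h, zero_mul]

theorem sA_facts {A : Set ℂ} {n : ℕ} (hA : MeasurableSet A) (hn : ∀ᵐ x : ℂ, SS (ind A) x ≤ n) :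
    Measurable (sA A) ∧ (∀ x, 0 ≤ sA A x) ∧ (∀ᵐ x : ℂ, sA A x ≤ n) ∧
      (∀ᵐ x : ℂ, ENNReal.ofReal (sA A x) = SS (ind A) x) := by
  refine ⟨(measurable_SS (measurable_ind hA)).ennreal_toReal, fun x => ENNReal.toReal_nonneg, ?_, ?_⟩
  · filter_upwards [hn] with x hx
    have h := ENNReal.toReal_mono (ENNReal.natCast_ne_top n) hx
    rwa [ENNReal.toReal_natCast] at h
  · filter_upwards [hn] with x hx
    exact ENNReal.ofReal_toReal (ne_top_of_le_ne_top (ENNReal.natCast_ne_top n) hx)

private theorem SgA_int {A : Set ℂ} {n : ℕ} (hA : MeasurableSet A)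
    (hn : ∀ᵐ x : ℂ, SS (ind A) x ≤ n) {N : ℝ} (hN : 0 < N) (x : ℂ) :
    Integrable fun t => gau N (x - t) * sA A t := by
  obtain ⟨hm, h0, hle, -⟩ := sA_facts hA hn
  refine Integrable.mul_bdd (c := (n : ℝ)) ((integrable_gau hN).comp_sub_left x)
    hm.aestronglyMeasurable ?_
  filter_upwards [hle] with t ht
  rwa [Real.norm_eq_abs, abs_of_nonneg (h0 t)]

private theorem SgA_of {A : Set ℂ} {n : ℕ} (hA : MeasurableSet A)
    (hn : ∀ᵐ x : ℂ, SS (ind A) x ≤ n) {N : ℝ} (hN : 0 < N) (x : ℂ) :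
    ENNReal.ofReal (smo N (sA A) x) =
      ∫⁻ t, ENNReal.ofReal (gau N (x - t)) * SS (ind A) t := by
  obtain ⟨hm, h0, hle, he⟩ := sA_facts hA hn
  unfold smo
  rw [ofReal_integral_eq_lintegral_ofReal (SgA_int hA hn hN x)
    (ae_of_all _ fun t => mul_nonneg (gau_nonneg _ _) (h0 t))]
  refine lintegral_congr_ae ?_
  filter_upwards [he] with t ht
  rw [ENNReal.ofReal_mul (gau_nonneg _ _), ht]

private theorem SgA_nonneg {A : Set ℂ} {n : ℕ} (hA : MeasurableSet A)
    (hn : ∀ᵐ x : ℂ, SS (ind A) x ≤ n) (N : ℝ) (x : ℂ) : 0 ≤ smo N (sA A) x :=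
  smo_nonneg (sA_facts hA hn).2.1 x

theorem smo_sA {A : Set ℂ} {n : ℕ} (hA : MeasurableSet A) (hfin : volume A ≠ ∞)
    (hn : ∀ᵐ x : ℂ, SS (ind A) x ≤ n) {N : ℝ} (hN : 1 ≤ N) (x : ℂ) :
    IntegrableOn (fun y => FF N (x - y)) A ∧ smo N (sA A) x = ∫ y in A, FF N (x - y) := by
  have hN0 : 0 < N := by linarith
  have hFm : Measurable fun y : ℂ => FF N (x - y) :=
    (measurable_FF hN0).comp (measurable_const.sub measurable_id)
  have hi : IntegrableOn (fun y => FF N (x - y)) A := by
    refine Measure.integrableOn_of_bounded (M := 16 * N ^ 2) hfin hFm.aestronglyMeasurable ?_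
    refine ae_of_all _ fun y => ?_
    rw [Real.norm_eq_abs, abs_of_nonneg (ff_nonneg _ _)]
    exact ff_le hN _
  refine ⟨hi, ?_⟩
  have h1 : ENNReal.ofReal (smo N (sA A) x) = ENNReal.ofReal (∫ y in A, FF N (x - y)) := by
    rw [SgA_of hA hn hN0, ss_symm (SgA_meas N x) (measurable_ind hA), SgA_ind A hA,
      ofReal_integral_eq_lintegral_ofReal hi (ae_of_all _ fun y => ff_nonneg _ _)]
    exact lintegral_congr fun y => SgA_ss hN0 x y
  have h2 : 0 ≤ ∫ y in A, FF N (x - y) := integral_nonneg fun y => ff_nonneg _ _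
  exact (ENNReal.ofReal_eq_ofReal_iff (SgA_nonneg hA hn N x) h2).1 h1

theorem smo_sA_le {ε : ℝ} (hε : 0 < ε) : ∃ C : ℝ, 0 < C ∧ ∀ (A : Set ℂ) (n : ℕ),
    MeasurableSet A → volume A ≠ ∞ → (∀ᵐ x : ℂ, SS (ind A) x ≤ n) → ∀ R N : ℝ, 4 ≤ R → 1 ≤ N →
    (∀ y ∈ A, R ≤ ‖y‖) → ∀ x : ℂ, ‖x‖ ≤ R / 2 →
    smo N (sA A) x ≤ C * (max N R) ^ ε * (1 + N / R) * volume.real A := by
  obtain ⟨C, hC, hb⟩ := ff_sup hε
  refine ⟨4 * C, by positivity, ?_⟩
  intro A n hA hfin hn R N hR hN hfar x hx
  obtain ⟨hi, he⟩ := smo_sA hA hfin hn hN x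
  rw [he]
  have hR0 : 0 < R := by linarith
  have hpt : ∀ y ∈ A, FF N (x - y) ≤ 4 * C * (max N R) ^ ε * (1 + N / R) := by
    intro y hy
    have h1 := hfar y hy
    have h2 : 2 * (R / 4) ≤ ‖x - y‖ := by
      have := norm_sub_norm_le y x
      rw [norm_sub_rev] at this
      linarith
    have h3 := hb N (R / 4) hN (by linarith) (x - y) h2
    refine h3.trans ?_
    have h4 : (max N (R / 4)) ^ ε ≤ (max N R) ^ ε := by
      apply Real.rpow_le_rpow
      · exact le_max_of_le_left (by linarith)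
      · exact max_le_max le_rfl (by linarith)
      · exact hε.le
    have h5 : 1 + N / (R / 4) ≤ 4 * (1 + N / R) := by
      have : N / (R / 4) = 4 * (N / R) := by field_simp
      rw [this]
      linarith
    have h6 : 0 ≤ (max N R) ^ ε := Real.rpow_nonneg (le_max_of_le_left (by linarith)) _
    have h7 : 0 ≤ N / (R / 4) := by positivity
    calc C * (max N (R / 4)) ^ ε * (1 + N / (R / 4))
        ≤ C * (max N R) ^ ε * (1 + N / (R / 4)) := by
          apply mul_le_mul_of_nonneg_right _ (by linarith)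
          exact mul_le_mul_of_nonneg_left h4 hC.le
      _ ≤ C * (max N R) ^ ε * (4 * (1 + N / R)) := by
          apply mul_le_mul_of_nonneg_left h5 (by positivity)
      _ = 4 * C * (max N R) ^ ε * (1 + N / R) := by ring
  calc ∫ y in A, FF N (x - y) ≤ ∫ y in A, 4 * C * (max N R) ^ ε * (1 + N / R) :=
        setIntegral_mono_on hi (integrableOn_const hfin) hA hpt
    _ = 4 * C * (max N R) ^ ε * (1 + N / R) * volume.real A := by
        rw [setIntegral_const, smul_eq_mul]
        ring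

theorem smo_sA_le_n {A : Set ℂ} {n : ℕ} (hA : MeasurableSet A) (hn : ∀ᵐ x : ℂ, SS (ind A) x ≤ n)
    {N : ℝ} (hN : 1 ≤ N) (x : ℂ) : 0 ≤ smo N (sA A) x ∧ smo N (sA A) x ≤ n := by
  have hN0 : 0 < N := by linarith
  refine ⟨SgA_nonneg hA hn N x, ?_⟩
  obtain ⟨hm, h0, hle, he⟩ := sA_facts hA hn
  unfold smo
  have hI : Integrable fun t => gau N (x - t) := (integrable_gau hN0).comp_sub_left x
  calc ∫ t, gau N (x - t) * sA A t ≤ ∫ t, gau N (x - t) * (n : ℝ) := by
        refine integral_mono_ae (SgA_int hA hn hN0 x) (hI.mul_const _) ?_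
        filter_upwards [hle] with t ht
        exact mul_le_mul_of_nonneg_left ht (gau_nonneg _ _)
    _ = n := by
        rw [integral_mul_const, integral_sub_left_eq_self (gau N) volume x, integral_gau hN0, one_mul]

theorem smo_sA_mass {A : Set ℂ} {n : ℕ} (hA : MeasurableSet A) (hfin : volume A ≠ ∞)
    (hn : ∀ᵐ x : ℂ, SS (ind A) x ≤ n) {N r : ℝ} (hN : 1 ≤ N) (hr : 0 ≤ r) :
    ∫ x in Metric.closedBall 0 r, smo N (sA A) x ≤ (2 * r + 1) ^ 2 * volume.real A := by
  have hN0 : 0 < N := by linarith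
  obtain ⟨hm, h0, hle, he⟩ := sA_facts hA hn
  rw [integral_eq_lintegral_of_nonneg_ae (ae_of_all _ fun x => SgA_nonneg hA hn N x)
    (measurable_smo hm).aestronglyMeasurable]
  apply ENNReal.toReal_le_of_le_ofReal (mul_nonneg (sq_nonneg _) measureReal_nonneg)
  have hK : MeasurableSet (Metric.closedBall (0 : ℂ) r) := Metric.isClosed_closedBall.measurableSet
  have hS : Measurable (SS (ind A)) := measurable_SS (measurable_ind hA)
  have hgm : Measurable fun p : ℂ × ℂ => ENNReal.ofReal (gau N (p.1 - p.2)) :=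
    ((continuous_gau N).comp (continuous_fst.sub continuous_snd)).measurable.ennreal_ofReal
  have hchi : ∀ t : ℂ, ∫⁻ x in Metric.closedBall (0 : ℂ) r, ENNReal.ofReal (gau N (x - t)) =
      ENNReal.ofReal (smo N (chi (Metric.closedBall 0 r)) t) := by
    intro t
    unfold smo
    have hci : Integrable fun s => gau N (t - s) * chi (Metric.closedBall 0 r) s := by
      refine Integrable.mul_bdd (c := (1 : ℝ)) ((integrable_gau hN0).comp_sub_left t) ?_ ?_
      · exact (measurable_const.indicator hK).aestronglyMeasurable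
      · refine ae_of_all _ fun s => ?_
        unfold chi
        refine (norm_indicator_le_norm_self _ _).trans ?_
        simp
    rw [ofReal_integral_eq_lintegral_ofReal hci (ae_of_all _ fun s => mul_nonneg (gau_nonneg _ _)
      (indicator_nonneg (fun _ _ => zero_le_one) _)), ← lintegral_indicator hK]
    refine lintegral_congr fun s => ?_
    unfold chi
    by_cases h : s ∈ Metric.closedBall (0 : ℂ) r
    · rw [indicator_of_mem h, indicator_of_mem h, mul_one, SgA_even]
    · rw [indicator_of_notMem h, indicator_of_notMem h, mul_zero, ENNReal.ofReal_zero]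
  have hmc : Measurable (chi (Metric.closedBall (0 : ℂ) r)) := measurable_const.indicator hK
  calc ∫⁻ x in Metric.closedBall (0 : ℂ) r, ENNReal.ofReal (smo N (sA A) x)
      = ∫⁻ x in Metric.closedBall (0 : ℂ) r, ∫⁻ t,
          ENNReal.ofReal (gau N (x - t)) * SS (ind A) t :=
        lintegral_congr fun x => SgA_of hA hn hN0 x
    _ = ∫⁻ t, ∫⁻ x in Metric.closedBall (0 : ℂ) r,
          ENNReal.ofReal (gau N (x - t)) * SS (ind A) t := by
        refine lintegral_lintegral_swap ?_
        exact (hgm.mul (hS.comp measurable_snd)).aemeasurable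
    _ = ∫⁻ t, ENNReal.ofReal (smo N (chi (Metric.closedBall 0 r)) t) * SS (ind A) t := by
        refine lintegral_congr fun t => ?_
        have hgt : Measurable fun x : ℂ => ENNReal.ofReal (gau N (x - t)) :=
          ((continuous_gau N).comp (continuous_id.sub continuous_const)).measurable.ennreal_ofReal
        rw [lintegral_mul_const _ hgt, hchi]
    _ = ∫⁻ y, ind A y * SS (fun x => ENNReal.ofReal (smo N (chi (Metric.closedBall 0 r)) x)) y :=
        ss_symm (measurable_smo hmc).ennreal_ofReal (measurable_ind hA)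
    _ ≤ ∫⁻ y, ind A y * ENNReal.ofReal ((2 * r + 1) ^ 2) :=
        lintegral_mono fun y => mul_le_mul' le_rfl (ss_smo_ball hN0 hr y)
    _ = ENNReal.ofReal ((2 * r + 1) ^ 2 * volume.real A) := by
        rw [lintegral_mul_const _ (measurable_ind hA), lintegral_ind hA,
          ENNReal.ofReal_mul (sq_nonneg _), mul_comm]
        congr 1
        exact (ENNReal.ofReal_toReal hfin).symm

theorem pair_smo {A : Set ℂ} {n : ℕ} (hA : MeasurableSet A) (hn : ∀ᵐ x : ℂ, SS (ind A) x ≤ n)
    {N : ℝ} (hN : 1 ≤ N) {g : ℂ → ℝ} (hg : Measurable g) (hi : Integrable g) :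
    ∫ x, smo N g x * sA A x = ∫ x, g x * smo N (sA A) x := by
  have hN0 : 0 < N := by linarith
  obtain ⟨hm, h0, hle, he⟩ := sA_facts hA hn
  set s : ℂ → ℝ := fun x => min (sA A x) n with hs
  have hsm : Measurable s := hm.min measurable_const
  have hsn : ∀ x, ‖s x‖ ≤ n := by
    intro x
    rw [Real.norm_eq_abs, abs_of_nonneg (le_min (h0 x) (Nat.cast_nonneg n))]
    exact min_le_right _ _
  have hsa : ∀ᵐ x : ℂ, s x = sA A x := by
    filter_upwards [hle] with x hx
    exact min_eq_left hx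
  have h1 : ∀ x, smo N (sA A) x = smo N s x := by
    intro x
    unfold smo
    refine integral_congr_ae ?_
    filter_upwards [hsa] with t ht
    rw [ht]
  have h2 : ∫ x, smo N g x * sA A x = ∫ x, smo N g x * s x := by
    refine integral_congr_ae ?_
    filter_upwards [hsa] with t ht
    rw [ht]
  rw [h2]
  simp_rw [h1]
  have hI : Integrable (fun p : ℂ × ℂ => g p.2 * gau N (p.1 - p.2)) (volume.prod volume) :=
    hi.convolution_integrand (ContinuousLinearMap.mul ℝ ℝ) (integrable_gau hN0)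
  have hJ : Integrable (fun p : ℂ × ℂ => g p.2 * gau N (p.1 - p.2) * s p.1)
      (volume.prod volume) := by
    refine hI.mul_bdd (c := (n : ℝ)) (hsm.comp measurable_fst).aestronglyMeasurable ?_
    exact ae_of_all _ fun p => hsn p.1
  calc ∫ x, smo N g x * s x = ∫ x, ∫ t, g t * gau N (x - t) * s x := by
        refine integral_congr_ae (ae_of_all _ fun x => ?_)
        simp only [smo]
        rw [← integral_mul_const]
        refine integral_congr_ae (ae_of_all _ fun t => ?_)
        simp only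
        ring
    _ = ∫ t, ∫ x, g t * gau N (x - t) * s x := integral_integral_swap hJ
    _ = ∫ t, g t * smo N s t := by
        refine integral_congr_ae (ae_of_all _ fun t => ?_)
        simp only [smo]
        rw [← integral_const_mul]
        refine integral_congr_ae (ae_of_all _ fun x => ?_)
        simp only
        rw [SgA_even N t x]
        ring

end Pool.MPb9430d.Mom
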