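import Pool.Agent.Lib.MP_b9430d_co.Mom.Defs

/-!
# Sym: the operators SS and SP

Measurability: `(y, θ) ↦ ∑' p, g (y + rot θ * lat p)` is measurable (`Measurable.ennreal_tsum`, `measurable_rot`),
`Measurable.lintegral_prod_right'`. Symmetry: `∫⁻ x, f x * SS g x = (2π)⁻¹ ∫⁻ θ ∑' p ∫⁻ x, f x * g (x + rot θ * lat p)`
(`lintegral_lintegral_swap`, `lintegral_tsum`), translate `x ↦ x - rot θ * lat p` (`lintegral_add_right_eq_self`) and
substitute `p ↦ -p` (`Equiv.neg`, `lat_neg`). `ss_eq`: split off `p = 0` (`lat_zero` in Rough/Escape): the sum is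
`g y + ∑' p, if p = 0 then 0 else ..` (`ENNReal.tsum_eq_add_tsum_ite`), the constant `g y` has mean `g y`
(`Real.volume_Ioc`, length `2π`). `ss_congr_ae`: if `f = g` a.e. then `∫⁻ ind A * SS f = ∫⁻ f * SS (ind A)`, or directly:
for every `θ` and a.e. `y` all the values agree (countably many translations), then Fubini.
-/

set_option autoImplicit false

open MeasureTheory Complex Set Real Filter Topology
open scoped ENNReal

namespace Pool.MPb9430d.Mom

open Pool.MPb9430d Pool.MPb9430d.Rough Pool.MPb9430d.Frac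

/-- Weighted form of `SS`. -/
private noncomputable def symK (k : ℤ × ℤ → ℝ≥0∞) (g : ℂ → ℝ≥0∞) (y : ℂ) : ℝ≥0∞ :=
  ENNReal.ofReal (2 * π)⁻¹ * ∫⁻ θ in Ioc (-π) π, ∑' p : ℤ × ℤ, k p * g (y + rot θ * lat p)

private theorem sym_SS (g : ℂ → ℝ≥0∞) (y : ℂ) : SS g y = symK (fun _ => 1) g y := by
  unfold SS symK
  simp only [one_mul]

private theorem sym_SP (g : ℂ → ℝ≥0∞) (y : ℂ) :
    SP g y = symK (fun p => if p = 0 then 0 else 1) g y := by
  unfold SP symK
  simp only [ite_mul, zero_mul, one_mul]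

private theorem sym_meas0 (k : ℤ × ℤ → ℝ≥0∞) {g : ℂ → ℝ≥0∞} (hg : Measurable g) :
    Measurable (fun q : ℂ × ℝ => ∑' p : ℤ × ℤ, k p * g (q.1 + rot q.2 * lat p)) := by
  refine Measurable.ennreal_tsum (fun p => ?_)
  refine Measurable.const_mul ?_ _
  exact hg.comp (measurable_fst.add ((measurable_rot.comp measurable_snd).mul_const _))

private theorem sym_meas1 (k : ℤ × ℤ → ℝ≥0∞) {g : ℂ → ℝ≥0∞} (hg : Measurable g) (y : ℂ) :
    Measurable (fun θ : ℝ => ∑' p : ℤ × ℤ, k p * g (y + rot θ * lat p)) :=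
  (sym_meas0 k hg).comp (measurable_const.prodMk measurable_id)

private theorem sym_meas (k : ℤ × ℤ → ℝ≥0∞) {g : ℂ → ℝ≥0∞} (hg : Measurable g) :
    Measurable (symK k g) := by
  unfold symK
  exact (Measurable.lintegral_prod_right' (ν := volume.restrict (Ioc (-π) π))
    (sym_meas0 k hg)).const_mul _

private theorem sym_expand (k : ℤ × ℤ → ℝ≥0∞) {f g : ℂ → ℝ≥0∞} (hf : Measurable f)
    (hg : Measurable g) :
    ∫⁻ x, f x * symK k g x = ENNReal.ofReal (2 * π)⁻¹ * ∫⁻ θ in Ioc (-π) π,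
      ∑' p : ℤ × ℤ, k p * ∫⁻ x, f x * g (x + rot θ * lat p) := by
  have h1 : ∀ x, f x * symK k g x = ENNReal.ofReal (2 * π)⁻¹ * ∫⁻ θ in Ioc (-π) π,
      f x * ∑' p : ℤ × ℤ, k p * g (x + rot θ * lat p) := by
    intro x
    unfold symK
    rw [lintegral_const_mul _ (sym_meas1 k hg x)]
    ring
  simp only [h1]
  rw [lintegral_const_mul' _ _ ENNReal.ofReal_ne_top]
  congr 1
  rw [lintegral_lintegral_swap]
  · refine lintegral_congr (fun θ => ?_)
    have h2 : ∀ x, f x * ∑' p : ℤ × ℤ, k p * g (x + rot θ * lat p)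
        = ∑' p : ℤ × ℤ, k p * (f x * g (x + rot θ * lat p)) := by
      intro x
      rw [← ENNReal.tsum_mul_left]
      refine tsum_congr (fun p => ?_)
      ring
    simp only [h2]
    have h3 : ∀ p : ℤ × ℤ, Measurable (fun x => f x * g (x + rot θ * lat p)) := fun p =>
      hf.mul (hg.comp (measurable_id.add_const _))
    rw [lintegral_tsum (fun p => ((h3 p).const_mul _).aemeasurable)]
    refine tsum_congr (fun p => ?_)
    rw [lintegral_const_mul _ (h3 p)]
  · exact ((hf.comp measurable_fst).mul (sym_meas0 k hg)).aemeasurable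

private theorem sym_shift {f g : ℂ → ℝ≥0∞} (a : ℂ) :
    ∫⁻ x, f x * g (x + a) = ∫⁻ x, g x * f (x + -a) := by
  have h := lintegral_add_right_eq_self (μ := (volume : Measure ℂ))
    (fun x => f (x + -a) * g x) a
  have e1 : ∀ x : ℂ, f (x + a + -a) * g (x + a) = f x * g (x + a) := by
    intro x
    rw [add_neg_cancel_right]
  simp only [e1] at h
  rw [h]
  refine lintegral_congr (fun x => ?_)
  ring

private theorem sym_symm (k : ℤ × ℤ → ℝ≥0∞) (hk : ∀ p, k (-p) = k p) {f g : ℂ → ℝ≥0∞}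
    (hf : Measurable f) (hg : Measurable g) :
    ∫⁻ x, f x * symK k g x = ∫⁻ x, g x * symK k f x := by
  rw [sym_expand k hf hg, sym_expand k hg hf]
  congr 1
  refine lintegral_congr (fun θ => ?_)
  rw [← (Equiv.neg (ℤ × ℤ)).tsum_eq (fun p => k p * ∫⁻ x, g x * f (x + rot θ * lat p))]
  refine tsum_congr (fun p => ?_)
  rw [sym_shift (rot θ * lat p)]
  rw [Equiv.neg_apply, hk, lat_neg, mul_neg]

private theorem sym_add (k : ℤ × ℤ → ℝ≥0∞) {f g : ℂ → ℝ≥0∞} (hf : Measurable f) (y : ℂ) :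
    symK k (fun x => f x + g x) y = symK k f y + symK k g y := by
  unfold symK
  rw [← mul_add, ← lintegral_add_left (sym_meas1 k hf y)]
  congr 1
  refine lintegral_congr (fun θ => ?_)
  rw [← ENNReal.tsum_add]
  refine tsum_congr (fun p => ?_)
  ring

private theorem sym_mono (k : ℤ × ℤ → ℝ≥0∞) {f g : ℂ → ℝ≥0∞} (h : ∀ x, f x ≤ g x) (y : ℂ) :
    symK k f y ≤ symK k g y := by
  unfold symK
  refine mul_le_mul' le_rfl ?_
  refine lintegral_mono (fun θ => ?_)
  refine ENNReal.tsum_le_tsum (fun p => ?_)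
  exact mul_le_mul' le_rfl (h _)

theorem measurable_SS {g : ℂ → ℝ≥0∞} (hg : Measurable g) : Measurable (SS g) := by
  have h : SS g = symK (fun _ => 1) g := funext (sym_SS g)
  rw [h]
  exact sym_meas _ hg

theorem measurable_SP {g : ℂ → ℝ≥0∞} (hg : Measurable g) : Measurable (SP g) := by
  have h : SP g = symK (fun p => if p = 0 then 0 else 1) g := funext (sym_SP g)
  rw [h]
  exact sym_meas _ hg

theorem ss_symm {f g : ℂ → ℝ≥0∞} (hf : Measurable f) (hg : Measurable g) :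
    ∫⁻ x, f x * SS g x = ∫⁻ x, g x * SS f x := by
  simp only [sym_SS]
  exact sym_symm _ (fun _ => rfl) hf hg

theorem sp_symm {f g : ℂ → ℝ≥0∞} (hf : Measurable f) (hg : Measurable g) :
    ∫⁻ x, f x * SP g x = ∫⁻ x, g x * SP f x := by
  simp only [sym_SP]
  refine sym_symm _ (fun p => ?_) hf hg
  simp only [neg_eq_zero]

theorem ss_mono {f g : ℂ → ℝ≥0∞} (h : ∀ x, f x ≤ g x) (y : ℂ) : SS f y ≤ SS g y := by
  rw [sym_SS, sym_SS]
  exact sym_mono _ h y

theorem sp_mono {f g : ℂ → ℝ≥0∞} (h : ∀ x, f x ≤ g x) (y : ℂ) : SP f y ≤ SP g y := by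
  rw [sym_SP, sym_SP]
  exact sym_mono _ h y

theorem ss_add {f g : ℂ → ℝ≥0∞} (hf : Measurable f) (hg : Measurable g) (y : ℂ) :
    SS (fun x => f x + g x) y = SS f y + SS g y := by
  rw [sym_SS, sym_SS, sym_SS]
  exact sym_add _ hf y

theorem sp_add {f g : ℂ → ℝ≥0∞} (hf : Measurable f) (hg : Measurable g) (y : ℂ) :
    SP (fun x => f x + g x) y = SP f y + SP g y := by
  rw [sym_SP, sym_SP, sym_SP]
  exact sym_add _ hf y

theorem ss_eq {g : ℂ → ℝ≥0∞} (hg : Measurable g) (y : ℂ) : SS g y = g y + SP g y := by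
  unfold SS SP
  have h1 : ∀ θ : ℝ, ∑' p : ℤ × ℤ, g (y + rot θ * lat p)
      = g y + ∑' p : ℤ × ℤ, (if p = 0 then 0 else g (y + rot θ * lat p)) := by
    intro θ
    rw [ENNReal.tsum_eq_add_tsum_ite (0 : ℤ × ℤ), lat_zero, mul_zero, add_zero]
    refine congrArg _ (tsum_congr (fun p => ?_))
    by_cases hp : p = 0
    · rw [if_pos hp, if_pos hp]
    · rw [if_neg hp, if_neg hp]
  simp only [h1]
  rw [lintegral_add_left measurable_const, mul_add]
  congr 1
  rw [setLIntegral_const, Real.volume_Ioc, mul_comm (g y), ← mul_assoc,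
    ← ENNReal.ofReal_mul (by positivity)]
  have h2 : (2 * π)⁻¹ * (π - -π) = 1 := by
    field_simp
    ring
  rw [h2, ENNReal.ofReal_one, one_mul]

theorem sp_le_ss (g : ℂ → ℝ≥0∞) (y : ℂ) : SP g y ≤ SS g y := by
  unfold SP SS
  refine mul_le_mul' le_rfl ?_
  refine lintegral_mono (fun θ => ?_)
  refine ENNReal.tsum_le_tsum (fun p => ?_)
  split_ifs
  · exact zero_le
  · exact le_rfl

end Pool.MPb9430d.Mom
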