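import Pool.Agent.Lib.MP_b9430d_co.Mom.SecM

/-!
# ThL: the layers of Th

`d > 0`. For `v` in the index set of `Th` (`uu ≤ 1/d`): if `uu = 0` the term `1/√0 = 0`; otherwise choose `i` with `2^(-(i+1))/d < uu ≤ 2^(-i)/d`: the term is
`≤ √(2^(i+1) d)`, and `v` is counted in `NN ρ r i d`. So `Th ≤ (1/d) ∑_i √(2^(i+1) d) NN_i = ∑_i √(2^(i+1)/d) NN_i` (in `ℝ≥0∞`).
-/

set_option autoImplicit false

open MeasureTheory Complex Set Real Filter Topology
open scoped ENNReal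

namespace Pool.MPb9430d.Mom

open Pool.MPb9430d Pool.MPb9430d.Rough Pool.MPb9430d.Frac

private theorem ThL_level {d u : ℝ} (hd : 0 < d) (hu : 0 < u) (hu1 : u ≤ 1 / d) :
    ∃ i : ℕ, u ≤ (1 / 2) ^ i / d ∧ 1 / d * (1 / √u) ≤ √(2 ^ (i + 1) / d) := by
  have h1 : 0 < u * d := mul_pos hu hd
  have h2 : u * d ≤ 1 := by
    rw [le_div_iff₀ hd] at hu1
    exact hu1
  obtain ⟨i, hi1, hi2⟩ := exists_nat_pow_near_of_lt_one h1 h2 (y := (1 / 2 : ℝ)) (by norm_num) (by norm_num)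
  refine ⟨i, ?_, ?_⟩
  · rw [le_div_iff₀ hd]
    exact hi2
  · have h3 : 0 < √u := Real.sqrt_pos.mpr hu
    have h4 : 1 / d * (1 / √u) = √(1 / (d ^ 2 * u)) := by
      rw [Real.sqrt_div zero_le_one, Real.sqrt_one, Real.sqrt_mul (by positivity),
        Real.sqrt_sq hd.le]
      field_simp
    rw [h4]
    refine Real.sqrt_le_sqrt ?_
    rw [div_le_div_iff₀ (by positivity) hd]
    have h5 : (1 : ℝ) ≤ 2 ^ (i + 1) * (u * d) := by
      have h6 : (2 : ℝ) ^ (i + 1) * (1 / 2) ^ (i + 1) = 1 := by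
        rw [← mul_pow]
        norm_num
      calc (1 : ℝ) = 2 ^ (i + 1) * (1 / 2) ^ (i + 1) := h6.symm
        _ ≤ 2 ^ (i + 1) * (u * d) := mul_le_mul_of_nonneg_left hi1.le (by positivity)
    calc 1 * d ≤ 2 ^ (i + 1) * (u * d) * d := mul_le_mul_of_nonneg_right h5 hd.le
      _ = 2 ^ (i + 1) * (d ^ 2 * u) := by ring

theorem th_le {ρ r d : ℝ} (hd : 0 < d) : ENNReal.ofReal (Th ρ r d) ≤
    ∑' i : ℕ, ENNReal.ofReal (√(2 ^ (i + 1) / d)) * ((NN ρ r i d : ℕ) : ℝ≥0∞) := by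
  classical
  set F : Finset ℤ := (JJ ρ r d).filter (fun v => uu d v ≤ 1 / d ∧ 400 * ρ ≤ |d - bb d v|) with hF
  set g : ℕ → ℤ → ℝ≥0∞ := fun i v =>
    if uu d v ≤ (1 / 2) ^ i / d then ENNReal.ofReal (√(2 ^ (i + 1) / d)) else 0 with hg
  have h1 : ENNReal.ofReal (Th ρ r d) = ∑ v ∈ F, ENNReal.ofReal (1 / d * (1 / √(uu d v))) := by
    unfold Th
    rw [← hF, Finset.mul_sum, ENNReal.ofReal_sum_of_nonneg]
    intro v _
    positivity
  have h2 : ∀ v ∈ F, ENNReal.ofReal (1 / d * (1 / √(uu d v))) ≤ ∑' i : ℕ, g i v := by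
    intro v hv
    rw [hF, Finset.mem_filter] at hv
    rcases (uu_nonneg d v).eq_or_lt with h0 | h0
    · rw [← h0, Real.sqrt_zero, div_zero, mul_zero, ENNReal.ofReal_zero]
      exact zero_le
    · obtain ⟨i, hi1, hi2⟩ := ThL_level hd h0 hv.2.1
      refine le_trans ?_ (ENNReal.le_tsum i)
      rw [hg]
      show _ ≤ if uu d v ≤ (1 / 2) ^ i / d then ENNReal.ofReal (√(2 ^ (i + 1) / d)) else 0
      rw [if_pos hi1]
      exact ENNReal.ofReal_le_ofReal hi2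
  rw [h1]
  refine (Finset.sum_le_sum h2).trans ?_
  rw [← Summable.tsum_finsetSum fun _ _ => ENNReal.summable]
  refine ENNReal.tsum_le_tsum fun i => ?_
  have h3 : ∑ v ∈ F, g i v = ENNReal.ofReal (√(2 ^ (i + 1) / d)) *
      (((F.filter fun v => uu d v ≤ (1 / 2) ^ i / d).card : ℕ) : ℝ≥0∞) := by
    rw [hg]
    show ∑ v ∈ F, (if uu d v ≤ (1 / 2) ^ i / d then ENNReal.ofReal (√(2 ^ (i + 1) / d)) else 0) = _
    rw [← Finset.sum_filter, Finset.sum_const, nsmul_eq_mul, mul_comm]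
  rw [h3]
  gcongr
  unfold NN
  refine Finset.card_le_card fun v hv => ?_
  rw [Finset.mem_filter, hF, Finset.mem_filter] at hv
  rw [Finset.mem_filter]
  exact ⟨hv.1.1, hv.2, hv.1.2.2⟩

end Pool.MPb9430d.Mom
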