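import Pool.Agent.Lib.MP_b9430d_co.Mom.Defs

/-!
# VPair: from `v` to a pair of circles (P4)

`b = bb d v ∈ [r - 2ρ, r + 2ρ]` (`mem_JJ`), `a = d - b`, `m' = ⌈b²⌉`, `m = m' - v`. `b² - a² = d (2b - d) = v`, so `m - a² = m' - b² = u = uu d v ∈ [0,1)`, `m ≥ a² ≥ 0`.
`b ≤ √m' ≤ b + 1`, `|a| ≤ √m ≤ |a| + 1`, `|a| ≤ max d b`. If `a ≥ 0`: `0 ≤ √m + √m' - d = (√m - a) + (√m' - b) ≤ u (1/√m + 1/√m')`, `d ≥ b ≥ r/2` so
`u ≤ 2 2⁻ⁱ/r`, `√m ≤ 5r`, `√m' ≥ 99r/100`: `≤ 16 2⁻ⁱ/(√m r)`. If `a < 0`: `d = b - |a|`, `0 ≤ d - (√m' - √m) = (√m - |a|) - (√m' - b)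
= u (1/(√m+|a|) - 1/(√m'+b)) = u (√m' + b - √m - |a|)/((√m+|a|)(√m'+b)) ≤ u 2d/(√m √m')` (`√m' - √m ≤ d`: from the first inequality; `b - |a| = d`), `u ≤ 2⁻ⁱ/d`.
-/

set_option autoImplicit false

open MeasureTheory Complex Set Real Filter Topology
open scoped ENNReal

namespace Pool.MPb9430d.Mom

open Pool.MPb9430d Pool.MPb9430d.Rough Pool.MPb9430d.Frac

/-- Case `a ≥ 0`. -/
private theorem case_pos {r d a b p q u E : ℝ} (hr : 0 < r) (hE : 0 ≤ E)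
    (ha : 0 ≤ a) (hb : 9 / 10 * r ≤ b) (hd : d = a + b) (hp : 0 < p) (hq : 0 < q)
    (hu : u * d ≤ E) (hpa : p ^ 2 = a ^ 2 + u) (hqb : q ^ 2 = b ^ 2 + u) (hu0 : 0 ≤ u)
    (hp5 : p ≤ 5 * r) : |d - (q + p)| ≤ 16 * E / (p * r) := by
  have hap : a ≤ p := by
    have : a ^ 2 ≤ p ^ 2 := by rw [hpa]; linarith
    exact (pow_le_pow_iff_left₀ ha hp.le two_ne_zero).1 this
  have hb0 : 0 ≤ b := by linarith
  have hbq : b ≤ q := by
    have : b ^ 2 ≤ q ^ 2 := by rw [hqb]; linarith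
    exact (pow_le_pow_iff_left₀ hb0 hq.le two_ne_zero).1 this
  have e1 : (p - a) * p ≤ u := by nlinarith
  have e2 : (q - b) * q ≤ u := by nlinarith
  have e3 : (q - b) * p ≤ 6 * u := by
    have h1 : p ≤ 6 * q := by linarith
    calc (q - b) * p ≤ (q - b) * (6 * q) := mul_le_mul_of_nonneg_left h1 (by linarith)
      _ = 6 * ((q - b) * q) := by ring
      _ ≤ 6 * u := by linarith
  rw [abs_sub_comm, abs_of_nonneg (by rw [hd]; linarith), le_div_iff₀ (by positivity)]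
  have e4 : u * (9 / 10 * r) ≤ E := by
    calc u * (9 / 10 * r) ≤ u * d := mul_le_mul_of_nonneg_left (by linarith) hu0
      _ ≤ E := hu
  calc (q + p - d) * (p * r) = ((p - a) * p + (q - b) * p) * r := by rw [hd]; ring
    _ ≤ (u + 6 * u) * r := mul_le_mul_of_nonneg_right (by linarith) hr.le
    _ = 70 / 9 * (u * (9 / 10 * r)) := by ring
    _ ≤ 70 / 9 * E := by linarith
    _ ≤ 16 * E := by linarith

/-- Case `a = -α < 0`. -/
private theorem case_neg {r d α b p q u E : ℝ} (hr : 0 < r) (hE : 0 ≤ E)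
    (hα : 0 < α) (hb : 9 / 10 * r ≤ b) (hd : d = b - α) (hd0 : 0 < d) (hp : 0 < p) (hq : 0 < q)
    (hu : u * d ≤ E) (hpa : p ^ 2 = α ^ 2 + u) (hqb : q ^ 2 = b ^ 2 + u) (hu0 : 0 ≤ u) :
    |d - (q - p)| ≤ 16 * E / (p * r) := by
  have hb0 : 0 < b := by linarith
  have hap : α ≤ p := by
    have : α ^ 2 ≤ p ^ 2 := by rw [hpa]; linarith
    exact (pow_le_pow_iff_left₀ hα.le hp.le two_ne_zero).1 this
  have hbq : b ≤ q := by
    have : b ^ 2 ≤ q ^ 2 := by rw [hqb]; linarith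
    exact (pow_le_pow_iff_left₀ hb0.le hq.le two_ne_zero).1 this
  have hpq : p ≤ q := by
    have : p ^ 2 ≤ q ^ 2 := by
      rw [hpa, hqb]
      have : α ^ 2 ≤ b ^ 2 := pow_le_pow_left₀ hα.le (by linarith) 2
      linarith
    exact (pow_le_pow_iff_left₀ hp.le hq.le two_ne_zero).1 this
  set x := p - α with hx
  set y := q - b with hy
  have hx1 : x * (p + α) = u := by rw [hx]; nlinarith
  have hy1 : y * (q + b) = u := by rw [hy]; nlinarith
  have hy0 : 0 ≤ y := by linarith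
  have hpα : 0 < p + α := by linarith
  have hqb0 : 0 < q + b := by linarith
  have hxy : y ≤ x := by
    have h1 : y * (p + α) ≤ x * (p + α) := by
      rw [hx1, ← hy1]
      exact mul_le_mul_of_nonneg_left (by linarith) hy0
    exact le_of_mul_le_mul_right h1 hpα
  have hD : d - (q - p) = x - y := by rw [hx, hy, hd]; ring
  rw [hD, abs_of_nonneg (by linarith), le_div_iff₀ (by positivity)]
  have e1 : (x - y) * (p + α) * (q + b) = u * (q + b - p - α) := by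
    calc (x - y) * (p + α) * (q + b) = (x * (p + α)) * (q + b) - (y * (q + b)) * (p + α) := by ring
      _ = u * (q + b - p - α) := by rw [hx1, hy1]; ring
  have e2 : q + b - p - α ≤ 2 * d := by linarith
  have e3 : (x - y) * (p + α) * (q + b) ≤ 2 * E := by
    rw [e1]
    calc u * (q + b - p - α) ≤ u * (2 * d) := mul_le_mul_of_nonneg_left e2 hu0
      _ = 2 * (u * d) := by ring
      _ ≤ 2 * E := by linarith
  have e4 : (x - y) * (p * r) ≤ (x - y) * (p + α) * (q + b) := by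
    rw [mul_assoc]
    apply mul_le_mul_of_nonneg_left _ (by linarith)
    exact mul_le_mul (by linarith) (by linarith) hr.le hpα.le
  linarith

theorem v_pair {ρ r d : ℝ} (hρ : 1 ≤ ρ) (hr : 1000 * ρ ≤ r) (hd : 0 < d) (hd3 : d ≤ 3 * r)
    (i : ℕ) {v : ℤ} (hv : v ∈ JJ ρ r d) (hu : uu d v ≤ (1 / 2) ^ i / d)
    (ha : 400 * ρ ≤ |d - bb d v|) : ∃ m m' : ℕ, (m' : ℤ) - m = v ∧ 1 ≤ m ∧ 1 ≤ m' ∧
      |√(m' : ℝ) - r| ≤ 3 * ρ ∧ 400 * ρ ≤ √(m : ℝ) ∧ √(m : ℝ) ≤ 5 * r ∧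
      (|d - (√(m' : ℝ) - √(m : ℝ))| ≤ 16 * (1 / 2) ^ i / (√(m : ℝ) * r) ∨
        |d - (√(m' : ℝ) + √(m : ℝ))| ≤ 16 * (1 / 2) ^ i / (√(m : ℝ) * r)) := by
  have hr0 : 0 < r := by linarith
  have hbr := (mem_JJ hd).1 hv
  obtain ⟨hb1, hb2⟩ := abs_le.1 hbr
  have hu0 := uu_nonneg d v
  have hu1 := uu_lt_one d v
  have hbdef : 2 * d * bb d v = d ^ 2 + v := by unfold bb; field_simp
  have huc : (⌈bb d v ^ 2⌉ : ℝ) = bb d v ^ 2 + uu d v := by unfold uu; ring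
  set b := bb d v with hb
  set u := uu d v with hudef
  have hb0 : 0 < b := by linarith
  -- the two integers
  have hM'pos : 0 < ⌈b ^ 2⌉ := Int.ceil_pos.2 (by positivity)
  have hM : ((⌈b ^ 2⌉ - v : ℤ) : ℝ) = (d - b) ^ 2 + u := by
    push_cast
    rw [huc]
    linarith
  have hasq : (400 * ρ) ^ 2 ≤ (d - b) ^ 2 := by
    rw [← sq_abs (d - b)]
    exact pow_le_pow_left₀ (by linarith) ha 2
  have hMpos : 0 < ⌈b ^ 2⌉ - v := by
    have : (0 : ℝ) < ((⌈b ^ 2⌉ - v : ℤ) : ℝ) := by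
      rw [hM]
      have : 0 < (400 * ρ) ^ 2 := by positivity
      linarith
    exact_mod_cast this
  obtain ⟨m, hm⟩ := Int.eq_ofNat_of_zero_le hMpos.le
  obtain ⟨m', hm'⟩ := Int.eq_ofNat_of_zero_le hM'pos.le
  have hmR : (m : ℝ) = (d - b) ^ 2 + u := by
    rw [← hM, hm]; push_cast; rfl
  have hm'R : (m' : ℝ) = b ^ 2 + u := by
    rw [← huc, hm']; push_cast; rfl
  have hm1 : 1 ≤ m := by omega
  have hm'1 : 1 ≤ m' := by omega
  have hmpos : (0 : ℝ) < m := by exact_mod_cast hm1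
  have hm'pos : (0 : ℝ) < m' := by exact_mod_cast hm'1
  have hp : 0 < √(m : ℝ) := Real.sqrt_pos.2 hmpos
  have hq : 0 < √(m' : ℝ) := Real.sqrt_pos.2 hm'pos
  have hp2 : √(m : ℝ) ^ 2 = (d - b) ^ 2 + u := by rw [Real.sq_sqrt hmpos.le, hmR]
  have hq2 : √(m' : ℝ) ^ 2 = b ^ 2 + u := by rw [Real.sq_sqrt hm'pos.le, hm'R]
  have hE : (0 : ℝ) ≤ (1 / 2) ^ i := by positivity
  have hud : u * d ≤ (1 / 2) ^ i := by rwa [le_div_iff₀ hd] at hu
  have habs : |d - b| ≤ 3 * r := by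
    rw [abs_le]; constructor <;> linarith
  have hp5 : √(m : ℝ) ≤ 5 * r := by
    have h1 : √(m : ℝ) ^ 2 ≤ (5 * r) ^ 2 := by
      rw [hp2, ← sq_abs (d - b)]
      have h2 : |d - b| ^ 2 ≤ (3 * r) ^ 2 := pow_le_pow_left₀ (abs_nonneg _) habs 2
      nlinarith
    exact (pow_le_pow_iff_left₀ hp.le (by positivity) two_ne_zero).1 h1
  refine ⟨m, m', by omega, hm1, hm'1, ?_, ?_, hp5, ?_⟩
  · have h1 : b ≤ √(m' : ℝ) := by
      have : b ^ 2 ≤ √(m' : ℝ) ^ 2 := by rw [hq2]; linarith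
      exact (pow_le_pow_iff_left₀ hb0.le hq.le two_ne_zero).1 this
    have h2 : √(m' : ℝ) ≤ b + 1 := by
      have : √(m' : ℝ) ^ 2 ≤ (b + 1) ^ 2 := by rw [hq2]; nlinarith
      exact (pow_le_pow_iff_left₀ hq.le (by linarith) two_ne_zero).1 this
    rw [abs_le]
    constructor <;> linarith
  · have : (400 * ρ) ^ 2 ≤ √(m : ℝ) ^ 2 := by rw [hp2]; linarith
    exact (pow_le_pow_iff_left₀ (by linarith) hp.le two_ne_zero).1 this
  · rcases le_or_gt 0 (d - b) with h | h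
    · right
      exact case_pos (a := d - b) (b := b) (u := u) hr0 hE h (by linarith) (by ring) hp hq hud hp2 hq2
        hu0 hp5
    · left
      exact case_neg (α := b - d) (b := b) (u := u) hr0 hE (by linarith) (by linarith) (by ring) hd hp
        hq hud (by rw [hp2]; ring) hq2 hu0

end Pool.MPb9430d.Mom
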