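import Pool.Agent.Lib.MP_b9430d_co.Mom.Sym
import Pool.Agent.Lib.MP_b9430d_co.Frac.RepB
import Pool.Agent.Lib.MP_b9430d_co.Frac.IntS

/-!
# XiR: from lattice points to circles

`rep_bound` (Frac/RepB) with `ε/4`: at most `C m^(ε/4)` lattice points have `‖lat p‖² = m` (`norm_lat_sq`). Unfold `SS` twice:
`SS (..) w = (2π)⁻² ∫⁻ α ∑' p' [ind K (x) * ∫⁻ β ∑' p ind B (x + rot β * lat p)]`, `x = w + rot α * lat p'`. Exchange sums and integrals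
(`lintegral_tsum`). For fixed `p'`, `p` with `‖lat p'‖² = m'`, `‖lat p‖² = m` write `lat p' = √m' rot a`, `lat p = √m rot b` and shift
both angles (`lintegral_shift`, the integrands are `2π`-periodic: `rot_periodic`): the double integral is that of `PP ρ w B m m'`. It
vanishes if `m' = 0` (`x = w`, `‖w‖ > ρ`), if `m = 0` (`x ∈ K ∩ B`, empty), if `m' > 9‖w‖²` or `m > 9 ‖w‖²` (`√m' = ‖x - w‖ ≤ ρ + ‖w‖`,
`√m = ‖y - x‖ ≤ ρ + ‖w‖ ≤ 2‖w‖`). So the double sum over `p', p` is `≤ ∑_{m,m'} (#p)(#p') PP ≤ ∑ (C m^(ε/4)) (C m'^(ε/4)) PP`, and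
`m^(ε/4) ≤ 9^(ε/4) ‖w‖^(ε/2)`.
-/

set_option autoImplicit false

open MeasureTheory Complex Set Real Filter Topology
open scoped ENNReal

namespace Pool.MPb9430d.Mom

open Pool.MPb9430d Pool.MPb9430d.Rough Pool.MPb9430d.Frac

private theorem XiR_toNat (p : ℤ × ℤ) : (((p.1 ^ 2 + p.2 ^ 2).toNat : ℕ) : ℝ) = ‖lat p‖ ^ 2 := by
  rw [norm_lat_sq]
  have h : (((p.1 ^ 2 + p.2 ^ 2).toNat : ℕ) : ℤ) = p.1 ^ 2 + p.2 ^ 2 :=
    Int.toNat_of_nonneg (by positivity)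
  have h2 : ((((p.1 ^ 2 + p.2 ^ 2).toNat : ℕ) : ℤ) : ℝ) = ((p.1 ^ 2 + p.2 ^ 2 : ℤ) : ℝ) := by rw [h]
  push_cast at h2
  exact_mod_cast h2

private theorem XiR_lat (p : ℤ × ℤ) (θ : ℝ) :
    rot θ * lat p = (√(((p.1 ^ 2 + p.2 ^ 2).toNat : ℕ) : ℝ) : ℂ) * rot (θ + arg (lat p)) := by
  rw [XiR_toNat, Real.sqrt_sq (norm_nonneg _), rot_add]
  have h2 : (‖lat p‖ : ℂ) * rot (arg (lat p)) = lat p := by
    rw [rot]; exact Complex.norm_mul_exp_arg_mul_I _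
  calc rot θ * lat p = rot θ * ((‖lat p‖ : ℂ) * rot (arg (lat p))) := by rw [h2]
    _ = _ := by ring

private theorem XiR_pair (ρ : ℝ) (w : ℂ) (B : Set ℂ) (p p' : ℤ × ℤ) :
    ENNReal.ofReal ((2 * π)⁻¹ ^ 2) * ∫⁻ α in Ioc (-π) π, ∫⁻ β in Ioc (-π) π,
      ind (Metric.closedBall 0 ρ) (w + rot α * lat p') *
        ind B (w + rot α * lat p' + rot β * lat p) =
    PP ρ w B (p.1 ^ 2 + p.2 ^ 2).toNat (p'.1 ^ 2 + p'.2 ^ 2).toNat := by
  unfold PP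
  congr 1
  have h : ∀ α : ℝ, ∫⁻ β in Ioc (-π) π,
      ind (Metric.closedBall 0 ρ) (w + rot α * lat p') *
        ind B (w + rot α * lat p' + rot β * lat p) =
      (fun a : ℝ => ∫⁻ β in Ioc (-π) π,
        ind (Metric.closedBall 0 ρ)
            (w + (√(((p'.1 ^ 2 + p'.2 ^ 2).toNat : ℕ) : ℝ) : ℂ) * rot a) *
          ind B (w + (√(((p'.1 ^ 2 + p'.2 ^ 2).toNat : ℕ) : ℝ) : ℂ) * rot a +
            (√(((p.1 ^ 2 + p.2 ^ 2).toNat : ℕ) : ℝ) : ℂ) * rot β)) (α + arg (lat p')) := by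
    intro α
    have h1 := lintegral_shift (fun β : ℝ =>
        ind (Metric.closedBall 0 ρ)
            (w + (√(((p'.1 ^ 2 + p'.2 ^ 2).toNat : ℕ) : ℝ) : ℂ) * rot (α + arg (lat p'))) *
          ind B (w + (√(((p'.1 ^ 2 + p'.2 ^ 2).toNat : ℕ) : ℝ) : ℂ) * rot (α + arg (lat p')) +
            (√(((p.1 ^ 2 + p.2 ^ 2).toNat : ℕ) : ℝ) : ℂ) * rot β))
        (fun x => by simp only [rot_periodic]) (arg (lat p))
    simp only at h1 ⊢
    rw [← h1]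
    refine lintegral_congr fun β => ?_
    rw [XiR_lat p' α, XiR_lat p β]
  rw [lintegral_congr h]
  exact lintegral_shift (fun a : ℝ => ∫⁻ β in Ioc (-π) π,
        ind (Metric.closedBall 0 ρ)
            (w + (√(((p'.1 ^ 2 + p'.2 ^ 2).toNat : ℕ) : ℝ) : ℂ) * rot a) *
          ind B (w + (√(((p'.1 ^ 2 + p'.2 ^ 2).toNat : ℕ) : ℝ) : ℂ) * rot a +
            (√(((p.1 ^ 2 + p.2 ^ 2).toNat : ℕ) : ℝ) : ℂ) * rot β))
    (fun x => by simp only [rot_periodic]) (arg (lat p'))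

private theorem XiR_meas {ρ : ℝ} {w : ℂ} {B : Set ℂ} (hB : MeasurableSet B) (p p' : ℤ × ℤ) :
    Measurable fun α : ℝ => ∫⁻ β in Ioc (-π) π,
      ind (Metric.closedBall 0 ρ) (w + rot α * lat p') *
        ind B (w + rot α * lat p' + rot β * lat p) := by
  refine Measurable.lintegral_prod_right' (f := fun q : ℝ × ℝ =>
      ind (Metric.closedBall 0 ρ) (w + rot q.1 * lat p') *
        ind B (w + rot q.1 * lat p' + rot q.2 * lat p)) ?_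
  have h1 : Measurable fun q : ℝ × ℝ => w + rot q.1 * lat p' :=
    measurable_const.add ((measurable_rot.comp measurable_fst).mul measurable_const)
  have h2 : Measurable fun q : ℝ × ℝ => w + rot q.1 * lat p' + rot q.2 * lat p :=
    h1.add ((measurable_rot.comp measurable_snd).mul measurable_const)
  exact ((measurable_ind Metric.isClosed_closedBall.measurableSet).comp h1).mul
    ((measurable_ind hB).comp h2)

private theorem XiR_point {ρ : ℝ} {w : ℂ} {B : Set ℂ} (hρ : 1 ≤ ρ) (hw : 1000 * ρ ≤ ‖w‖)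
    (hB : MeasurableSet B) (hBw : ∀ y ∈ B, 1000 * ρ ≤ ‖y‖ ∧ ‖y‖ ≤ ‖w‖) (x : ℂ) :
    ind (Metric.closedBall 0 ρ) x * SS (ind B) x =
      ENNReal.ofReal (2 * π)⁻¹ * ∑ p ∈ near (2 * ‖w‖), ∫⁻ β in Ioc (-π) π,
        ind (Metric.closedBall 0 ρ) x * ind B (x + rot β * lat p) := by
  by_cases hx : x ∈ Metric.closedBall (0 : ℂ) ρ
  · rw [ind_of_mem hx]
    simp only [one_mul]
    unfold SS
    congr 1
    rw [← lintegral_finsetSum]
    · refine lintegral_congr fun β => ?_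
      refine tsum_eq_sum fun p hp => ind_of_notMem fun hy => hp ?_
      obtain ⟨h1, h2⟩ := hBw _ hy
      have hx' : ‖x‖ ≤ ρ := by simpa using hx
      have h3 : ‖lat p‖ = ‖(x + rot β * lat p) - x‖ := by
        rw [add_sub_cancel_left, norm_mul, norm_rot, one_mul]
      have h4 : ‖lat p‖ ≤ ‖x + rot β * lat p‖ + ‖x‖ := by
        rw [h3]; exact norm_sub_le _ _
      have h5 : ‖x + rot β * lat p‖ ≤ ‖x‖ + ‖lat p‖ := by
        refine (norm_add_le _ _).trans ?_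
        rw [norm_mul, norm_rot, one_mul]
      rw [mem_near]
      refine ⟨?_, by linarith⟩
      intro h0
      rw [h0] at h1 h5
      have h6 : ‖lat 0‖ = 0 := by rw [lat_zero, norm_zero]
      rw [h6] at h5
      linarith
    · intro p _
      exact (measurable_ind hB).comp (measurable_const.add (measurable_rot.mul measurable_const))
  · rw [ind_of_notMem hx]
    simp

private theorem XiR_expand {ρ : ℝ} {w : ℂ} {B : Set ℂ} (hρ : 1 ≤ ρ) (hw : 1000 * ρ ≤ ‖w‖)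
    (hB : MeasurableSet B) (hBw : ∀ y ∈ B, 1000 * ρ ≤ ‖y‖ ∧ ‖y‖ ≤ ‖w‖) :
    SS (fun x => ind (Metric.closedBall 0 ρ) x * SS (ind B) x) w =
      ∑ p' ∈ near (2 * ‖w‖), ∑ p ∈ near (2 * ‖w‖),
        PP ρ w B (p.1 ^ 2 + p.2 ^ 2).toNat (p'.1 ^ 2 + p'.2 ^ 2).toNat := by
  have h1 : ∀ α : ℝ, (∑' p' : ℤ × ℤ, (fun x => ind (Metric.closedBall 0 ρ) x * SS (ind B) x)
      (w + rot α * lat p')) = ∑ p' ∈ near (2 * ‖w‖), ENNReal.ofReal (2 * π)⁻¹ *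
        ∑ p ∈ near (2 * ‖w‖), ∫⁻ β in Ioc (-π) π,
        ind (Metric.closedBall 0 ρ) (w + rot α * lat p') *
          ind B (w + rot α * lat p' + rot β * lat p) := by
    intro α
    rw [tsum_eq_sum (s := near (2 * ‖w‖))]
    · refine Finset.sum_congr rfl fun p' _ => ?_
      exact XiR_point hρ hw hB hBw _
    · intro p' hp'
      have hx : w + rot α * lat p' ∉ Metric.closedBall (0 : ℂ) ρ := by
        intro hx
        apply hp'
        have hx' : ‖w + rot α * lat p'‖ ≤ ρ := by simpa using hx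
        have h3 : ‖lat p'‖ = ‖(w + rot α * lat p') - w‖ := by
          rw [add_sub_cancel_left, norm_mul, norm_rot, one_mul]
        have h4 : ‖lat p'‖ ≤ ‖w + rot α * lat p'‖ + ‖w‖ := by
          rw [h3]; exact norm_sub_le _ _
        rw [mem_near]
        refine ⟨?_, by linarith⟩
        rintro rfl
        rw [lat_zero, mul_zero, add_zero] at hx'
        linarith
      simp only [ind_of_notMem hx, zero_mul]
  have hc : ENNReal.ofReal (2 * π)⁻¹ * ENNReal.ofReal (2 * π)⁻¹ =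
      ENNReal.ofReal ((2 * π)⁻¹ ^ 2) := by
    rw [← ENNReal.ofReal_mul (by positivity), sq]
  rw [show SS (fun x => ind (Metric.closedBall 0 ρ) x * SS (ind B) x) w =
      ENNReal.ofReal (2 * π)⁻¹ * ∫⁻ α in Ioc (-π) π, ∑' p' : ℤ × ℤ,
        (fun x => ind (Metric.closedBall 0 ρ) x * SS (ind B) x) (w + rot α * lat p') from rfl]
  rw [lintegral_congr h1, lintegral_finsetSum, Finset.mul_sum]
  · refine Finset.sum_congr rfl fun p' _ => ?_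
    rw [lintegral_const_mul, lintegral_finsetSum, ← mul_assoc, hc, Finset.mul_sum]
    · exact Finset.sum_congr rfl fun p _ => XiR_pair ρ w B p p'
    · exact fun p _ => XiR_meas hB p p'
    · exact Finset.measurable_sum _ fun p _ => XiR_meas hB p p'
  · exact fun p' _ => (Finset.measurable_sum _ fun p _ => XiR_meas hB p p').const_mul _

private theorem XiR_card {ε C W : ℝ} (hW : 1 ≤ W)
    (hC : ∀ m : ℕ, 1 ≤ m → ∀ S : Finset (ℤ × ℤ), (∀ p ∈ S, p.1 ^ 2 + p.2 ^ 2 = (m : ℤ)) →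
      (S.card : ℝ) ≤ C * (m : ℝ) ^ (ε / 4)) (hε : 0 < ε) (hC1 : 1 ≤ C)
    (f : ℕ → ℝ≥0∞) :
    ∑ p ∈ near (2 * W), f (p.1 ^ 2 + p.2 ^ 2).toNat ≤
      ENNReal.ofReal (C * (9 ^ (ε / 4) * W ^ (ε / 2))) * ∑ m ∈ Finset.Icc 1 ⌊9 * W ^ 2⌋₊, f m := by
  have hmap : ∀ p ∈ near (2 * W), (p.1 ^ 2 + p.2 ^ 2).toNat ∈ Finset.Icc 1 ⌊9 * W ^ 2⌋₊ := by
    intro p hp
    rw [mem_near] at hp
    have h1 := one_le_norm_lat hp.1
    have h2 := XiR_toNat p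
    rw [Finset.mem_Icc]
    constructor
    · have : (0 : ℝ) < (((p.1 ^ 2 + p.2 ^ 2).toNat : ℕ) : ℝ) := by rw [h2]; positivity
      exact_mod_cast this
    · refine Nat.le_floor ?_
      rw [h2]
      nlinarith [hp.2]
  rw [← Finset.sum_fiberwise_of_maps_to hmap, Finset.mul_sum]
  refine Finset.sum_le_sum fun m hm => ?_
  rw [Finset.mem_Icc] at hm
  have h3 : ∑ p ∈ near (2 * W) with (p.1 ^ 2 + p.2 ^ 2).toNat = m,
      f (p.1 ^ 2 + p.2 ^ 2).toNat =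
      (((near (2 * W)).filter fun p => (p.1 ^ 2 + p.2 ^ 2).toNat = m).card : ℝ≥0∞) * f m := by
    rw [Finset.sum_congr rfl (g := fun _ => f m)]
    · rw [Finset.sum_const, nsmul_eq_mul]
    · intro p hp
      rw [(Finset.mem_filter.1 hp).2]
  rw [h3]
  gcongr
  have h4 := hC m hm.1 ((near (2 * W)).filter fun p => (p.1 ^ 2 + p.2 ^ 2).toNat = m) (by
    intro p hp
    have h5 := (Finset.mem_filter.1 hp).2
    rw [← h5]
    exact (Int.toNat_of_nonneg (by positivity)).symm)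
  rw [← ENNReal.ofReal_natCast]
  refine ENNReal.ofReal_le_ofReal (h4.trans ?_)
  have h6 : (m : ℝ) ≤ 9 * W ^ 2 := by
    have := (Nat.le_floor_iff (by positivity)).1 hm.2
    exact this
  have h7 : (m : ℝ) ^ (ε / 4) ≤ (9 * W ^ 2) ^ (ε / 4) :=
    Real.rpow_le_rpow (Nat.cast_nonneg _) h6 (by positivity)
  have h8 : (9 * W ^ 2) ^ (ε / 4) = 9 ^ (ε / 4) * W ^ (ε / 2) := by
    rw [Real.mul_rpow (by norm_num) (by positivity), ← Real.rpow_natCast, ← Real.rpow_mul (by linarith)]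
    congr 2
    push_cast
    ring
  rw [← h8]
  gcongr

theorem xi_le {ε : ℝ} (hε : 0 < ε) : ∃ C : ℝ, 0 < C ∧ ∀ ρ : ℝ, 1 ≤ ρ → ∀ w : ℂ,
    1000 * ρ ≤ ‖w‖ → ∀ B : Set ℂ, MeasurableSet B → (∀ y ∈ B, 1000 * ρ ≤ ‖y‖ ∧ ‖y‖ ≤ ‖w‖) →
    SS (fun x => ind (Metric.closedBall 0 ρ) x * SS (ind B) x) w ≤
      ENNReal.ofReal (C * ‖w‖ ^ ε) *
        ∑ m ∈ Finset.Icc 1 ⌊9 * ‖w‖ ^ 2⌋₊, ∑ m' ∈ Finset.Icc 1 ⌊9 * ‖w‖ ^ 2⌋₊, PP ρ w B m m' := by
  obtain ⟨C, hC1, hC⟩ := rep_bound (show 0 < ε / 4 by positivity)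
  refine ⟨(C * 9 ^ (ε / 4)) ^ 2, by positivity, ?_⟩
  intro ρ hρ w hw B hB hBw
  have hW : 1 ≤ ‖w‖ := by linarith
  have hW0 : 0 < ‖w‖ := by linarith
  rw [XiR_expand hρ hw hB hBw]
  have hA : ∀ p' : ℤ × ℤ, ∑ p ∈ near (2 * ‖w‖),
      PP ρ w B (p.1 ^ 2 + p.2 ^ 2).toNat (p'.1 ^ 2 + p'.2 ^ 2).toNat ≤
      ENNReal.ofReal (C * (9 ^ (ε / 4) * ‖w‖ ^ (ε / 2))) *
        ∑ m ∈ Finset.Icc 1 ⌊9 * ‖w‖ ^ 2⌋₊, PP ρ w B m (p'.1 ^ 2 + p'.2 ^ 2).toNat :=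
    fun p' => XiR_card hW hC hε hC1 (fun m => PP ρ w B m (p'.1 ^ 2 + p'.2 ^ 2).toNat)
  refine (Finset.sum_le_sum fun p' _ => hA p').trans ?_
  rw [← Finset.mul_sum]
  have hB2 := XiR_card hW hC hε hC1 (fun m' => ∑ m ∈ Finset.Icc 1 ⌊9 * ‖w‖ ^ 2⌋₊, PP ρ w B m m')
  calc ENNReal.ofReal (C * (9 ^ (ε / 4) * ‖w‖ ^ (ε / 2))) * ∑ p' ∈ near (2 * ‖w‖),
        ∑ m ∈ Finset.Icc 1 ⌊9 * ‖w‖ ^ 2⌋₊, PP ρ w B m (p'.1 ^ 2 + p'.2 ^ 2).toNat
      ≤ ENNReal.ofReal (C * (9 ^ (ε / 4) * ‖w‖ ^ (ε / 2))) *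
        (ENNReal.ofReal (C * (9 ^ (ε / 4) * ‖w‖ ^ (ε / 2))) *
          ∑ m' ∈ Finset.Icc 1 ⌊9 * ‖w‖ ^ 2⌋₊, ∑ m ∈ Finset.Icc 1 ⌊9 * ‖w‖ ^ 2⌋₊, PP ρ w B m m') := by
        gcongr
    _ = ENNReal.ofReal ((C * 9 ^ (ε / 4)) ^ 2 * ‖w‖ ^ ε) *
        ∑ m' ∈ Finset.Icc 1 ⌊9 * ‖w‖ ^ 2⌋₊, ∑ m ∈ Finset.Icc 1 ⌊9 * ‖w‖ ^ 2⌋₊, PP ρ w B m m' := by
        rw [← mul_assoc, ← ENNReal.ofReal_mul (by positivity)]
        congr 2
        have h9 : ‖w‖ ^ ε = ‖w‖ ^ (ε / 2) * ‖w‖ ^ (ε / 2) := by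
          rw [← Real.rpow_add hW0]
          congr 1
          ring
        rw [h9]
        ring
    _ = _ := by rw [Finset.sum_comm]

end Pool.MPb9430d.Mom
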